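import Pool.Agent.Lib.LC.Defs

/-! The almost everywhere filter of a finite dimensional real space. -/

set_option autoImplicit false

open Set Filter Topology Metric MeasureTheory
open scoped NNReal

noncomputable section

namespace Pool.Agent.Lib.LC

open Pool.Agent.Lib.LB

variable {E F G : Type} [NormedAddCommGroup E] [NormedSpace ℝ E] [FiniteDimensional ℝ E]
  [NormedAddCommGroup F] [NormedSpace ℝ F] [FiniteDimensional ℝ F]
  [NormedAddCommGroup G] [NormedSpace ℝ G] [FiniteDimensional ℝ G] {p : E → Prop}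

theorem aeF_eq [m : MeasurableSpace E] [h : BorelSpace E] (μ : Measure E) [μ.IsAddHaarMeasure] :
    aeF E = ae μ := by
  obtain rfl : m = borel E := h.measurable_eq
  let _ : MeasurableSpace E := borel E
  exact le_antisymm (Measure.absolutelyContinuous_isAddHaarMeasure _ _).ae_le
    (Measure.absolutelyContinuous_isAddHaarMeasure _ _).ae_le

theorem aeF_all {ι : Type} [Countable ι] {q : ι → E → Prop} (h : ∀ i, ∀ᶠ x in aeF E, q i x) :
    ∀ᶠ x in aeF E, ∀ i, q i x := by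
  borelize E
  rw [aeF_eq Measure.addHaar] at h ⊢
  exact ae_all_iff.2 h

theorem aeF_dense (h : ∀ᶠ x in aeF E, p x) : Dense {x | p x} := by
  borelize E
  rw [aeF_eq Measure.addHaar] at h
  exact Measure.dense_of_ae h

theorem aeF_ex (h : ∀ᶠ x in aeF E, p x) {O : Set E} (hO : IsOpen O) (hn : O.Nonempty) :
    ∃ x ∈ O, p x :=
  let ⟨x, h1, h2⟩ := (aeF_dense h).exists_mem_open hO hn
  ⟨x, h2, h1⟩

theorem aeF_closure {O S : Set E} (hO : IsOpen O) (h : ∀ᶠ x in aeF E, x ∈ O → x ∈ S) :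
    O ⊆ closure S := fun _ hx => _root_.mem_closure_iff.2 fun _ hW hw =>
  let ⟨y, h1, h2⟩ := aeF_ex h (hW.inter hO) ⟨_, hw, hx⟩
  ⟨y, h1.1, h2 h1.2⟩

theorem aeF_diff {f : E → F} {C : ℝ≥0} (hf : LipschitzWith C f) :
    ∀ᶠ x in aeF E, DifferentiableAt ℝ f x := by
  borelize E
  rw [aeF_eq Measure.addHaar]
  exact hf.ae_differentiableAt

theorem aeF_meas [MeasurableSpace E] [BorelSpace E] (h : ∀ᶠ x in aeF E, p x) :
    ∃ s, MeasurableSet s ∧ (∀ᶠ x in aeF E, x ∈ s) ∧ ∀ x ∈ s, p x := by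
  rw [aeF_eq Measure.addHaar] at h ⊢
  obtain ⟨t, h1, h2, h3⟩ := exists_measurable_superset_of_null h
  exact ⟨tᶜ, h2.compl, compl_mem_ae_iff.2 h3, fun x hx => not_not.1 fun n => hx (h1 n)⟩

theorem aeF_lin (L : E →ₗ[ℝ] F) (hL : Function.Surjective L) : Tendsto L (aeF E) (aeF F) := by
  borelize E F
  intro s hs
  obtain ⟨t, h1, h2, h3⟩ := aeF_meas (p := (· ∈ s)) hs
  rw [aeF_eq Measure.addHaar] at h2 ⊢
  exact ((ae_comp_linearMap_mem_iff L Measure.addHaar Measure.addHaar hL h1).2 h2).mono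
    fun x hx => h3 _ hx

theorem aeF_add (a : E) : Tendsto (fun x => a + x) (aeF E) (aeF E) := by
  borelize E
  rw [aeF_eq Measure.addHaar]
  exact (measurePreserving_add_left _ a).quasiMeasurePreserving.tendsto_ae

theorem aeF_prod {q : E × F → Prop} (h : ∀ᶠ z in aeF (E × F), q z) :
    ∀ᶠ x in aeF E, ∀ᶠ y in aeF F, q (x, y) := by
  borelize E F
  rw [aeF_eq ((Measure.addHaar : Measure E).prod (Measure.addHaar : Measure F))] at h
  rw [aeF_eq Measure.addHaar, aeF_eq Measure.addHaar]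
  exact Measure.ae_ae_of_ae_prod h

theorem aeF_of_prod [MeasurableSpace E] [BorelSpace E] [MeasurableSpace F] [BorelSpace F]
    {s : Set (E × F)} (hs : MeasurableSet s) (h : ∀ᶠ x in aeF E, ∀ᶠ y in aeF F, (x, y) ∈ s) :
    ∀ᶠ z in aeF (E × F), z ∈ s := by
  rw [aeF_eq ((Measure.addHaar : Measure E).prod (Measure.addHaar : Measure F))]
  rw [aeF_eq Measure.addHaar, aeF_eq Measure.addHaar] at h
  exact (Measure.ae_prod_mem_iff_ae_ae_mem hs).2 h

theorem aeF_swap [MeasurableSpace E] [BorelSpace E] [MeasurableSpace F] [BorelSpace F]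
    {s : Set (E × F)} (hs : MeasurableSet s) (h : ∀ᶠ x in aeF E, ∀ᶠ y in aeF F, (x, y) ∈ s) :
    ∀ᶠ y in aeF F, ∀ᶠ x in aeF E, (x, y) ∈ s :=
  aeF_prod (q := fun z : F × E => (z.2, z.1) ∈ s)
    (aeF_lin (LinearEquiv.prodComm ℝ F E).toLinearMap (LinearEquiv.surjective _) (aeF_of_prod hs h))

theorem aeF_ne [Nontrivial E] (a : E) : ∀ᶠ x in aeF E, x ≠ a := by
  borelize E
  rw [aeF_eq Measure.addHaar]
  exact compl_mem_ae_iff.2 (measure_singleton a)

/-- A polynomial map that vanishes almost everywhere on an open set is zero. -/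
theorem aeF_pl {H : Type} [NormedAddCommGroup H] [NormedSpace ℝ H] {f : E → H} (hf : Pl f)
    {O : Set E} (hO : IsOpen O) (hn : O.Nonempty) (h : ∀ᶠ x in aeF E, x ∈ O → f x = 0) (x : E) :
    f x = 0 :=
  hf.eq_zero hO hn (fun _ hy => (isClosed_eq hf.continuous continuous_const).closure_subset
    (aeF_closure (S := {y | f y = 0}) hO h hy)) x

end Pool.Agent.Lib.LC
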