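import Pool.Agent.Lib.LC.Basic

/-! Local Banach problem over the complex numbers: the touching tube. -/

set_option autoImplicit false

open Set Filter Topology Metric Module
open scoped ComplexInnerProductSpace

noncomputable section

namespace Pool.Agent.Lib.LC

open Pool.Agent.Lib.LB

namespace CV1

variable {V : Type} [NormedAddCommGroup V] [InnerProductSpace ℂ V]

/-- The core of the tube. -/
def core (ξ0 a b : V) (t : ℝ) : Set V := {z | ∃ m ∈ segment ℝ a b, ∃ u : ℂ, t ≤ u.re ∧ z = m + u • ξ0}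

theorem core_cv (ξ0 a b : V) (t : ℝ) : Convex ℝ (core ξ0 a b t) := by
  rintro _ ⟨m, hm, u, hu, rfl⟩ _ ⟨m', hm', u', hu', rfl⟩ α β hα hβ h1
  refine ⟨_, convex_segment a b hm hm' hα hβ h1, α * u + β * u', ?_, ?_⟩
  · rw [Complex.add_re, Complex.re_ofReal_mul, Complex.re_ofReal_mul]
    have := mul_le_mul_of_nonneg_left hu hα
    have := mul_le_mul_of_nonneg_left hu' hβ
    have : α * t + β * t = t := by rw [← add_mul, h1, one_mul]
    linarith
  · rw [add_smul, mul_smul, mul_smul, Complex.coe_smul, Complex.coe_smul]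
    module

theorem first {p d : V} (h : ∀ᶠ s in 𝓝[>] (0 : ℝ), ‖p‖ ≤ ‖p + s • d‖) : 0 ≤ (⟪d, p⟫).re := by
  have c : Tendsto (fun s : ℝ => 2 * (⟪d, p⟫).re + s * ‖d‖ ^ 2) (𝓝[>] 0) (𝓝 (2 * (⟪d, p⟫).re)) := by
    have h : Continuous fun s : ℝ => 2 * (⟪d, p⟫).re + s * ‖d‖ ^ 2 := by fun_prop
    simpa using (h.tendsto 0).mono_left nhdsWithin_le_nhds
  have := ge_of_tendsto c (b := 0) (by
    filter_upwards [h, self_mem_nhdsWithin] with s hs (s0 : 0 < s)
    have h1 := pow_le_pow_left₀ (norm_nonneg _) hs 2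
    rw [norm_add_sq (𝕜 := ℂ), inner_rr, norm_smul, Real.norm_of_nonneg s0.le, RCLike.re_to_complex,
      Complex.re_ofReal_mul, re_comm] at h1
    exact (mul_nonneg_iff_of_pos_left s0).1 (by nlinarith))
  linarith

end CV1

open CV1 in
theorem bCV1 (hOMP : St_OMP) : St_CV1 := by
  intro V _ _ _ ξ0 ρ Bd Γ a b h ha hb hN
  obtain ⟨o1, -, -, o4, -⟩ := hOMP V ξ0 ρ Bd Γ h
  obtain ⟨η, hη, far⟩ := h.far
  have := FiniteDimensional.proper_rclike ℂ V
  have cs : IsCompact (segment ℝ a b) := by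
    rw [segment_eq_image]
    exact isCompact_Icc.image (by fun_prop)
  obtain ⟨r, r0, r1, r2, r3⟩ : ∃ r > 0, closedBall a r ⊆ Om Bd ξ0 Γ ∧ closedBall b r ⊆ Om Bd ξ0 Γ ∧
      ∀ m ∈ segment ℝ a b, closedBall m r ⊆ Nn Bd ξ0 := by
    obtain ⟨s1, p1, q1⟩ := nhds_basis_closedBall.mem_iff.1 (o1.mem_nhds ha)
    obtain ⟨s2, p2, q2⟩ := nhds_basis_closedBall.mem_iff.1 (o1.mem_nhds hb)
    obtain ⟨s3, p3, q3⟩ := cs.exists_cthickening_subset_open (Nn_open h.fin ξ0) hN
    refine ⟨min s1 (min s2 s3), by positivity, (closedBall_subset_closedBall (min_le_left _ _)).trans q1,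
      (closedBall_subset_closedBall ((min_le_right _ _).trans (min_le_left _ _))).trans q2,
      fun m hm => (closedBall_subset_closedBall ((min_le_right _ _).trans (min_le_right _ _))).trans
        ((closedBall_subset_cthickening hm s3).trans q3)⟩
  obtain ⟨R, hR⟩ := cs.isBounded.exists_norm_le
  let A : Set (V × V × ℂ) := (segment ℝ a b ×ˢ closedBall 0 r ×ˢ closedBall 0 ((R + r) / η)) ∩
    {x | 0 ≤ x.2.2.re ∧ x.1 + x.2.2 • ξ0 - x.2.1 ∉ Γ}
  have cA : IsCompact A := (cs.prod ((isCompact_closedBall _ _).prod (isCompact_closedBall _ _))).inter_right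
    ((isClosed_le (f := fun _ => 0) (g := fun x : V × V × ℂ => x.2.2.re) continuous_const
      (by fun_prop)).inter (h.op.isClosed_compl.preimage
      (f := fun x : V × V × ℂ => x.1 + x.2.2 • ξ0 - x.2.1) (by fun_prop)))
  have mA : ∀ m ∈ segment ℝ a b, ∀ w : V, ‖w‖ ≤ r → ∀ u : ℂ, 0 ≤ u.re → m + u • ξ0 - w ∉ Γ →
      (m, w, u) ∈ A := fun m hm w hw u hu hn => by
    refine ⟨⟨hm, mem_closedBall_zero_iff.2 hw, mem_closedBall_zero_iff.2 ?_⟩, hu, hn⟩
    rw [le_div_iff₀' hη]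
    by_contra hlt
    have := far (m - w) u (((norm_sub_le _ _).trans (add_le_add (hR m hm) hw)).trans_lt (not_le.1 hlt))
    exact hn (by rwa [← add_sub_right_comm] at this)
  rcases A.eq_empty_or_nonempty with he | hne
  · refine Or.inl fun m hm => ⟨hN hm, fun u hu => by_contra fun hn => ?_⟩
    have := mA m hm 0 (by simpa using r0.le) u hu (by simpa using hn)
    rw [he] at this
    exact this
  right
  obtain ⟨⟨m, p, u⟩, ⟨⟨hm, hp, -⟩, hu, hn⟩, hmax⟩ :=
    cA.exists_isMaxOn hne (f := fun x => x.2.2.re) (by fun_prop)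
  simp only [mem_closedBall_zero_iff] at hm hp hu hn
  have sub : thickening r (core ξ0 a b u.re) ⊆ Om Bd ξ0 Γ := fun z hz => by
    obtain ⟨_, ⟨m', hm', u', hu', rfl⟩, hd⟩ := mem_thickening_iff.1 hz
    rw [dist_comm, dist_eq_norm] at hd
    have n1 : z ∈ Nn Bd ξ0 := by
      have := Nn_add (r3 m' hm' (show z - u' • ξ0 ∈ _ by
        rw [mem_closedBall', dist_eq_norm, ← sub_add, sub_add_eq_add_sub]
        exact hd.le)) u'
      rwa [sub_add_cancel] at this
    refine ⟨n1, fun v hv => by_contra fun hg => ?_⟩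
    have c1 : ContinuousAt (fun s : ℝ => ‖m' + u' • ξ0 - z + (s : ℂ) • ξ0‖) 0 := by fun_prop
    have h1 : ∀ᶠ s : ℝ in 𝓝 0, ‖m' + u' • ξ0 - z + (s : ℂ) • ξ0‖ < r :=
      c1.eventually (gt_mem_nhds (by simpa using hd))
    obtain ⟨s, hs, (s0 : 0 < s)⟩ := ((h1.filter_mono (nhdsWithin_le_nhds (s := Ioi 0))).and
      self_mem_nhdsWithin).exists
    have h2 : (u' + v + s).re ≤ u.re := hmax (mA m' hm' _ hs.le (u' + v + s) (by
      simp only [Complex.add_re, Complex.ofReal_re]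
      linarith) (by
      rwa [show m' + (u' + v + s) • ξ0 - (m' + u' • ξ0 - z + (s : ℂ) • ξ0) = z + v • ξ0 by module]))
    simp only [Complex.add_re, Complex.ofReal_re] at h2
    linarith
  have near : ∀ z ∈ core ξ0 a b u.re, r ≤ ‖z - (m + u • ξ0 - p)‖ := fun z hz => not_lt.1 fun hl => by
    have := (sub (mem_thickening_iff.2 ⟨z, hz, by rwa [dist_comm, dist_eq_norm]⟩)).2 0 le_rfl
    rw [zero_smul, add_zero] at this
    exact hn this
  have hr : ‖p‖ = r := le_antisymm hp (by simpa using near _ ⟨m, hm, u, le_rfl, rfl⟩)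
  have dir : ∀ d : V, (∀ᶠ s in 𝓝[>] (0 : ℝ), m + u • ξ0 + s • d ∈ core ξ0 a b u.re) →
      0 ≤ (⟪d, p⟫).re := fun d hd => first (hd.mono fun s hs => by
    have := near _ hs
    rwa [← hr, show m + u • ξ0 + s • d - (m + u • ξ0 - p) = p + s • d by abel] at this)
  have dir1 : ∀ c : ℂ, 0 ≤ c.re → 0 ≤ (⟪c • ξ0, p⟫).re := fun c hc => dir _ (by
    filter_upwards [self_mem_nhdsWithin] with s (s0 : 0 < s)
    refine ⟨m, hm, u + s * c, ?_, by rw [add_smul, mul_smul, Complex.coe_smul, add_assoc]⟩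
    rw [Complex.add_re, Complex.re_ofReal_mul]
    linarith [mul_nonneg s0.le hc])
  have dir2 : ∀ x ∈ segment ℝ a b, 0 ≤ (⟪x - m, p⟫).re := fun x hx => dir _ (by
    filter_upwards [Ioo_mem_nhdsGT (zero_lt_one' ℝ)] with s hs
    refine ⟨m + s • (x - m), ?_, u, le_rfl, by abel⟩
    exact (convex_segment a b).add_smul_sub_mem hm hx ⟨hs.1.le, hs.2.le⟩)
  have om : ∀ x, closedBall x r ⊆ Om Bd ξ0 Γ → x - p + u • ξ0 ∈ Om Bd ξ0 Γ := fun x hx =>
    o4 _ (hx (by rw [mem_closedBall_iff_norm, sub_sub_cancel_left, norm_neg]; exact hp)) u hu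
  have ne : ∀ x, closedBall x r ⊆ Om Bd ξ0 Γ → m ≠ x := fun x hx e => by
    have := (om x hx).2 0 le_rfl
    rw [zero_smul, add_zero, ← e, ← add_sub_right_comm] at this
    exact hn this
  have bl : ∀ z ∈ core ξ0 a b u.re, ball z ‖p‖ ⊆ thickening r (core ξ0 a b u.re) := fun z hz => by
    rw [hr]
    exact ball_subset_thickening hz r
  refine ⟨thickening r (core ξ0 a b u.re), m + u • ξ0 - p, p, a - p + u • ξ0, isOpen_thickening,
    (core_cv ξ0 a b u.re).thickening r, sub, fun z hz v hv => ?_, ?_, hn,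
    norm_pos_iff.1 (hr ▸ r0), ?_, om a r1, ?_, ?_, ?_, by simpa using dir1 1 (by simp)⟩
  · obtain ⟨_, ⟨m', hm', u', hu', rfl⟩, hd⟩ := mem_thickening_iff.1 hz
    refine mem_thickening_iff.2 ⟨_, ⟨m', hm', u' + v, by rw [Complex.add_re]; linarith, rfl⟩, ?_⟩
    rwa [add_smul, ← add_assoc, dist_add_right]
  · rw [add_sub_right_comm]
    exact Nn_add (r3 m hm (by rw [mem_closedBall_iff_norm, sub_sub_cancel_left, norm_neg]; exact hp)) u
  · rw [sub_add_cancel]
    exact bl _ ⟨m, hm, u, le_rfl, rfl⟩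
  · exact bl _ ⟨a, left_mem_segment _ _ _, u, le_rfl, by abel⟩
  · rw [show a - p + u • ξ0 - (m + u • ξ0 - p) = a - m by abel]
    have h1 := dir2 a (left_mem_segment _ _ _)
    have h2 := dir2 b (right_mem_segment _ _ _)
    obtain ⟨α, β, hα, hβ, h3, e⟩ := hm
    have h4 : α • (a - m) + β • (b - m) = 0 := by
      rw [smul_sub, smul_sub, sub_add_sub_comm, ← add_smul, h3, one_smul, e, sub_self]
    have h5 : α * (⟪a - m, p⟫).re + β * (⟪b - m, p⟫).re = 0 := by
      rw [← Complex.re_ofReal_mul, ← Complex.re_ofReal_mul, ← inner_rl, ← inner_rl, ← Complex.add_re,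
        ← inner_add_left, h4, inner_zero_left, Complex.zero_re]
    have h6 : 0 < α := lt_of_le_of_ne hα fun h0 => ne b r2 (by
      rw [← h0, zero_add] at h3
      rw [← e, ← h0, h3, zero_smul, zero_add, one_smul])
    refine le_antisymm (not_lt.1 fun hl => ?_) h1
    linarith [mul_pos h6 hl, mul_nonneg hβ h2]
  · have h1 := dir1 Complex.I (by simp)
    have h2 := dir1 (-Complex.I) (by simp)
    rw [inner_smul_left] at h1 h2
    simp at h1 h2
    linarith

end Pool.Agent.Lib.LC
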