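import Pool.Agent.Lib.LC.Basic

/-! Local Banach problem over the complex numbers: a tube cannot touch the singular set. -/

set_option autoImplicit false

open Set Filter Topology Metric Module
open scoped ComplexInnerProductSpace

noncomputable section

namespace Pool.Agent.Lib.LC

open Pool.Agent.Lib.LB

namespace CV2

variable {V : Type} [NormedAddCommGroup V] [InnerProductSpace ℂ V]

theorem normal {p y : V} (hp : p ≠ 0) (h : ∀ w, ‖w‖ < ‖p‖ → 0 ≤ (⟪p + w, y⟫).re) :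
    ∃ c : ℂ, y = c • p := by
  by_cases hy : y = 0
  · exact ⟨0, by rw [hy, zero_smul]⟩
  have p0 : 0 < ‖p‖ := norm_pos_iff.2 hp
  have y0 : 0 < ‖y‖ := norm_pos_iff.2 hy
  have h1 : ‖p‖ * ‖y‖ ≤ (⟪p, y⟫).re := le_of_forall_lt_imp_le_of_dense fun t ht => by
    rcases le_or_gt t 0 with t0 | t0
    · simpa using t0.trans (h 0 (by simpa using p0))
    have h2 := h (-(t / ‖y‖ ^ 2) • y) (by
      rw [norm_smul, norm_neg, Real.norm_of_nonneg (by positivity), div_mul_eq_mul_div,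
        div_lt_iff₀ (by positivity)]
      nlinarith)
    rw [inner_add_left, Complex.add_re, inner_rl, Complex.re_ofReal_mul, inner_sq_re, neg_mul,
      div_mul_cancel₀ _ (by positivity)] at h2
    linarith
  have h2 : ‖‖p‖ • y - ‖y‖ • p‖ ^ 2 ≤ 0 := by
    rw [norm_sub_sq (𝕜 := ℂ), inner_rl, inner_rr, RCLike.re_to_complex, Complex.re_ofReal_mul,
      Complex.re_ofReal_mul, norm_smul, norm_smul, norm_norm, norm_norm, re_comm]
    nlinarith [mul_le_mul_of_nonneg_left h1 (mul_pos p0 y0).le]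
  have h3 : ‖p‖ • y = ‖y‖ • p := sub_eq_zero.1 (norm_eq_zero.1 (pow_eq_zero_iff two_ne_zero |>.1
    (le_antisymm h2 (sq_nonneg _))))
  refine ⟨(‖p‖⁻¹ * ‖y‖ : ℝ), ?_⟩
  rw [Complex.coe_smul, mul_smul, ← h3, inv_smul_smul₀ p0.ne']

end CV2

theorem bCV2 (hKER : St_KER) (hOMP : St_OMP) : St_CV2 := by
  intro V _ _ _ Φ ξ0 ρ Bd Γ H Ω ζ p a h3 hΦ hD T
  obtain ⟨-, o2, -, o4, -⟩ := hOMP V ξ0 ρ Bd Γ hD.gm
  have p0 : 0 < ‖p‖ := norm_pos_iff.2 T.p0
  have hcl : ζ ∈ closure Ω := closure_mono T.b1 (by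
    rw [closure_ball _ p0.ne', mem_closedBall_iff_norm, sub_add_cancel_left, norm_neg])
  obtain ⟨hp, π, cp, -, hπ⟩ := hKER V Φ ξ0 ρ Bd Γ H Ω ζ p h3 hΦ hD T.op T.cv (T.sub.trans o2) hcl
    (Nn_nb T.nn) T.ng fun y hy h => CV2.normal T.p0 fun w hw => by
      have := h (ζ + p + w) (T.b1 (by rwa [mem_ball_iff_norm, add_sub_cancel_left]))
      rwa [add_assoc, inner_add_left, hy, zero_add] at this
  have πp : π p = 0 := by simpa using hπ 1
  have val : ∀ y, ⟪ζ, y⟫ = 0 → ∀ s : ℝ, ∀ ξ ∈ Ω, ⟪ξ, p + s • y⟫ = 0 →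
      Φ (H ξ (p + s • y)) = Φ (s • π y) := fun y hy s ξ hξ e => by
    rw [← cp.t1 ξ hξ _ e (by rw [inner_add_right, inner_rr, hp, hy, mul_zero, add_zero]), map_add,
      πp, zero_add, map_smul]
  have lim : ∀ z : V, Tendsto (fun s : ℝ => Φ (s • z)) (𝓝[>] 0) (𝓝 0) := fun z => by
    have h : Continuous fun s : ℝ => Φ (s • z) := (snm_cont Φ).comp (by fun_prop)
    simpa using (h.tendsto 0).mono_left nhdsWithin_le_nhds
  have lx : ∀ y : V, Tendsto (fun s : ℝ => p + s • y) (𝓝[>] 0) (𝓝 p) := fun y => by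
    have h : Continuous fun s : ℝ => p + s • y := by fun_prop
    simpa using (h.tendsto 0).mono_left nhdsWithin_le_nhds
  obtain ⟨κ, hκ, κ0⟩ : ∃ κ : ℝ, ⟪ξ0, p⟫ = κ ∧ 0 ≤ κ :=
    ⟨_, Complex.ext rfl (by rw [T.k1, Complex.ofReal_im]), T.k2⟩
  rcases κ0.eq_or_lt with rfl | κ0
  · have n0 : ((‖p‖ ^ 2 : ℝ) : ℂ) ≠ 0 := Complex.ofReal_ne_zero.2 (by positivity)
    obtain ⟨y, y1, y2⟩ := exists_val (a := ξ0) (c := ζ) (fun t e => by
      have t0 : t ≠ 0 := fun h => hD.gm.nb.1 (by rw [e, h, zero_smul])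
      exact Nn_ne T.nn t⁻¹ (by rw [e, inv_smul_smul₀ t0])) (-(‖p‖ ^ 2 : ℝ))
    obtain ⟨η, hη, d0⟩ := hD.d0
    obtain ⟨β, hβ⟩ : ∃ β : ℂ, starRingEnd ℂ β * (‖p‖ ^ 2 : ℝ) = ⟪p, y⟫ :=
      ⟨starRingEnd ℂ (⟪p, y⟫ / (‖p‖ ^ 2 : ℝ)), by rw [Complex.conj_conj, div_mul_cancel₀ _ n0]⟩
    have ev : ∀ᶠ s : ℝ in 𝓝[>] 0, Φ (p + s • y) = Φ (s • π y) := by
      filter_upwards [tendsto_inv_nhdsGT_zero.eventually_ge_atTop (-β.re),
        tendsto_inv_nhdsGT_zero.eventually_gt_atTop (‖ζ + p + β • ξ0‖ / η), self_mem_nhdsWithin]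
        with s h1 h2 (s0 : 0 < s)
      have m1 : ζ + p + (((s⁻¹ : ℝ) : ℂ) + β) • ξ0 ∈ Ω := T.ad _ (T.b1 (mem_ball_self p0)) _ (by
        rw [Complex.add_re, Complex.ofReal_re]
        linarith)
      have e : ⟪ζ + p + (((s⁻¹ : ℝ) : ℂ) + β) • ξ0, p + s • y⟫ = 0 := by
        have s1 : (s : ℂ) ≠ 0 := Complex.ofReal_ne_zero.2 s0.ne'
        simp only [inner_add_left, inner_add_right, inner_smul_left, inner_rr, hp, y1, hκ, y2,
          inner_sq p, ← hβ, map_add, Complex.conj_ofReal, Complex.ofReal_inv, map_inv₀,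
          Complex.ofReal_zero]
        field_simp
        ring
      rw [← val y y1 s _ m1 e]
      refine (d0 s⁻¹ (inv_pos.2 s0) _ ?_ _ e).symm
      rw [add_smul, Complex.coe_smul, show ζ + p + (s⁻¹ • ξ0 + β • ξ0) - s⁻¹ • ξ0 = ζ + p + β • ξ0 by abel]
      exact (div_lt_iff₀' hη).1 h2
    exact T.p0 (hΦ p (tendsto_nhds_unique (((snm_cont Φ).tendsto p).comp (lx y))
      ((lim (π y)).congr' (ev.mono fun s hs => hs.symm))))
  have κ1 : (κ : ℂ) ≠ 0 := Complex.ofReal_ne_zero.2 κ0.ne'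
  obtain ⟨u, u0, ua⟩ : ∃ u : ℂ, u.re = 0 ∧ ⟪a + u • ξ0, p⟫ = 0 := by
    have h1 := T.ap
    rw [inner_sub_left, hp, sub_zero] at h1
    refine ⟨-(starRingEnd ℂ ⟪a, p⟫ / κ), by
      rw [Complex.neg_re, Complex.div_ofReal_re, Complex.conj_re, h1, zero_div, neg_zero], ?_⟩
    rw [inner_add_left, inner_smul_left, hκ, map_neg, map_div₀, Complex.conj_conj, Complex.conj_ofReal,
      neg_mul, div_mul_cancel₀ _ κ1, add_neg_cancel]
  have am := o4 a T.am u u0.ge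
  obtain ⟨y, y1, y2⟩ := exists_val (a := a + u • ξ0) (c := ζ) (fun t e => by
    have t0 : t ≠ 0 := fun h => (Nn_nb am.1).1 (by rw [e, h, zero_smul])
    have := hD.gm.sc _ (star_self (o2 am)) _ (inv_ne_zero t0)
    rw [e, inv_smul_smul₀ t0] at this
    exact T.ng this) (-1)
  let c : ℝ → ℂ := fun s => s / starRingEnd ℂ (κ + s * ⟪ξ0, y⟫)
  have c1 : Tendsto (fun s : ℝ => starRingEnd ℂ (κ + s * ⟪ξ0, y⟫)) (𝓝[>] 0) (𝓝 κ) := by
    have h : Continuous fun s : ℝ => starRingEnd ℂ (κ + s * ⟪ξ0, y⟫) := by fun_prop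
    simpa using (h.tendsto 0).mono_left nhdsWithin_le_nhds
  have c0 : Tendsto c (𝓝[>] 0) (𝓝 0) := by
    have h : Tendsto (fun s : ℝ => (s : ℂ)) (𝓝[>] 0) (𝓝 0) := by
      simpa using (Complex.continuous_ofReal.tendsto 0).mono_left nhdsWithin_le_nhds
    have h1 := h.div c1 κ1
    rwa [zero_div] at h1
  have c2 : Tendsto (fun s => (c s).re * ‖ξ0‖ ^ 2) (𝓝[>] 0) (𝓝 0) := by
    simpa using ((Complex.continuous_re.tendsto 0).comp c0).mul_const (‖ξ0‖ ^ 2)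
  have ev : ∀ᶠ s : ℝ in 𝓝[>] 0, Φ (s • π y) = Φ (H (a + u • ξ0 + c s • ξ0) (p + s • y)) := by
    filter_upwards [((Complex.continuous_re.tendsto _).comp c1).eventually
      (lt_mem_nhds (show 0 < (κ : ℂ).re from κ0)), c2.eventually (gt_mem_nhds κ0), self_mem_nhdsWithin]
      with s (h1 : 0 < (starRingEnd ℂ (κ + s * ⟪ξ0, y⟫)).re) h2 (s0 : 0 < s)
    have h3 : starRingEnd ℂ (κ + s * ⟪ξ0, y⟫) ≠ 0 := fun h => by simp [h] at h1
    have h4 : 0 < (c s).re := by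
      rw [show c s = s * (starRingEnd ℂ (κ + s * ⟪ξ0, y⟫))⁻¹ from div_eq_mul_inv _ _,
        Complex.re_ofReal_mul, Complex.inv_re]
      exact mul_pos s0 (div_pos h1 (Complex.normSq_pos.2 h3))
    have m1 : a + (c s).re • ξ0 ∈ Ω := T.b2 (by
      rw [mem_ball_iff_norm, add_sub_add_left_eq_sub]
      refine lt_of_pow_lt_pow_left₀ 2 p0.le ?_
      rw [norm_sub_sq (𝕜 := ℂ), inner_rl, hκ, RCLike.re_to_complex, Complex.re_ofReal_mul,
        Complex.ofReal_re, norm_smul, Real.norm_of_nonneg h4.le]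
      nlinarith [mul_pos h4 κ0, mul_lt_mul_of_pos_left h2 h4])
    have m2 := T.ad _ m1 (u + c s - (c s).re) (by simp [u0])
    rw [show a + (c s).re • ξ0 + (u + c s - (c s).re) • ξ0 = a + u • ξ0 + c s • ξ0 by
      rw [← Complex.coe_smul]; module] at m2
    refine (val y y1 s _ m2 ?_).symm
    rw [inner_add_left, inner_smul_left, inner_add_right, inner_add_right, inner_rr, inner_rr, ua, y2, hκ,
      map_div₀, Complex.conj_conj, Complex.conj_ofReal,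
      div_mul_cancel₀ _ fun h => h3 (by rw [h, map_zero])]
    ring
  have l1 : Tendsto (fun s => a + u • ξ0 + c s • ξ0) (𝓝[>] 0) (𝓝 (a + u • ξ0)) := by
    simpa using (c0.smul_const ξ0).const_add (a + u • ξ0)
  have l2 := (isBoundedBilinearMap_apply.continuous.tendsto (H (a + u • ξ0), p)).comp
    (((hD.co _ (o2 am)).tendsto.comp l1).prodMk_nhds (lx y))
  exact unit_ne (hD.un _ (o2 am)) T.p0 (hΦ _ (tendsto_nhds_unique (((snm_cont Φ).tendsto _).comp l2)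
    ((lim (π y)).congr' ev)))

end Pool.Agent.Lib.LC
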