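import Pool.Agent.Lib.LC.Blue

/-! Row CY1: the cylinder direction works on a uniform cone. -/

set_option autoImplicit false

open Set Filter Topology Metric

noncomputable section

namespace Pool.Agent.Lib.LC

universe u v

section

variable {E : Type u} {V : Type v} [NormedAddCommGroup E] [NormedSpace ℂ E] [NormedAddCommGroup V]
  [NormedSpace ℂ V] {T : E →L[ℂ] V}

theorem Cz.zero (T : E →L[ℂ] V) : Cz T 0 := ⟨1, one_pos, fun x s _ => by simp⟩

theorem Cz.smul {z : V} (h : Cz T z) (c : ℂ) : Cz T (c • z) := by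
  obtain ⟨ε, hε, h⟩ := h
  refine ⟨ε / (‖c‖ + 1), by positivity, fun x s hs => ?_⟩
  rw [smul_smul]
  refine h x _ ?_
  rw [div_mul_eq_mul_div, le_div_iff₀ (by positivity)] at hs
  rw [norm_mul]
  nlinarith [norm_nonneg s]

theorem Cz.add {z w : V} (h : Cz T z) (h' : Cz T w) : Cz T (z + w) := by
  obtain ⟨ε, hε, h⟩ := h.smul 2
  obtain ⟨ε', hε', h'⟩ := h'.smul 2
  have up : ∀ (x : E) (s : ℂ), ‖s‖ ≤ min ε ε' * ‖x‖ → ‖T x + s • (z + w)‖ ≤ ‖T x‖ := fun x s hs => by
    have a1 := h x s (hs.trans (mul_le_mul_of_nonneg_right (min_le_left _ _) (norm_nonneg _)))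
    have a2 := h' x s (hs.trans (mul_le_mul_of_nonneg_right (min_le_right _ _) (norm_nonneg _)))
    have e : (2 : ℂ) • (T x + s • (z + w)) = (T x + s • (2 : ℂ) • z) + (T x + s • (2 : ℂ) • w) := by
      module
    have a3 := norm_add_le (T x + s • (2 : ℂ) • z) (T x + s • (2 : ℂ) • w)
    rw [← e, norm_smul, Complex.norm_ofNat] at a3
    linarith
  refine ⟨min ε ε', lt_min hε hε', fun x s hs => le_antisymm (up x s hs) ?_⟩
  have a1 := up x (-s) (by rwa [norm_neg])
  have e : (2 : ℂ) • T x = (T x + s • (z + w)) + (T x + (-s) • (z + w)) := by module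
  have a3 := norm_add_le (T x + s • (z + w)) (T x + (-s) • (z + w))
  rw [← e, norm_smul, Complex.norm_ofNat] at a3
  linarith

theorem Cz.min {z : V} (h : Cz T z) (x : E) : ‖T x‖ ≤ ‖T x + z‖ := by
  obtain ⟨ε, hε, h⟩ := h
  by_cases hx : x = 0
  · simp [hx]
  have hs : 0 < ε * ‖x‖ := mul_pos hε (norm_pos_iff.2 hx)
  generalize ht : ε * ‖x‖ = t at hs
  have a1 := h x (-t) (by rw [norm_neg, Complex.norm_of_nonneg hs.le, ht])
  have e : ((1 + t : ℝ) : ℂ) • T x = (T x + (-(t : ℂ)) • z) + (t : ℂ) • (T x + z) := by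
    push_cast
    module
  have a3 := norm_add_le (T x + (-(t : ℂ)) • z) ((t : ℂ) • (T x + z))
  rw [← e, norm_smul, norm_smul, Complex.norm_of_nonneg hs.le,
    Complex.norm_of_nonneg (by linarith), a1] at a3
  nlinarith

theorem Cz.eq_zero {u : E} (h : Cz T (T u)) : T u = 0 := by
  have := h.min (-u)
  rw [map_neg, neg_add_cancel, norm_zero, norm_neg] at this
  exact norm_le_zero_iff.1 this

theorem CY1.shear {S : E →L[ℂ] V} {l : E →L[ℂ] ℂ} {u x : E} {δ δ' : ℝ} (hδ : δ ≠ 0) (hδ' : δ' ≠ 0)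
    (h2 : δ ≠ δ') (hx : l x = 1) (h : ∀ y, ‖S (y - (δ * l y) • u)‖ = ‖S y‖)
    (h' : ∀ y, ‖S (y - (δ' * l y) • u)‖ = ‖S y‖) : S u = 0 := by
  by_contra hu
  have hu' : 0 < ‖S u‖ := norm_pos_iff.2 hu
  have k : ∀ d : ℝ, d ≠ 0 → ‖S (u - (d * l u) • u)‖ = ‖S u‖ →
      d * Complex.normSq (l u) = 2 * (l u).re := fun d hd h1 => by
    rw [show u - (d * l u) • u = (1 - d * l u) • u by module, map_smul, norm_smul,
      mul_eq_right₀ hu'.ne'] at h1
    have h3 := Complex.normSq_eq_norm_sq (1 - d * l u)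
    rw [h1, Complex.normSq_apply] at h3
    simp only [Complex.sub_re, Complex.sub_im, Complex.one_re, Complex.one_im, Complex.re_ofReal_mul,
      Complex.im_ofReal_mul] at h3
    refine mul_left_cancel₀ hd ?_
    rw [Complex.normSq_apply]
    linarith
  have h3 : l u = 0 := Complex.normSq_eq_zero.1 (by_contra fun h4 =>
    h2 (mul_right_cancel₀ h4 ((k δ hδ (h u)).trans (k δ' hδ' (h' u)).symm)))
  have h4 : ∀ k : ℕ, ‖S (x - ((k : ℂ) * δ) • u)‖ = ‖S x‖ := fun k => by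
    induction k with
    | zero => simp
    | succ k ih =>
      rw [← ih, ← h (x - ((k : ℂ) * δ) • u)]
      simp only [map_sub l, map_smul l, hx, h3, smul_zero, sub_zero, mul_one]
      congr 2
      push_cast
      module
  obtain ⟨k, hk⟩ := exists_nat_gt (2 * ‖S x‖ / (|δ| * ‖S u‖))
  have h5 := h4 k
  rw [map_sub, map_smul] at h5
  have h6 := norm_sub_norm_le (((k : ℂ) * δ) • S u) (S x)
  rw [norm_sub_rev, h5, norm_smul, norm_mul, Complex.norm_natCast, Complex.norm_real,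
    Real.norm_eq_abs] at h6
  rw [div_lt_iff₀ (mul_pos (abs_pos.2 hδ) hu')] at hk
  linarith

end

open CY1 in
theorem bCY1 : St_CY1.{u, v} := by
  intro E V _ _ _ _ T r H z hz x hx
  have hx0 : 0 < ‖x‖ := norm_pos_iff.2 fun h => by
    rw [h, norm_zero, mul_zero] at hx
    exact absurd hx (not_lt.2 (norm_nonneg z))
  by_cases hz0 : z = 0
  · rw [hz0, add_zero]
  obtain ⟨l0, hl1, hl2⟩ := exists_dual_vector ℂ x hx0.ne'
  obtain ⟨l, hlx, hl⟩ : ∃ l : E →L[ℂ] ℂ, l x = 1 ∧ ∀ y, ‖l y‖ ≤ ‖x‖⁻¹ * ‖y‖ := by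
    refine ⟨((‖x‖⁻¹ : ℝ) : ℂ) • l0, by simp [hl2, hx0.ne'], fun y => ?_⟩
    have := l0.le_opNorm y
    rw [hl1, one_mul] at this
    rw [smul_apply, smul_eq_mul, norm_mul, Complex.norm_of_nonneg (inv_pos.2 hx0).le]
    exact mul_le_mul_of_nonneg_left this (inv_pos.2 hx0).le
  set S : ℝ → E →L[ℂ] V := fun s => T + (s : ℂ) • l.smulRight z with hS
  have hSy : ∀ s y, S s y = T y + (s * l y) • z := fun s y => by simp [hS, mul_smul]
  have hSS : ∀ s s' y, S s' y = S s y + ((s' - s : ℝ) * l y) • z := fun s s' y => by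
    rw [hSy, hSy]; push_cast; module
  have hn : ∀ (s : ℝ) y, ‖s * l y‖ = |s| * ‖l y‖ := fun s y => by
    rw [norm_mul, Complex.norm_real, Real.norm_eq_abs]
  have hr : ∀ s ∈ Icc (0 : ℝ) 1, ‖S s - T‖ < r := fun s hs => by
    refine lt_of_le_of_lt (ContinuousLinearMap.opNorm_le_bound _ (M := ‖x‖⁻¹ * ‖z‖)
      (by positivity) fun y => ?_) (by rwa [inv_mul_lt_iff₀ hx0, mul_comm])
    rw [sub_apply, hSy, add_sub_cancel_left, norm_smul, hn, abs_of_nonneg hs.1,
      mul_right_comm ‖x‖⁻¹]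
    exact mul_le_mul_of_nonneg_right ((mul_le_of_le_one_left (norm_nonneg _) hs.2).trans (hl y))
      (norm_nonneg z)
  have hT : Function.Injective T := by simpa [hS] using (H _ (hr 0 ⟨le_rfl, zero_le_one⟩)).1
  have hzT : ∀ s y, S s y ≠ z := fun s y h => by
    have h1 : T y = (1 - s * l y) • z := by
      rw [sub_smul, one_smul, eq_sub_iff_add_eq, ← hSy, h]
    have h2 : T y = 0 := Cz.eq_zero (h1 ▸ hz.smul _)
    rw [hT (h2.trans (map_zero T).symm), map_zero] at h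
    exact hz0 h.symm
  have key : Icc (0 : ℝ) 1 ⊆ {s | Cz (S s) z ∧ ∀ y, ‖S s y‖ = ‖T y‖} := by
    refine IsClosed.Icc_subset_of_forall_exists_gt (isClosed_of_closure_subset fun s hs => ?_)
      ⟨by simpa [hS] using hz, fun y => by simp [hS]⟩ ?_
    · have hI : s ∈ Icc (0 : ℝ) 1 := isClosed_Icc.closure_subset (closure_mono inter_subset_right hs)
      have hN : ∀ y, ‖S s y‖ = ‖T y‖ := fun y => by
        have hc : IsClosed {s : ℝ | ‖T y + (s * l y) • z‖ = ‖T y‖} :=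
          isClosed_eq (by fun_prop) continuous_const
        rw [hSy]
        exact hc.closure_subset (closure_mono (fun s' hs' => by
          simpa only [mem_ofPred_eq, ← hSy] using hs'.1.2 y) hs)
      refine ⟨⟨?_, hN⟩, hI⟩
      obtain ⟨u, ε, hε, hu⟩ := (H _ (hr s hI)).2 z (hzT s)
      have st : ∀ s' : ℝ, (∀ y, ‖S s' y‖ = ‖T y‖) →
          dist s s' < ‖x‖ * min (ε / 2) (1 / (2 * ‖u‖ + 1)) →
          ∀ y, ‖S s (y - ((s' - s : ℝ) * l y) • u)‖ = ‖S s y‖ := fun s' h2 h3 y => by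
        have h4 : ‖(s' - s : ℝ) * l y‖ ≤ min (ε / 2) (1 / (2 * ‖u‖ + 1)) * ‖y‖ := by
          rw [hn, abs_sub_comm, ← Real.dist_eq]
          refine (mul_le_mul h3.le (hl y) (norm_nonneg _) (by positivity)).trans (le_of_eq ?_)
          field_simp
        have h5 : ‖(s' - s : ℝ) * l y‖ * ‖u‖ ≤ ‖y‖ / 2 := by
          have h6 := h4.trans (mul_le_mul_of_nonneg_right (min_le_right _ _) (norm_nonneg y))
          rw [one_div, inv_mul_eq_div, le_div_iff₀ (by positivity)] at h6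
          linarith [norm_nonneg ((s' - s : ℝ) * l y)]
        rw [hN y, ← h2 y, hSS s s' y, ← hu (y - ((s' - s : ℝ) * l y) • u) ((s' - s : ℝ) * l y)]
        · congr 1
          rw [map_sub, map_smul]
          module
        · have h6 := h4.trans (mul_le_mul_of_nonneg_right (min_le_left _ _) (norm_nonneg y))
          have h7 := norm_sub_norm_le y (((s' - s : ℝ) * l y) • u)
          rw [norm_smul] at h7
          nlinarith [h5]
      obtain ⟨s', ⟨⟨h1, h2⟩, -⟩, h3⟩ := Metric.mem_closure_iff.1 hs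
        (‖x‖ * min (ε / 2) (1 / (2 * ‖u‖ + 1))) (by positivity)
      by_cases e : s' - s = 0
      · rwa [← sub_eq_zero.1 e]
      obtain ⟨s'', ⟨⟨h1', h2'⟩, -⟩, h3'⟩ := Metric.mem_closure_iff.1 hs (dist s s')
        (dist_pos.2 (sub_ne_zero.1 e).symm)
      by_cases e' : s'' - s = 0
      · rwa [← sub_eq_zero.1 e']
      have h6 : S s u = 0 := shear e e' (l := l) (x := x)
        (fun k => h3'.ne (by rw [sub_left_inj.1 k])) hlx (st s' h2 h3) (st s'' h2' (h3'.trans h3))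
      exact ⟨ε, hε, by simpa only [h6, add_zero] using hu⟩
    · rintro s ⟨⟨⟨ε, hε, h1⟩, h2⟩, -⟩ t ht
      have h0 : 0 < min (t - s) (‖x‖ * (ε / 2)) := lt_min (sub_pos.2 ht) (by positivity)
      have h3 : ∀ y, ‖(s + min (t - s) (‖x‖ * (ε / 2)) - s : ℝ) * l y‖ ≤ ε / 2 * ‖y‖ := fun y => by
        rw [add_sub_cancel_left, hn, abs_of_pos h0]
        refine (mul_le_mul (min_le_right _ _) (hl y) (norm_nonneg _) (by positivity)).trans
          (le_of_eq ?_)
        field_simp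
      have h4 : ∀ y (c : ℂ), ‖c‖ ≤ ε / 2 * ‖y‖ →
          ‖S (s + min (t - s) (‖x‖ * (ε / 2))) y + c • z‖ = ‖S s y‖ := fun y c hc => by
        rw [hSS s, add_assoc, ← add_smul]
        exact h1 y _ ((norm_add_le _ _).trans (by linarith [h3 y]))
      have h5 : ∀ y, ‖S (s + min (t - s) (‖x‖ * (ε / 2))) y‖ = ‖S s y‖ := fun y => by
        simpa using h4 y 0 (by rw [norm_zero]; positivity)
      exact ⟨s + min (t - s) (‖x‖ * (ε / 2)), ⟨⟨ε / 2, by positivity, fun y c hc => by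
        rw [h4 y c hc, h5]⟩, fun y => (h5 y).trans (h2 y)⟩, by linarith,
        by linarith [min_le_left (t - s) (‖x‖ * (ε / 2))]⟩
  have := (key ⟨zero_le_one, le_rfl⟩).2 x
  rwa [hSy, hlx, mul_one, Complex.ofReal_one, one_smul] at this

end Pool.Agent.Lib.LC
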