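import Pool.Agent.Lib.LC.Blue

/-! Local Banach problem over the complex numbers, row CYL: the cylinder on the whole ball. -/

set_option autoImplicit false

open Set Filter Topology Metric Module
open scoped ComplexInnerProductSpace ContDiff NNReal

noncomputable section

namespace Pool.Agent.Lib.LC

open Pool.Agent.Lib.LB

theorem CYL.rk {V : Type} [NormedAddCommGroup V] [InnerProductSpace ℂ V] [FiniteDimensional ℂ V]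
    (h : 4 ≤ finrank ℂ V) (a : V) : 3 ≤ finrank ℂ (ℂ ∙ a)ᗮ := by
  have h1 : finrank ℂ (ℂ ∙ a) ≤ 1 := by
    simpa using finrank_span_le_card (R := ℂ) ({a} : Set V)
  have h4 := Submodule.finrank_add_finrank_orthogonal (ℂ ∙ a)
  omega

theorem bCYL (hGEN : St_GEN) : St_CYL := by
  intro V _ _ _ Φ ξ0 ρ Bd ν h4 hB h1 hν h ξ hξ
  have ext : ∀ η ∈ ball ξ0 ρ, ∀ x, ⟪η, x⟫ = 0 → Φ x = Φ (x - ⟪ξ0, x⟫ • ν) := fun η hη x hx => by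
    have m : η ∈ (ℂ ∙ x)ᗮ := Submodule.mem_orthogonal_singleton_iff_inner_left.2 hx
    obtain ⟨z, z0, z1, z2, -⟩ := mem_closure_iff.1 (hGEN V Bd ξ0 _ ∅ hB finite_empty (empty_subset _)
      (Or.inl (CYL.rk h4 x)) η m) _ isOpen_ball hη
    exact h z ⟨z0, z2⟩ x (Submodule.mem_orthogonal_singleton_iff_inner_left.1 z1)
  have r0 : 0 < ρ - ‖ξ - ξ0‖ := sub_pos.2 (mem_ball_iff_norm.1 hξ)
  have a0 : 0 < ‖⟪ξ, ν⟫‖ := norm_pos_iff.2 (hν ξ hξ)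
  have n0 : 0 < ‖ν‖ := norm_pos_iff.2 fun e => hν ξ hξ (by rw [e, inner_zero_right])
  obtain ⟨ε, e0, e1, e2⟩ : ∃ ε > 0, ε * ‖ν‖ ≤ 1 / 2 ∧ 2 * ε * ‖⟪ξ, ν⟫‖ < ρ - ‖ξ - ξ0‖ := by
    refine ⟨min (1 / 2 / ‖ν‖) ((ρ - ‖ξ - ξ0‖) / 4 / ‖⟪ξ, ν⟫‖), by positivity,
      (le_div_iff₀ n0).1 (min_le_left _ _), ?_⟩
    have := (le_div_iff₀ a0).1 (min_le_right (1 / 2 / ‖ν‖) ((ρ - ‖ξ - ξ0‖) / 4 / ‖⟪ξ, ν⟫‖))
    linarith
  refine ⟨ν, hν ξ hξ, ε, e0, fun x hx s hs => ?_⟩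
  rcases eq_or_ne x 0 with rfl | x0
  · rw [norm_zero, mul_zero, norm_le_zero_iff] at hs
    rw [hs, zero_smul, add_zero]
  have m0 : 0 < ‖x‖ := norm_pos_iff.2 x0
  have k1 : ‖s * ⟪x, ν⟫‖ ≤ ‖x‖ ^ 2 / 2 := by
    rw [norm_mul]
    calc ‖s‖ * ‖⟪x, ν⟫‖ ≤ ε * ‖x‖ * (‖x‖ * ‖ν‖) :=
          mul_le_mul hs (norm_inner_le_norm x ν) (norm_nonneg _) (by positivity)
      _ = ε * ‖ν‖ * ‖x‖ ^ 2 := by ring
      _ ≤ 1 / 2 * ‖x‖ ^ 2 := mul_le_mul_of_nonneg_right e1 (by positivity)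
      _ = _ := by ring
  have k2 : ‖x‖ ^ 2 / 2 ≤ ‖⟪x, x + s • ν⟫‖ := by
    rw [inner_add_right, inner_smul_right]
    have a1 := norm_sub_norm_le ⟪x, x⟫ (-(s * ⟪x, ν⟫))
    rw [sub_neg_eq_add, norm_neg, inner_self_eq_norm_sq_to_K, norm_pow, RCLike.norm_ofReal, abs_norm] at a1
    rw [inner_self_eq_norm_sq_to_K]
    linarith
  have k3 : 0 < ‖⟪x, x + s • ν⟫‖ := lt_of_lt_of_le (by positivity) k2
  have k4 : ξ - (starRingEnd ℂ (s * ⟪ξ, ν⟫ / ⟪x, x + s • ν⟫)) • x ∈ ball ξ0 ρ := by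
    have : ‖(starRingEnd ℂ (s * ⟪ξ, ν⟫ / ⟪x, x + s • ν⟫)) • x‖ < ρ - ‖ξ - ξ0‖ := by
      rw [norm_smul, RCLike.norm_conj, norm_div, norm_mul, div_mul_eq_mul_div, div_lt_iff₀ k3]
      calc ‖s‖ * ‖⟪ξ, ν⟫‖ * ‖x‖ ≤ ε * ‖x‖ * ‖⟪ξ, ν⟫‖ * ‖x‖ := by gcongr
        _ = 2 * ε * ‖⟪ξ, ν⟫‖ * (‖x‖ ^ 2 / 2) := by ring
        _ < (ρ - ‖ξ - ξ0‖) * (‖x‖ ^ 2 / 2) := mul_lt_mul_of_pos_right e2 (by positivity)
        _ ≤ _ := mul_le_mul_of_nonneg_left k2 r0.le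
    rw [mem_ball_iff_norm, sub_right_comm]
    linarith [norm_sub_le (ξ - ξ0) ((starRingEnd ℂ (s * ⟪ξ, ν⟫ / ⟪x, x + s • ν⟫)) • x)]
  have k5 : ⟪ξ - (starRingEnd ℂ (s * ⟪ξ, ν⟫ / ⟪x, x + s • ν⟫)) • x, x + s • ν⟫ = 0 := by
    rw [inner_sub_left, inner_smul_left, starRingEnd_self_apply, div_mul_cancel₀ _ (norm_pos_iff.1 k3),
      inner_add_right, hx, inner_smul_right, zero_add, sub_self]
  rw [ext _ k4 _ k5, ext ξ hξ x hx, inner_add_right, inner_smul_right, h1, mul_one, add_smul]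
  congr 1
  abel

end Pool.Agent.Lib.LC
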