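import Pool.Agent.Lib.LC.Blue

/-! Block DUAL: elementary duality for the real dual cone of an open convex cone. -/

set_option autoImplicit false

open Set Filter Topology Metric
open scoped ComplexInnerProductSpace

noncomputable section

namespace Pool.Agent.Lib.LC.DUAL

variable {V : Type} [NormedAddCommGroup V] [InnerProductSpace ℂ V]

theorem re_sl (t : ℝ) (x y : V) : (⟪t • x, y⟫).re = t * (⟪x, y⟫).re := by
  rw [← Complex.coe_smul, inner_smul_left, Complex.conj_ofReal, Complex.re_ofReal_mul]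

theorem sr (t : ℝ) (x y : V) : ⟪x, t • y⟫ = (t : ℂ) * ⟪x, y⟫ := by
  rw [← Complex.coe_smul, inner_smul_right]

theorem re_self (y : V) : (⟪y, y⟫).re = ‖y‖ ^ 2 := inner_self_eq_norm_sq (𝕜 := ℂ) y

theorem cl_nonneg {Ω : Set V} {y : V} (hy : y ∈ Kd Ω) {ζ : V} (hζ : ζ ∈ closure Ω) :
    0 ≤ (⟪ζ, y⟫).re := by
  have hc : IsClosed {z : V | 0 ≤ (⟪z, y⟫).re} :=
    isClosed_le continuous_const (Complex.continuous_re.comp (continuous_id.inner continuous_const))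
  exact closure_minimal (fun z hz => hy z hz) hc hζ

theorem kd_closed (Ω : Set V) : IsClosed (Kd Ω) := by
  have h : Kd Ω = ⋂ ξ ∈ Ω, {y : V | 0 ≤ (⟪ξ, y⟫).re} := by
    ext y
    simp only [Kd, mem_ofPred_eq, mem_iInter]
  rw [h]
  exact isClosed_biInter fun ξ _ =>
    isClosed_le continuous_const (Complex.continuous_re.comp (continuous_const.inner continuous_id))

theorem pos_of {ξ0 : V} {Ω : Set V} (h : Oc ξ0 Ω) {y : V} (hy : y ∈ Kd Ω) (h0 : y ≠ 0) {ξ : V}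
    (hξ : ξ ∈ Ω) : 0 < (⟪ξ, y⟫).re := by
  have hc : Continuous fun t : ℝ => ξ - t • y := continuous_const.sub (continuous_id.smul continuous_const)
  have h1 : ∀ᶠ t in 𝓝 (0 : ℝ), ξ - t • y ∈ Ω := by
    apply hc.continuousAt.preimage_mem_nhds
    simp only [zero_smul, sub_zero]
    exact h.op.mem_nhds hξ
  have h2 : ∀ᶠ t in 𝓝[>] (0 : ℝ), ξ - t • y ∈ Ω ∧ 0 < t :=
    (h1.filter_mono nhdsWithin_le_nhds).and self_mem_nhdsWithin
  obtain ⟨t, ht, ht0⟩ := h2.exists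
  have h3 := hy _ ht
  rw [inner_sub_left, Complex.sub_re, re_sl, re_self] at h3
  have h4 : 0 < ‖y‖ ^ 2 := pow_pos (norm_pos_iff.2 h0) 2
  have h5 := mul_pos ht0 h4
  linarith

theorem add_mem' {ξ0 : V} {Ω : Set V} (h : Oc ξ0 Ω) {ζ ξ : V} (hζ : ζ ∈ closure Ω) (hξ : ξ ∈ Ω) :
    ζ + ξ ∈ Ω := by
  have h1 : ξ ∈ interior Ω := by rwa [h.op.interior_eq]
  have h2 := h.cv.combo_closure_interior_mem_interior hζ h1 (a := 1 / 2) (b := 1 / 2)
    (by norm_num) (by norm_num) (by norm_num)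
  have h3 := h.sc _ (interior_subset h2) 2 (by norm_num)
  have h4 : (2 : ℝ) • ((1 / 2 : ℝ) • ζ + (1 / 2 : ℝ) • ξ) = ζ + ξ := by
    rw [smul_add, smul_smul, smul_smul]
    norm_num
  rwa [h4] at h3

theorem im_zero {ξ0 : V} {Ω : Set V} (h : Oc ξ0 Ω) {y : V} (hy : y ∈ Kd Ω) : (⟪ξ0, y⟫).im = 0 := by
  have key : ∀ τ : ℝ, 0 ≤ (⟪ξ0, y⟫).re + τ * (⟪ξ0, y⟫).im := fun τ => by
    have h1 := hy _ (h.ad ξ0 h.mem ((τ : ℂ) * Complex.I) (by simp))
    rw [inner_add_left, inner_smul_left] at h1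
    simpa using h1
  by_contra h0
  have h1 := key (-((⟪ξ0, y⟫).re + 1) / (⟪ξ0, y⟫).im)
  rw [div_mul_cancel₀ _ h0] at h1
  linarith

theorem ray {ξ0 : V} {Ω : Set V} (h : Oc ξ0 Ω) {y : V} (hy : y ∈ Kd Ω) :
    y = 0 ∨ ∃ p ∈ Kb Ω ξ0, ∃ t : ℝ, 0 < t ∧ y = t • p := by
  by_cases h0 : y = 0
  · exact Or.inl h0
  have ht := pos_of h hy h0 h.mem
  have him := im_zero h hy
  refine Or.inr ⟨((⟪ξ0, y⟫).re)⁻¹ • y, ⟨fun ξ hξ => ?_, ?_⟩, (⟪ξ0, y⟫).re, ht, ?_⟩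
  · rw [sr, Complex.re_ofReal_mul]
    exact mul_nonneg (inv_nonneg.2 ht.le) (hy ξ hξ)
  · rw [sr]
    apply Complex.ext
    · rw [Complex.re_ofReal_mul, Complex.one_re]
      exact inv_mul_cancel₀ ht.ne'
    · rw [Complex.im_ofReal_mul, him, mul_zero, Complex.one_im]
  · rw [smul_smul, mul_inv_cancel₀ ht.ne', one_smul]

variable [FiniteDimensional ℂ V]

theorem kb_compact {ξ0 : V} {Ω : Set V} (h : Oc ξ0 Ω) : IsCompact (Kb Ω ξ0) := by
  have : ProperSpace V := FiniteDimensional.proper_rclike ℂ V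
  have hc : IsClosed (Kb Ω ξ0) :=
    (kd_closed Ω).inter (isClosed_eq (continuous_const.inner continuous_id) continuous_const)
  obtain ⟨r, hr, hb⟩ := Metric.isOpen_iff.1 h.op ξ0 h.mem
  refine (isCompact_closedBall (0 : V) (2 / r)).of_isClosed_subset hc fun p hp => ?_
  rw [mem_closedBall_zero_iff]
  have h0 : p ≠ 0 := by
    rintro rfl
    have := hp.2
    rw [inner_zero_right] at this
    exact zero_ne_one this
  have hn : 0 < ‖p‖ := norm_pos_iff.2 h0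
  have hm : ξ0 - (r / 2 / ‖p‖) • p ∈ Ω := by
    apply hb
    rw [mem_ball, dist_eq_norm, sub_sub_cancel_left, norm_neg, norm_smul, Real.norm_eq_abs,
      abs_of_pos (by positivity), div_mul_cancel₀ _ hn.ne']
    linarith
  have h1 := hp.1 _ hm
  rw [inner_sub_left, Complex.sub_re, re_sl, re_self, hp.2, Complex.one_re] at h1
  have h2 : r / 2 / ‖p‖ * ‖p‖ ^ 2 = r / 2 * ‖p‖ := by
    field_simp
  rw [h2] at h1
  rw [le_div_iff₀ hr]
  linarith

theorem rep (f : StrongDual ℂ V) : ∃ y : V, ∀ x, (⟪x, y⟫).re = (f x).re := by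
  have : CompleteSpace V := FiniteDimensional.complete ℂ V
  refine ⟨(InnerProductSpace.toDual ℂ V).symm f, fun x => ?_⟩
  rw [← inner_conj_symm, Complex.conj_re, InnerProductSpace.toDual_symm_apply]

theorem mem_cl {ξ0 : V} {Ω : Set V} (h : Oc ξ0 Ω) {ξ : V} (hξ : ∀ y ∈ Kd Ω, 0 ≤ (⟪ξ, y⟫).re) :
    ξ ∈ closure Ω := by
  by_contra hc
  obtain ⟨f, u, hu, hf⟩ :=
    RCLike.geometric_hahn_banach_point_closed (𝕜 := ℂ) h.cv.closure isClosed_closure hc
  obtain ⟨y, hy⟩ := rep f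
  have hu' : (⟪ξ, y⟫).re < u := by
    rw [hy]
    exact hu
  have key : ∀ b ∈ Ω, ∀ t : ℝ, 0 < t → u < t * (⟪b, y⟫).re := fun b hb t ht => by
    rw [← re_sl, hy]
    exact hf _ (subset_closure (h.sc b hb t ht))
  have hK : y ∈ Kd Ω := fun b hb => by
    by_contra hneg
    have hneg' : (⟪b, y⟫).re < 0 := not_le.1 hneg
    have h1 := key b hb ((|u| + 1) / (-(⟪b, y⟫).re)) (div_pos (by positivity) (by linarith))
    have h2 : (|u| + 1) / (-(⟪b, y⟫).re) * (⟪b, y⟫).re = -(|u| + 1) := by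
      have : (⟪b, y⟫).re ≠ 0 := hneg'.ne
      field_simp
    rw [h2] at h1
    have := neg_abs_le u
    linarith
  have hu0 : u ≤ 0 := by
    by_contra hpos
    have hpos' : 0 < u := not_le.1 hpos
    have ha := hK ξ0 h.mem
    have h1 := key ξ0 h.mem (u / ((⟪ξ0, y⟫).re + 1)) (div_pos hpos' (by linarith))
    have h2 : u / ((⟪ξ0, y⟫).re + 1) * (⟪ξ0, y⟫).re ≤
        u / ((⟪ξ0, y⟫).re + 1) * ((⟪ξ0, y⟫).re + 1) :=
      mul_le_mul_of_nonneg_left (by linarith) (div_nonneg hpos'.le (by linarith))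
    have h3 : u / ((⟪ξ0, y⟫).re + 1) * ((⟪ξ0, y⟫).re + 1) = u :=
      div_mul_cancel₀ _ (by linarith)
    linarith
  have h4 := hξ y hK
  linarith

end Pool.Agent.Lib.LC.DUAL

namespace Pool.Agent.Lib.LC

theorem bDUAL : St_DUAL := by
  intro V _ _ _ ξ0 Ω h
  refine ⟨fun ξ => ⟨fun hξ y hy => DUAL.cl_nonneg hy hξ, DUAL.mem_cl h⟩,
    fun y hy h0 ξ hξ => DUAL.pos_of h hy h0 hξ, fun y hy => DUAL.ray h hy, DUAL.kb_compact h,
    fun ζ hζ ξ hξ => DUAL.add_mem' h hζ hξ, fun he => ?_⟩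
  refine eq_univ_of_forall fun η => ?_
  have h1 : η - ξ0 ∈ closure Ω := by
    refine DUAL.mem_cl h fun y hy => ?_
    rcases DUAL.ray h hy with h0 | ⟨p, hp, _⟩
    · rw [h0, inner_zero_right, Complex.zero_re]
    · rw [he] at hp
      exact hp.elim
  have h2 := DUAL.add_mem' h h1 h.mem
  rwa [sub_add_cancel] at h2

end Pool.Agent.Lib.LC
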