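import Pool.Agent.Lib.LC.Blue

/-! Local Banach problem over the complex numbers: basic lemmas. -/

set_option autoImplicit false

open Set Filter Topology Metric Module
open scoped ComplexInnerProductSpace ContDiff NNReal

noncomputable section

namespace Pool.Agent.Lib.LC

open Pool.Agent.Lib.LB

section Inner

variable {E V : Type} [NormedAddCommGroup E] [NormedSpace ℝ E] [NormedAddCommGroup V]
  [InnerProductSpace ℂ V]

theorem inner_rl (t : ℝ) (x y : V) : ⟪t • x, y⟫ = (t : ℂ) * ⟪x, y⟫ := by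
  rw [← Complex.coe_smul, inner_smul_left, Complex.conj_ofReal]

theorem inner_rr (t : ℝ) (x y : V) : ⟪x, t • y⟫ = (t : ℂ) * ⟪x, y⟫ := by
  rw [← Complex.coe_smul, inner_smul_right]

theorem inner_sq (x : V) : ⟪x, x⟫ = ((‖x‖ ^ 2 : ℝ) : ℂ) := by
  rw [inner_self_eq_norm_sq_to_K]
  simp

theorem inner_sq_re (x : V) : (⟪x, x⟫).re = ‖x‖ ^ 2 := by rw [inner_sq, Complex.ofReal_re]

theorem inner_swap {x y : V} (h : ⟪x, y⟫ = 0) : ⟪y, x⟫ = 0 := inner_eq_zero_symm.1 h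

theorem re_comm (x y : V) : (⟪x, y⟫).re = (⟪y, x⟫).re := by
  rw [← inner_conj_symm x y, Complex.conj_re]

theorem csmul_eq (c : ℂ) (x : V) : c • x = c.re • x + c.im • (Complex.I • x) := by
  conv_lhs => rw [← Complex.re_add_im c]
  rw [add_smul, mul_smul, Complex.coe_smul, Complex.coe_smul]

/-- A real linear map is determined on a complex line by two values. -/
theorem line_of_two {W : Type} [NormedAddCommGroup W] [NormedSpace ℂ W] {L : V →L[ℝ] W} {ξ : V} {μ : W}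
    (h1 : L ξ = μ) (h2 : L (Complex.I • ξ) = Complex.I • μ) (c : ℂ) : L (c • ξ) = c • μ := by
  rw [csmul_eq, map_add, map_smul, map_smul, h1, h2]
  conv_rhs => rw [← Complex.re_add_im c]
  rw [add_smul, mul_smul, Complex.coe_smul, Complex.coe_smul]

theorem perp {ξ : V} (h : ξ ≠ 0) (y : V) : ⟪ξ, y - (⟪ξ, y⟫ / ⟪ξ, ξ⟫) • ξ⟫ = 0 := by
  rw [inner_sub_right, inner_smul_right, div_mul_cancel₀ _ (inner_self_ne_zero.2 h), sub_self]

theorem perp_of_smul {ξ y : V} {c : ℂ} (hc : c ≠ 0) (h : ⟪c • ξ, y⟫ = 0) : ⟪ξ, y⟫ = 0 := by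
  rw [inner_smul_left] at h
  exact (mul_eq_zero.1 h).resolve_left ((map_ne_zero _).2 hc)

theorem perp_smul {ξ y : V} (c : ℂ) (h : ⟪ξ, y⟫ = 0) : ⟪c • ξ, y⟫ = 0 := by
  rw [inner_smul_left, h, mul_zero]

/-- The inner product as a real bilinear map. -/
def inC (V : Type) [NormedAddCommGroup V] [InnerProductSpace ℂ V] : V →L[ℝ] V →L[ℝ] ℂ :=
  (isBoundedBilinearMap_inner (𝕜 := ℂ) (E := V)).toContinuousLinearMap

@[simp] theorem inC_apply (x y : V) : inC V x y = ⟪x, y⟫ := rfl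

theorem pol_inner {a b : ℕ} {f g : E → V} (h : IsPol a f) (h' : IsPol b g) :
    IsPol (a + b) fun x => ⟪f x, g x⟫ := IsPol.bil (inC V) h h'

theorem pol_csmul {W : Type} [NormedAddCommGroup W] [NormedSpace ℂ W] {a b : ℕ} {c : E → ℂ} {f : E → W}
    (h : IsPol a c) (h' : IsPol b f) : IsPol (a + b) fun x => c x • f x :=
  IsPol.bil (ContinuousLinearMap.lsmul ℝ ℂ) h h'

theorem pl_inner {f g : E → V} (h : Pl f) (h' : Pl g) : Pl fun x => ⟪f x, g x⟫ := by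
  obtain ⟨d, h⟩ := h
  obtain ⟨e, h'⟩ := h'
  exact ⟨_, pol_inner h h'⟩

theorem pl_csmul {W : Type} [NormedAddCommGroup W] [NormedSpace ℂ W] {c : E → ℂ} {f : E → W}
    (h : Pl c) (h' : Pl f) : Pl fun x => c x • f x := by
  obtain ⟨d, h⟩ := h
  obtain ⟨e, h'⟩ := h'
  exact ⟨_, pol_csmul h h'⟩

theorem pl_cmul {f g : E → ℂ} (h : Pl f) (h' : Pl g) : Pl fun x => f x * g x := pl_csmul h h'

theorem pl_re {f : E → ℂ} (h : Pl f) : Pl fun x => (f x).re := h.post Complex.reCLM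

theorem pl_nsq {f : E → V} (h : Pl f) : Pl fun x => ‖f x‖ ^ 2 :=
  (pl_re (pl_inner h h)).congr fun _ => inner_sq_re _

theorem an_inner {f g : E → V} {x : E} (hf : AnalyticAt ℝ f x) (hg : AnalyticAt ℝ g x) :
    AnalyticAt ℝ (fun y => ⟪f y, g y⟫) x := ((inC V).analyticAt_bilinear (f x, g x)).comp₂ hf hg

theorem an_csmul {c : E → ℂ} {g : E → V} {x : E} (hf : AnalyticAt ℝ c x) (hg : AnalyticAt ℝ g x) :
    AnalyticAt ℝ (fun y => c y • g y) x :=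
  ((ContinuousLinearMap.lsmul ℝ ℂ : ℂ →L[ℝ] V →L[ℝ] V).analyticAt_bilinear (c x, g x)).comp₂ hf hg

theorem an_nsq {f : E → V} {x : E} (hf : AnalyticAt ℝ f x) : AnalyticAt ℝ (fun y => ‖f y‖ ^ 2) x := by
  have := (Complex.reCLM.analyticAt _).comp (an_inner hf hf)
  refine this.congr (Eventually.of_forall fun y => inner_sq_re _)

theorem dense_perp {F : Type} [NormedAddCommGroup F] [NormedSpace ℝ F] {f : V → F} (h : Pl f)
    {ξ : V} (hn : ∃ y, ⟪ξ, y⟫ = 0 ∧ f y ≠ 0) {y : V} (hy : ⟪ξ, y⟫ = 0) :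
    y ∈ closure {y' | ⟪ξ, y'⟫ = 0 ∧ f y' ≠ 0} := by
  obtain ⟨z, hz, hz'⟩ := hn
  have hg : Pl fun t : ℝ => y + t • (z - y) :=
    (Pl.const y).add ((Pl.lin (ContinuousLinearMap.id ℝ ℝ)).smul (Pl.const (z - y)))
  have hd := (h.comp hg).dense ⟨1, by simpa using hz'⟩
  have := map_mem_closure hg.continuous (hd 0) (t := {y' | ⟪ξ, y'⟫ = 0 ∧ f y' ≠ 0}) fun t ht =>
    ⟨by rw [inner_add_right, inner_rr, inner_sub_right, hy, hz]; simp, ht⟩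
  simpa using this

/-- The normal vector moved so that its hyperplane contains `y'`. -/
def sw (ξ y y' : V) : V := ξ - (⟪y', ξ⟫ / ⟪y', y⟫) • y

theorem sw_perp (ξ : V) {y y' : V} (h : ⟪y', y⟫ ≠ 0) : ⟪sw ξ y y', y'⟫ = 0 := by
  refine inner_swap ?_
  rw [sw, inner_sub_right, inner_smul_right, div_mul_cancel₀ _ h, sub_self]

theorem sw_tendsto {ξ y : V} (h0 : y ≠ 0) (h : ⟪ξ, y⟫ = 0) : Tendsto (sw ξ y) (𝓝 y) (𝓝 ξ) := by
  have c1 : ContinuousAt (sw ξ y) y := continuousAt_const.sub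
    ((ContinuousAt.div (by fun_prop) (by fun_prop) (inner_self_ne_zero.2 h0)).smul continuousAt_const)
  simpa only [ContinuousAt, sw, inner_swap h, zero_div, zero_smul, sub_zero] using c1

theorem sweep {ξ y : V} (h0 : y ≠ 0) (h : ⟪ξ, y⟫ = 0) {U : Set V} (hU : U ∈ 𝓝 ξ) :
    ∀ᶠ y' in 𝓝 y, ∃ ξ' ∈ U, ⟪ξ', y'⟫ = 0 := by
  have c0 : ContinuousAt (fun y' : V => ⟪y', y⟫) y := by fun_prop
  filter_upwards [c0.eventually_ne (inner_self_ne_zero.2 h0), (sw_tendsto h0 h).eventually hU]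
    with y' a b
  exact ⟨_, b, sw_perp ξ a⟩

theorem riesz_re [FiniteDimensional ℂ V] (f : V →L[ℝ] ℝ) : ∃ y : V, ∀ x, f x = (⟪x, y⟫).re := by
  let _ : InnerProductSpace ℝ V := InnerProductSpace.complexToReal
  refine ⟨(InnerProductSpace.toDual ℝ V).symm f, fun x => ?_⟩
  rw [re_comm, ← InnerProductSpace.toDual_symm_apply]
  rfl

theorem exists_sp [FiniteDimensional ℂ V] {ξ0 : V} (h : ‖ξ0‖ = 1) :
    finrank ℂ (ℂ ∙ ξ0)ᗮ + 1 = finrank ℂ V ∧ ∃ S : Sp (ℂ ∙ ξ0)ᗮ V, S.e = ξ0 := by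
  have h0 : ξ0 ≠ 0 := fun e => by simp [e] at h
  refine ⟨?_, ⟨(ℂ ∙ ξ0)ᗮ.subtypeL, (ℂ ∙ ξ0)ᗮ.orthogonalProjectionOnto, ξ0, by simp [h],
    fun x => Submodule.mem_orthogonal_singleton_iff_inner_right.1 x.2, fun x x' => rfl, fun y => ?_⟩, rfl⟩
  · have := Submodule.finrank_add_finrank_orthogonal (ℂ ∙ ξ0)
    rw [finrank_span_singleton h0] at this
    omega
  · change ((ℂ ∙ ξ0)ᗮ).starProjection y + _ = y
    rw [Submodule.starProjection_orthogonal_val, Submodule.starProjection_unit_singleton ℂ h,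
      sub_add_cancel]

theorem rk_perp [FiniteDimensional ℂ V] (s : Finset V) :
    finrank ℂ V ≤ finrank ℂ (Submodule.span ℂ (s : Set V))ᗮ + s.card := by
  have h1 := Submodule.finrank_add_finrank_orthogonal (Submodule.span ℂ (s : Set V))
  have h2 := finrank_span_finset_le_card (R := ℂ) s
  rw [Set.finrank] at h2
  omega

theorem mem_perp {s : Set V} {y : V} : y ∈ (Submodule.span ℂ s)ᗮ ↔ ∀ a ∈ s, ⟪a, y⟫ = 0 := by
  refine ⟨fun h a ha => Submodule.inner_right_of_mem_orthogonal (Submodule.subset_span ha) h,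
    fun h => (Submodule.mem_orthogonal _ _).2 fun u hu => ?_⟩
  induction hu using Submodule.span_induction with
  | mem x hx => exact h x hx
  | zero => exact inner_zero_left _
  | add x y _ _ a b => rw [inner_add_left, a, b, add_zero]
  | smul c x _ a => exact perp_smul c a

theorem rk_perp1 [FiniteDimensional ℂ V] (a : V) :
    finrank ℂ V ≤ finrank ℂ (Submodule.span ℂ ({a} : Set V))ᗮ + 1 := by
  have h := rk_perp ({a} : Finset V)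
  rwa [Finset.coe_singleton, Finset.card_singleton] at h

theorem rk_perp2 [FiniteDimensional ℂ V] (a b : V) :
    finrank ℂ V ≤ finrank ℂ (Submodule.span ℂ ({a, b} : Set V))ᗮ + 2 := by
  classical
  have h := rk_perp ({a, b} : Finset V)
  have h2 : ({a, b} : Finset V).card ≤ 2 := Finset.card_le_two
  rw [Finset.coe_pair] at h
  omega

theorem exists_perp0 [FiniteDimensional ℂ V] {s : Finset V} (h : s.card < finrank ℂ V) :
    ∃ y, y ≠ 0 ∧ ∀ a ∈ s, ⟪a, y⟫ = 0 := by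
  have h1 := rk_perp s
  have h3 : (Submodule.span ℂ (s : Set V))ᗮ ≠ ⊥ := fun e => by
    rw [e, finrank_bot] at h1
    omega
  obtain ⟨y, hy, h0⟩ := Submodule.exists_mem_ne_zero_of_ne_bot h3
  exact ⟨y, h0, mem_perp.1 hy⟩

theorem exists_perp2 [FiniteDimensional ℂ V] (h : 3 ≤ finrank ℂ V) (a b : V) :
    ∃ y, y ≠ 0 ∧ ⟪a, y⟫ = 0 ∧ ⟪b, y⟫ = 0 := by
  classical
  obtain ⟨y, hy, h0⟩ := exists_perp0 (V := V) (s := {a, b}) (lt_of_le_of_lt Finset.card_le_two (by omega))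
  exact ⟨y, hy, h0 a (by simp), h0 b (by simp)⟩

theorem exists_perp1 [FiniteDimensional ℂ V] (h : 2 ≤ finrank ℂ V) (a : V) : ∃ y, y ≠ 0 ∧ ⟪a, y⟫ = 0 := by
  obtain ⟨y, hy, h0⟩ := exists_perp0 (V := V) (s := {a}) (by simp; omega)
  exact ⟨y, hy, h0 a (by simp)⟩

/-- A vector orthogonal to `c` with prescribed product with `a`. -/
theorem exists_val {a c : V} (h : ∀ t : ℂ, a ≠ t • c) (w : ℂ) : ∃ y, ⟪c, y⟫ = 0 ∧ ⟪a, y⟫ = w := by
  obtain ⟨d, d1, d2⟩ : ∃ d, ⟪c, d⟫ = 0 ∧ ⟪a, d⟫ ≠ 0 := by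
    by_cases hc : c = 0
    · exact ⟨a, by simp [hc], inner_self_ne_zero.2 (by simpa using h 0)⟩
    refine ⟨_, perp hc a, fun e => h (⟪c, a⟫ / ⟪c, c⟫) (sub_eq_zero.1 (inner_self_eq_zero (𝕜 := ℂ).1 ?_))⟩
    rw [inner_sub_left, e, perp_smul _ (perp hc a), sub_zero]
  exact ⟨(w / ⟪a, d⟫) • d, by rw [inner_smul_right, d1, mul_zero],
    by rw [inner_smul_right, div_mul_cancel₀ _ d2]⟩

theorem ci_kil {Φ : Seminorm ℝ V} (h : Ci Φ) (y : V) : Complex.I • y ∈ Kil Φ y := by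
  have e : (fun s : ℝ => Φ (y + s • Complex.I • y)) = fun s => Real.sqrt (1 + s ^ 2) * Φ y := by
    funext s
    rw [← Complex.coe_smul, smul_smul, show y + ((s : ℂ) * Complex.I) • y = (1 + s * Complex.I) • y by
      rw [add_smul, one_smul], h, Complex.norm_eq_sqrt_sq_add_sq]
    simp
  have h1 : HasDerivAt (fun s : ℝ => 1 + s ^ 2) 0 0 := by
    simpa using (hasDerivAt_pow 2 (0 : ℝ)).const_add 1
  rw [mem_Kil, e]
  simpa using (h1.sqrt (by norm_num)).mul_const (Φ y)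

variable {Bd Γ : Set V} {ξ0 ξ : V} {ρ : ℝ}

theorem NB_smul (h : ξ ∈ NB Bd) {c : ℂ} (hc : c ≠ 0) : c • ξ ∈ NB Bd :=
  ⟨smul_ne_zero hc h.1, fun b hb d e => h.2 b hb (c⁻¹ * d) (by rw [mul_smul, ← e, inv_smul_smul₀ hc])⟩

theorem NB_open (h : Bd.Finite) : IsOpen (NB Bd) := by
  have e : NB Bd = {ξ | ξ ≠ 0} ∩ ⋂ b ∈ Bd, ((ℂ ∙ b : Submodule ℂ V) : Set V)ᶜ := by
    ext ξ
    simp [NB, Submodule.mem_span_singleton, eq_comm]
  rw [e]
  exact isOpen_ne.inter (h.isOpen_biInter fun b _ =>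
    (Submodule.closed_of_finiteDimensional _).isOpen_compl)

theorem Nn_nb (h : ξ ∈ Nn Bd ξ0) : ξ ∈ NB Bd := by simpa using h 0

theorem Nn_add (h : ξ ∈ Nn Bd ξ0) (u : ℂ) : ξ + u • ξ0 ∈ Nn Bd ξ0 := fun a => by
  rw [add_assoc, ← add_smul]
  exact h _

theorem Nn_smul (h : ξ ∈ Nn Bd ξ0) {c : ℂ} (hc : c ≠ 0) : c • ξ ∈ Nn Bd ξ0 := fun a => by
  have := NB_smul (h (c⁻¹ * a)) hc
  rwa [smul_add, smul_smul, mul_inv_cancel_left₀ hc] at this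

theorem Nn_rsmul (h : ξ ∈ Nn Bd ξ0) {t : ℝ} (ht : t ≠ 0) : t • ξ ∈ Nn Bd ξ0 := by
  rw [← Complex.coe_smul]
  exact Nn_smul h (Complex.ofReal_ne_zero.2 ht)

theorem Nn_neg (h : ξ ∈ Nn Bd ξ0) : -ξ ∈ Nn Bd ξ0 := by
  simpa using Nn_smul h (c := -1) (by simp)

theorem Nn_ne (h : ξ ∈ Nn Bd ξ0) (c : ℂ) : ξ ≠ c • ξ0 := fun e =>
  (h (-c)).1 (by rw [e, neg_smul, add_neg_cancel])

theorem Nn_iff : ξ ∈ Nn Bd ξ0 ↔ ∀ b ∈ insert 0 Bd, ξ ∉ Submodule.span ℂ ({ξ0, b} : Set V) := by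
  simp only [Submodule.mem_span_pair, forall_mem_insert, smul_zero, add_zero, exists_const]
  constructor
  · refine fun h => ⟨fun ⟨a, e⟩ => Nn_ne h a e.symm, fun b hb ⟨a, c, e⟩ => (h (-a)).2 b hb c ?_⟩
    rw [← e, neg_smul]
    abel
  · refine fun h a => ⟨fun e => h.1 ⟨-a, ?_⟩, fun b hb c e => h.2 b hb ⟨-a, c, ?_⟩⟩
    · rw [neg_smul]
      exact (eq_neg_of_add_eq_zero_left e).symm
    · rw [← e, neg_smul]
      abel

theorem Nn_open (h : Bd.Finite) (ξ0 : V) : IsOpen (Nn Bd ξ0) := by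
  have e : Nn Bd ξ0 = ⋂ b ∈ insert 0 Bd, ((Submodule.span ℂ ({ξ0, b} : Set V) : Submodule ℂ V) : Set V)ᶜ := by
    ext ξ
    rw [Nn_iff, mem_iInter₂]
    rfl
  rw [e]
  refine (h.insert 0).isOpen_biInter fun b _ => ?_
  have := FiniteDimensional.span_of_finite ℂ (toFinite ({ξ0, b} : Set V))
  exact (Submodule.closed_of_finiteDimensional _).isOpen_compl

theorem Gm.near (h : Gm ξ0 ρ Bd Γ) : ∃ η > 0, ball ξ0 η ⊆ ball ξ0 ρ ∩ NB Bd :=
  Metric.isOpen_iff.1 (isOpen_ball.inter (NB_open h.fin)) ξ0 ⟨mem_ball_self h.pos, h.nb⟩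

theorem Gm.mem (h : Gm ξ0 ρ Bd Γ) : ξ0 ∈ Γ := h.sub ⟨mem_ball_self h.pos, h.nb⟩

theorem Gm.far (h : Gm ξ0 ρ Bd Γ) : ∃ η > 0, ∀ (ξ : V) (u : ℂ), ‖ξ‖ < η * ‖u‖ → ξ + u • ξ0 ∈ Γ := by
  obtain ⟨η, h0, hb⟩ := h.near
  refine ⟨η, h0, fun ξ u hu => ?_⟩
  have u0 : 0 < ‖u‖ := (mul_pos_iff_of_pos_left h0).1 ((norm_nonneg ξ).trans_lt hu)
  have u1 := norm_pos_iff.1 u0
  have := h.sc _ (h.sub (hb (a := ξ0 + u⁻¹ • ξ) (by
    rwa [mem_ball_iff_norm, add_sub_cancel_left, norm_smul, norm_inv, inv_mul_lt_iff₀ u0,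
      mul_comm]))) u u1
  rwa [smul_add, smul_inv_smul₀ u1, add_comm] at this

theorem star_cone (h : ∀ ξ ∈ Γ, ∀ c : ℂ, c ≠ 0 → c • ξ ∈ Γ) (hξ : ξ ∈ Star Γ ξ0) {t : ℝ} (ht : 0 < t) :
    t • ξ ∈ Star Γ ξ0 := by
  rintro _ ⟨a, b, ha, hb, hab, rfl⟩
  have h0 : 0 < a + b * t := by
    rcases ha.eq_or_lt with e | e
    · have : b = 1 := by linarith
      rw [← e, this]
      linarith
    · positivity
  have h1 := h _ (hξ ⟨a / (a + b * t), b * t / (a + b * t), by positivity, by positivity,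
    by field_simp, rfl⟩) ((a + b * t : ℝ) : ℂ) (Complex.ofReal_ne_zero.2 h0.ne')
  rwa [Complex.coe_smul, smul_add, smul_smul, smul_smul, mul_div_cancel₀ _ h0.ne',
    mul_div_cancel₀ _ h0.ne', mul_smul] at h1

theorem star_self (hξ : ξ ∈ Star Γ ξ0) : ξ ∈ Γ := hξ (right_mem_segment _ _ _)

theorem unit_inv {F : V →L[ℝ] V} (h : IsUnit F) :
    ∃ G : V →L[ℝ] V, IsUnit G ∧ (∀ y, F (G y) = y) ∧ ∀ y, G (F y) = y := by
  obtain ⟨u, rfl⟩ := h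
  exact ⟨↑u⁻¹, u⁻¹.isUnit, fun y => congrArg (fun C : V →L[ℝ] V => C y) u.mul_inv,
    fun y => congrArg (fun C : V →L[ℝ] V => C y) u.inv_mul⟩

theorem unit_ne {F : V →L[ℝ] V} (h : IsUnit F) {y : V} (hy : y ≠ 0) : F y ≠ 0 := fun e => by
  obtain ⟨G, -, -, h2⟩ := unit_inv h
  exact hy (by rw [← h2 y, e, map_zero])

/-- A map respecting the splittings pulls the hyperplane back to the hyperplane. -/
theorem perp_back {F : V →L[ℝ] V} (h0 : ξ0 ≠ 0) (h1 : ξ ≠ 0) (hF0 : ∀ c : ℂ, F (c • ξ0) = c • ξ)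
    (hF : ∀ x, ⟪ξ0, x⟫ = 0 → ⟪ξ, F x⟫ = 0) {x : V} (hx : ⟪ξ, F x⟫ = 0) : ⟪ξ0, x⟫ = 0 := by
  have h2 := hF _ (perp h0 x)
  rw [map_sub, hF0, inner_sub_right, inner_smul_right, hx, zero_sub, neg_eq_zero, mul_eq_zero,
    or_iff_left (inner_self_ne_zero.2 h1), div_eq_zero_iff,
    or_iff_left (inner_self_ne_zero.2 h0)] at h2
  exact h2

theorem Iso.symm {Φ Ψ : Seminorm ℝ V} (h0 : ξ0 ≠ 0) (h : Iso Φ ξ0 Ψ ξ) : Iso Ψ ξ Φ ξ0 := by
  obtain ⟨F, hU, hF0, hF⟩ := h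
  obtain ⟨G, gU, FG, GF⟩ := unit_inv hU
  have h1 : ξ ≠ 0 := by
    have := hF0 1
    rw [one_smul, one_smul] at this
    exact this ▸ unit_ne hU h0
  have k : ∀ y, ⟪ξ, y⟫ = 0 → ⟪ξ0, G y⟫ = 0 := fun y hy =>
    perp_back h0 h1 hF0 (fun x hx => (hF x hx).1) (by rwa [FG])
  exact ⟨G, gU, fun c => by rw [← hF0, GF], fun y hy => ⟨k y hy, by rw [← (hF _ (k y hy)).2, FG]⟩⟩

theorem Iso.trans {Φ Ψ Θ : Seminorm ℝ V} {ξ' : V} (h : Iso Φ ξ0 Ψ ξ) (h' : Iso Ψ ξ Θ ξ') :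
    Iso Φ ξ0 Θ ξ' := by
  obtain ⟨F, hU, hF0, hF⟩ := h
  obtain ⟨G, gU, hG0, hG⟩ := h'
  exact ⟨G * F, gU.mul hU, fun c => (congrArg G (hF0 c)).trans (hG0 c), fun x hx =>
    ⟨(hG _ (hF x hx).1).1, (hG _ (hF x hx).1).2.trans (hF x hx).2⟩⟩

theorem Euc.of_iso {Φ Ψ : Seminorm ℝ V} (h : Iso Φ ξ0 Ψ ξ) (h' : Euc Ψ ξ) : Euc Φ ξ0 := by
  obtain ⟨F, -, -, hF⟩ := h
  obtain ⟨B, hB⟩ := h'
  exact ⟨B.compl₁₂ (F : V →ₗ[ℝ] V) (F : V →ₗ[ℝ] V), fun x hx => by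
    rw [← (hF x hx).2, hB _ (hF x hx).1]
    rfl⟩

end Inner

end Pool.Agent.Lib.LC
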