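import Pool.Agent.Lib.LC.Blue
import Pool.Agent.Lib.LC.Basic
import Pool.Agent.Lib.LB.B_DV1

/-! Local Banach problem over the complex numbers: row DV1, the analytic development. -/

set_option autoImplicit false

open Set Filter Topology Metric Module
open scoped ComplexInnerProductSpace

noncomputable section

namespace Pool.Agent.Lib.LC

open Pool.Agent.Lib.LB

namespace DV1

variable {V : Type} [NormedAddCommGroup V] [NormedSpace ℝ V]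

theorem seg {ξ0 ξ : V} {t : ℝ} (ht : t ∈ Icc (0 : ℝ) 1) : ξ0 + t • (ξ - ξ0) ∈ segment ℝ ξ0 ξ := by
  rw [segment_eq_image']
  exact mem_image_of_mem _ ht

theorem line (ξ0 μ : V) (t : ℝ) : HasDerivAt (fun s : ℝ => ξ0 + s • μ) μ t := by
  simpa using ((hasDerivAt_id t).smul_const μ).const_add ξ0

end DV1

open DV1 in
theorem bDV1 : St_DV1 := by
  intro V _ _ _ Φ ξ0 δ M ρ G Bd L R S
  obtain ⟨Y, hA, hY⟩ := LB40.fund S.an ξ0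
  have sg : ∀ (ξ : V) {t : ℝ}, t ∈ Icc (0 : ℝ) 1 → ξ0 + t • (ξ - ξ0) ∈ segment ℝ ξ0 ξ :=
    fun ξ t ht => seg (V := V) ht
  have hd : ∀ ξ ∈ Star (Gam Φ ξ0 δ M) ξ0, ∀ x, ∀ t ∈ Icc (0 : ℝ) 1, HasDerivAt (fun s => Y ξ s x)
      (L (ξ0 + t • (ξ - ξ0)) (ξ - ξ0) (Y ξ t x)) t := fun ξ hξ x t ht => by
    simpa using (((hY ξ hξ).2 t ht).2.clm_apply (hasDerivAt_const t x))
  have hu : ∀ ξ ∈ Star (Gam Φ ξ0 δ M) ξ0, IsUnit (Y ξ 1) := fun ξ hξ =>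
    ((hY ξ hξ).2 1 (right_mem_Icc.2 zero_le_one)).1
  have h0 : ∀ ξ ∈ Star (Gam Φ ξ0 δ M) ξ0, ∀ x, Y ξ 0 x = x := fun ξ hξ x => by
    rw [(hY ξ hξ).1]
    rfl
  have FH : ∀ ξ ∈ Star (Gam Φ ξ0 δ M) ξ0, ∀ y, Y ξ 1 (Ring.inverse (Y ξ 1) y) = y := fun ξ hξ y =>
    DFunLike.congr_fun (Ring.mul_inverse_cancel _ (hu ξ hξ)) y
  have HF : ∀ ξ ∈ Star (Gam Φ ξ0 δ M) ξ0, ∀ y, Ring.inverse (Y ξ 1) (Y ξ 1 y) = y := fun ξ hξ y =>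
    DFunLike.congr_fun (Ring.inverse_mul_cancel _ (hu ξ hξ)) y
  have hl : ∀ ξ : V, Continuous fun t : ℝ => ξ0 + t • (ξ - ξ0) := fun ξ => by fun_prop
  have F0 : ∀ ξ ∈ Star (Gam Φ ξ0 δ M) ξ0, ∀ c : ℂ, Y ξ 1 (c • ξ0) = c • ξ := fun ξ hξ c => by
    have hc : ContinuousOn (fun t : ℝ => L (ξ0 + t • (ξ - ξ0))) (Icc 0 1) :=
      S.an.continuousOn.comp (hl ξ).continuousOn fun t ht => hξ (sg ξ ht)
    have hb : ∀ t ∈ Icc (0 : ℝ) 1,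
        ‖L (ξ0 + t • (ξ - ξ0)) (ξ - ξ0) (Y ξ t (c • ξ0)) - c • (ξ - ξ0)‖ ≤
          ‖L (ξ0 + t • (ξ - ξ0)) (ξ - ξ0)‖ * ‖Y ξ t (c • ξ0) - c • (ξ0 + t • (ξ - ξ0))‖ := by
      intro t ht
      rw [← (S.sol _ (hξ (sg ξ ht)) (ξ - ξ0)).1 c, ← map_sub]
      exact ContinuousLinearMap.le_opNorm _ _
    have := LB.DV1.zero_of (c := fun t => ‖L (ξ0 + t • (ξ - ξ0)) (ξ - ξ0)‖)
      (f := fun t => Y ξ t (c • ξ0) - c • (ξ0 + t • (ξ - ξ0)))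
      (fun t ht => (hd ξ hξ (c • ξ0) t ht).sub ((line ξ0 (ξ - ξ0) t).const_smul c))
      (by simp [h0 ξ hξ]) (hc.clm_apply continuousOn_const).norm hb 1 (right_mem_Icc.2 zero_le_one)
    simpa [sub_eq_zero] using this
  have Fp : ∀ ξ ∈ Star (Gam Φ ξ0 δ M) ξ0, ∀ x, ⟪ξ0, x⟫ = 0 → ∀ t ∈ Icc (0 : ℝ) 1,
      ⟪ξ0 + t • (ξ - ξ0), Y ξ t x⟫ = 0 := fun ξ hξ x hx => by
    refine LB.DV1.zero_of (c := fun t => ‖(⟪ξ0 + t • (ξ - ξ0), ξ - ξ0⟫ +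
      ⟪ξ - ξ0, ξ0 + t • (ξ - ξ0)⟫) / ⟪ξ0 + t • (ξ - ξ0), ξ0 + t • (ξ - ξ0)⟫‖)
      (fun t ht => (line ξ0 (ξ - ξ0) t).inner ℂ (hd ξ hξ x t ht)) (by simp [h0 ξ hξ, hx])
      (((((hl ξ).inner continuous_const).add (continuous_const.inner (hl ξ))).continuousOn.div
        ((hl ξ).inner (hl ξ)).continuousOn fun t ht =>
          inner_self_ne_zero.2 (hξ (sg ξ ht)).1).norm) fun t ht => ?_
    obtain ⟨e1, e2⟩ := S.sol _ (hξ (sg ξ ht)) (ξ - ξ0)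
    have e3 := (e2 _ (perp (hξ (sg ξ ht)).1 (Y ξ t x))).1
    rw [map_sub, e1, inner_sub_right, inner_sub_right (ξ - ξ0), inner_smul_right,
      inner_smul_right] at e3
    rw [← norm_mul]
    refine le_of_eq (congrArg _ ?_)
    linear_combination e3
  have Fp1 : ∀ ξ ∈ Star (Gam Φ ξ0 δ M) ξ0, ∀ x, ⟪ξ0, x⟫ = 0 → ⟪ξ, Y ξ 1 x⟫ = 0 := fun ξ hξ x hx => by
    simpa using Fp ξ hξ x hx 1 (right_mem_Icc.2 zero_le_one)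
  have Hp : ∀ ξ ∈ Star (Gam Φ ξ0 δ M) ξ0, ∀ y, ⟪ξ, y⟫ = 0 → ⟪ξ0, Ring.inverse (Y ξ 1) y⟫ = 0 :=
    fun ξ hξ y hy => perp_back (hξ (left_mem_segment ℝ ξ0 ξ)).1 (star_self hξ).1 (F0 ξ hξ)
      (Fp1 ξ hξ) (by rw [FH ξ hξ, hy])
  refine ⟨fun ξ => Y ξ 1, fun ξ => Ring.inverse (Y ξ 1),
    star_open (isOpen_ball.inter (NB_open R.fin)) ξ0, fun z hz => ?_, S.op, fun ξ h => h.1,
    fun ξ h => h.trans S.sub, hA,
    fun ξ hξ => AnalyticAt.comp (g := Ring.inverse) (analyticAt_inverse (hu ξ hξ).unit) (hA ξ hξ),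
    FH, HF, F0, Fp1, Hp, fun ξ hb y hy => ?_⟩
  · rw [segment_same, mem_singleton_iff] at hz
    rw [hz]
    exact ⟨mem_ball_self R.pos, R.nb⟩
  have hs : ξ ∈ Star (Gam Φ ξ0 δ M) ξ0 := Subset.trans hb S.sub
  have := K4 (Φ := Φ) zero_le_one
    (fun t ht => (hd ξ hs (Ring.inverse (Y ξ 1) y) t ht).continuousAt.continuousWithinAt)
    (fun t ht => hd ξ hs _ t (Ioo_subset_Icc_self ht)) fun t ht => ?_
  · rw [FH ξ hs, h0 ξ hs] at this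
    exact this.symm
  have ht' := Ioo_subset_Icc_self ht
  refine closure_minimal (t := {y | Mn Φ y (L (ξ0 + t • (ξ - ξ0)) (ξ - ξ0) y)}) (fun z hz => ?_)
    ((K5 Φ).preimage (continuous_id.prodMk (ContinuousLinearMap.continuous _)))
    (dense_perp R.pδ (R.sat _ (hb (sg ξ ht')).2) (Fp ξ hs _ (Hp ξ hs y hy) t ht'))
  by_cases hz0 : z = 0
  · intro s
    simp [hz0]
  · refine K1 ((Submodule.smul_mem_iff _ hz.2).1 ?_)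
    rw [((S.sol _ (hs (sg ξ ht')) (ξ - ξ0)).2 z hz.1).2]
    exact R.kil _ (hb (sg ξ ht')).1 z hz0 hz.1 _

end Pool.Agent.Lib.LC
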