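import Pool.Agent.Lib.LC.Blue
import Pool.Agent.Lib.LB.B_DV2

/-! Local Banach problem over the complex numbers: continuation of the infinitesimal identities. -/

set_option autoImplicit false

open Set Filter Topology Metric Module
open scoped ComplexInnerProductSpace

noncomputable section

namespace Pool.Agent.Lib.LC

open Pool.Agent.Lib.LB
open Pool.Agent.Lib.LB.DV2 (an_app an_pol)

namespace DV2

variable {V : Type} [NormedAddCommGroup V] [InnerProductSpace ℂ V]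
  {Φ : Seminorm ℝ V} {ξ0 : V} {A Γ : Set V} {F H : V → V →L[ℝ] V}

theorem an_inner {f g : V → V} {x : V} (hf : AnalyticAt ℝ f x) (hg : AnalyticAt ℝ g x) :
    AnalyticAt ℝ (fun y => ⟪f y, g y⟫) x :=
  ((isBoundedBilinearMap_inner (𝕜 := ℂ) (E := V)).toContinuousLinearMap.analyticAt_bilinear
    (f x, g x)).comp₂ hf hg

theorem an_nsq {f : V → V} {x : V} (hf : AnalyticAt ℝ f x) :
    AnalyticAt ℝ (fun y => ‖f y‖ ^ 2) x := by
  have h := (Complex.reCLM.analyticAt _).comp (an_inner hf hf)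
  refine h.congr (Eventually.of_forall fun y => ?_)
  exact inner_self_eq_norm_sq (𝕜 := ℂ) (f y)

theorem in_smul (y v : V) : ⟪y, y⟫ • v = ‖y‖ ^ 2 • v := by
  rw [inner_self_eq_norm_sq_to_K, ← Complex.coe_smul]
  simp

theorem kilI (hC : Ci Φ) (y : V) : Complex.I • y ∈ Kil Φ y := by
  have h1 : HasDerivAt (fun s : ℝ => (1 : ℝ) ^ 2 + s ^ 2) 0 0 := by
    simpa using (hasDerivAt_pow 2 (0 : ℝ)).const_add ((1 : ℝ) ^ 2)
  have h2 := (h1.sqrt (by norm_num)).mul_const (Φ y)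
  rw [zero_div, zero_mul] at h2
  refine h2.congr_of_eventuallyEq (Eventually.of_forall fun s => ?_)
  beta_reduce
  rw [← Complex.norm_add_mul_I, ← hC, add_smul, mul_smul, Complex.coe_smul, Complex.coe_smul,
    one_smul]

variable [FiniteDimensional ℂ V]

theorem cont (D : Fd Φ ξ0 A Γ F H) (W : Submodule ℝ V) {f : V → V}
    (hf : AnalyticOnNhd ℝ f (Star Γ ξ0)) (h : ∀ ξ ∈ A, f ξ ∈ W) :
    ∀ ξ ∈ Star Γ ξ0, f ξ ∈ W := by
  intro ξ hξ
  rw [← Subspace.forall_mem_dualAnnihilator_apply_eq_zero_iff]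
  intro w hw
  have ha : AnalyticOnNhd ℝ (fun η => w (f η)) (Star Γ ξ0) :=
    fun η hη => ((LinearMap.toContinuousLinearMap w).analyticAt _).comp (hf η hη)
  exact ha.eqOn_zero_of_preconnected_of_eventuallyEq_zero (star_conn Γ ξ0) (D.sub D.mem)
    (mem_of_superset (D.opA.mem_nhds D.mem) fun η hη =>
      (Submodule.mem_dualAnnihilator w).1 hw _ (h η hη)) hξ

theorem curve (D : Fd Φ ξ0 A Γ F H) {ξ y u w : V} (hξ : ξ ∈ A) {c : ℝ → V} (h0 : c 0 = ξ)
    (hc : HasDerivAt c w 0) (hp : ∀ᶠ s in 𝓝 (0 : ℝ), ⟪c s, y + s • u⟫ = 0) (hu : u ∈ Kil Φ y) :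
    fderiv ℝ H ξ w y + H ξ u ∈ Kil Φ (H ξ y) := by
  have h1 : HasFDerivAt H (fderiv ℝ H ξ) (c 0) :=
    h0 ▸ (D.anH ξ (D.sub hξ)).differentiableAt.hasFDerivAt
  have h2 : HasDerivAt (fun s : ℝ => y + s • u) u 0 := by
    simpa using ((hasDerivAt_id (0 : ℝ)).smul_const u).const_add y
  have h3 := (h1.comp_hasDerivAt 0 hc).clm_apply h2
  have h4 := (K2 (Φ := Φ) h3).2 (HasDerivAt.congr_of_eventuallyEq hu (by
    filter_upwards [hp, hc.continuousAt.eventually (D.opA.mem_nhds (h0 ▸ hξ))] with s a b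
    exact D.d1 _ b _ a))
  simpa only [Function.comp, h0, zero_smul, add_zero] using h4

theorem e2 (D : Fd Φ ξ0 A Γ F H) {ξ y μ : V} (hξ : ξ ∈ A) (hy : ⟪ξ, y⟫ = 0)
    (hμ : ⟪μ, y⟫ = 0) : fderiv ℝ H ξ μ y ∈ Kil Φ (H ξ y) := by
  have h2 : HasDerivAt (fun s : ℝ => ξ + s • μ) μ 0 := by
    simpa using ((hasDerivAt_id (0 : ℝ)).smul_const μ).const_add ξ
  have h := curve D (y := y) (u := 0) hξ (by simp) h2 (Eventually.of_forall fun s => by
    simp [inner_smul_left_eq_smul, hy, hμ]) (zero_mem _)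
  rwa [map_zero, add_zero] at h

theorem e3 (D : Fd Φ ξ0 A Γ F H) {ξ y u : V} (hξ : ξ ∈ A) (hy : ⟪ξ, y⟫ = 0) (h0 : y ≠ 0)
    (hu : u ∈ Kil Φ y) :
    ‖y‖ ^ 2 • H ξ u - fderiv ℝ H ξ (⟪u, ξ⟫ • y) y ∈ Kil Φ (H ξ y) := by
  have hn : ⟪y, y⟫ ≠ 0 := inner_self_ne_zero.2 h0
  have hr : HasDerivAt (fun s : ℝ => (s : ℂ)) 1 0 := Complex.ofRealCLM.hasDerivAt
  have hq : DifferentiableAt ℝ (fun s : ℝ => ⟪y, y⟫ + s * ⟪u, y⟫) 0 :=
    (hr.differentiableAt.mul_const _).const_add _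
  have hz : (fun s : ℝ => ⟪y, y⟫ + s * ⟪u, y⟫) 0 ≠ 0 := by simpa using h0
  have hg : DifferentiableAt ℝ (fun s : ℝ => ⟪u, ξ⟫ / (⟪y, y⟫ + s * ⟪u, y⟫)) 0 :=
    (differentiableAt_const _).div hq hz
  have h1 := (((hr.mul hg.hasDerivAt).smul_const y).const_sub ξ)
  have h := curve D (y := y) (u := u) hξ (by simp) h1 (by
    filter_upwards [hq.continuousAt.eventually_ne hz] with s hs
    rw [← inner_conj_symm, map_eq_zero, ← Complex.coe_smul]
    have hy' : ⟪y, ξ⟫ = 0 := inner_eq_zero_symm.1 hy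
    simp only [Pi.mul_apply, inner_sub_right, inner_add_left, inner_smul_left, inner_smul_right,
      hy', Complex.conj_ofReal]
    field_simp
    ring) hu
  have h2 := Submodule.smul_mem _ (‖y‖ ^ 2) h
  have e : ‖y‖ ^ 2 • (⟪u, ξ⟫ / ⟪y, y⟫) • y = ⟪u, ξ⟫ • y := by
    rw [← in_smul, smul_smul, mul_div_cancel₀ _ hn]
  simp only [Complex.ofReal_zero, zero_mul, add_zero, one_mul, map_neg,
    neg_apply, smul_add, smul_neg] at h2
  rw [← e, map_smul, smul_apply]
  rwa [neg_add_eq_sub] at h2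

theorem f2 (D : Fd Φ ξ0 A Γ F H) {ξ y μ : V} (hξ : ξ ∈ Star Γ ξ0) (hy : ⟪ξ, y⟫ = 0)
    (hμ : ⟪μ, y⟫ = 0) : fderiv ℝ H ξ μ y ∈ Kil Φ (H ξ y) := by
  rcases eq_or_ne y 0 with rfl | h0
  · rw [(fderiv ℝ H ξ μ).map_zero]
    exact Submodule.zero_mem _
  have hx := D.Hp ξ hξ y hy
  have h := cont D (Kil Φ (H ξ y)) (f := fun η => fderiv ℝ H η
    (⟪F η (H ξ y), y⟫ • μ - ⟪F η (H ξ y), μ⟫ • y) (F η (H ξ y))) (fun η hη => by
      have a := an_app (D.anF η hη) (analyticAt_const (v := H ξ y))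
      exact an_app (an_app (D.anH η hη).fderiv
        (((an_inner a analyticAt_const).smul analyticAt_const).sub
          ((an_inner a analyticAt_const).smul analyticAt_const))) a) (fun η hη => by
      have a := e2 D (μ := ⟪F η (H ξ y), y⟫ • μ - ⟪F η (H ξ y), μ⟫ • y) hη
        (D.Fp η (D.sub hη) _ hx) (by
          rw [inner_sub_left, inner_smul_left, inner_smul_left, inner_conj_symm, inner_conj_symm]
          ring)
      rwa [D.HF η (D.sub hη)] at a) ξ hξ
  simp only [D.FH ξ hξ, inner_eq_zero_symm.1 hμ, zero_smul, sub_zero, in_smul, map_smul,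
    smul_apply] at h
  exact (Submodule.smul_mem_iff _ (pow_ne_zero 2 (norm_ne_zero_iff.2 h0))).1 h

end DV2

open DV2 in
theorem bDV2 : St_DV2 := by
  intro V _ _ _ Φ ξ0 M A Γ F H hC hM hK D
  refine ⟨fun ξ hξ y μ hy hμ => f2 D hξ hy hμ, fun ξ hξ y h0 hy v => ?_, fun ξ hξ y hy => ?_⟩
  · have hx := D.Hp ξ hξ y hy
    have h := cont D (Kil Φ (H ξ y)) (f := fun η =>
      ‖F η (H ξ y)‖ ^ 2 • H η (M (F η (H ξ y)) v) -
        fderiv ℝ H η (⟪M (F η (H ξ y)) v, η⟫ • F η (H ξ y)) (F η (H ξ y))) (fun η hη => by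
        have a := an_app (D.anF η hη) (analyticAt_const (v := H ξ y))
        have b := an_app ((an_pol hM.choose_spec _).comp a) (analyticAt_const (v := v))
        exact ((an_nsq a).smul (an_app (D.anH η hη) b)).sub
          (an_app (an_app (D.anH η hη).fderiv ((an_inner b analyticAt_id).smul a)) a))
      (fun η hη => by
        have hs := D.sub hη
        have hp := D.Fp η hs _ hx
        have hn : F η (H ξ y) ≠ 0 := fun k => h0 (by
          rw [← D.FH ξ hξ y, ← D.HF η hs (H ξ y), k, map_zero, map_zero])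
        have a := e3 D hη hp hn (hK η hη _ hn hp v)
        rwa [D.HF η hs] at a) ξ hξ
    simpa only [D.FH ξ hξ] using h
  · have hx := D.Hp ξ hξ y hy
    have h := cont D (Kil Φ (H ξ y)) (f := fun η => H η (Complex.I • F η (H ξ y)))
      (fun η hη => an_app (D.anH η hη) ((analyticAt_const (v := Complex.I)).smul
        (an_app (D.anF η hη) analyticAt_const))) (fun η hη => by
        have hp := D.Fp η (D.sub hη) _ hx
        have a := curve D hη rfl (hasDerivAt_const (0 : ℝ) η) (Eventually.of_forall fun s => by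
          rw [inner_add_right, inner_smul_right_eq_smul, inner_smul_right, hp, mul_zero, smul_zero,
            add_zero]) (kilI hC (F η (H ξ y)))
        rwa [map_zero, zero_apply, zero_add, D.HF η (D.sub hη)] at a) ξ hξ
    simpa only [D.FH ξ hξ] using h

end Pool.Agent.Lib.LC
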