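import Pool.Agent.Lib.LC.Blue

/-! Local Banach problem over the complex numbers: what the geometric part uses of the development. -/

set_option autoImplicit false

open Set Filter Topology Metric Module
open scoped ComplexInnerProductSpace ContDiff NNReal

noncomputable section

namespace Pool.Agent.Lib.LC

open Pool.Agent.Lib.LB

namespace DV3

variable {V : Type} [NormedAddCommGroup V] [InnerProductSpace ℂ V]

theorem rs (t : ℝ) (y : V) : t • y = (t : ℂ) • y := (Complex.coe_smul t y).symm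

theorem ks_smul (δ : V → ℝ) (M : V → V →L[ℝ] V) (ξ : V) {t : ℂ} (ht : t ≠ 0) :
    ks δ M (t • ξ) = ks δ M ξ := by
  ext A
  change ((∀ c : ℂ, A (c • t • ξ) = 0) ∧
      ∀ y, ⟪t • ξ, y⟫ = 0 → ⟪t • ξ, A y⟫ = 0 ∧ δ y • A y = M y (A y)) ↔
    ((∀ c : ℂ, A (c • ξ) = 0) ∧ ∀ y, ⟪ξ, y⟫ = 0 → ⟪ξ, A y⟫ = 0 ∧ δ y • A y = M y (A y))
  have h1 : (∀ c : ℂ, A (c • t • ξ) = 0) ↔ ∀ c : ℂ, A (c • ξ) = 0 := by
    refine ⟨fun h c => ?_, fun h c => by rw [smul_smul]; exact h _⟩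
    have := h (c / t)
    rwa [smul_smul, div_mul_cancel₀ _ ht] at this
  rw [h1]
  simp [inner_smul_left, ht]

theorem nb_smul {Bd : Set V} {ξ : V} (h : ξ ∈ NB Bd) {c : ℂ} (hc : c ≠ 0) : c • ξ ∈ NB Bd := by
  refine ⟨smul_ne_zero hc h.1, fun b hb d e => h.2 b hb (c⁻¹ * d) ?_⟩
  rw [mul_smul, ← e, smul_smul, inv_mul_cancel₀ hc, one_smul]

theorem cone {Γ : Set V} {ξ0 ξ : V} (hΓ : ∀ ξ ∈ Γ, ∀ c : ℂ, c ≠ 0 → c • ξ ∈ Γ) (h : ξ ∈ Star Γ ξ0)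
    {s : ℝ} (hs : 0 < s) : s • ξ ∈ Star Γ ξ0 := by
  rintro _ ⟨a, b, ha, hb, hab, rfl⟩
  have hl : 0 < a + b * s := by
    rcases ha.eq_or_lt with rfl | h0
    · rw [zero_add] at hab
      rw [hab]
      linarith
    · have := mul_nonneg hb hs.le
      linarith
  have h1 : (a / (a + b * s)) • ξ0 + (b * s / (a + b * s)) • ξ ∈ Γ :=
    h ⟨_, _, by positivity, by positivity, by field_simp, rfl⟩
  have h2 := hΓ _ h1 ((a + b * s : ℝ) : ℂ) (Complex.ofReal_ne_zero.2 hl.ne')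
  rw [← rs, smul_add, smul_smul, smul_smul, mul_div_cancel₀ _ hl.ne', mul_div_cancel₀ _ hl.ne'] at h2
  rwa [smul_smul]

theorem star_nb {Bd : Set V} {ξ0 ξ : V} {ρ : ℝ} (hρ : 0 < ρ) (h0 : ξ0 ∈ NB Bd)
    (h : ξ ∈ ball ξ0 ρ ∩ Nn Bd ξ0) : ξ ∈ Star (ball ξ0 ρ ∩ NB Bd) ξ0 := by
  intro z hz
  refine ⟨(convex_ball ξ0 ρ).segment_subset (mem_ball_self hρ) h.1 hz, ?_⟩
  obtain ⟨a, b, -, hb, hab, rfl⟩ := hz
  rcases hb.eq_or_lt with rfl | hb0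
  · rw [add_zero] at hab
    rw [hab, one_smul, zero_smul, add_zero]
    exact h0
  · have hb1 : (b : ℂ) ≠ 0 := Complex.ofReal_ne_zero.2 hb0.ne'
    have := nb_smul (h.2 ((a : ℂ) / b)) hb1
    rw [smul_add, smul_smul, mul_div_cancel₀ _ hb1, add_comm] at this
    rwa [rs a, rs b]

variable [FiniteDimensional ℂ V] {Φ : Seminorm ℝ V} {ξ0 : V} {M : V → V →L[ℝ] V} {A Γ Ω : Set V}
  {F H : V → V →L[ℝ] V}

theorem seg (hF : Fd Φ ξ0 A Γ F H) (hE : Fe Φ ξ0 M Γ H) {ξ ξ' y : V}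
    (hs : segment ℝ ξ ξ' ⊆ Star Γ ξ0) (hy : ⟪ξ, y⟫ = 0) (hy' : ⟪ξ', y⟫ = 0) :
    Φ (H ξ y) = Φ (H ξ' y) := by
  have hm : ∀ t ∈ Icc (0 : ℝ) 1, ξ + t • (ξ' - ξ) ∈ Star Γ ξ0 := fun t ht =>
    hs (by rw [segment_eq_image']; exact ⟨t, ht, rfl⟩)
  have hd : ∀ t ∈ Icc (0 : ℝ) 1, HasDerivAt (fun s : ℝ => H (ξ + s • (ξ' - ξ)) y)
      (fderiv ℝ H (ξ + t • (ξ' - ξ)) (ξ' - ξ) y) t := fun t ht => by
    have h1 : HasDerivAt (fun s : ℝ => ξ + s • (ξ' - ξ)) (ξ' - ξ) t := by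
      simpa using ((hasDerivAt_id t).smul_const (ξ' - ξ)).const_add ξ
    have h2 := (hF.anH _ (hm t ht)).differentiableAt.hasFDerivAt.comp_hasDerivAt t h1
    simpa using h2.clm_apply (hasDerivAt_const t y)
  have hμ : ⟪ξ' - ξ, y⟫ = 0 := by rw [inner_sub_left, hy, hy', sub_zero]
  have := K4 (Φ := Φ) (γ := fun s : ℝ => H (ξ + s • (ξ' - ξ)) y)
    (γ' := fun t => fderiv ℝ H (ξ + t • (ξ' - ξ)) (ξ' - ξ) y) zero_le_one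
    (fun t ht => (hd t ht).continuousAt.continuousWithinAt) (fun t ht => hd t (Ioo_subset_Icc_self ht))
    (fun t ht => K1 (hE.d2 _ (hm t (Ioo_subset_Icc_self ht)) y _
      (by rw [inner_add_left, rs, inner_smul_left, hy, hμ]; simp) hμ))
  simpa using this.symm

theorem ci (hE : Fe Φ ξ0 M Γ H) {ξ y : V} (h : ξ ∈ Star Γ ξ0) (hy : ⟪ξ, y⟫ = 0) (c : ℂ) :
    Φ (H ξ (c • y)) = ‖c‖ * Φ (H ξ y) := by
  have hd : ∀ t : ℝ, HasDerivAt (fun s : ℝ => H ξ (Complex.exp (s * Complex.I) • y))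
      (H ξ (Complex.I • Complex.exp (t * Complex.I) • y)) t := fun t => by
    have h1 : HasDerivAt (fun s : ℝ => Complex.exp (s * Complex.I))
        (Complex.exp (t * Complex.I) * Complex.I) t := by
      simpa using ((Complex.ofRealCLM.hasDerivAt (x := t)).mul_const Complex.I).cexp
    have h2 := (H ξ).hasFDerivAt.comp_hasDerivAt t (h1.smul_const y)
    rw [smul_smul, mul_comm]
    exact h2
  have hk : ∀ a b : ℝ, a ≤ b → Φ (H ξ (Complex.exp (b * Complex.I) • y)) =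
      Φ (H ξ (Complex.exp (a * Complex.I) • y)) := fun a b hab =>
    K4 (Φ := Φ) (γ := fun s : ℝ => H ξ (Complex.exp (s * Complex.I) • y))
      (γ' := fun t => H ξ (Complex.I • Complex.exp (t * Complex.I) • y)) hab
      (fun t _ => (hd t).continuousAt.continuousWithinAt) (fun t _ => hd t)
      fun t _ => K1 (hE.d5 ξ h _ (by rw [inner_smul_right, hy, mul_zero]))
  have h0 : Φ (H ξ (Complex.exp (c.arg * Complex.I) • y)) = Φ (H ξ y) := by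
    rcases le_total 0 c.arg with h1 | h1
    · simpa using hk 0 _ h1
    · simpa using (hk _ 0 h1).symm
  have e : c • y = ‖c‖ • Complex.exp (c.arg * Complex.I) • y := by
    rw [rs, smul_smul, Complex.norm_mul_exp_arg_mul_I]
  rw [e, map_smul, map_smul_eq_mul, norm_norm, h0]

theorem kil (hF : Fd Φ ξ0 A Γ F H) (hE : Fe Φ ξ0 M Γ H) (hΩ : IsOpen Ω) (hs : Ω ⊆ Star Γ ξ0) {ζ : V}
    {π : V →L[ℝ] V} (hC : Cp Φ ξ0 H Ω ζ π) {y v : V} (hy : ⟪ζ, y⟫ = 0) (hW : y ∈ Wd Ω)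
    (hv : ⟪ζ, M y v⟫ = 0) : M y v ∈ Kil (Φ.comp (π : V →ₗ[ℝ] V)) y := by
  obtain ⟨h0, ξ, hξ, hξy⟩ := hW
  have hk := hE.d3 ξ (hs hξ) y h0 hξy v
  generalize M y v = u at hk hv
  have hyy : ⟪y, y⟫ ≠ 0 := fun h => h0 (inner_self_eq_zero.1 h)
  have hn : ‖y‖ ^ 2 ≠ 0 := pow_ne_zero 2 (norm_ne_zero_iff.2 h0)
  have h1 : HasDerivAt (fun s : ℝ => y + s • u) u 0 := by
    simpa using ((hasDerivAt_id (0 : ℝ)).smul_const u).const_add y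
  have hc : HasDerivAt (fun s : ℝ => (s : ℂ)) 1 0 := Complex.ofRealCLM.hasDerivAt
  have h2 : HasDerivAt (fun s : ℝ => ⟪y, y⟫ + (s : ℂ) * ⟪u, y⟫) ⟪u, y⟫ 0 := by
    simpa using (hc.mul_const ⟪u, y⟫).const_add ⟪y, y⟫
  have h3 : HasDerivAt (fun s : ℝ => (s : ℂ) * ⟪u, ξ⟫) ⟪u, ξ⟫ 0 := by
    simpa using hc.mul_const ⟪u, ξ⟫
  have h20 : ⟪y, y⟫ + ((0 : ℝ) : ℂ) * ⟪u, y⟫ ≠ 0 := by
    rw [Complex.ofReal_zero, zero_mul, add_zero]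
    exact hyy
  have h4 : HasDerivAt (fun s : ℝ => (s : ℂ) * ⟪u, ξ⟫ / (⟪y, y⟫ + (s : ℂ) * ⟪u, y⟫))
      (⟪u, ξ⟫ / ⟪y, y⟫) 0 := by
    refine (h3.div h2 h20).congr_deriv ?_
    simp only [Complex.ofReal_zero, zero_mul, add_zero, sub_zero]
    field_simp
  have h5 : HasDerivAt (fun s : ℝ => ξ - ((s : ℂ) * ⟪u, ξ⟫ / (⟪y, y⟫ + (s : ℂ) * ⟪u, y⟫)) • y)
      (-((⟪u, ξ⟫ / ⟪y, y⟫) • y)) 0 := (h4.smul_const y).const_sub ξ
  have e0 : ξ = (fun s : ℝ => ξ - ((s : ℂ) * ⟪u, ξ⟫ / (⟪y, y⟫ + (s : ℂ) * ⟪u, y⟫)) • y) 0 := by simp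
  have h6 := (hF.anH _ (hs hξ)).differentiableAt.hasFDerivAt.comp_hasDerivAt_of_eq 0 h5 e0
  have h7 := h6.clm_apply h1
  have h8 : fderiv ℝ H ξ (-((⟪u, ξ⟫ / ⟪y, y⟫) • y)) y + H ξ u ∈ Kil Φ (H ξ y) := by
    have e1 : (⟪u, ξ⟫ / ⟪y, y⟫) • y = (‖y‖ ^ 2)⁻¹ • ⟪u, ξ⟫ • y := by
      rw [rs, smul_smul, inner_self_eq_norm_sq_to_K, div_eq_inv_mul]
      simp
    have e : fderiv ℝ H ξ (-((⟪u, ξ⟫ / ⟪y, y⟫) • y)) y + H ξ u =
        (‖y‖ ^ 2)⁻¹ • (‖y‖ ^ 2 • H ξ u - fderiv ℝ H ξ (⟪u, ξ⟫ • y) y) := by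
      rw [e1, smul_sub, smul_smul, inv_mul_cancel₀ hn, one_smul, map_neg, map_smul, neg_apply, smul_apply]
      abel
    rw [e]
    exact Submodule.smul_mem _ _ hk
  have h9 := (K2 (Φ := Φ) h7).1 (by simpa using h8)
  refine mem_Kil.2 (h9.congr_of_eventuallyEq ?_)
  have g1 : ∀ᶠ s : ℝ in 𝓝 0, ξ - ((s : ℂ) * ⟪u, ξ⟫ / (⟪y, y⟫ + (s : ℂ) * ⟪u, y⟫)) • y ∈ Ω :=
    h5.continuousAt.eventually_mem (hΩ.mem_nhds (by simpa using hξ))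
  have g2 : ∀ᶠ s : ℝ in 𝓝 0, ⟪y, y⟫ + (s : ℂ) * ⟪u, y⟫ ≠ 0 := h2.continuousAt.eventually_ne h20
  have hyξ : ⟪y, ξ⟫ = 0 := inner_eq_zero_symm.1 hξy
  filter_upwards [g1, g2] with s a1 a2
  refine hC.t1 _ a1 (y + s • u) ?_ (by rw [inner_add_right, rs, inner_smul_right, hy, hv]; simp)
  rw [inner_eq_zero_symm, inner_sub_right, inner_smul_right, inner_add_left, inner_add_left, rs,
    inner_smul_left, inner_smul_left, Complex.conj_ofReal, hyξ, div_mul_cancel₀ _ a2]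
  ring

omit [FiniteDimensional ℂ V] in
theorem iso {ζ : V} {π : V →L[ℝ] V} (hu : IsUnit π) (h0 : ξ0 ≠ 0) (hz : ζ ≠ 0) (hC : Cp Φ ξ0 H Ω ζ π) :
    Iso Φ ξ0 (Φ.comp (π : V →ₗ[ℝ] V)) ζ := by
  obtain ⟨p, rfl⟩ := hu
  have a1 : ∀ x, (p : V →L[ℝ] V) (((p⁻¹ : (V →L[ℝ] V)ˣ) : V →L[ℝ] V) x) = x := fun x => by
    rw [← mul_apply_eq_comp, p.mul_inv, one_apply_eq_self]
  have a2 : ∀ x, ((p⁻¹ : (V →L[ℝ] V)ˣ) : V →L[ℝ] V) ((p : V →L[ℝ] V) x) = x := fun x => by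
    rw [← mul_apply_eq_comp, p.inv_mul, one_apply_eq_self]
  refine ⟨((p⁻¹ : (V →L[ℝ] V)ˣ) : V →L[ℝ] V), p⁻¹.isUnit, fun c => by rw [← hC.H0, a2],
    fun x hx => ⟨?_, ?_⟩⟩
  · generalize hw : ((p⁻¹ : (V →L[ℝ] V)ˣ) : V →L[ℝ] V) x = w
    have hx' : (p : V →L[ℝ] V) w = x := by rw [← hw, a1]
    have hzz : ⟪ζ, ζ⟫ ≠ 0 := fun h => hz (inner_self_eq_zero.1 h)
    have h1 := hC.Hp (w - (⟪ζ, w⟫ / ⟪ζ, ζ⟫) • ζ)
      (by rw [inner_sub_right, inner_smul_right, div_mul_cancel₀ _ hzz, sub_self])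
    rw [map_sub, hx', hC.H0, inner_sub_right, inner_smul_right, hx, zero_sub, neg_eq_zero,
      mul_eq_zero, div_eq_zero_iff] at h1
    rcases h1 with (h1 | h1) | h1
    · exact h1
    · exact absurd h1 hzz
    · exact absurd (inner_self_eq_zero.1 h1) h0
  · exact congrArg Φ (a1 x)

end DV3

theorem bDV3 (hGDIM : St_GDIM) (hKG : St_KG) : St_DV3 := by
  intro V _ _ _ Φ ξ0 δ M ρ G Bd L F H hR hS hF hE
  have h00 : ξ0 ≠ 0 := hR.nb.1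
  have sc : ∀ ξ ∈ Gam Φ ξ0 δ M, ∀ c : ℂ, c ≠ 0 → c • ξ ∈ Gam Φ ξ0 δ M := fun ξ hξ c hc =>
    ⟨smul_ne_zero hc hξ.1, by rw [DV3.ks_smul δ M ξ hc]; exact hξ.2⟩
  have un : ∀ ξ ∈ Star (Gam Φ ξ0 δ M) ξ0, IsUnit (H ξ) := fun ξ hξ =>
    ⟨⟨H ξ, F ξ, ContinuousLinearMap.ext (hF.HF ξ hξ), ContinuousLinearMap.ext (hF.FH ξ hξ)⟩, rfl⟩
  refine ⟨⟨hR.pos, hR.fin, hR.nb, hS.op, sc, hS.sub⟩, fun ξ hξ => (hF.anH ξ hξ).continuousAt, un, hF.Hp,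
    fun ξ hξ y hy c => DV3.ci hE hξ hy c, fun ξ ξ' hs y hy hy' => DV3.seg hF hE hs hy hy', ?_,
    fun ξ hξ => hF.d1 ξ (DV3.star_nb hR.pos hR.nb hξ), fun Ω h1 h2 h3 hs => ?_,
    fun Ω hΩ hs ζ hζ π hu hC hd => ?_⟩
  · obtain ⟨η, hη, hb⟩ := Metric.isOpen_iff.1 hF.opA ξ0 hF.mem
    refine ⟨η, hη, fun t ht ξ hξ y hy => ?_⟩
    have h1 : t⁻¹ • ξ ∈ ball ξ0 η := by
      have e : t⁻¹ • ξ - ξ0 = t⁻¹ • (ξ - t • ξ0) := by
        rw [smul_sub, smul_smul, inv_mul_cancel₀ ht.ne', one_smul]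
      rw [mem_ball, dist_eq_norm, e, norm_smul, norm_inv, Real.norm_of_nonneg ht.le, ← div_eq_inv_mul,
        div_lt_iff₀ ht]
      exact hξ
    have h2 : ⟪t⁻¹ • ξ, y⟫ = 0 := by rw [DV3.rs, inner_smul_left, hy, mul_zero]
    rw [← hF.d1 _ (hb h1) y h2]
    refine DV3.seg hF hE ?_ hy h2
    rintro _ ⟨a, b, ha, hb', hab, rfl⟩
    have hl : 0 < a * t + b := by
      rcases hb'.eq_or_lt with rfl | h0
      · rw [add_zero] at hab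
        rw [hab]
        linarith
      · have := mul_nonneg ha ht.le
        linarith
    have e : a • ξ + b • t⁻¹ • ξ = (a * t + b) • t⁻¹ • ξ := by
      rw [add_smul, smul_smul (a * t), mul_assoc, mul_inv_cancel₀ ht.ne', mul_one]
    rw [e]
    exact DV3.cone sc (hF.sub (hb h1)) hl
  · refine ⟨h1, h2, h3, h00, fun ξ hξ => (hF.anH ξ (hs hξ)).continuousAt, fun ξ hξ => un ξ (hs hξ),
      fun ξ hξ c => ?_, fun ξ hξ => hF.Hp ξ (hs hξ), fun ξ hξ y hy c => DV3.ci hE (hs hξ) hy c,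
      fun ξ hξ ξ' hξ' y => DV3.seg hF hE ((h2.segment_subset hξ hξ').trans hs)⟩
    have := hF.HF ξ (hs hξ) (c • ξ0)
    rwa [hF.F0 ξ (hs hξ)] at this
  · refine ⟨hζ.1, le_antisymm ?_ (hS.le ζ hζ.1)⟩
    rw [← hGDIM V Φ _ ξ0 ζ h00 (DV3.iso hu h00 hζ.1 hC)]
    exact Submodule.finrank_mono (hKG V _ δ M ζ _ hR.pδ (hR.sat ζ hζ) (fun y hy => hy.1) hd
      fun y hy v hv => DV3.kil hF hE hΩ hs hC hy.1 hy.2 hv)

end Pool.Agent.Lib.LC
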