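import Pool.Agent.Lib.LC.Blue
import Pool.Agent.Lib.LB.B_EU1
import Pool.Agent.Lib.LB.B_EU2

/-! Local Banach problem over the complex numbers, row EU2: one quadratic form for a connected
family. -/

set_option autoImplicit false

open Set Filter Topology Metric Module

noncomputable section

namespace Pool.Agent.Lib.LC

open Pool.Agent.Lib.LB.EU2 (ext pos)

universe u v

namespace EU2

variable {E : Type u} {V : Type v} [NormedAddCommGroup E] [NormedSpace ℂ E] [NormedAddCommGroup V]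
  [NormedSpace ℂ V]

/-- The images of the maps near `T` cover a neighbourhood of `T x`. -/
theorem cover {p : V → Prop} {T : E →L[ℂ] V} {x : E} (hx : x ≠ 0)
    (h : ∀ᶠ S in 𝓝 T, ∀ w, p (S w)) : ∀ᶠ y in 𝓝 (T x), p y := by
  obtain ⟨φ, -, hφ⟩ := exists_dual_vector ℂ x (norm_ne_zero_iff.2 hx)
  replace hφ : φ x = (‖x‖ : ℂ) := hφ
  have c : Tendsto (fun y : V => T + φ.smulRight ((‖x‖ : ℂ)⁻¹ • (y - T x))) (𝓝 (T x)) (𝓝 T) :=
    (continuous_const.add ((ContinuousLinearMap.smulRightL ℂ E V φ).continuous.comp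
      (by fun_prop : Continuous fun y : V => (‖x‖ : ℂ)⁻¹ • (y - T x)))).tendsto' _ _ (by simp)
  filter_upwards [c.eventually h] with y hy
  have := hy x
  rwa [add_apply, ContinuousLinearMap.smulRight_apply, hφ, smul_smul, mul_inv_cancel₀
    (Complex.ofReal_ne_zero.2 (norm_ne_zero_iff.2 hx)), one_smul, add_sub_cancel] at this

/-- One quadratic form near a point. -/
theorem one [FiniteDimensional ℂ E] (T : E →L[ℂ] V) (h3 : 3 ≤ finrank ℂ E)
    (hT : ∀ᶠ S : E →L[ℂ] V in 𝓝 T, ∃ b : E →ₗ[ℝ] E →ₗ[ℝ] ℝ, ∀ x, ‖S x‖ ^ 2 = b x x) :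
    ∃ (B : V →ₗ[ℝ] V →ₗ[ℝ] ℝ) (x : E) (ε : ℝ), 0 < ε ∧ (∀ y z, B y z = B z y) ∧
      ∀ y, ‖y - T x‖ < ε → ‖y‖ ^ 2 = B y y := by
  let e := fun i : Fin 3 => Module.finBasis ℂ E (i.castLE h3)
  let φ : Fin 3 → E →L[ℂ] ℂ := fun i =>
    LinearMap.toContinuousLinearMap ((Module.finBasis ℂ E).coord (i.castLE h3))
  have hφ : ∀ i k, φ i (e k) = if k = i then 1 else 0 := fun i k => by
    simp [φ, e, Finsupp.single_apply]
  let j : (Fin 3 → ℝ) →L[ℝ] E := ∑ i, (ContinuousLinearMap.proj i).smulRight (e i)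
  have hj : ∀ k, j (Pi.single k 1) = e k := fun k => by
    simp [j, Pi.single_apply]
  let F : ((Fin 3 → ℝ) →L[ℝ] V) → E →L[ℂ] V := fun R =>
    T + ∑ i, (φ i).smulRight (R (Pi.single i 1) - T (e i))
  have hF : ∀ R, (F R).restrictScalars ℝ ∘L j = R := fun R =>
    ContinuousLinearMap.coe_injective ((Pi.basisFun ℝ (Fin 3)).ext fun k => by
      simp [F, hj, hφ])
  have c : Tendsto F (𝓝 (T.restrictScalars ℝ ∘L j)) (𝓝 T) :=
    (continuous_const.add (continuous_finsetSum _ fun i _ =>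
      (ContinuousLinearMap.smulRightL ℂ E V (φ i)).continuous.comp
        (by fun_prop : Continuous fun R : (Fin 3 → ℝ) →L[ℝ] V =>
          R (Pi.single i 1) - T (e i)))).tendsto' _ _ (by simp [hj])
  obtain ⟨r, r0, hr⟩ := Metric.eventually_nhds_iff.1 (c.eventually hT)
  obtain ⟨B, x, ε, -, ε0, hs, hB⟩ := LB.bEU1 (Fin 3 → ℝ) V (T.restrictScalars ℝ ∘L j) r
    (by simp) r0 fun R hR => by
      obtain ⟨b, hb⟩ := hr (y := R) (by rwa [dist_eq_norm])
      exact ⟨b.compl₁₂ j j, fun x => by rw [← hF R]; exact hb (j x)⟩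
  exact ⟨B, j x, ε, ε0, hs, hB⟩

end EU2

open EU2 in
theorem bEU2 : St_EU2.{u, v} := by
  intro E V _ _ _ _ _ U h3 hU hc ⟨T₀, h0⟩ hb
  have loc : ∀ T ∈ U, ∃ B : V →ₗ[ℝ] V →ₗ[ℝ] ℝ, (∀ y z, B y z = B z y) ∧
      ∀ᶠ S in 𝓝 T, ∀ w, ‖S w‖ ^ 2 = B (S w) (S w) := fun T hT => by
    obtain ⟨B, x, ε, ε0, hs, hB⟩ := one T h3 (mem_of_superset (hU.mem_nhds hT) hb)
    refine ⟨B, hs, ?_⟩
    have c : ContinuousAt (fun S : E →L[ℂ] V => S x) T := by fun_prop
    filter_upwards [hU.mem_nhds hT, c.eventually (ball_mem_nhds _ ε0)] with S hS h w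
    obtain ⟨b, hb'⟩ := hb S hS
    rw [hb']
    refine ext (B' := B.compl₁₂ (S.restrictScalars ℝ) (S.restrictScalars ℝ)) (y := x) ?_ w
    filter_upwards [S.continuous.continuousAt.eventually (isOpen_ball.mem_nhds h)] with y hy
    rw [← hb']
    exact hB _ (mem_ball_iff_norm.1 hy)
  have x0 := (Module.finBasis ℂ E).ne_zero ⟨0, by omega⟩
  obtain ⟨B, hs, hB⟩ := loc T₀ h0
  refine ⟨B, hs, pos (cover (p := fun y => ‖y‖ ^ 2 = B y y) x0 hB), fun T hT => ?_⟩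
  have key := hc.subset_of_closure_inter_subset
    (u := {T : E →L[ℂ] V | ∀ᶠ S : E →L[ℂ] V in 𝓝 T, ∀ w : E, ‖S w‖ ^ 2 = B (S w) (S w)})
    isOpen_setOfPred_eventually_nhds
    ⟨T₀, h0, hB⟩ fun T' hT' => by
      obtain ⟨B', -, hB'⟩ := loc T' hT'.2
      obtain ⟨S, a1, a2⟩ := mem_closure_iff_nhds.1 hT'.1 _ hB'.eventually_nhds
      have e := ext ((cover (p := fun y => B' y y = B y y) x0
        ((a1.and a2).mono fun R hR w => (hR.1 w).symm.trans (hR.2 w))))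
      exact hB'.mono fun R hR w => (hR w).trans (e _)
  exact (key hT).self_of_nhds

end Pool.Agent.Lib.LC
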