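import Pool.Agent.Lib.LC.Basic

/-! Local Banach problem over the complex numbers: exposed points of the dual cone are killed. -/

set_option autoImplicit false

open Set Filter Topology Metric Module
open scoped ComplexInnerProductSpace

noncomputable section

namespace Pool.Agent.Lib.LC

open Pool.Agent.Lib.LB

theorem bEX1 (hKER : St_KER) (hDUAL : St_DUAL) : St_EX1 := by
  intro V _ _ _ Φ ξ0 ρ Bd Γ H Ω B ζ p h3 hΦ hD hO bo bc bn ba hζ hcl hno hp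
  obtain ⟨-, -, d3, -, d5, -⟩ := hDUAL V ξ0 Ω hO.oc
  obtain ⟨τ, hτ⟩ := hO.bd ζ hcl hno (bn hζ)
  have hB := ba ζ hζ ((τ : ℂ) * Complex.I)
  have hc : ζ + ((τ : ℂ) * Complex.I) • ξ0 ∈ closure Ω :=
    map_mem_closure (f := fun x => x + ((τ : ℂ) * Complex.I) • ξ0) (by fun_prop) hcl
      fun x hx => hO.oc.ad x hx _ (by simp)
  have e : ∀ q, ⟪ξ0, q⟫ = 1 → (⟪ζ + ((τ : ℂ) * Complex.I) • ξ0, q⟫).re = (⟪ζ, q⟫).re := fun q hq => by
    rw [inner_add_left, inner_smul_left, hq]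
    simp
  refine ⟨τ, hτ, ?_⟩
  generalize ζ + ((τ : ℂ) * Complex.I) • ξ0 = ζ' at hτ hB hc e
  refine hKER V Φ ξ0 ρ Bd Γ H (Ω ∩ B) ζ' p h3 hΦ hD (hO.oc.op.inter bo) (hO.oc.cv.inter bc)
    (fun x hx => hO.st ⟨hx.1, bn hx.2⟩) (bo.closure_inter ⟨hc, hB⟩) (Nn_nb (bn hB)) hτ
    fun y hy hpos => ?_
  have hK : y ∈ Kd Ω := fun ξ hξ => by
    have c1 : ContinuousAt (fun s : ℝ => ζ' + s • ξ) 0 := by fun_prop
    have h1 : ∀ᶠ s in 𝓝 (0 : ℝ), ζ' + s • ξ ∈ B := c1.eventually (bo.mem_nhds (by simpa using hB))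
    obtain ⟨s, hs, s0⟩ := ((h1.filter_mono (nhdsWithin_le_nhds (s := Ioi 0))).and
      self_mem_nhdsWithin).exists
    have h2 := hpos _ ⟨d5 ζ' hc _ (hO.oc.sc ξ hξ s s0), hs⟩
    rw [inner_add_left, hy, zero_add, inner_rl, Complex.re_ofReal_mul] at h2
    exact (mul_nonneg_iff_of_pos_left s0).1 h2
  rcases d3 y hK with h | ⟨q, hq, t, ht, rfl⟩
  · exact ⟨0, by rw [h, zero_smul]⟩
  rw [inner_rr, mul_eq_zero, or_iff_right (Complex.ofReal_ne_zero.2 ht.ne')] at hy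
  rw [hp q hq (by rw [← e q hq.2, hy, Complex.zero_re])]
  exact ⟨t, (Complex.coe_smul t p).symm⟩

end Pool.Agent.Lib.LC
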