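import Pool.Agent.Lib.LC.Blue

/-! Block EXP: a maximiser on the base of the dual cone spans a killing direction. -/

set_option autoImplicit false

open Set Filter Topology Metric Module
open scoped ComplexInnerProductSpace ComplexConjugate

noncomputable section

namespace Pool.Agent.Lib.LC

open Pool.Agent.Lib.LB

namespace EXP

variable {V : Type} [NormedAddCommGroup V] [InnerProductSpace ℂ V]

theorem nn_add {Bd : Set V} {ξ0 ξ : V} (h : ξ ∈ Nn Bd ξ0) (u : ℂ) : ξ + u • ξ0 ∈ Nn Bd ξ0 :=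
  fun a => by
    rw [add_assoc, ← add_smul]
    exact h _

theorem nn_neg {Bd : Set V} {ξ0 ξ : V} (h : ξ ∈ Nn Bd ξ0) : -ξ ∈ Nn Bd ξ0 := fun a => by
  have e : -ξ + a • ξ0 = -(ξ + (-a) • ξ0) := by
    rw [neg_smul]
    abel
  rw [e]
  refine ⟨neg_ne_zero.2 (h _).1, fun b hb c hc => (h (-a)).2 b hb (-c) ?_⟩
  rw [neg_smul c, ← hc, neg_neg]

theorem nn_open [FiniteDimensional ℂ V] {Bd : Set V} (hB : Bd.Finite) (ξ0 : V) :
    IsOpen (Nn Bd ξ0) := by
  have e : Nn Bd ξ0 = (⋃ b ∈ insert 0 Bd, (Submodule.span ℂ {ξ0, b} : Set V))ᶜ := by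
    ext ξ
    simp only [mem_compl_iff, mem_iUnion, SetLike.mem_coe, Submodule.mem_span_pair, not_exists]
    constructor
    · rintro h b hb a c rfl
      have k : a • ξ0 + c • b + (-a) • ξ0 = c • b := by
        rw [neg_smul]
        abel
      rcases hb with rfl | hb
      · exact (h (-a)).1 (by rw [k, smul_zero])
      · exact (h (-a)).2 b hb c k
    · intro h a
      refine ⟨fun k => h 0 (mem_insert _ _) (-a) 0 ?_,
        fun b hb c k => h b (mem_insert_of_mem _ hb) (-a) c ?_⟩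
      · rw [smul_zero, add_zero, neg_smul, neg_eq_iff_add_eq_zero, add_comm, k]
      · rw [← k, neg_smul]
        abel
  rw [e]
  exact ((hB.insert 0).isClosed_biUnion fun b _ => Submodule.closed_of_finiteDimensional _).isOpen_compl

theorem exposed {l p y : V} {t : ℝ}
    (h : (⟪l, y⟫).re + t / 2 * ‖y‖ ^ 2 ≤ (⟪l, p⟫).re + t / 2 * ‖p‖ ^ 2) :
    (⟪l + (t : ℂ) • p, y⟫).re + t / 2 * ‖p - y‖ ^ 2 ≤ (⟪l + (t : ℂ) • p, p⟫).re := by
  have e : (⟪p, p⟫).re = ‖p‖ ^ 2 := inner_self_eq_norm_sq (𝕜 := ℂ) p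
  have e2 : ‖p - y‖ ^ 2 = ‖p‖ ^ 2 - 2 * (⟪p, y⟫).re + ‖y‖ ^ 2 := norm_sub_sq (𝕜 := ℂ) p y
  rw [inner_add_left, inner_add_left, inner_smul_left, inner_smul_left, Complex.conj_ofReal,
    Complex.add_re, Complex.add_re, Complex.re_ofReal_mul, Complex.re_ofReal_mul, e, e2]
  linarith

/-- A vector killed by a compatible map is a killing direction. -/
theorem kil {Φ : Seminorm ℝ V} {ξ0 : V} {H : V → V →L[ℝ] V} {Ω A : Set V} (hA : IsOpen A)
    (hb : A ⊆ Ω) (hd : ∀ ξ ∈ A, ∀ y, ⟪ξ, y⟫ = 0 → Φ (H ξ y) = Φ y) {ξ ζ p x : V} (hξ : ξ ∈ A)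
    {π : V →L[ℝ] V} (hcp : Cp Φ ξ0 H Ω ζ π) (hπ : π p = 0) (hζp : ⟪ζ, p⟫ = 0)
    (hx : x ≠ 0) (hx0 : ⟪ξ, x⟫ = 0) (hζx : ⟪ζ, x⟫ = 0) : p ∈ Kil Φ x := by
  have hxx : ⟪x + (0 : ℝ) • p, x⟫ ≠ 0 := by
    rw [zero_smul, add_zero]
    exact fun h => hx (inner_self_eq_zero.1 h)
  have c0 : Continuous fun s : ℝ => x + s • p := by fun_prop
  have c1 : ∀ v : V, Continuous fun s : ℝ => ⟪x + s • p, v⟫ := fun v => c0.inner continuous_const
  have c2 : ContinuousAt (fun s : ℝ => ξ - (⟪x + s • p, ξ⟫ / ⟪x + s • p, x⟫) • x) 0 :=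
    continuousAt_const.sub (((c1 ξ).continuousAt.div (c1 x).continuousAt hxx).smul
      continuousAt_const)
  have e1 : ∀ᶠ s in 𝓝 (0 : ℝ), ⟪x + s • p, x⟫ ≠ 0 := (c1 x).continuousAt.eventually_ne hxx
  have e2 : ∀ᶠ s in 𝓝 (0 : ℝ), ξ - (⟪x + s • p, ξ⟫ / ⟪x + s • p, x⟫) • x ∈ A := by
    refine c2.eventually_mem ?_
    simpa [inner_eq_zero_symm.1 hx0] using hA.mem_nhds hξ
  have h0 : Φ (π x) = Φ x := by rw [hcp.t1 ξ (hb hξ) x hx0 hζx, hd ξ hξ x hx0]
  refine K8 ?_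
  filter_upwards [e1, e2] with s h1 h2
  have a1 : ⟪ξ - (⟪x + s • p, ξ⟫ / ⟪x + s • p, x⟫) • x, x + s • p⟫ = 0 := by
    rw [inner_eq_zero_symm, inner_sub_right, inner_smul_right, div_mul_cancel₀ _ h1, sub_self]
  have a2 : ⟪ζ, x + s • p⟫ = 0 := by
    rw [inner_add_right, inner_smul_right_eq_smul, hζx, hζp, smul_zero, add_zero]
  have a3 := hcp.t1 _ (hb h2) _ a1 a2
  rw [hd _ h2 _ a1, map_add, map_smul, hπ, smul_zero, add_zero, h0] at a3
  exact a3.symm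

end EXP

open EXP in
theorem bEXP (hLIM : St_LIM) (hLB : St_LB) (hEX1 : St_EX1) (hDUAL : St_DUAL) : St_EXP := by
  intro V _ _ _ Φ ξ0 ρ Bd Γ H Ω h3 hDf hDv hΩ hne l hl
  obtain ⟨d1, d2, d3, hK, -⟩ := hDUAL V ξ0 Ω hΩ.oc
  obtain ⟨r, r0, hr⟩ := Metric.isOpen_iff.1 (nn_open hDv.gm.fin ξ0) _ (nn_neg hl)
  set B : Set V := {η | ∃ u : ℂ, η + u • ξ0 ∈ ball (-l) r} with hB
  have B1 : IsOpen B := by
    rw [hB, ofPred_exists]
    exact isOpen_iUnion fun u => isOpen_ball.preimage (by fun_prop)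
  have B2 : Convex ℝ B := by
    rintro x ⟨u, hu⟩ y ⟨v, hv⟩ a b ha hb hab
    refine ⟨a * u + b * v, ?_⟩
    have := convex_ball _ _ hu hv ha hb hab
    rwa [smul_add, smul_add, add_add_add_comm, ← smul_assoc, ← smul_assoc, ← add_smul,
      Complex.real_smul, Complex.real_smul] at this
  have B3 : B ⊆ Nn Bd ξ0 := by
    rintro x ⟨u, hu⟩
    have := nn_add (hr hu) (-u)
    rwa [neg_smul, add_neg_cancel_right] at this
  have B4 : ∀ η ∈ B, ∀ u : ℂ, η + u • ξ0 ∈ B := by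
    rintro x ⟨u, hu⟩ v
    exact ⟨u - v, by rwa [add_assoc, ← add_smul, add_sub_cancel]⟩
  obtain ⟨R, R0, hR⟩ := hK.isBounded.exists_pos_norm_lt
  let t : ℕ → ℝ := fun n => r / R * (1 / ((n : ℝ) + 1))
  have ht : ∀ n, 0 < t n := fun n => by positivity
  have ht1 : ∀ n, t n ≤ r / R := fun n => mul_le_of_le_one_right (by positivity)
    (by rw [div_le_one (by positivity)]; linarith [n.cast_nonneg (α := ℝ)])
  have ht0 : Tendsto t atTop (𝓝 0) := by
    have := tendsto_one_div_add_atTop_nhds_zero_nat.const_mul (r / R)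
    rwa [mul_zero] at this
  have hex : ∀ n, ∃ p ∈ Kb Ω ξ0, ∀ y ∈ Kb Ω ξ0,
      (⟪l, y⟫).re + t n / 2 * ‖y‖ ^ 2 ≤ (⟪l, p⟫).re + t n / 2 * ‖p‖ ^ 2 := fun n => by
    have hc : Continuous fun y : V => (⟪l, y⟫).re + t n / 2 * ‖y‖ ^ 2 :=
      (Complex.continuous_re.comp (continuous_const.inner continuous_id)).add
        (continuous_const.mul (continuous_norm.pow 2))
    obtain ⟨p, hp, hm⟩ := hK.exists_isMaxOn hne hc.continuousOn
    exact ⟨p, hp, fun y hy => hm hy⟩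
  choose p hpK hp using hex
  have hπ : ∀ n, ∃ π, (⟪p n, l + (t n : ℂ) • p n⟫ • ξ0 - (l + (t n : ℂ) • p n), π) ∈
      Gr (Ω ∩ B) H ∧ ∀ c : ℂ, π (c • p n) = 0 := fun n => by
    have ex := fun y hy => exposed (hp n y hy)
    set m := l + (t n : ℂ) • p n with hm
    have v : ∀ y ∈ Kb Ω ξ0, (⟪((⟪m, p n⟫).re : ℂ) • ξ0 - m, y⟫).re =
        (⟪m, p n⟫).re - (⟪m, y⟫).re := fun y hy => by
      rw [inner_sub_left, inner_smul_left, hy.2, Complex.conj_ofReal, mul_one, Complex.sub_re,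
        Complex.ofReal_re]
    have p0 : p n ≠ 0 := fun h => by simpa [h] using (hpK n).2
    obtain ⟨τ, -, e, π, -, a, b⟩ := hEX1 V Φ ξ0 ρ Bd Γ H Ω B (((⟪m, p n⟫).re : ℂ) • ξ0 - m) (p n)
      h3 hDf hDv hΩ B1 B2 B3 B4 ⟨-((⟪m, p n⟫).re : ℂ), by
        rw [neg_smul, ← sub_eq_add_neg, sub_sub_cancel_left, mem_ball, dist_neg_neg, hm,
          dist_self_add_left, norm_smul, Complex.norm_real, Real.norm_of_nonneg (ht n).le]
        calc _ < r / R * R := mul_lt_mul' (ht1 n) (hR _ (hpK n)) (norm_nonneg _) (by positivity)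
          _ = r := by field_simp⟩
      ((d1 _).2 fun y' hy' => by
        rcases d3 y' hy' with rfl | ⟨y, hy, s, s0, rfl⟩
        · simp
        rw [inner_smul_right_eq_smul, Complex.smul_re, v y hy]
        have := ex y hy
        have := ht n
        exact mul_nonneg s0.le (by nlinarith [sq_nonneg ‖p n - y‖]))
      (fun h => by
        have := d2 _ (hpK n).1 p0 _ h
        rw [v _ (hpK n), sub_self] at this
        exact lt_irrefl _ this) fun y hy e => by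
        rw [v y hy] at e
        have a := ex y hy
        have b : ‖p n - y‖ ^ 2 ≤ 0 := by nlinarith [ht n]
        exact (sub_eq_zero.1 (norm_eq_zero.1 (pow_eq_zero_iff two_ne_zero |>.1
          (le_antisymm b (sq_nonneg _))))).symm
    refine ⟨π, ?_, b⟩
    have k : ((⟪m, p n⟫).re : ℂ) • ξ0 - m + ((τ : ℂ) * Complex.I) • ξ0 =
        (((⟪m, p n⟫).re : ℂ) + τ * Complex.I) • ξ0 - m := by
      rw [add_smul]
      abel
    rw [k] at e a
    rw [inner_eq_zero_symm, inner_sub_right, inner_smul_right, ← inner_conj_symm (p n) ξ0,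
      (hpK n).2, map_one, mul_one, sub_eq_zero] at e
    rwa [e] at a
  choose π hπG hπ0 using hπ
  obtain ⟨q, hqK, φ, hφ, hq⟩ := hK.tendsto_subseq hpK
  have hq' : Tendsto (fun n => p (φ n)) atTop (𝓝 q) := hq
  have htφ : Tendsto (fun n => t (φ n)) atTop (𝓝 0) := ht0.comp hφ.tendsto_atTop
  have hl' : Tendsto (fun n => l + (t (φ n) : ℂ) • p (φ n)) atTop (𝓝 l) := by
    simpa using (((Complex.continuous_ofReal.tendsto 0).comp htφ).smul hq').const_add l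
  have hu := ((hq'.inner (𝕜 := ℂ) hl').smul_const ξ0).sub hl'
  have hζ : ⟪q, l⟫ • ξ0 - l ≠ 0 := by
    rw [sub_eq_neg_add]
    exact (nn_neg hl _).1
  obtain ⟨η, η0, hη⟩ := hDv.d0
  have ρ0 := hDv.gm.pos
  set s : ℝ := (‖l‖ + 1) / min η ρ with hs
  have m0 : 0 < min η ρ := lt_min η0 ρ0
  have s0 : 0 < s := by positivity
  have s1 : ‖l‖ < min η ρ * s := by
    rw [hs, mul_div_cancel₀ _ m0.ne']
    linarith
  have x1 : -l + (s : ℂ) • ξ0 ∈ Ω ∩ B := by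
    refine ⟨?_, B4 _ ⟨0, by simpa using r0⟩ _⟩
    have := hΩ.oc.sc _ (hΩ.sub (show ξ0 + s⁻¹ • -l ∈ ball ξ0 ρ by
      rw [mem_ball, dist_self_add_left, norm_smul, norm_neg, norm_inv, Real.norm_of_nonneg s0.le,
        inv_mul_lt_iff₀ s0, mul_comm]
      exact s1.trans_le (mul_le_mul_of_nonneg_right (min_le_right _ _) s0.le))) s s0
    rwa [smul_add, smul_inv_smul₀ s0.ne', add_comm, ← Complex.coe_smul] at this
  have cn := hDv.cn (Ω ∩ B) (hΩ.oc.op.inter B1) (hΩ.oc.cv.inter B2) ⟨_, x1⟩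
    fun x hx => hΩ.st ⟨hx.1, B3 hx.2⟩
  obtain ⟨π₀, ψ, hψ, hlim, hG⟩ := (hLB V Φ ξ0 H _ h3 hDf cn).1 _
    (fun n => π (φ n)) _ (fun n => hπG (φ n)) hu hζ
  refine ⟨q, hqK, fun y hy => ?_, fun y hy y0 yl c => ?_⟩
  · have a1 : Tendsto (fun n => (⟪l, y⟫).re + t (φ n) / 2 * ‖y‖ ^ 2) atTop (𝓝 (⟪l, y⟫).re) := by
      simpa using ((htφ.div_const 2).mul_const (‖y‖ ^ 2)).const_add (⟪l, y⟫).re
    have a3 : Tendsto (fun n => (⟪l, p (φ n)⟫).re) atTop (𝓝 (⟪l, q⟫).re) :=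
      (Complex.continuous_re.tendsto _).comp (tendsto_const_nhds.inner hq')
    have a4 := a3.add ((htφ.div_const 2).mul (hq'.norm.pow 2))
    rw [zero_div, zero_mul, add_zero] at a4
    exact le_of_tendsto_of_tendsto' a1 a4 fun n => hp (φ n) y hy
  have b1 : Tendsto (fun n => π (φ (ψ n)) (c • p (φ (ψ n)))) atTop (𝓝 (π₀ (c • q))) :=
    (isBoundedBilinearMap_apply.continuous.tendsto (π₀, c • q)).comp
      (hlim.prodMk_nhds ((hq'.comp hψ.tendsto_atTop).const_smul c))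
  simp only [hπ0] at b1
  refine kil (A := Ω ∩ B ∩ ball (s • ξ0) (η * s)) (cn.op.inter isOpen_ball) inter_subset_left
    (fun ξ hξ => hη s s0 ξ (mem_ball_iff_norm.1 hξ.2)) ⟨x1, ?_⟩ (hLIM V Φ ξ0 H _ cn _ _ hG)
    (tendsto_nhds_unique tendsto_const_nhds b1).symm ?_ hy ?_ ?_
  · rw [mem_ball_iff_norm, Complex.coe_smul, add_sub_cancel_right, norm_neg]
    exact s1.trans_le (mul_le_mul_of_nonneg_right (min_le_left _ _) s0.le)
  · rw [inner_smul_right, inner_sub_left, inner_smul_left, hqK.2, inner_conj_symm, mul_one,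
      sub_self, mul_zero]
  · rw [inner_add_left, inner_neg_left, inner_smul_left, y0, yl, mul_zero, neg_zero, add_zero]
  · rw [inner_sub_left, inner_smul_left, y0, yl, mul_zero, sub_zero]

end Pool.Agent.Lib.LC
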