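import Pool.Agent.Lib.LC.Basic

/-! Local Banach problem over the complex numbers: generic points of a subspace. -/

set_option autoImplicit false

open Set Filter Topology Metric Module
open scoped ComplexInnerProductSpace

noncomputable section

namespace Pool.Agent.Lib.LC

open Pool.Agent.Lib.LB

namespace GEN

theorem avoid {V : Type} [NormedAddCommGroup V] [NormedSpace ℝ V] (Z : Submodule ℝ V)
    {s : Set (Submodule ℝ V)} (hs : s.Finite) (h : ∀ P ∈ s, ¬Z ≤ P) {x : V} (hx : x ∈ Z) :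
    x ∈ closure {z | z ∈ Z ∧ ∀ P ∈ s, z ∉ P} := by
  induction s, hs using Set.Finite.induction_on generalizing x with
  | empty => exact subset_closure ⟨hx, by simp⟩
  | @insert P s _ hs ih =>
    refine closure_minimal (fun z hz => ?_) isClosed_closure
      (ih (fun Q hQ => h Q (mem_insert_of_mem _ hQ)) hx)
    by_cases hP : z ∈ P
    swap
    · exact subset_closure ⟨hz.1, forall_mem_insert.2 ⟨hP, hz.2⟩⟩
    obtain ⟨w, w1, w2⟩ := SetLike.not_le_iff_exists.1 (h P (mem_insert _ _))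
    have fin : (⋃ Q ∈ s, {t : ℝ | z + t • w ∈ Q}).Finite := by
      refine hs.biUnion fun Q hQ => Set.Subsingleton.finite fun t ht t' ht' => by_contra fun e => ?_
      have h1 : (t - t') • w ∈ Q := by
        have := Q.sub_mem ht ht'
        rwa [add_sub_add_left_eq_sub, ← sub_smul] at this
      have h2 := (Q.smul_mem_iff (sub_ne_zero.2 e)).1 h1
      exact hz.2 Q hQ ((Q.add_mem_iff_left (Q.smul_mem t h2)).1 ht)
    have c : Tendsto (fun t : ℝ => z + t • w) (𝓝[≠] 0) (𝓝 z) :=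
      ((by fun_prop : Continuous fun t : ℝ => z + t • w).tendsto' _ _ (by simp)).mono_left
        nhdsWithin_le_nhds
    refine mem_closure_of_tendsto c ?_
    filter_upwards [self_mem_nhdsWithin, (nhdsNE_le_cofinite (0 : ℝ)) fin.compl_mem_cofinite]
      with t t0 t1
    refine ⟨Z.add_mem hz.1 (Z.smul_mem t w1), forall_mem_insert.2 ⟨fun k => w2 ?_, fun Q hQ k =>
      t1 (mem_biUnion hQ k)⟩⟩
    exact (P.smul_mem_iff t0).1 ((P.add_mem_iff_right hP).1 k)

variable {V : Type} [NormedAddCommGroup V] [InnerProductSpace ℂ V]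

theorem not_le [FiniteDimensional ℂ V] {ξ0 b : V} {Z : Submodule ℂ V}
    (h : 3 ≤ finrank ℂ Z ∨ 2 ≤ finrank ℂ Z ∧ ξ0 ∉ Z) : ¬Z ≤ Submodule.span ℂ ({ξ0, b} : Set V) := by
  classical
  intro hle
  have h1 : finrank ℂ (Submodule.span ℂ ({ξ0, b} : Set V)) ≤ 2 := by
    have := finrank_span_finset_le_card (R := ℂ) ({ξ0, b} : Finset V)
    rw [Set.finrank, Finset.coe_pair] at this
    exact this.trans Finset.card_le_two
  have h2 := Submodule.finrank_mono hle
  rcases h with h | ⟨h, h'⟩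
  · omega
  · exact h' (Submodule.eq_of_le_of_finrank_le hle (by omega) ▸ Submodule.subset_span (by simp))

theorem not_le' {P Z : Submodule ℂ V} (h : ¬Z ≤ P) {a : V} (ha : a ∉ P) :
    ¬Z.restrictScalars ℝ ≤ P.restrictScalars ℝ ⊔ ℝ ∙ a := by
  refine fun hle => h fun z hz => ?_
  obtain ⟨p, hp, _, h1, e⟩ := Submodule.mem_sup.1 (hle (x := z) hz)
  obtain ⟨p', hp', _, h2, e'⟩ := Submodule.mem_sup.1 (hle (x := Complex.I • z) (Z.smul_mem _ hz))
  obtain ⟨t, rfl⟩ := Submodule.mem_span_singleton.1 h1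
  obtain ⟨t', rfl⟩ := Submodule.mem_span_singleton.1 h2
  have h3 : ((t' : ℂ) - Complex.I * t) • a ∈ P := by
    have : ((t' : ℂ) - Complex.I * t) • a = Complex.I • p - p' := by
      rw [sub_smul, mul_smul, Complex.coe_smul, Complex.coe_smul, sub_eq_sub_iff_add_eq_add,
        add_comm, e', ← smul_add, e]
    rw [this]
    exact P.sub_mem (P.smul_mem _ hp) hp'
  have h4 : (t' : ℂ) - Complex.I * t = 0 := by_contra fun k => ha ((P.smul_mem_iff k).1 h3)
  have h5 : t = 0 := by simpa using congrArg Complex.im h4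
  rw [← e, h5, zero_smul, add_zero]
  exact hp

end GEN

theorem bGEN : St_GEN := by
  intro V _ _ _ Bd ξ0 Z A hB hA hN hZ x hx
  let P : V → Submodule ℂ V := fun b => Submodule.span ℂ ({ξ0, b} : Set V)
  have h := GEN.avoid (Z.restrictScalars ℝ)
    (s := (fun q : V × V => (P q.1).restrictScalars ℝ ⊔ ℝ ∙ q.2) '' (insert 0 Bd ×ˢ insert 0 A))
    (((hB.insert 0).prod (hA.insert 0)).image _) (by
      rintro _ ⟨⟨b, a⟩, ⟨hb, rfl | ha⟩, rfl⟩
      · simpa using GEN.not_le (b := b) hZ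
      · exact GEN.not_le' (GEN.not_le hZ) (Nn_iff.1 (hN ha) b hb)) (x := x) hx
  refine closure_mono (fun z hz => ?_) h
  refine ⟨hz.1, Nn_iff.2 fun b hb k => ?_, fun a ha => ?_⟩
  · exact hz.2 _ ⟨(b, 0), ⟨hb, mem_insert _ _⟩, rfl⟩ (Submodule.mem_sup_left k)
  rintro _ ⟨s, t, hs, ht, hst, rfl⟩
  refine Nn_iff.2 fun b hb k => ?_
  rcases ht.eq_or_lt with rfl | t0
  · rw [add_zero] at hst
    rw [hst, one_smul, zero_smul, add_zero] at k
    exact Nn_iff.1 (hN ha) b hb k
  refine hz.2 _ ⟨(b, a), ⟨hb, mem_insert_of_mem _ ha⟩, rfl⟩ ((Submodule.smul_mem_iff _ t0.ne').1 ?_)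
  rw [← add_sub_cancel_left (s • a) (t • z)]
  exact Submodule.sub_mem _ (Submodule.mem_sup_left k)
    (Submodule.mem_sup_right (Submodule.smul_mem _ _ (Submodule.mem_span_singleton_self a)))

end Pool.Agent.Lib.LC
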