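import Pool.Agent.Lib.LC.Basic
import Pool.Agent.Lib.LB.Final

/-! Local Banach problem over the complex numbers: the glue rows. -/

set_option autoImplicit false

open Set Filter Topology Metric Module
open scoped ComplexInnerProductSpace

noncomputable section

namespace Pool.Agent.Lib.LC

open Pool.Agent.Lib.LB

theorem bGEO (hGEN : St_GEN) (hCV1 : St_CV1) (hCV2 : St_CV2) (hDUAL : St_DUAL) (hOMH : St_OMH)
    (hEXP : St_EXP) (hNR : St_NR) (hRY1 : St_RY1) (hCYL : St_CYL) (hRY2 : St_RY2) (hGLOB : St_GLOB)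
    (hKAK : St_KAK) : St_GEO := by
  intro V _ _ _ Φ ξ0 ρ Bd Γ H h4 hΦ hC D
  obtain ⟨Ω, hΩ⟩ := hOMH V ξ0 ρ Bd Γ (by omega) D.gm fun a ha b hb hs =>
    (hCV1 V ξ0 ρ Bd Γ a b D.gm ha hb hs).resolve_right fun ⟨Ω, ζ, p, a', h⟩ =>
      hCV2 V Φ ξ0 ρ Bd Γ H Ω ζ p a' (by omega) hΦ D h
  obtain ⟨-, d2, -, -, -, d6⟩ := hDUAL V ξ0 Ω hΩ.oc
  rcases (Kb Ω ξ0).eq_empty_or_nonempty with he | ⟨ν, hν⟩
  · have hs : Nn Bd ξ0 ⊆ Star Γ ξ0 := fun ξ hξ => hΩ.st ⟨by rw [d6 he]; exact mem_univ _, hξ⟩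
    obtain ⟨Ψ, p1, p2, p3⟩ := hRY2 V Φ ξ0 ρ Bd Γ H h4 hΦ D hs
    obtain ⟨B, hB⟩ := hGLOB V Φ Ψ ξ0 (Nn Bd ξ0) D.gm.nb.1 hΦ p1 (fun x => closure_mono
      (fun z hz => hz.2.1) (hGEN V Bd ξ0 ⊤ ∅ D.gm.fin finite_empty (empty_subset _)
        (Or.inl (by rw [finrank_top]; omega)) x Submodule.mem_top))
      fun ξ hξ => ⟨H ξ, fun y hy => ⟨D.Hp ξ (hs hξ) y hy, p3 ξ hξ y hy⟩⟩
    exact Or.inl ⟨B, fun x hx => by rw [← p2 x hx, hB x hx]⟩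
  by_cases hr : ∃ p ∈ Kb Ω ξ0, ∃ p' ∈ Kb Ω ξ0, p ≠ p'
  · exact Or.inl (hKAK V Φ ξ0 Bd h4 hΦ hC D.gm.nb.1 D.gm.fin (hNR V Φ ξ0 Bd _ hΦ D.gm.fin
      (fun p hp => hp.2) hr (hEXP V Φ ξ0 ρ Bd Γ H Ω (by omega) hΦ D hΩ ⟨ν, hν⟩)))
  push Not at hr
  refine Or.inr (hCYL V Φ ξ0 ρ Bd ν h4 D.gm.fin hν.2 (fun ξ hξ e => ?_)
    (hRY1 V Φ ξ0 ρ Bd Γ H Ω ν h4 hΦ D hΩ (eq_singleton_iff_unique_mem.2 ⟨hν, fun p hp => hr p hp ν hν⟩)))
  have := d2 ν hν.1 (fun k => by simpa [k] using hν.2) ξ (hΩ.sub hξ)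
  simp [e] at this

theorem bHYP (hLOC : St_LOC) (hRA1 : St_RA1) (hRA2 : St_RA2) (hSOL : St_SOL) (hDV1 : St_DV1)
    (hDV2 : St_DV2) (hDV3 : St_DV3) (hGEO : St_GEO) : St_HYP := by
  intro V _ _ _ Φ ξ0 h4 hΦ hC h1 hI
  obtain ⟨hd, S, hS⟩ := exists_sp h1
  have : Nontrivial (ℂ ∙ ξ0)ᗮ := Module.nontrivial_of_finrank_pos (R := ℂ) (by omega)
  have hI' : LocIso Φ S.e := hS.symm ▸ hI
  obtain ⟨x0, O, ρ, G, D, r, d, hL⟩ := hLOC _ V S Φ hΦ hC hI'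
  obtain ⟨δ, M, ε, G', Bd, hR⟩ := hRA1 _ V S Φ x0 O ρ G D r d (by omega) hL
  obtain ⟨ξ1, ρ', G'', hT, hm⟩ := hRA2 _ V S Φ δ M ε G' Bd (by omega) hI' hR
  rw [hS] at hm
  obtain ⟨L, hSo⟩ := hSOL V Φ ξ1 δ M ρ' G'' Bd (by omega) hT
  obtain ⟨F, H, hF⟩ := hDV1 V Φ ξ1 δ M ρ' G'' Bd L hT hSo
  exact (hGEO V Φ ξ1 ρ' Bd _ H h4 hΦ hC (hDV3 V Φ ξ1 δ M ρ' G'' Bd L F H hT hSo hF
    (hDV2 V Φ ξ1 M _ _ F H hC hT.pM (fun ξ hξ => hT.kil ξ (star_self hξ).1) hF))).imp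
    (fun h => h.of_iso ((hT.iso ξ0 hm).symm hT.nb.1)) fun h => h ξ0 hm

universe u v

/-- A real symmetric form gives a Hermitian form with the averaged real part. -/
theorem herm {V : Type v} [AddCommGroup V] [Module ℂ V] (B : V →ₗ[ℝ] V →ₗ[ℝ] ℝ)
    (hs : ∀ y z, B y z = B z y) : ∃ h : V →ₗ⋆[ℂ] V →ₗ[ℂ] ℂ, (∀ y z, starRingEnd ℂ (h y z) = h z y) ∧
      ∀ y, (h y y).re = (B y y + B (Complex.I • y) (Complex.I • y)) / 2 := by
  have e : ∀ (c : ℂ) (x : V), c • x = c.re • x + c.im • (Complex.I • x) := fun c x => by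
    conv_lhs => rw [← Complex.re_add_im c]
    rw [add_smul, mul_smul, Complex.coe_smul, Complex.coe_smul]
  have ii : ∀ x : V, Complex.I • Complex.I • x = -x := fun x => by
    rw [smul_smul, Complex.I_mul_I, neg_one_smul]
  let f : V → V → ℂ := fun y z => ⟨(B y z + B (Complex.I • y) (Complex.I • z)) / 2,
    (B (Complex.I • y) z - B y (Complex.I • z)) / 2⟩
  have sy : ∀ y z, starRingEnd ℂ (f y z) = f z y := fun y z => by
    refine Complex.ext ?_ ?_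
    · simp only [f, Complex.conj_re, hs y z, hs (Complex.I • y)]
    · simp only [f, Complex.conj_im, hs y, hs (Complex.I • y)]
      ring
  have ad : ∀ y z z', f y (z + z') = f y z + f y z' := fun y z z' => by
    refine Complex.ext ?_ ?_ <;> simp only [f, smul_add, map_add, Complex.add_re, Complex.add_im] <;> ring
  have sm : ∀ (c : ℂ) y z, f y (c • z) = c * f y z := fun c y z => by
    rw [e c z]
    refine Complex.ext ?_ ?_ <;> simp only [f, smul_add, smul_comm Complex.I c.re,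
      smul_comm Complex.I c.im, ii, map_add, map_smul, map_neg, smul_eq_mul, Complex.mul_re,
      Complex.mul_im] <;> ring
  refine ⟨LinearMap.mk₂'ₛₗ (starRingEnd ℂ) (RingHom.id ℂ) f (fun y y' z => ?_) (fun c y z => ?_) ad
    (fun c y z => sm c y z), sy, fun y => rfl⟩
  · rw [← sy, ad, map_add, sy, sy]
  · rw [← sy, sm, map_mul, sy, smul_eq_mul]

theorem bMAIN (hTR : St_TR.{u, v}) (hEU2 : St_EU2.{u, v}) (hCY2 : St_CY2.{u, v}) : Main.{u, v} ℂ := by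
  intro E V _ _ _ _ _ U h3 hU hc hn hi hg
  by_cases he : ∃ T ∈ U, ∃ b : E →ₗ[ℝ] E →ₗ[ℝ] ℝ, ∀ x, ‖T x‖ ^ 2 = b x x
  · obtain ⟨T, hT, b, hb⟩ := he
    obtain ⟨B, b1, b2, b3⟩ := hEU2 E V U h3 hU hc hn fun T' hT' => by
      obtain ⟨g, hg⟩ := hg T' hT' T hT
      exact ⟨b.compl₁₂ (g.toLinearMap.restrictScalars ℝ) (g.toLinearMap.restrictScalars ℝ),
        fun x => by rw [← hg, hb]; rfl⟩
    obtain ⟨h, h1, h2⟩ := herm B b1
    refine Or.inl ⟨h, h1, fun y => ?_, fun T hT x => ?_⟩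
    · rw [RCLike.re_to_complex, h2]
      linarith [b2 y, b2 (Complex.I • y)]
    · rw [RCLike.re_to_complex, h2, ← map_smul, ← b3 T hT, ← b3 T hT, map_smul, norm_smul,
        Complex.norm_I]
      ring
  · refine Or.inr (hCY2 E V U hU hc hn hi fun T hT ν hν => ?_)
    obtain ⟨r, hr, hb⟩ := Metric.isOpen_iff.1 hU T hT
    refine (hTR E V T r ν h3 (hi T hT) hr (fun T' hT' => hg T hT T' (hb ?_)) hν).resolve_left
      fun h => he ⟨T, hT, h⟩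
    rwa [mem_ball, dist_eq_norm]

theorem main_real : Main.{u, v} ℝ := by
  intro E V _ _ _ _ _ U h3 hU hc hn hi hg
  refine (fin_main E V U h3 hU hc hn hi hg).imp_left fun ⟨B, b1, b2, b3⟩ => ?_
  exact ⟨LinearMap.mk₂'ₛₗ (starRingEnd ℝ) (RingHom.id ℝ) (fun y z => B y z) (by simp) (by simp)
    (by simp) (by simp), fun y z => b1 y z, b2, b3⟩

end Pool.Agent.Lib.LC
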