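import Pool.Agent.Lib.LC.Blue
import Pool.Agent.Lib.LC.Basic
import Pool.Agent.Lib.BF40.Field

/-! Complex local Banach problem, row GLOB: all hyperplanes are isometric. -/

set_option autoImplicit false

open Set Filter Topology Metric Module
open scoped ComplexInnerProductSpace ContDiff NNReal

noncomputable section

namespace Pool.Agent.Lib.LC

open Pool.Agent.Lib.LB

namespace GLOB

variable {V : Type} [NormedAddCommGroup V] [InnerProductSpace ℂ V] [FiniteDimensional ℂ V]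

/-- The complex hyperplane as a real subspace. -/
def hp (a : V) : Submodule ℝ V := LinearMap.ker (inC V a : V →ₗ[ℝ] ℂ)

theorem rk1 {a : V} (ha : a ≠ 0) : finrank ℝ (⊤ : Submodule ℝ ℂ) + finrank ℝ (hp a) = finrank ℝ V := by
  have h := LinearMap.finrank_range_add_finrank_ker (inC V a : V →ₗ[ℝ] ℂ)
  rwa [LinearMap.range_eq_top.2 fun c => ⟨(c / ⟪a, a⟫) • a, by
    show ⟪a, _⟫ = c
    rw [inner_smul_right, div_mul_cancel₀ _ (inner_self_ne_zero.2 ha)]⟩] at h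

theorem all {Φ Ψ : Seminorm ℝ V} {ξ0 : V} {D : Set V} (hΦ : Df Φ) (hD : Dense D)
    (h : ∀ ξ ∈ D, ∃ π : V →L[ℝ] V, ∀ y, ⟪ξ, y⟫ = 0 → ⟪ξ0, π y⟫ = 0 ∧ Ψ y = Φ (π y)) {v : V}
    (hv : v ≠ 0) : ∃ π : V →L[ℝ] V, ∀ y, ⟪v, y⟫ = 0 → ⟪ξ0, π y⟫ = 0 ∧ Ψ y = Φ (π y) := by
  obtain ⟨K, hK⟩ := snm_lip Ψ
  obtain ⟨K', hK'⟩ := snm_lip Φ
  obtain ⟨c, c0, hc⟩ := snm_low hΦ
  obtain ⟨ξ, hξ, lim⟩ := mem_closure_iff_seq_limit.1 (hD v)
  choose π hπ using fun j => h _ (hξ j)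
  let Q : V → V →L[ℝ] V := fun a => ((ℂ ∙ a)ᗮ).starProjection.restrictScalars ℝ
  have q0 : ∀ a y, ⟪a, Q a y⟫ = 0 := fun a y =>
    Submodule.mem_orthogonal_singleton_iff_inner_right.1 (((ℂ ∙ a)ᗮ).starProjection_apply_mem y)
  have bd : ∀ j, (π j).comp (Q (ξ j)) ∈ closedBall (0 : V →L[ℝ] V) (K / c) := fun j => by
    refine mem_closedBall_zero_iff.2 (ContinuousLinearMap.opNorm_le_bound _ (by positivity)
      fun y => ?_)
    have a1 := hc (π j (Q (ξ j) y))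
    have a2 := hK.dist_le_mul (Q (ξ j) y) 0
    have a3 : ‖Q (ξ j) y‖ ≤ ‖y‖ := ((ℂ ∙ ξ j)ᗮ).norm_starProjection_apply_le y
    rw [map_zero, dist_zero_right, dist_zero_right, (hπ j _ (q0 _ y)).2] at a2
    rw [div_mul_eq_mul_div, le_div_iff₀ c0, mul_comm]
    exact a1.trans ((le_abs_self _).trans (a2.trans (by gcongr)))
  obtain ⟨ϖ, -, s, hs, l2⟩ := (isCompact_closedBall _ _).tendsto_subseq bd
  refine ⟨ϖ, fun y hy => ?_⟩
  have l3 : Tendsto (fun j => π (s j) (Q (ξ (s j)) y)) atTop (𝓝 (ϖ y)) :=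
    ((ContinuousLinearMap.apply ℝ V y).continuous.tendsto ϖ).comp l2
  have l4 : Tendsto (fun a => Q a y) (𝓝 v) (𝓝 y) := by
    have e : ∀ a, Q a y = y - (⟪a, y⟫ / ((‖a‖ : ℂ) ^ 2)) • a := fun a => by
      show ((ℂ ∙ a)ᗮ).starProjection y = _
      rw [Submodule.starProjection_orthogonal_val, Submodule.starProjection_singleton]
      simp
    have c1 : ContinuousAt (fun a : V => y - (⟪a, y⟫ / ((‖a‖ : ℂ) ^ 2)) • a) v :=
      continuousAt_const.sub ((ContinuousAt.div (by fun_prop) (by fun_prop)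
        (by simpa using hv)).smul continuousAt_id)
    simpa only [ContinuousAt, e, hy, zero_div, zero_smul, sub_zero] using c1
  refine ⟨tendsto_nhds_unique (tendsto_const_nhds.inner l3) ?_, tendsto_nhds_unique
    ((hK.continuous.tendsto y).comp (l4.comp (lim.comp hs.tendsto_atTop))) ?_⟩
  · simp only [fun j => (hπ j _ (q0 _ y)).1]
    exact tendsto_const_nhds
  · refine ((hK'.continuous.tendsto _).comp l3).congr fun j => ?_
    exact (hπ _ _ (q0 _ y)).2.symm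

end GLOB

open GLOB in
/-- Row `GLOB`. -/
theorem bGLOB : St_GLOB := by
  intro V _ _ _ Φ Ψ ξ0 D h0 hΦ hΨ hD h
  obtain ⟨K, hK⟩ := snm_lip Ψ
  have ne : ∀ v : sphere (0 : V) 1, (v : V) ≠ 0 := fun v => ne_zero_of_mem_unit_sphere v
  have hn : ‖ξ0‖ ≠ 0 := norm_ne_zero_iff.2 h0
  have k : ∀ v : sphere (0 : V) 1, ∃ T : hp (v : V) ≃ₗ[ℝ] hp ξ0,
      ∀ x : hp (v : V), Ψ x = Φ (T x) := by
    intro v
    obtain ⟨π, h2⟩ := all hΦ hD h (ne v)
    let L : hp (v : V) →ₗ[ℝ] hp ξ0 := π.toLinearMap.restrict fun x hx => (h2 x hx).1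
    refine ⟨L.linearEquivOfInjective ((injective_iff_map_eq_zero L).2 fun x e =>
      Subtype.ext (hΨ _ ?_)) (by have := rk1 (ne v); have := rk1 h0; omega), fun x => (h2 x x.2).2⟩
    rw [(h2 x x.2).2, show π x = 0 from congrArg Subtype.val e, map_zero]
  let _ : InnerProductSpace ℝ V := InnerProductSpace.complexToReal
  have pr : ∀ (v : sphere (0 : V) 1) x, (hp (v : V)).starProjection x = x - ⟪(v : V), x⟫ • (v : V) :=
    fun v x => by
      refine Submodule.eq_starProjection_of_mem_of_inner_eq_zero ?_ fun w hw => ?_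
      · show ⟪(v : V), _⟫ = 0
        rw [inner_sub_right, inner_smul_right, inner_sq]
        simp
      · show (⟪x - (x - ⟪(v : V), x⟫ • (v : V)), w⟫).re = 0
        rw [sub_sub_cancel, perp_smul _ hw, Complex.zero_re]
  have lip : LipschitzWith 2 fun v : sphere (0 : V) 1 => (hp (v : V)).starProjection := by
    refine LipschitzWith.of_dist_le_mul fun v w => ?_
    have hv : ‖(v : V)‖ = 1 := by simp
    have hw : ‖(w : V)‖ = 1 := by simp
    rw [dist_eq_norm, Subtype.dist_eq, dist_eq_norm]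
    refine ContinuousLinearMap.opNorm_le_bound _ (by positivity) fun x => ?_
    have e : ((hp (v : V)).starProjection - (hp (w : V)).starProjection) x =
        -(⟪(v : V) - w, x⟫ • (v : V) + ⟪(w : V), x⟫ • ((v : V) - w)) := by
      rw [sub_apply, pr, pr, inner_sub_left]
      module
    have a1 := norm_inner_le_norm (𝕜 := ℂ) ((v : V) - w) x
    have a2 := mul_le_mul_of_nonneg_right (norm_inner_le_norm (𝕜 := ℂ) (w : V) x)
      (norm_nonneg ((v : V) - w))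
    have a3 := norm_add_le (⟪(v : V) - w, x⟫ • (v : V)) (⟪(w : V), x⟫ • ((v : V) - w))
    rw [norm_smul, norm_smul, hv] at a3
    rw [hw] at a2
    rw [e, norm_neg, NNReal.coe_ofNat]
    linarith
  let v0 : sphere (0 : V) 1 := ⟨(‖ξ0‖⁻¹ : ℝ) • ξ0, by simp [norm_smul, inv_mul_cancel₀ hn]⟩
  obtain ⟨B, hB⟩ := BF40.field hK
    (fun t ht y => by rw [map_smul_eq_mul, Real.norm_eq_abs, abs_of_nonneg ht])
    (fun y hy => (apply_nonneg Ψ y).lt_of_ne fun e => hy (hΨ y e.symm))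
    (fun v => hp (v : V)) lip (fun v hv => ne v ((inner_self_eq_zero (𝕜 := ℂ)).1 hv))
    (fun v w => by
      obtain ⟨T, hT⟩ := k v
      obtain ⟨S, hS⟩ := k w
      exact ⟨T.trans S.symm, fun x => by
        rw [hT, hS, LinearEquiv.trans_apply, S.apply_symm_apply]⟩) v0
  let p : V →ₗ[ℝ] hp (v0 : V) := (hp (v0 : V)).orthogonalProjectionOnto.toLinearMap
  refine ⟨B.compl₁₂ p p, fun x hx => ?_⟩
  have hm : x ∈ hp (v0 : V) := by
    show ⟪(‖ξ0‖⁻¹ : ℝ) • ξ0, x⟫ = 0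
    rw [inner_rl, hx, mul_zero]
  have e : p x = ⟨x, hm⟩ :=
    Submodule.orthogonalProjectionOnto_mem_subspace_eq_self (⟨x, hm⟩ : hp (v0 : V))
  rw [LinearMap.compl₁₂_apply, e]
  exact hB ⟨x, hm⟩

end Pool.Agent.Lib.LC
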