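import Pool.Agent.Lib.LC.Blue
import Pool.Agent.Lib.LC40.Kak

/-! Local Banach problem over the complex numbers: plane shadow boundaries force a Euclidean
hyperplane. -/

set_option autoImplicit false

open Set Filter Topology Metric Module
open scoped ComplexInnerProductSpace

noncomputable section

namespace Pool.Agent.Lib.LC

open Pool.Agent.Lib.LB

theorem KAK.sp {V : Type} [NormedAddCommGroup V] [InnerProductSpace ℂ V] [FiniteDimensional ℂ V]
    {e : V} (h : ‖e‖ = 1) : ∃ (E : Type) (_ : NormedAddCommGroup E) (_ : InnerProductSpace ℂ E)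
      (_ : FiniteDimensional ℂ E), finrank ℂ E + 1 = finrank ℂ V ∧ ∃ S : Sp E V, S.e = e := by
  have h0 : e ≠ 0 := fun e => by simp [e] at h
  refine ⟨(ℂ ∙ e)ᗮ, inferInstance, inferInstance, inferInstance, ?_,
    ⟨(ℂ ∙ e)ᗮ.subtypeL, (ℂ ∙ e)ᗮ.orthogonalProjectionOnto, e, by simp [h],
    fun x => Submodule.mem_orthogonal_singleton_iff_inner_right.1 x.2, fun x x' => rfl, fun y => ?_⟩, rfl⟩
  · have := Submodule.finrank_add_finrank_orthogonal (ℂ ∙ e)
    rw [finrank_span_singleton h0] at this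
    omega
  · have := Submodule.starProjection_add_starProjection_orthogonal (K := ℂ ∙ e) y
    rw [Submodule.starProjection_unit_singleton ℂ h] at this
    rw [add_comm]
    exact this

theorem bKAK : St_KAK := by
  intro V _ _ _ Φ ξ0 Bd h4 hD hC h0 hB hK
  have hn : ((‖ξ0‖ : ℝ) : ℂ) ≠ 0 := by simpa using h0
  obtain ⟨E, _, _, _, hr, S, hS⟩ := KAK.sp (e := ((‖ξ0‖ : ℝ) : ℂ)⁻¹ • ξ0) (by
    rw [norm_smul, norm_inv, Complex.norm_real, norm_norm, inv_mul_cancel₀ (norm_ne_zero_iff.2 h0)])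
  have e2 : ξ0 = ((‖ξ0‖ : ℝ) : ℂ) • S.e := by rw [hS, smul_inv_smul₀ hn]
  have e0 : ∀ y, ⟪ξ0, y⟫ = 0 → S.ι (S.pr y) = y := fun y hy => by
    have := S.dec y
    rwa [hS, inner_smul_left, hy, mul_zero, zero_smul, add_zero] at this
  have e1 : ∀ x, ⟪ξ0, S.ι x⟫ = 0 := fun x => by rw [e2, inner_smul_left, S.ei, mul_zero]
  have e3 : ∀ (l : E) (a : ℂ), S.pr (S.ι l + a • ξ0) = l := fun l a => by
    rw [map_add, map_smul, S.pr_ι, e2, map_smul, S.pr_e, smul_zero, smul_zero, add_zero]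
  obtain ⟨B, -, hB⟩ := LC40.kakC (S.n Φ) (fun x hx => S.ι_inj (hD _ hx))
    (fun c y => by rw [S.n_apply, S.n_apply, map_smul, hC]) (by omega) (hB.image S.pr) (by
    intro l hl hb
    obtain ⟨q, q1, q2, q3⟩ := hK (S.ι l) fun a => ⟨fun h => hl (by rw [← e3 l a, h, map_zero]),
      fun b hb' c h => hb _ ⟨b, hb', rfl⟩ c (by rw [← e3 l a, h, map_smul])⟩
    refine ⟨S.pr q, by rwa [← S.ι_inner], fun x hx hl c => ?_⟩
    have h5 := q3 (S.ι x) (fun h => hx (S.ι_inj h)) (e1 x) (by rw [S.ii, hl]) c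
    rw [← e0 q q1, ← map_smul] at h5
    exact (K6 (Φ := Φ) (S.ιr : E →ₗ[ℝ] V) (x := x) (v := c • S.pr q)).2 h5)
  refine ⟨B.compl₁₂ (S.prr : V →ₗ[ℝ] E) (S.prr : V →ₗ[ℝ] E), fun x hx => ?_⟩
  have := hB (S.pr x)
  rw [S.n_apply, e0 x hx] at this
  exact this

end Pool.Agent.Lib.LC
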