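import Pool.Agent.Lib.LC.Blue
import Pool.Agent.Lib.LC40.Kak

/-! Local Banach problem over the complex numbers: the kernel of a singular limit. -/

set_option autoImplicit false

open Set Filter Topology Metric Module
open scoped ComplexInnerProductSpace

noncomputable section

namespace Pool.Agent.Lib.LC

open Pool.Agent.Lib.LB

namespace KER

variable {V : Type} [NormedAddCommGroup V] [InnerProductSpace ℂ V]

theorem sep {Ω : Set V} (ho : IsOpen Ω) (hc : Convex ℝ Ω) (hn : Ω.Nonempty) {y : V} (h0 : y ≠ 0)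
    (hy : y ∉ Wd Ω) : ∃ θ : ℂ, θ ≠ 0 ∧ ∀ η ∈ Ω, 0 ≤ (⟪η, θ • y⟫).re := by
  have hf : innerSL ℂ y ≠ 0 := fun h => h0 (by
    have : innerSL ℂ y y = 0 := by rw [h]; rfl
    exact inner_self_eq_zero.1 this)
  have h1 : IsOpen (innerSL ℂ y '' Ω) := (innerSL ℂ y).isOpenMap_of_ne_zero hf Ω ho
  have h2 : Convex ℝ (innerSL ℂ y '' Ω) := hc.linear_image ((innerSL ℂ y).restrictScalars ℝ : V →ₗ[ℝ] ℂ)
  have h3 : (0 : ℂ) ∉ innerSL ℂ y '' Ω := by
    rintro ⟨η, hη, e⟩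
    exact hy ⟨h0, η, hη, inner_eq_zero_symm.1 e⟩
  obtain ⟨g, hg⟩ := geometric_hahn_banach_open_point h2 h1 h3
  have e : ∀ η : V, (⟪η, (-(g 1 : ℂ) - (g Complex.I : ℂ) * Complex.I) • y⟫).re = -g ⟪y, η⟫ := fun η => by
    have e1 : ⟪y, η⟫ = (⟪y, η⟫).re • (1 : ℂ) + (⟪y, η⟫).im • Complex.I := by
      simp
    rw [e1, map_add, map_smul, map_smul, inner_smul_right, ← inner_conj_symm η y]
    generalize ⟪y, η⟫ = z
    simp
    ring
  have lt : ∀ η ∈ Ω, g ⟪y, η⟫ < 0 := fun η hη => by simpa using hg _ ⟨η, hη, rfl⟩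
  refine ⟨_, fun h => ?_, fun η hη => by rw [e]; linarith [lt η hη]⟩
  obtain ⟨η, hη⟩ := hn
  have := e η
  rw [h, zero_smul, inner_zero_right, Complex.zero_re] at this
  linarith [lt η hη]

theorem perp {Φ : Seminorm ℝ V} {ξ0 ζ z : V} {H : V → V →L[ℝ] V} {Ω : Set V} {π : V →L[ℝ] V}
    (h0 : ξ0 ≠ 0) (hζ : ζ ≠ 0) (hc : Cp Φ ξ0 H Ω ζ π) (hz : π z = 0) : ⟪ζ, z⟫ = 0 := by
  have hn : ⟪ζ, ζ⟫ ≠ 0 := fun h => hζ (inner_self_eq_zero.1 h)
  have h1 := hc.Hp (z - (⟪ζ, z⟫ / ⟪ζ, ζ⟫) • ζ) (by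
    rw [inner_sub_right, inner_smul_right, div_mul_cancel₀ _ hn, sub_self])
  rw [map_sub, hz, hc.H0, zero_sub, inner_neg_right, inner_smul_right, neg_eq_zero] at h1
  rcases mul_eq_zero.1 h1 with h | h
  · exact (div_eq_zero_iff.1 h).resolve_right hn
  · exact absurd (inner_self_eq_zero.1 h) h0

theorem ker_ne [FiniteDimensional ℂ V] {π : V →L[ℝ] V} (hu : ¬IsUnit π) : ∃ w, w ≠ 0 ∧ π w = 0 := by
  by_contra hn
  have inj : Function.Injective π :=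
    (injective_iff_map_eq_zero π).2 fun w hw => by_contra fun h => hn ⟨w, h, hw⟩
  have := FiniteDimensional.complete ℂ V
  exact hu (ContinuousLinearMap.isUnit_iff_bijective.2
    ⟨inj, LinearMap.surjective_of_injective (f := (π : V →ₗ[ℝ] V)) inj⟩)

theorem un_ne [FiniteDimensional ℂ V] {π : V →L[ℝ] V} (hu : IsUnit π) {w : V} (h : π w = 0) : w = 0 := by
  have := FiniteDimensional.complete ℂ V
  exact (injective_iff_map_eq_zero π).1 (ContinuousLinearMap.isUnit_iff_bijective.1 hu).1 w h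

end KER

theorem bKER (hLIM : St_LIM) (hLB : St_LB) : St_KER := by
  intro V _ _ _ Φ ξ0 ρ Bd Γ H Ω ζ p h3 hΦ hD ho hc hs hcl hnb hng hp
  have hn : Ω.Nonempty := closure_nonempty_iff.1 ⟨ζ, hcl⟩
  have cn := hD.cn Ω ho hc hn hs
  obtain ⟨π, hg⟩ := (hLB V Φ ξ0 H Ω h3 hΦ cn).2 ζ hcl hnb.1
  have cp := hLIM V Φ ξ0 H Ω cn ζ π hg
  have line : ∀ y, ⟪ζ, y⟫ = 0 → y ∉ Wd Ω → ∃ c : ℂ, y = c • p := fun y hy hw => by
    by_cases h0 : y = 0
    · exact ⟨0, by rw [h0, zero_smul]⟩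
    obtain ⟨θ, hθ, h⟩ := KER.sep ho hc hn h0 hw
    obtain ⟨c, e⟩ := hp (θ • y) (by rw [inner_smul_right, hy, mul_zero]) h
    exact ⟨θ⁻¹ * c, by rw [mul_smul, ← e, inv_smul_smul₀ hθ]⟩
  have hnu : ¬IsUnit π := fun hu => by
    refine hng (hD.ii Ω ho hs ζ hnb π hu cp fun y hy => ?_)
    by_cases hw : y ∈ Wd Ω
    · exact subset_closure ⟨hy, hw⟩
    obtain ⟨c, e⟩ := line y hy hw
    obtain ⟨d, d0, d1, d2⟩ := LC40.exists_perp h3 ζ p
    have hT : Tendsto (fun s : ℝ => y + (s : ℂ) • d) (𝓝[≠] 0) (𝓝 y) := by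
      have h : Continuous fun s : ℝ => y + (s : ℂ) • d := by fun_prop
      simpa using (h.tendsto 0).mono_left nhdsWithin_le_nhds
    refine mem_closure_of_tendsto hT ?_
    filter_upwards [self_mem_nhdsWithin] with s hs0
    have hin : ⟪ζ, y + (s : ℂ) • d⟫ = 0 := by
      rw [inner_add_right, inner_smul_right, hy, d1, mul_zero, add_zero]
    refine ⟨hin, by_contra fun hw' => ?_⟩
    obtain ⟨c', e'⟩ := line _ hin hw'
    have h1 : ⟪y + (s : ℂ) • d, d⟫ = 0 := by rw [e', inner_smul_left, d2, mul_zero]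
    rw [inner_add_left, e, inner_smul_left, d2, mul_zero, zero_add, inner_smul_left, mul_eq_zero,
      inner_self_eq_zero] at h1
    exact h1.elim (fun h => hs0 (by simpa using h)) d0
  obtain ⟨w, w0, pw⟩ := KER.ker_ne hnu
  have wp := KER.perp cn.n0 hnb.1 cp pw
  have nw : w ∉ Wd Ω := by
    rintro ⟨-, ξ, hξ, h⟩
    have h1 := cp.t1 ξ hξ w h wp
    rw [pw, map_zero] at h1
    exact w0 (KER.un_ne (cn.un ξ hξ) (hΦ _ h1.symm))
  obtain ⟨c, e⟩ := line w wp nw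
  have c0 : c ≠ 0 := fun h => w0 (by rw [e, h, zero_smul])
  have e' : p = c⁻¹ • w := by rw [e, inv_smul_smul₀ c0]
  refine ⟨by rw [e', inner_smul_right, wp, mul_zero], π, cp, hg, fun a => hΦ _ ?_⟩
  rw [e', smul_smul, cp.ci w wp, pw, map_zero, mul_zero]

end Pool.Agent.Lib.LC
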