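import Pool.Agent.Lib.LC.Basic

/-! Row KG: tangent linear fields are infinitesimal isometries (complex hyperplanes). -/

set_option autoImplicit false

open Set Filter Topology Metric Module
open scoped ComplexInnerProductSpace

noncomputable section

namespace Pool.Agent.Lib.LC

open Pool.Agent.Lib.LB

theorem bKG : St_KG := by
  intro V _ _ _ Ψ δ M ξ S hδ hex hS hd hk A hA
  refine ⟨hA.1, fun y hy => ⟨(hA.2 y hy).1, ?_⟩⟩
  have hcl : ∀ u, ⟪ξ, u⟫ = 0 → u ∈ closure (S ∩ {u | δ u ≠ 0}) := by
    intro u hu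
    refine closure_minimal (fun w hw => ?_) isClosed_closure (dense_perp hδ hex hu)
    have h2 : w ∈ {u | δ u ≠ 0} ∩ closure S := ⟨hw.2, hd w hw.1⟩
    have h3 := (isOpen_ne_fun hδ.continuous continuous_const).inter_closure h2
    rwa [inter_comm] at h3
  refine K3 (w := fun u => A u) (S := S ∩ {u | δ u ≠ 0}) A.continuous.continuousAt
    (Eventually.of_forall fun s => hcl _ ?_) fun u hu => K1 ?_
  · rw [inner_add_right, inner_rr, hy, (hA.2 y hy).1]
    simp
  · obtain ⟨h1, h2⟩ := hA.2 u (hS u hu.1)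
    have h3 := hk u hu.1 (A u) (by rw [← h2, inner_rr, h1, mul_zero])
    rw [← h2] at h3
    exact (Submodule.smul_mem_iff _ hu.2).1 h3

end Pool.Agent.Lib.LC
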