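import Pool.Agent.Lib.LC.Basic

/-! Local Banach problem over the complex numbers: the development is locally bounded at the boundary of the cone. -/

set_option autoImplicit false

open Set Filter Topology Metric Module
open scoped ComplexInnerProductSpace

noncomputable section

namespace Pool.Agent.Lib.LC

open Pool.Agent.Lib.LB

namespace LBd

variable {V : Type} [NormedAddCommGroup V] [InnerProductSpace ℂ V] [FiniteDimensional ℂ V]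
  {Φ : Seminorm ℝ V} {ξ0 : V} {H : V → V →L[ℝ] V} {Ω : Set V}

theorem near (hC : Cn Φ ξ0 H Ω) {ξ1 y1 : V} (m : ξ1 ∈ Ω) (h0 : y1 ≠ 0) (h1 : ⟪ξ1, y1⟫ = 0) :
    ∀ᶠ y in 𝓝 y1, ∃ ξ ∈ Ω, ⟪ξ, y⟫ = 0 ∧ Φ (H ξ y) < Φ (H ξ1 y1) + 1 := by
  have c0 : ContinuousAt (fun y : V => ⟪y, y1⟫) y1 := by fun_prop
  have t1 := sw_tendsto h0 h1
  have t2 : Tendsto (fun y : V => H (sw ξ1 y1 y) y) (𝓝 y1) (𝓝 (H ξ1 y1)) :=
    (isBoundedBilinearMap_apply.continuous.tendsto (H ξ1, y1)).comp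
      (((hC.co _ m).tendsto.comp t1).prodMk_nhds tendsto_id)
  filter_upwards [c0.eventually_ne (inner_self_ne_zero.2 h0), t1.eventually (hC.op.mem_nhds m),
    (((snm_cont Φ).tendsto _).comp t2).eventually (gt_mem_nhds (lt_add_one _))] with y a b c
  exact ⟨_, b, sw_perp ξ1 a, c⟩

theorem bdd (h3 : 3 ≤ finrank ℂ V) (hD : Df Φ) (hC : Cn Φ ξ0 H Ω) {ζ : V} (h0 : ζ ≠ 0) :
    ∃ K : ℝ, ∀ᶠ u in 𝓝 ζ, ∀ p : V →L[ℝ] V, Cp Φ ξ0 H Ω u p → ‖p‖ ≤ K := by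
  obtain ⟨ξ1, m1⟩ := hC.ne
  obtain ⟨y1, y0, a1, a2⟩ := exists_perp2 h3 ζ ξ1
  obtain ⟨c, c0, hc⟩ := snm_low hD
  have n0 : ⟪ζ, ζ⟫ ≠ 0 := inner_self_ne_zero.2 h0
  have c1 : ContinuousAt (fun q : V × V => ⟪q.1, q.1⟫) (ζ, y1) := by fun_prop
  have c2 : ContinuousAt (fun q : V × V => ⟪q.1, q.2⟫ / ⟪q.1, q.1⟫) (ζ, y1) :=
    ContinuousAt.div (by fun_prop) c1 n0
  have c3 : ContinuousAt (fun q : V × V => q.2 - (⟪q.1, q.2⟫ / ⟪q.1, q.1⟫) • q.1) (ζ, y1) :=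
    continuousAt_snd.sub (c2.smul continuousAt_fst)
  have t2 : Tendsto (fun q : V × V => ‖⟪q.1, q.2⟫ / ⟪q.1, q.1⟫‖) (𝓝 (ζ, y1)) (𝓝 0) := by
    simpa only [ContinuousAt, a1, zero_div, norm_zero] using c2.norm
  have t3 : Tendsto (fun q : V × V => q.2 - (⟪q.1, q.2⟫ / ⟪q.1, q.1⟫) • q.1) (𝓝 (ζ, y1)) (𝓝 y1) := by
    simpa only [ContinuousAt, a1, zero_div, zero_smul, sub_zero] using c3
  obtain ⟨K, hK⟩ : ∃ K, K = (Φ (H ξ1 y1) + 1) / c + ‖ξ0‖ := ⟨_, rfl⟩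
  have key : ∀ᶠ q : V × V in 𝓝 (ζ, y1), ∀ p : V →L[ℝ] V, Cp Φ ξ0 H Ω q.1 p → ‖p q.2‖ ≤ K := by
    filter_upwards [c1.eventually_ne n0, t2.eventually (gt_mem_nhds one_pos),
      t3.eventually (near hC m1 y0 a2)] with q b1 b2 ⟨ξ, m, o, l⟩ p hp
    rw [← hp.t1 ξ m _ o (by
      rw [inner_sub_right, inner_smul_right, div_mul_cancel₀ _ b1, sub_self])] at l
    have e : p q.2 = p (q.2 - (⟪q.1, q.2⟫ / ⟪q.1, q.1⟫) • q.1) + (⟪q.1, q.2⟫ / ⟪q.1, q.1⟫) • ξ0 := by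
      rw [map_sub, hp.H0, sub_add_cancel]
    rw [e, hK]
    refine (norm_add_le _ _).trans (add_le_add ?_ ?_)
    · rw [le_div_iff₀' c0]
      exact (hc _).trans l.le
    · rw [norm_smul]
      exact mul_le_of_le_one_left (norm_nonneg _) b2.le
  rw [nhds_prod_eq, eventually_prod_iff] at key
  obtain ⟨pa, ha, pb, hb, key⟩ := key
  obtain ⟨r, r0, hr⟩ := Metric.eventually_nhds_iff.1 hb
  refine ⟨2 * K / (r / 2), ha.mono fun u hu p hp => ?_⟩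
  have k1 : ‖p y1‖ ≤ K := key hu hb.self_of_nhds p hp
  refine ContinuousLinearMap.opNorm_le_of_unit_norm
    (div_nonneg (by linarith [norm_nonneg (p y1)]) (by linarith)) fun x hx => ?_
  have k2 : ‖p (y1 + (r / 2) • x)‖ ≤ K := key hu (hr (by
    rw [dist_eq_norm, add_sub_cancel_left, norm_smul, hx, Real.norm_of_nonneg (by linarith)]
    linarith)) p hp
  have k3 := norm_sub_le (p (y1 + (r / 2) • x)) (p y1)
  rw [map_add, add_sub_cancel_left, map_smul, norm_smul, Real.norm_of_nonneg (by linarith),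
    ← map_smul, ← map_add] at k3
  rw [le_div_iff₀' (by linarith)]
  linarith

end LBd

theorem bLB (hL : St_LIM) : St_LB := by
  intro V _ _ _ Φ ξ0 H Ω h3 hD hC
  have one : ∀ (u : ℕ → V) (p : ℕ → V →L[ℝ] V) (ζ : V), (∀ n, (u n, p n) ∈ Gr Ω H) →
      Tendsto u atTop (𝓝 ζ) → ζ ≠ 0 → ∃ (π : V →L[ℝ] V) (φ : ℕ → ℕ), StrictMono φ ∧
        Tendsto (fun n => p (φ n)) atTop (𝓝 π) ∧ (ζ, π) ∈ Gr Ω H := by
    intro u p ζ h hu h0
    obtain ⟨K, hK⟩ := LBd.bdd h3 hD hC h0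
    obtain ⟨π, -, φ, hφ, hp⟩ := tendsto_subseq_of_frequently_bounded
      (isBounded_closedBall (x := (0 : V →L[ℝ] V)) (r := K)) (x := p)
      ((hu.eventually hK).mono fun n hn => mem_closedBall_zero_iff.2
        (hn _ (hL V Φ ξ0 H Ω hC _ _ (h n)))).frequently
    exact ⟨π, φ, hφ, hp, isClosed_closure.mem_of_tendsto
      ((hu.comp hφ.tendsto_atTop).prodMk_nhds hp) (Eventually.of_forall fun n => h _)⟩
  refine ⟨one, fun ζ hζ h0 => ?_⟩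
  obtain ⟨u, m, hu⟩ := mem_closure_iff_seq_limit.1 hζ
  obtain ⟨π, -, -, -, h⟩ := one u (fun n => H (u n)) ζ (fun n => subset_closure ⟨_, m n, rfl⟩) hu h0
  exact ⟨π, h⟩

end Pool.Agent.Lib.LC
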