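import Pool.Agent.Lib.LC.Basic
import Pool.Agent.Lib.LB.B_LIFT

/-! A Lipschitz family of isometries, complex case. -/

set_option autoImplicit false

open Set Filter Topology Metric
open scoped ComplexInnerProductSpace NNReal

noncomputable section

namespace Pool.Agent.Lib.LC

open Pool.Agent.Lib.LB

open LB.LIFT in
theorem bLIFT : St_LIFT := by
  intro E V _ _ _ _ _ _ S Φ hΦ hCi ⟨ρ, hρ, hI⟩
  obtain ⟨K, hK, c, hc, hK'⟩ := two (Φ := S.n Φ) fun x hx => S.ι_inj (hΦ _ hx)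
  obtain ⟨δ, hδ, C, hC, a, a1, a2⟩ := BF40.slice (n := S.n Φ) hK
    (fun x y => (abs_sub_map_le_sub _ x y).trans (hK' _).1) hc (fun x => (hK' x).2) (map_zero _)
  have he : 0 ≤ Φ S.e := apply_nonneg _ _
  have d : ∀ l l' x : E, |Φ (S.j l x) - Φ (S.j l' x)| ≤ Φ S.e * ‖l - l'‖ * ‖x‖ := fun l l' x => by
    refine (abs_sub_map_le_sub Φ _ _).trans ?_
    have e : S.j l x - S.j l' x = (-⟪l - l', x⟫) • S.e := by
      rw [S.j_apply, S.j_apply, inner_sub_left]
      module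
    rw [e, hCi, norm_neg, mul_comm, mul_assoc]
    exact mul_le_mul_of_nonneg_left (norm_inner_le_norm _ _) he
  obtain ⟨r, hr, r1, r2⟩ : ∃ r > 0, r < ρ ∧ Φ S.e * r ≤ δ := by
    refine ⟨min (ρ / 2) (δ / (Φ S.e + 1)), by positivity, (min_le_left _ _).trans_lt (by linarith), ?_⟩
    refine (mul_le_mul_of_nonneg_left (min_le_right _ _) he).trans ?_
    rw [← mul_div_assoc, div_le_iff₀ (by linarith)]
    linarith
  have g : ∀ l : E, ∃ g : E →L[ℝ] E, ∀ x, Φ (S.j (ret r l) (g x)) = S.n Φ x := fun l => by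
    obtain ⟨F, -, -, hF⟩ := hI (S.xi (ret r l)) (by
      rw [mem_ball, dist_eq_norm, Sp.xi, add_sub_cancel_left, S.norm_ι]
      exact (ret_le hr l).trans_lt r1)
    refine ⟨S.prr ∘L F ∘L S.ιr, fun x => ?_⟩
    have := hF (S.ι x) (S.ei x)
    exact (congrArg Φ (S.j_pr this.1)).trans this.2
  have b : ∀ l x : E, |Φ (S.j (ret r l) x) - S.n Φ x| ≤ δ * ‖x‖ := fun l x => by
    rw [S.n_apply, ← S.j_zero]
    refine (d _ _ _).trans (mul_le_mul_of_nonneg_right ?_ (norm_nonneg _))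
    rw [sub_zero]
    exact (mul_le_mul_of_nonneg_left (ret_le hr l) he).trans r2
  obtain ⟨A, A1, A2, A3⟩ : ∃ A : E → E →L[ℝ] E, (∀ l, ‖A l‖ ≤ 1 / 2) ∧
      (∀ l x, Φ (S.j (ret r l) (x + A l x)) = S.n Φ x) ∧
      ∀ l l', ‖A l - A l'‖ ≤ C * (Φ S.e * 2) * ‖l - l'‖ := by
    refine ⟨fun l => a fun x => Φ (S.j (ret r l) x), fun l => (a1 _ (g l) (b l)).1,
      fun l => (a1 _ (g l) (b l)).2, fun l l' => ?_⟩
    refine (a2 _ _ _ (by positivity) (g l) (b l) (g l') (b l') (d _ _)).trans ?_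
    rw [mul_assoc C, mul_assoc]
    exact mul_le_mul_of_nonneg_left (mul_le_mul_of_nonneg_left (ret_lip hr l l') he) hC
  choose W W1 W2 W3 using fun l => inv (A l) (A1 l)
  have hL : 0 ≤ C * (Φ S.e * 2) := by positivity
  have n1 : ‖1 + A 0‖ ≤ 2 := by
    linarith [norm_add_le 1 (A 0), A1 0, ContinuousLinearMap.norm_id_le (𝕜 := ℝ) (E := E),
      show ‖(1 : E →L[ℝ] E)‖ = ‖ContinuousLinearMap.id ℝ E‖ from rfl]
  refine ⟨r, ⟨8 * (C * (Φ S.e * 2)), by positivity⟩, fun l => (1 + A l) * W 0,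
    fun l => (1 + A 0) * W l, hr, LipschitzWith.of_dist_le_mul fun l l' => ?_,
    LipschitzWith.of_dist_le_mul fun l l' => ?_, W1 0, W1 0, fun l x => ?_, fun l x => ?_,
    fun l hl x => ?_⟩
  · rw [dist_eq_norm, dist_eq_norm, ← sub_mul, add_sub_add_left_eq_sub]
    have h1 := (norm_mul_le (A l - A l') (W 0)).trans
      (mul_le_mul (A3 l l') (W3 0) (norm_nonneg _) (by positivity))
    have h2 := mul_nonneg hL (norm_nonneg (l - l'))
    show _ ≤ 8 * (C * (Φ S.e * 2)) * ‖l - l'‖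
    linarith
  · have e : W l - W l' = W l * (A l' - A l) * W l' := by
      rw [← add_sub_add_left_eq_sub (A l') (A l) 1, mul_sub, sub_mul, mul_assoc, W1, W2, mul_one,
        one_mul]
    rw [dist_eq_norm, dist_eq_norm, ← mul_sub, e]
    have h0 := A3 l' l
    rw [norm_sub_rev l'] at h0
    have h1 := (norm_mul_le (W l) (A l' - A l)).trans
      (mul_le_mul (W3 l) h0 (norm_nonneg _) zero_le_two)
    have h2 := (norm_mul_le (W l * (A l' - A l)) (W l')).trans
      (mul_le_mul h1 (W3 l') (norm_nonneg _) (by positivity))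
    have h3 := (norm_mul_le (1 + A 0) _).trans (mul_le_mul n1 h2 (norm_nonneg _) zero_le_two)
    show _ ≤ 8 * (C * (Φ S.e * 2)) * ‖l - l'‖
    linarith
  · have e : (1 + A l) * W 0 * ((1 + A 0) * W l) = 1 := by
      rw [mul_assoc, ← mul_assoc (W 0), W2, one_mul, W1]
    exact congrArg (fun T : E →L[ℝ] E => T x) e
  · have e : (1 + A 0) * W l * ((1 + A l) * W 0) = 1 := by
      rw [mul_assoc, ← mul_assoc (W l), W2, one_mul, W1]
    exact congrArg (fun T : E →L[ℝ] E => T x) e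
  · have h1 := A2 l (W 0 x)
    have h2 := A2 0 (W 0 x)
    rw [ret_eq hr hl.le] at h1
    rw [ret_eq hr (by simpa using hr.le), S.j_zero,
      show W 0 x + A 0 (W 0 x) = x from congrArg (fun T : E →L[ℝ] E => T x) (W1 0)] at h2
    exact h1.trans h2.symm

end Pool.Agent.Lib.LC
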