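import Pool.Agent.Lib.LC.Blue

/-! Complex local Banach problem: limits of the development are compatible with the family. -/

set_option autoImplicit false

open Set Filter Topology Metric Module
open scoped ComplexInnerProductSpace

noncomputable section

namespace Pool.Agent.Lib.LC

namespace LIM

variable {V : Type} [NormedAddCommGroup V] [InnerProductSpace ℂ V]

theorem app {p : ℕ → V →L[ℝ] V} {π : V →L[ℝ] V} {u : ℕ → V} {y : V} (hp : Tendsto p atTop (𝓝 π))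
    (hu : Tendsto u atTop (𝓝 y)) : Tendsto (fun k => p k (u k)) atTop (𝓝 (π y)) :=
  (isBoundedBilinearMap_apply.continuous.tendsto (π, y)).comp (hp.prodMk_nhds hu)

theorem corr {a y : ℕ → V} {a₀ y₀ ζ : V} (ha : Tendsto a atTop (𝓝 a₀)) (hy : Tendsto y atTop (𝓝 y₀))
    (h0 : ⟪a₀, y₀⟫ = 0) (h1 : ⟪a₀, ζ⟫ ≠ 0) : ∃ y' : ℕ → V, Tendsto y' atTop (𝓝 y₀) ∧
      ∀ᶠ k in atTop, ⟪a k, y' k⟫ = 0 := by
  have h2 := ha.inner (𝕜 := ℂ) (tendsto_const_nhds (x := ζ))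
  refine ⟨fun k => y k - (⟪a k, y k⟫ / ⟪a k, ζ⟫) • ζ, ?_, ?_⟩
  · simpa [h0] using hy.sub (((ha.inner (𝕜 := ℂ) hy).div h2 h1).smul_const ζ)
  · filter_upwards [h2.eventually_ne h1] with k hk
    rw [inner_sub_right, inner_smul_right, div_mul_cancel₀ _ hk, sub_self]

theorem seq {Ω : Set V} {H : V → V →L[ℝ] V} {ζ : V} {π : V →L[ℝ] V} (h : (ζ, π) ∈ Gr Ω H) :
    ∃ u : ℕ → V, (∀ k, u k ∈ Ω) ∧ Tendsto u atTop (𝓝 ζ) ∧ Tendsto (fun k => H (u k)) atTop (𝓝 π) := by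
  obtain ⟨x, hx, hl⟩ := mem_closure_iff_seq_limit.1 h
  choose u hu he using hx
  obtain rfl : x = fun k => (u k, H (u k)) := funext fun k => (he k).symm
  exact ⟨u, hu, hl.fst_nhds, hl.snd_nhds⟩

end LIM

open LIM in
theorem bLIM : St_LIM := by
  intro V _ _ _ Φ ξ0 H Ω hC ζ π h
  have hΦ : Continuous Φ := continuousOn_univ.1 (Φ.convexOn.continuousOn isOpen_univ)
  obtain ⟨u, hu, h1, h2⟩ := seq h
  have h3 : ∀ c : ℂ, π (c • ζ) = c • ξ0 := fun c => tendsto_nhds_unique (app h2 (h1.const_smul c))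
    (tendsto_const_nhds.congr fun k => (hC.H0 _ (hu k) c).symm)
  have h4 : ζ ≠ 0 := fun h0 => hC.n0 (by simpa [h0] using (h3 1).symm)
  have h5 := fun y (hy : ⟪ζ, y⟫ = 0) => corr h1 (tendsto_const_nhds (x := y)) hy
    (inner_self_ne_zero.2 h4)
  refine ⟨h3, fun y hy => ?_, fun y hy c => ?_, fun ξ hξ y hy hy' => ?_⟩
  · obtain ⟨y', l1, l2⟩ := h5 y hy
    exact tendsto_nhds_unique ((tendsto_const_nhds (x := ξ0)).inner (𝕜 := ℂ) (app h2 l1))
      (tendsto_const_nhds.congr' (l2.mono fun k hk => (hC.Hp _ (hu k) _ hk).symm))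
  · obtain ⟨y', l1, l2⟩ := h5 y hy
    refine tendsto_nhds_unique ((hΦ.tendsto _).comp (app h2 (l1.const_smul c)))
      ((((hΦ.tendsto _).comp (app h2 l1)).const_mul ‖c‖).congr' ?_)
    filter_upwards [l2] with k hk
    exact (hC.ci _ (hu k) _ hk c).symm
  · rcases eq_or_ne y 0 with rfl | h0
    · simp
    obtain ⟨y', l1, l2⟩ := h5 y hy'
    obtain ⟨x, l3, l4⟩ := corr l1 (tendsto_const_nhds (x := ξ)) (inner_eq_zero_symm.1 hy)
      (inner_self_ne_zero.2 h0)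
    refine tendsto_nhds_unique ((hΦ.tendsto _).comp (app h2 l1))
      (((hΦ.tendsto _).comp (app ((hC.co ξ hξ).tendsto.comp l3) l1)).congr' ?_)
    filter_upwards [l2, l4, l3.eventually (hC.op.mem_nhds hξ)] with k k1 k2 k3
    exact hC.t1 _ k3 _ (hu k) _ (inner_eq_zero_symm.1 k2) k1

end Pool.Agent.Lib.LC
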