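import Pool.Agent.Lib.LC.Blue
import Pool.Agent.Lib.LB.B_DIST

/-! Local Banach problem over the complex numbers: the lifted distribution and its frames. -/

set_option autoImplicit false

open Set Filter Topology Metric Module MeasureTheory
open scoped ComplexInnerProductSpace ContDiff NNReal ComplexConjugate

noncomputable section

namespace Pool.Agent.Lib.LC

open Pool.Agent.Lib.LB

namespace LOC

theorem rad {E Y : Type} [NormedAddCommGroup E] [NormedSpace ℝ E] [FiniteDimensional ℝ E]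
    [NormedAddCommGroup Y] [NormedSpace ℝ Y] [FiniteDimensional ℝ Y] {H : E → Y} {C : ℝ≥0}
    (h : LipschitzWith C H) : ∀ᶠ l in aeF E, DifferentiableAt ℝ H l := by
  let _ : MeasurableSpace E := borel E
  have : BorelSpace E := ⟨rfl⟩
  exact h.ae_differentiableAt (μ := Measure.addHaar)

variable {E V : Type} [NormedAddCommGroup E] [InnerProductSpace ℂ E] [NormedAddCommGroup V]
  [InnerProductSpace ℂ V] {S : Sp E V} {Φ : Seminorm ℝ V} {r : ℝ} {C : ℝ≥0} {G H : E → E →L[ℝ] E}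

theorem kil_iff (h : Lf S Φ r C G H) {l : E} (hl : ‖l‖ < r) (y u : E) :
    u ∈ Kil (S.n Φ) y ↔ S.j l (G l u) ∈ Kil Φ (S.j l (G l y)) :=
  K9 (Eventually.of_forall fun s => by
    rw [S.n_apply, ← h.iso l hl, map_add, map_add, map_smul, map_smul])

/-- The transverse members of the frame. -/
def v0 (S : Sp E V) (A B : E →L[ℝ] E) (l μ : E) : E →L[ℝ] V :=
  (S.j l).comp (A.comp B) + ((innerSL ℂ μ).smulRight S.e).restrictScalars ℝ

theorem v0_apply (A B : E →L[ℝ] E) (l μ x : E) :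
    v0 S A B l μ x = S.j l (A (B x)) + ⟪μ, x⟫ • S.e := by
  simp [v0]

theorem v0_pr (A B : E →L[ℝ] E) (l μ x : E) : S.pr (v0 S A B l μ x) = A (B x) := by
  rw [v0_apply, map_add, map_smul, S.pr_j, S.pr_e, smul_zero, add_zero]

theorem v0_xi (A B : E →L[ℝ] E) (l μ x : E) : ⟪S.xi l, v0 S A B l μ x⟫ = ⟪μ, x⟫ := by
  rw [v0_apply, inner_add_right, S.xi_j, inner_smul_right, S.xi_e]
  ring

theorem xi_v0 (A B : E →L[ℝ] E) (l μ x : E) : ⟪v0 S A B l μ x, S.xi l⟫ = ⟪x, μ⟫ := by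
  rw [← inner_conj_symm, v0_xi, inner_conj_symm]

theorem v0_dec (A : E →L[ℝ] E) (B : E →L[ℝ] E →L[ℝ] E) (l x0 x : E) (c : ℂ) :
    v0 S A (B (c • x0)) l (c • x0) x = c.re • v0 S A (B x0) l x0 x +
      c.im • v0 S A (B (Complex.I • x0)) l (Complex.I • x0) x := by
  have e : c • x0 = c.re • x0 + c.im • Complex.I • x0 := by
    conv_lhs => rw [← Complex.re_add_im c]
    rw [add_smul, mul_smul, Complex.coe_smul, Complex.coe_smul]
  have e2 : ⟪c • x0, x⟫ • S.e =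
      c.re • ⟪x0, x⟫ • S.e + c.im • ⟪Complex.I • x0, x⟫ • S.e := by
    rw [← Complex.coe_smul, ← Complex.coe_smul, smul_smul, smul_smul, ← add_smul, inner_smul_left,
      inner_smul_left, Complex.conj_I]
    conv_lhs => rw [← Complex.re_add_im c]
    rw [map_add, map_mul, Complex.conj_ofReal, Complex.conj_ofReal, Complex.conj_I, add_mul,
      mul_assoc]
  rw [v0_apply, v0_apply, v0_apply, e2]
  conv_lhs => rw [e]
  simp only [map_add, map_smul, add_apply, smul_apply, smul_add]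
  abel

theorem frame {m : ℕ} {A A' : E →L[ℝ] E} {B : E →L[ℝ] E →L[ℝ] E} (h1 : ∀ x, A (A' x) = x)
    (h2 : ∀ x, A' (A x) = x) (l x0 x : E) (p : Fin m → E) (hp : LinearIndependent ℝ p)
    (h0 : ⟪x0, x⟫ ≠ 0) (D : Submodule ℝ V) (hD : ∀ v, v ∈ D ↔ ‖⟪x0, x⟫‖ ^ 2 • A' (S.pr v) -
      B ((⟪v, S.xi l⟫ * ⟪x0, x⟫) • x0) x ∈ Submodule.span ℝ (range p)) (a : Fin (m + 2) → V)
    (ha : a = Fin.cons (v0 S A (B x0) l x0 x) (Fin.cons
      (v0 S A (B (Complex.I • x0)) l (Complex.I • x0) x) fun i => S.j l (A (p i)))) :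
    LinearIndependent ℝ a ∧ Submodule.span ℝ (range a) = D := by
  let T : E →ₗ[ℝ] V := ((S.j l).comp A : E →L[ℝ] V)
  have hT : ∀ y, T y = S.j l (A y) := fun _ => rfl
  have e : (fun i => S.j l (A (p i))) = T ∘ p := rfl
  have hm : Submodule.span ℝ (range fun i => S.j l (A (p i))) = (Submodule.span ℝ (range p)).map T := by
    rw [e, range_comp, Submodule.map_span]
  have n0 : ‖⟪x0, x⟫‖ ^ 2 ≠ 0 := pow_ne_zero 2 (norm_ne_zero_iff.2 h0)
  have sq : ((‖⟪x0, x⟫‖ ^ 2 : ℝ) : ℂ) = ⟪x, x0⟫ * ⟪x0, x⟫ := by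
    rw [← inner_conj_symm x x0, Complex.conj_mul', Complex.ofReal_pow]
  have mem : ∀ c : ℂ, v0 S A (B (c • x0)) l (c • x0) x ∈ D := fun c => by
    rw [hD, v0_pr, xi_v0, h2, inner_smul_right, mul_assoc, ← sq, mul_comm, mul_smul,
      Complex.coe_smul, B.map_smul, smul_apply, sub_self]
    exact zero_mem _
  subst ha
  constructor
  · rw [linearIndependent_finCons, linearIndependent_finCons]
    refine ⟨⟨?_, ?_⟩, ?_⟩
    · rw [e]
      refine hp.map' T (LinearMap.ker_eq_bot'.2 fun y hy => ?_)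
      have := congrArg (fun v => A' (S.pr v)) hy
      simpa [hT, S.pr_j, h2] using this
    · rw [hm]
      rintro ⟨y, -, hy⟩
      have := v0_xi (S := S) A (B (Complex.I • x0)) l (Complex.I • x0) x
      rw [← hy, hT, S.xi_j, inner_smul_left, Complex.conj_I] at this
      exact mul_ne_zero (neg_ne_zero.2 Complex.I_ne_zero) h0 this.symm
    · rw [Fin.range_cons, Submodule.mem_span_insert, hm]
      rintro ⟨t, _, ⟨y, -, rfl⟩, hy⟩
      have := v0_xi (S := S) A (B x0) l x0 x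
      rw [hy, hT, inner_add_right, S.xi_j, add_zero, ← Complex.coe_smul, inner_smul_right, v0_xi,
        inner_smul_left, Complex.conj_I, ← mul_assoc] at this
      have := congrArg Complex.re (mul_right_cancel₀ h0 (this.trans (one_mul _).symm))
      simp at this
  · apply le_antisymm
    · rw [Submodule.span_le]
      rintro _ ⟨i, rfl⟩
      refine Fin.cases ?_ (fun i => Fin.cases ?_ (fun i => ?_) i) i
      · have := mem 1
        rwa [one_smul] at this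
      · exact mem _
      · rw [Fin.cons_succ, Fin.cons_succ, SetLike.mem_coe, hD, S.pr_j, h2,
          ← inner_conj_symm (S.j l _), S.xi_j, map_zero, zero_mul, zero_smul, map_zero, zero_apply,
          sub_zero]
        exact Submodule.smul_mem _ _ (Submodule.subset_span ⟨i, rfl⟩)
    · intro v hv
      obtain ⟨c, hc⟩ : ∃ c : ℂ, c * ⟪x, x0⟫ = ⟪v, S.xi l⟫ :=
        ⟨_, div_mul_cancel₀ _ fun h => h0 (by rw [← inner_conj_symm, h, map_zero])⟩
      have a1 : ⟪S.xi l, v - v0 S A (B (c • x0)) l (c • x0) x⟫ = 0 := by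
        rw [← inner_conj_symm, inner_sub_left, xi_v0, inner_smul_right, hc, sub_self, map_zero]
      have a2 := S.j_pr a1
      rw [map_sub, v0_pr] at a2
      have a3 : A ((‖⟪x0, x⟫‖ ^ 2)⁻¹ • (‖⟪x0, x⟫‖ ^ 2 • A' (S.pr v) -
          B ((⟪v, S.xi l⟫ * ⟪x0, x⟫) • x0) x)) = S.pr v - A (B (c • x0) x) := by
        rw [← hc, mul_assoc, ← sq, mul_comm, mul_smul, Complex.coe_smul, B.map_smul, smul_apply,
          ← smul_sub, smul_smul, inv_mul_cancel₀ n0, one_smul, map_sub, h1]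
      rw [Fin.range_cons, Submodule.mem_span_insert]
      refine ⟨c.re, v - c.re • v0 S A (B x0) l x0 x, ?_, by abel⟩
      rw [Fin.range_cons, Submodule.mem_span_insert, hm]
      refine ⟨c.im, _, ⟨_, Submodule.smul_mem _ (‖⟪x0, x⟫‖ ^ 2)⁻¹ ((hD v).1 hv), rfl⟩, ?_⟩
      rw [hT, a3, a2, v0_dec A B l x0 x c]
      abel

theorem move (A B : E →L[ℝ] E) (l : E) (μ : V) : ∃ L : V →L[ℝ] V,
    (∀ c : ℂ, L (c • S.xi l) = c • μ) ∧ (∀ y, ⟪S.xi l, y⟫ = 0 → ⟪S.xi l, L y⟫ = -⟪μ, y⟫) ∧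
    ∀ x, L (S.j l x) = -v0 S A B l (S.pr μ - ⟪S.e, μ⟫ • l) x := by
  have hx : ⟪S.xi l, S.xi l⟫ ≠ 0 := fun h => S.xi_ne l (inner_self_eq_zero.1 h)
  let c : V →L[ℂ] ℂ := (⟪S.xi l, S.xi l⟫)⁻¹ • innerSL ℂ (S.xi l)
  have hc : ∀ y, c y = (⟪S.xi l, S.xi l⟫)⁻¹ * ⟪S.xi l, y⟫ := fun y => rfl
  let R : V →L[ℝ] V := (v0 S A B l (S.pr μ - ⟪S.e, μ⟫ • l)).comp S.prr
  let L : V →L[ℝ] V := (c.smulRight μ).restrictScalars ℝ -
    R.comp (1 - (c.smulRight (S.xi l)).restrictScalars ℝ)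
  have hL : ∀ y, L y = c y • μ - R (y - c y • S.xi l) := fun y => rfl
  have k : ∀ x, L (S.j l x) = -v0 S A B l (S.pr μ - ⟪S.e, μ⟫ • l) x := fun x => by
    rw [hL, hc, S.xi_j, mul_zero, zero_smul, zero_smul, zero_sub, sub_zero]
    simp only [R, ContinuousLinearMap.comp_apply, S.prr_apply, S.pr_j]
  refine ⟨L, fun t => ?_, fun y hy => ?_, k⟩
  · rw [hL, map_smul, hc, inv_mul_cancel₀ hx, smul_eq_mul, mul_one, sub_self, map_zero, sub_zero]
  · rw [← S.j_pr hy, k, inner_neg_right, v0_xi, S.j_apply, inner_sub_right, S.inner_ι,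
      inner_sub_left, inner_smul_right, inner_smul_left, inner_conj_symm, mul_comm]

end LOC

theorem bLOC (hLIFT : St_LIFT) (hZF : St_ZF) (hTINV : St_TINV) : St_LOC := by
  intro E V _ _ _ _ _ _ _ S Φ hΦ hC hI
  obtain ⟨r, C, G, H, hL⟩ := hLIFT E V S Φ hΦ hC hI
  obtain ⟨x0, O, d, m, P, τ, hD⟩ := bDIST E (S.n Φ)
  obtain ⟨ρ, O', D, ρ0, ρr, op, mem, hT⟩ := hTINV E V S Φ r C G H x0 O d m P τ hL hD
  refine ⟨x0, O', ρ, {l | ‖l‖ < ρ ∧ DifferentiableAt ℝ H l}, D, m + 2, d + 1, hD.ne, op, mem, ρ0,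
    (LOC.rad hL.lipH).mono fun l h1 h2 => ⟨h2, h1⟩, ?_, ?_, ?_⟩
  · rintro l ⟨l1, l2⟩
    have lr := l1.trans_le ρr
    refine ⟨Fin.cons (fun x => LOC.v0 S (G l) (fderiv ℝ H l x0) l x0 x) (Fin.cons
      (fun x => LOC.v0 S (G l) (fderiv ℝ H l (Complex.I • x0)) l (Complex.I • x0) x)
      fun i x => S.j l (G l (P i (H l x)))), fun i => ?_, fun i x => ?_, fun x hx => ?_⟩
    · refine Fin.cases ?_ (fun i => Fin.cases ?_ (fun i => ?_) i) i
      · exact (IsPol.lin _).mono (by omega)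
      · exact (IsPol.lin _).mono (by omega)
      · exact ((((hD.pol i).pre (H l)).post (G l)).post (S.j l)).mono (by omega)
    · refine Fin.cases ?_ (fun i => Fin.cases ?_ (fun i => ?_) i) i
      · rw [Fin.cons_zero, LOC.v0_apply]
        exact (hZF E V S Φ r C G H hL l lr l2).2 x0 x
      · rw [Fin.cons_succ, Fin.cons_zero, LOC.v0_apply]
        exact (hZF E V S Φ r C G H hL l lr l2).2 _ x
      · have := (LOC.kil_iff hL lr _ _).1 (hD.kil i (H l x))
        rwa [hL.GH] at this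
    · obtain ⟨t1, t2, t3⟩ := hT l l1 x hx
      exact LOC.frame (hL.GH l) (hL.HG l) l x0 x _ (hD.li _ t1) t2 _ (t3 l2) _
        (funext fun i => Fin.cases rfl (fun i => Fin.cases rfl (fun _ => rfl) i) i)
  · rintro l ⟨l1, l2⟩ A hA x hx
    obtain ⟨t1, -, t3⟩ := hT l l1 x hx
    rw [t3 l2, ← inner_conj_symm (A _), (hA.2 _ (S.xi_j l x)).1, map_zero, zero_mul, zero_smul,
      map_zero, zero_apply, sub_zero]
    have := hD.all (fun y => H l (S.pr (A (S.j l (G l y)))))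
      ((((((Pl.lin (G l)).post (S.j l)).post A).post S.prr).post (H l))) (fun y => by
        rw [LOC.kil_iff hL (l1.trans_le ρr), hL.GH, S.j_pr (hA.2 _ (S.xi_j l _)).1]
        exact (hA.2 _ (S.xi_j l _)).2) _ t1
    rw [hL.GH] at this
    exact Submodule.smul_mem _ _ this
  · rintro l ⟨l1, l2⟩ μ
    obtain ⟨L, a1, a2, a3⟩ := LOC.move (S := S) (G l) (fderiv ℝ H l (S.pr μ - ⟪S.e, μ⟫ • l)) l μ
    refine ⟨L, a1, a2, fun x hx => ?_⟩
    obtain ⟨t1, -, t3⟩ := hT l l1 x hx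
    obtain ⟨z1, z2⟩ := (hZF E V S Φ r C G H hL l (l1.trans_le ρr) l2).1 x0 (S.pr μ - ⟪S.e, μ⟫ • l)
    have := hD.all _ z1 z2 _ t1
    rw [hL.GH] at this
    rw [a3]
    refine neg_mem ?_
    rw [t3 l2, LOC.v0_pr, LOC.xi_v0, hL.HG]
    exact this

end Pool.Agent.Lib.LC
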