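import Pool.Agent.Lib.LC.Blue

/-! Complex local Banach problem: block NR (transverse killing directions when the dual base is not a
point). -/

set_option autoImplicit false

open Set Filter Topology Metric Module
open scoped ComplexInnerProductSpace

noncomputable section

namespace Pool.Agent.Lib.LC.NR

open Pool.Agent.Lib.LB

variable {V : Type} [NormedAddCommGroup V] [InnerProductSpace ℂ V]

theorem nn_iff {Bd : Set V} {ξ0 l : V} :
    l ∈ Nn Bd ξ0 ↔ ∀ b ∈ insert (0 : V) Bd, l ∉ Submodule.span ℂ ({ξ0, b} : Set V) := by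
  constructor
  · intro h b hb hm
    obtain ⟨a, c, e⟩ := Submodule.mem_span_pair.1 hm
    have e' : l + (-a) • ξ0 = c • b := by
      rw [← e]
      module
    rcases hb with hb | hb
    · refine (h (-a)).1 ?_
      rw [e', hb, smul_zero]
    · exact (h (-a)).2 b hb c e'
  · intro h a
    refine ⟨fun e => h 0 (mem_insert _ _) (Submodule.mem_span_pair.2 ⟨-a, 0, ?_⟩), fun b hb c e =>
      h b (mem_insert_of_mem _ hb) (Submodule.mem_span_pair.2 ⟨-a, c, ?_⟩)⟩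
    · rw [smul_zero, add_zero, neg_smul]
      exact (eq_neg_of_add_eq_zero_left e).symm
    · rw [← e]
      module

theorem nn_smul {Bd : Set V} {ξ0 l : V} (h : l ∈ Nn Bd ξ0) {c : ℂ} (hc : c ≠ 0) : c • l ∈ Nn Bd ξ0 := by
  rw [nn_iff] at h ⊢
  intro b hb hm
  exact h b hb ((Submodule.smul_mem_iff _ hc).1 hm)

theorem nn_open [FiniteDimensional ℂ V] {Bd : Set V} (hB : Bd.Finite) (ξ0 : V) : IsOpen (Nn Bd ξ0) := by
  have e : Nn Bd ξ0 = ⋂ b ∈ insert (0 : V) Bd, (Submodule.span ℂ ({ξ0, b} : Set V) : Set V)ᶜ := by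
    ext l
    rw [nn_iff, mem_iInter₂]
    rfl
  rw [e]
  exact (hB.insert 0).isOpen_biInter fun b _ =>
    (Submodule.closed_of_finiteDimensional _).isOpen_compl

end Pool.Agent.Lib.LC.NR

namespace Pool.Agent.Lib.LC

open Pool.Agent.Lib.LB

theorem bNR : St_NR := by
  intro V _ _ _ Φ ξ0 Bd K hDf hB hK hne hex
  have two : ∀ l ∈ Nn Bd ξ0, (∃ y ∈ K, ∃ y' ∈ K, (⟪l, y⟫).re ≠ (⟪l, y'⟫).re) →
      ∃ p ∈ K, ∃ p' ∈ K, ⟪l, p - p'⟫ ≠ 0 ∧
        ∀ x, x ≠ 0 → ⟪ξ0, x⟫ = 0 → ⟪l, x⟫ = 0 → ∀ c : ℂ, c • (p - p') ∈ Kil Φ x := by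
    intro l hl hw
    obtain ⟨p, hpK, hmax, hk⟩ := hex l hl
    have hl' : -l ∈ Nn Bd ξ0 := by
      rw [← neg_one_smul ℂ l]
      exact NR.nn_smul hl (neg_ne_zero.2 one_ne_zero)
    obtain ⟨p', hpK', hmax', hk'⟩ := hex (-l) hl'
    obtain ⟨y, hy, y', hy', hyy⟩ := hw
    refine ⟨p, hpK, p', hpK', ?_, fun x hx hx0 hlx c => ?_⟩
    · have a1 := hmax y hy
      have a2 := hmax y' hy'
      have a3 := hmax' y hy
      have a4 := hmax' y' hy'
      rw [inner_neg_left, inner_neg_left, Complex.neg_re, Complex.neg_re] at a3 a4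
      intro h
      have h' := congrArg Complex.re h
      rw [inner_sub_right, Complex.sub_re, Complex.zero_re] at h'
      exact hyy (by linarith)
    · rw [smul_sub]
      exact sub_mem (hk x hx hx0 hlx c) (hk' x hx hx0 (by rw [inner_neg_left, hlx, neg_zero]) c)
  have zero : ∀ p ∈ K, ∀ p' ∈ K, ⟪ξ0, p - p'⟫ = 0 := fun p hp p' hp' => by
    rw [inner_sub_right, hK p hp, hK p' hp', sub_self]
  intro l hl
  by_cases hw : ∃ y ∈ K, ∃ y' ∈ K, (⟪l, y⟫).re ≠ (⟪l, y'⟫).re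
  · obtain ⟨p, hp, p', hp', hq, hk⟩ := two l hl hw
    exact ⟨p - p', zero p hp p' hp', hq, hk⟩
  have hI : ∀ y : V, ⟪Complex.I • l, y⟫ = -Complex.I * ⟪l, y⟫ := fun y => by
    rw [inner_smul_left, Complex.conj_I]
  by_cases hw' : ∃ y ∈ K, ∃ y' ∈ K, (⟪Complex.I • l, y⟫).re ≠ (⟪Complex.I • l, y'⟫).re
  · obtain ⟨p, hp, p', hp', hq, hk⟩ := two _ (NR.nn_smul hl Complex.I_ne_zero) hw'
    refine ⟨p - p', zero p hp p' hp', fun h => hq (by rw [hI, h, mul_zero]), fun x hx hx0 hlx =>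
      hk x hx hx0 (by rw [hI, hlx, mul_zero])⟩
  exfalso
  have hz : ∀ y ∈ K, ∀ y' ∈ K, ⟪l, y - y'⟫ = 0 := by
    intro y hy y' hy'
    have r1 : (⟪l, y⟫).re = (⟪l, y'⟫).re := by
      by_contra h
      exact hw ⟨y, hy, y', hy', h⟩
    have r2 : (⟪Complex.I • l, y⟫).re = (⟪Complex.I • l, y'⟫).re := by
      by_contra h
      exact hw' ⟨y, hy, y', hy', h⟩
    rw [hI, hI] at r2
    simp only [Complex.mul_re, Complex.neg_re, Complex.I_re, Complex.neg_im, Complex.I_im] at r2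
    rw [inner_sub_right, sub_eq_zero]
    exact Complex.ext r1 (by linarith)
  obtain ⟨y, hy, y', hy', hyy⟩ := hne
  obtain ⟨c, hc, hlow⟩ := snm_low hDf
  obtain ⟨C, hC, hup⟩ := snm_le Φ
  have hξ0 : ⟪ξ0, ξ0⟫ ≠ 0 := fun h => by
    have e := hK y hy
    rw [inner_self_eq_zero.1 h, inner_zero_left] at e
    exact zero_ne_one e
  obtain ⟨α, hα⟩ : ∃ α : ℂ, ⟪ξ0, l + α • ξ0⟫ = 0 :=
    ⟨-(⟪ξ0, l⟫ / ⟪ξ0, ξ0⟫), by
      rw [inner_add_right, inner_smul_right, neg_mul, div_mul_cancel₀ _ hξ0, add_neg_cancel]⟩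
  have hm0 : l + α • ξ0 ≠ 0 := (hl α).1
  have perp : ∀ v : V, ⟪ξ0, v⟫ = 0 → ⟪l, v⟫ = 0 → ⟪v, l + α • ξ0⟫ = 0 := fun v h1 h2 => by
    rw [← inner_conj_symm, inner_add_left, inner_smul_left, h1, h2, mul_zero, add_zero, map_zero]
  have hlm : ⟪l, l + α • ξ0⟫ = ((‖l + α • ξ0‖ ^ 2 : ℝ) : ℂ) := by
    have e := inner_self_eq_norm_sq_to_K (𝕜 := ℂ) (l + α • ξ0)
    rw [inner_add_left, inner_smul_left, hα, mul_zero, add_zero] at e
    rw [e]
    norm_cast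
  generalize l + α • ξ0 = m at hα hm0 perp hlm
  have hmn : 0 < ‖m‖ := norm_pos_iff.2 hm0
  have hld : ⟪l, y - y'⟫ = 0 := hz y hy y' hy'
  have h0d : ⟪ξ0, y - y'⟫ = 0 := zero y hy y' hy'
  have hd0 : y - y' ≠ 0 := sub_ne_zero.2 hyy
  obtain ⟨d, hdef⟩ : ∃ d, d = y - y' := ⟨_, rfl⟩
  rw [← hdef] at hld h0d hd0
  have hdm : ⟪d, m⟫ = 0 := perp d h0d hld
  obtain ⟨t, ⟨htN, htA⟩, ht⟩ : ∃ t : ℝ, (l + (t : ℂ) • d ∈ Nn Bd ξ0 ∧ t * (2 * C * ‖d‖) < c * ‖m‖) ∧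
      t ∈ Ioi (0 : ℝ) := by
    have c1 : Continuous fun t : ℝ => l + (t : ℂ) • d := by fun_prop
    have c2 : Continuous fun t : ℝ => t * (2 * C * ‖d‖) := by fun_prop
    have e1 : ∀ᶠ t : ℝ in 𝓝 0, l + (t : ℂ) • d ∈ Nn Bd ξ0 :=
      c1.continuousAt.eventually_mem ((NR.nn_open hB ξ0).mem_nhds (by simpa using hl))
    have e2 : ∀ᶠ t : ℝ in 𝓝 0, t * (2 * C * ‖d‖) < c * ‖m‖ :=
      c2.continuousAt.eventually_lt continuousAt_const (by simpa using mul_pos hc hmn)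
    exact (((e1.and e2).filter_mono nhdsWithin_le_nhds).and
      (self_mem_nhdsWithin (s := Ioi (0 : ℝ)))).exists
  have ht' : 0 < t := ht
  obtain ⟨p, hpK, p', hpK', hq, hk⟩ := two _ htN ⟨y, hy, y', hy', by
    intro e
    have e' : (⟪l + (t : ℂ) • d, d⟫).re = 0 := by
      conv_lhs => rw [hdef, inner_sub_right, ← hdef]
      rw [Complex.sub_re, e, sub_self]
    rw [inner_add_left, inner_smul_left, hld, zero_add, Complex.conj_ofReal, Complex.re_ofReal_mul,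
      inner_self_eq_norm_sq_to_K] at e'
    have e'' : t * ‖d‖ ^ 2 = 0 := by
      rw [← e']
      norm_cast
    exact (mul_pos ht' (pow_pos (norm_pos_iff.2 hd0) 2)).ne' e''⟩
  have hlq : ⟪l, p - p'⟫ = 0 := hz p hpK p' hpK'
  have h0q : ⟪ξ0, p - p'⟫ = 0 := zero p hpK p' hpK'
  generalize p - p' = q at hq hk hlq h0q
  have hq0 : q ≠ 0 := fun h => hq (by rw [h, inner_zero_right])
  have hqm : ⟪q, m⟫ = 0 := perp q h0q hlq
  have hm2 : ((‖m‖ ^ 2 : ℝ) : ℂ) ≠ 0 := by exact_mod_cast (pow_pos hmn 2).ne'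
  obtain ⟨a, ha⟩ : ∃ a : ℂ, a * ((‖m‖ ^ 2 : ℝ) : ℂ) = (t : ℂ) * ⟪d, q⟫ :=
    ⟨(t : ℂ) * ⟪d, q⟫ / ((‖m‖ ^ 2 : ℝ) : ℂ), div_mul_cancel₀ _ hm2⟩
  have hmin : Mn Φ (q - a • m) q := by
    have k := hk (q - a • m) ?_ ?_ ?_ 1
    · rw [one_smul] at k
      exact K1 k
    · intro h
      have e : ⟪q, q - a • m⟫ = 0 := by rw [h, inner_zero_right]
      rw [inner_sub_right, inner_smul_right, hqm, mul_zero, sub_zero] at e
      exact hq0 (inner_self_eq_zero.1 e)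
    · rw [inner_sub_right, inner_smul_right, h0q, hα]
      ring
    · rw [inner_sub_right, inner_smul_right, inner_add_left, inner_add_left, inner_smul_left,
        inner_smul_left, hlq, hdm, hlm, Complex.conj_ofReal]
      linear_combination -ha
  have b1 := hmin (-1)
  have e1 : q - a • m + (-1 : ℝ) • q = -(a • m) := by
    rw [neg_one_smul]
    abel
  rw [e1, map_neg_eq_map] at b1
  have b2 := map_add_le_add Φ (q - a • m) (a • m)
  rw [sub_add_cancel] at b2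
  have b3 := hlow q
  have b0 := hup (a • m)
  rw [norm_smul] at b0
  have b4 : ‖a‖ * ‖m‖ ^ 2 ≤ t * (‖d‖ * ‖q‖) := by
    have e := congrArg norm ha
    rw [norm_mul, norm_mul, Complex.norm_real, Complex.norm_real, Real.norm_of_nonneg (by positivity),
      Real.norm_of_nonneg ht'.le] at e
    rw [e]
    exact mul_le_mul_of_nonneg_left (norm_inner_le_norm d q) ht'.le
  have hqn : 0 < ‖q‖ := norm_pos_iff.2 hq0
  have b5 : c * ‖q‖ * ‖m‖ ≤ 2 * (C * (‖a‖ * ‖m‖)) * ‖m‖ :=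
    mul_le_mul_of_nonneg_right (by linarith) hmn.le
  have b6 : C * (‖a‖ * ‖m‖ ^ 2) ≤ C * (t * (‖d‖ * ‖q‖)) := mul_le_mul_of_nonneg_left b4 hC.le
  have b7 : t * (2 * C * ‖d‖) * ‖q‖ < c * ‖m‖ * ‖q‖ := mul_lt_mul_of_pos_right htA hqn
  nlinarith

end Pool.Agent.Lib.LC
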