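import Pool.Agent.Lib.LC.Blue

/-! Local Banach problem over the complex numbers: the maximal cone. -/

set_option autoImplicit false

open Set Filter Topology Metric Module
open scoped ComplexInnerProductSpace

noncomputable section

namespace Pool.Agent.Lib.LC

open Pool.Agent.Lib.LB

namespace OMH

variable {V : Type} [NormedAddCommGroup V] [InnerProductSpace ℂ V]

theorem nn_add {Bd : Set V} {ξ0 ξ : V} (h : ξ ∈ Nn Bd ξ0) (u : ℂ) : ξ + u • ξ0 ∈ Nn Bd ξ0 :=
  fun a => by
    rw [add_assoc, ← add_smul]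
    exact h _

theorem nn_open {Bd : Set V} (h : Bd.Finite) (ξ0 : V) : IsOpen (Nn Bd ξ0) := by
  have e : Nn Bd ξ0 = ⋂ b ∈ insert 0 Bd, ((Submodule.span ℂ {ξ0, b} : Submodule ℂ V) : Set V)ᶜ := by
    ext ξ
    simp only [mem_iInter, mem_compl_iff, SetLike.mem_coe, Submodule.mem_span_pair, not_exists]
    refine ⟨fun k b hb a c e => ?_, fun k a => ⟨fun e => ?_, fun b hb c e => ?_⟩⟩
    · have e' : ξ + (-a) • ξ0 = c • b := by rw [← e, neg_smul]; abel
      rcases hb with rfl | hb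
      · exact (k (-a)).1 (e'.trans (smul_zero _))
      · exact (k (-a)).2 b hb c e'
    · exact k 0 (mem_insert _ _) (-a) 0 (by
        rw [smul_zero, add_zero, neg_smul]
        exact (eq_neg_of_add_eq_zero_left e).symm)
    · exact k b (mem_insert_of_mem _ hb) (-a) c (by rw [← e, neg_smul]; abel)
  rw [e]
  refine (h.insert 0).isOpen_biInter fun b _ => ?_
  have := FiniteDimensional.span_of_finite ℂ (toFinite ({ξ0, b} : Set V))
  exact (Submodule.closed_of_finiteDimensional _).isOpen_compl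

/-- A point of the interior of the closure of an open set is a midpoint. -/
theorem mid {O U : Set V} {ζ : V} (hO : IsOpen O) (hU : U ∈ 𝓝 ζ) (h : ζ ∈ interior (closure O)) :
    ∃ a ∈ O, ∃ b ∈ O, segment ℝ a b ⊆ U ∧ ζ ∈ segment ℝ a b := by
  obtain ⟨r, r0, hr⟩ := Metric.mem_nhds_iff.1 (inter_mem hU (mem_interior_iff_mem_nhds.1 h))
  have rf : ∀ z ∈ ball ζ r, ζ + ζ - z ∈ ball ζ r := fun z hz => by
    rw [mem_ball_iff_norm] at hz ⊢
    rwa [show ζ + ζ - z - ζ = -(z - ζ) by abel, norm_neg]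
  obtain ⟨b, b1, b2⟩ := _root_.mem_closure_iff.1 (hr (mem_ball_self r0)).2 _ isOpen_ball
    (mem_ball_self r0)
  have c : Continuous fun z : V => ζ + ζ - z := by fun_prop
  obtain ⟨a, ⟨a1, a2⟩, a3⟩ := _root_.mem_closure_iff.1 (hr (rf b b1)).2 _
    (isOpen_ball.inter (hO.preimage c)) ⟨rf b b1, by simpa using b2⟩
  refine ⟨a, a3, _, a2, ((convex_ball ζ r).segment_subset a1 (rf a a1)).trans
    fun z hz => (hr hz).1, 1 / 2, 1 / 2, by norm_num, by norm_num, by norm_num, ?_⟩
  rw [← smul_add, add_sub_cancel, ← two_smul ℝ ζ, smul_smul]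
  norm_num

end OMH

open OMH in
theorem bOMH (hGEN : St_GEN) (hOMP : St_OMP) (hDUAL : St_DUAL) : St_OMH := by
  intro V _ _ _ ξ0 ρ Bd Γ h3 hG hC
  obtain ⟨o1, o2, o3, o4, o5⟩ := hOMP V ξ0 ρ Bd Γ hG
  have gen := fun A h1 h2 x => hGEN V Bd ξ0 ⊤ A hG.fin h1 h2 (Or.inl (by rwa [finrank_top])) x trivial
  have dn : Dense (Nn Bd ξ0) := fun x =>
    closure_mono (fun z hz => hz.2.1) (gen ∅ finite_empty (empty_subset _) x)
  have cv : Convex ℝ (closure (Om Bd ξ0 Γ)) := fun x hx y hy s t s0 t0 st => by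
    rw [← closure_closure]
    refine map_mem_closure₂ (f := fun a b : V => s • a + t • b) (by fun_prop) hx hy fun a ha b hb => ?_
    have k := o1.inter_closure ⟨hb, gen {a} (finite_singleton a) (singleton_subset_iff.2 ha.1) b⟩
    exact map_mem_closure (f := fun b : V => s • a + t • b) (by fun_prop) k fun z hz =>
      hC a ha z hz.1 (hz.2.2.2 a rfl) ⟨s, t, s0, t0, st, rfl⟩
  have sub : ball ξ0 ρ ⊆ interior (closure (Om Bd ξ0 Γ)) := interior_maximal
    ((dn.open_subset_closure_inter isOpen_ball).trans (closure_mono o3)) isOpen_ball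
  have oc : Oc ξ0 (interior (closure (Om Bd ξ0 Γ))) := ⟨isOpen_interior, cv.interior,
    fun ξ h t ht => (isOpenMap_smul₀ ht.ne').mapsTo_interior
      (MapsTo.closure (fun z hz => o5 z hz t ht) (continuous_const_smul t)) h,
    fun ξ h u hu => (isOpenMap_add_right (u • ξ0)).mapsTo_interior
      (MapsTo.closure (fun z hz => o4 z hz u hu) (continuous_add_const _)) h,
    sub (mem_ball_self hG.pos)⟩
  have st : interior (closure (Om Bd ξ0 Γ)) ∩ Nn Bd ξ0 ⊆ Om Bd ξ0 Γ := fun ζ h => by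
    obtain ⟨a, ha, b, hb, h1, h2⟩ := mid o1 ((nn_open hG.fin ξ0).mem_nhds h.2) h.1
    exact hC a ha b hb h1 h2
  refine ⟨_, oc, sub, st.trans o2, fun ζ h1 h2 h3 => by_contra fun k => h2 ?_⟩
  refine interior_maximal subset_closure o1 ⟨h3, fun u hu => ?_⟩
  rcases hu.eq_or_lt with e | e
  · have := not_not.1 (not_exists.1 k u.im)
    rwa [show (u.im : ℂ) * Complex.I = u from Complex.ext (by simp [← e]) (by simp)] at this
  · have a1 := oc.ad _ (oc.sc _ oc.mem _ e) (u.im * Complex.I) (by simp)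
    rw [← Complex.coe_smul, ← add_smul, Complex.re_add_im] at a1
    have a2 := (st ⟨(hDUAL V ξ0 _ oc).2.2.2.2.1 ζ h1 _ a1, nn_add h3 u⟩).2 0 le_rfl
    rwa [zero_smul, add_zero] at a2

end Pool.Agent.Lib.LC
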