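import Pool.Agent.Lib.LC.Basic

/-! Local Banach problem over the complex numbers: vectors with a regular half plane. -/

set_option autoImplicit false

open Set Filter Topology Metric Module
open scoped ComplexInnerProductSpace

noncomputable section

namespace Pool.Agent.Lib.LC

open Pool.Agent.Lib.LB

theorem bOMP : St_OMP := by
  intro V _ _ _ ξ0 ρ Bd Γ h
  obtain ⟨η, hη, far⟩ := h.far
  refine ⟨isOpen_iff_eventually.2 fun ξ hξ => ?_, fun ξ hξ => ?_, fun ξ hξ => ⟨hξ.2, fun u hu => ?_⟩,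
    fun ξ hξ u hu => ⟨Nn_add hξ.1 u, fun v hv => ?_⟩,
    fun ξ hξ t ht => ⟨Nn_rsmul hξ.1 ht.ne', fun u hu => ?_⟩⟩
  · have hK : IsCompact (closedBall (0 : ℂ) ((‖ξ‖ + 1) / η) ∩ {u | 0 ≤ u.re}) :=
      (isCompact_closedBall _ _).inter_right (isClosed_le continuous_const Complex.continuous_re)
    have h1 : ∀ᶠ z in 𝓝 ξ, ∀ u ∈ closedBall (0 : ℂ) ((‖ξ‖ + 1) / η) ∩ {u | 0 ≤ u.re},
        z + u • ξ0 ∈ Γ := by
      refine hK.eventually_forall_of_forall_eventually fun u hu => ?_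
      have : ContinuousAt (fun p : V × ℂ => p.1 + p.2 • ξ0) (ξ, u) := by fun_prop
      exact this.eventually (h.op.mem_nhds (hξ.2 u hu.2))
    have h2 : ∀ᶠ z in 𝓝 ξ, ‖z‖ < ‖ξ‖ + 1 :=
      continuous_norm.continuousAt.eventually (gt_mem_nhds (lt_add_one _))
    filter_upwards [h1, h2, (Nn_open h.fin ξ0).mem_nhds hξ.1] with z a b c
    refine ⟨c, fun u hu => ?_⟩
    by_cases hb : ‖u‖ ≤ (‖ξ‖ + 1) / η
    · exact a u ⟨mem_closedBall_zero_iff.2 hb, hu⟩
    · rw [not_le, div_lt_iff₀' hη] at hb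
      exact far z u (b.trans hb)
  · rintro _ ⟨a, b, ha, hb, hab, rfl⟩
    rcases hb.eq_or_lt with rfl | hb
    · rw [add_zero] at hab
      simpa [hab] using h.mem
    have h0 : (b : ℂ) ≠ 0 := Complex.ofReal_ne_zero.2 hb.ne'
    have := h.sc _ (hξ.2 ((a / b : ℝ) : ℂ) (by rw [Complex.ofReal_re]; positivity)) b h0
    rwa [smul_add, smul_smul, Complex.ofReal_div, mul_div_cancel₀ _ h0, Complex.coe_smul,
      Complex.coe_smul, add_comm] at this
  · have h1 : 1 ≤ ‖1 + u‖ := le_trans (by simpa using hu) (Complex.re_le_norm (1 + u))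
    have h0 : 1 + u ≠ 0 := norm_pos_iff.1 (one_pos.trans_le h1)
    have e : ξ + u • ξ0 = (1 + u) • (ξ0 + (1 + u)⁻¹ • (ξ - ξ0)) := by
      rw [smul_add, smul_inv_smul₀ h0, add_smul, one_smul]
      abel
    rw [e]
    refine h.sc _ (h.sub ⟨?_, ?_⟩) _ h0
    · rw [mem_ball, dist_eq_norm, add_sub_cancel_left, norm_smul, norm_inv]
      exact (mul_le_of_le_one_left (norm_nonneg _) (inv_le_one_of_one_le₀ h1)).trans_lt
        (mem_ball_iff_norm.1 hξ.1)
    · have := NB_smul (hξ.2 u) (inv_ne_zero h0)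
      rwa [e, inv_smul_smul₀ h0] at this
  · rw [add_assoc, ← add_smul]
    exact hξ.2 _ (by rw [Complex.add_re]; linarith)
  · have h0 : (t : ℂ) ≠ 0 := Complex.ofReal_ne_zero.2 ht.ne'
    have := h.sc _ (hξ.2 (u / t) (by rw [Complex.div_ofReal_re]; positivity)) t h0
    rwa [smul_add, smul_smul, mul_div_cancel₀ _ h0, Complex.coe_smul] at this

end Pool.Agent.Lib.LC
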