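import Pool.Agent.Lib.LC.Blue

/-! Block RC: the local theorem over every `RCLike` field from the real and the complex case. -/

set_option autoImplicit false

open Set Filter Topology Metric Module

noncomputable section

namespace Pool.Agent.Lib.LC

universe u v

namespace RC

section Generic

variable {K K' : Type} [RCLike K] [RCLike K']

/-- A normed space over `K` as a normed space over an isometrically isomorphic field. -/
@[reducible] def nsp (e : K ≃+* K') (he : ∀ c, ‖e c‖ = ‖c‖) (E : Type u) [NormedAddCommGroup E]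
    [NormedSpace K E] : NormedSpace K' E :=
  { Module.compHom E (e.symm : K' →+* K) with
    norm_smul_le := fun c x => by
      change ‖e.symm c • x‖ ≤ _
      rw [norm_smul, ← he, e.apply_symm_apply] }

theorem sy (e : K ≃+* K') {E : Type u} [SMul K E] [SMul K' E] (hE : ∀ (c : K) (x : E), e c • x = c • x)
    (c : K') (x : E) : e.symm c • x = c • x := by
  rw [← hE, e.apply_symm_apply]

section Maps

variable {E : Type u} {V : Type v} [NormedAddCommGroup E] [NormedSpace K E] [NormedSpace K' E]
  [NormedAddCommGroup V] [NormedSpace K V] [NormedSpace K' V]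

/-- Transport of linear maps. -/
def lin (e : K ≃+* K') (hE : ∀ (c : K) (x : E), e c • x = c • x) (hV : ∀ (c : K) (x : V), e c • x = c • x)
    (T : E →ₗ[K] V) : E →ₗ[K'] V where
  toFun := T
  map_add' := map_add T
  map_smul' c x := by
    rw [RingHom.id_apply, ← sy e hE, map_smul, sy e hV]

/-- Transport of continuous linear maps. -/
def tr (e : K ≃+* K') (hE : ∀ (c : K) (x : E), e c • x = c • x) (hV : ∀ (c : K) (x : V), e c • x = c • x) :
    (E →L[K] V) →+ (E →L[K'] V) where
  toFun T := ⟨lin e hE hV (T : E →ₗ[K] V), T.continuous⟩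
  map_zero' := by ext x; rfl
  map_add' S T := by ext x; rfl

theorem tr_apply (e : K ≃+* K') (hE : ∀ (c : K) (x : E), e c • x = c • x)
    (hV : ∀ (c : K) (x : V), e c • x = c • x) (T : E →L[K] V) (x : E) : tr e hE hV T x = T x := rfl

theorem tr_cont (e : K ≃+* K') (hE : ∀ (c : K) (x : E), e c • x = c • x)
    (hV : ∀ (c : K) (x : V), e c • x = c • x) : Continuous (tr e hE hV) := by
  refine AddMonoidHomClass.continuous_of_bound (tr e hE hV) 1 fun T => ?_
  rw [one_mul]
  exact ContinuousLinearMap.opNorm_le_bound _ (norm_nonneg _) fun x => T.le_opNorm x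

end Maps

theorem core (e : K ≃+* K') (he : ∀ c, ‖e c‖ = ‖c‖)
    (hc : ∀ c, e (starRingEnd K c) = starRingEnd K' (e c)) (hr : ∀ c, RCLike.re (e c) = RCLike.re c)
    (H : Main.{u, v} K') : Main.{u, v} K := by
  intro E V _ _ _ _ _ U h3 hop hpc hne hinj hiso
  let _ : NormedSpace K' E := nsp e he E
  let _ : NormedSpace K' V := nsp e he V
  have hE : ∀ (c : K) (x : E), e c • x = c • x := fun c x => by
    change e.symm (e c) • x = _
    rw [e.symm_apply_apply]
  have hV : ∀ (c : K) (x : V), e c • x = c • x := fun c x => by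
    change e.symm (e c) • x = _
    rw [e.symm_apply_apply]
  have hE' := sy e hE
  have hV' := sy e hV
  have hrk : Module.rank K E = Module.rank K' E :=
    rank_eq_of_equiv_equiv e (AddEquiv.refl E) e.bijective fun r m => (hE r m).symm
  have hfr : finrank K' E = finrank K E := by
    unfold Module.finrank
    rw [hrk]
  have : FiniteDimensional K' E := by
    apply Module.finite_of_finrank_pos
    omega
  have himg : tr e hE hV '' U = tr e.symm hE' hV' ⁻¹' U := by
    ext S
    constructor
    · rintro ⟨T, hT, rfl⟩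
      have : tr e.symm hE' hV' (tr e hE hV T) = T := by ext x; rfl
      simpa only [mem_preimage, this] using hT
    · intro hS
      exact ⟨_, hS, by ext x; rfl⟩
  have hsr : ∀ c : K', RCLike.re (e.symm c) = RCLike.re c := fun c => by
    rw [← hr, e.apply_symm_apply]
  have hsc : ∀ c : K', starRingEnd K (e.symm c) = e.symm (starRingEnd K' c) := fun c => by
    apply e.injective
    rw [hc, e.apply_symm_apply, e.apply_symm_apply]
  rcases H E V (tr e hE hV '' U) (by omega) (himg ▸ hop.preimage (tr_cont _ _ _))
    (hpc.image _ (tr_cont e hE hV).continuousOn) (hne.image _)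
    (by rintro _ ⟨T, hT, rfl⟩; exact hinj T hT)
    (by
      rintro _ ⟨T, hT, rfl⟩ _ ⟨T', hT', rfl⟩
      obtain ⟨g, hg⟩ := hiso T hT T' hT'
      exact ⟨LinearEquiv.ofBijective (lin e hE hE (g : E →ₗ[K] E)) g.bijective, hg⟩) with
    ⟨B, hB1, hB2, hB3⟩ | ⟨P, N, hN, hP⟩
  · left
    refine ⟨LinearMap.mk₂'ₛₗ (starRingEnd K) (RingHom.id K) (fun y z => e.symm (B y z)) ?_ ?_ ?_ ?_,
      ?_, ?_, ?_⟩
    · intro y y' z
      rw [map_add, LinearMap.add_apply, map_add]
    · intro c y z
      rw [← hV, LinearMap.map_smulₛₗ, LinearMap.smul_apply, smul_eq_mul, map_mul, ← hc,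
        e.symm_apply_apply, smul_eq_mul]
    · intro y z z'
      rw [map_add, map_add]
    · intro c y z
      rw [← hV, map_smul, smul_eq_mul, map_mul, e.symm_apply_apply, RingHom.id_apply, smul_eq_mul]
    · intro y z
      change starRingEnd K (e.symm (B y z)) = e.symm (B z y)
      rw [hsc, hB1]
    · intro y
      change 0 ≤ RCLike.re (e.symm (B y y))
      rw [hsr]
      exact hB2 y
    · intro T hT x
      change _ = RCLike.re (e.symm (B (T x) (T x)))
      rw [hsr]
      exact hB3 _ ⟨T, hT, rfl⟩ x
  · right
    refine ⟨lin e.symm hV' hE' P, Seminorm.of N (map_add_le_add N) fun c x => ?_, hN, fun T hT x => ?_⟩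
    · rw [← hE, map_smul_eq_mul, he]
    · exact hP _ ⟨T, hT, rfl⟩ x

end Generic

end RC

theorem bRC : St_RC.{u, v} := by
  intro hR hC K _
  rcases RCLike.I_eq_zero_or_im_I_eq_one (K := K) with h | h
  · refine RC.core (RCLike.realRingEquiv h) (fun c => (RCLike.realLinearIsometryEquiv h).norm_map c)
      (fun c => ?_) (fun c => ?_) hR
    · simp
    · simp
  · refine RC.core (RCLike.complexRingEquiv h) (fun c => (RCLike.complexLinearIsometryEquiv h).norm_map c)
      (fun c => ?_) (fun c => ?_) hC
    · apply Complex.ext <;> simp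
    · simp

end Pool.Agent.Lib.LC
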