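import Pool.Agent.Lib.LC.Blue

/-! Local Banach problem over the complex numbers, row RY1: a dual base with one point gives a cylinder. -/

set_option autoImplicit false

open Set Filter Topology Metric Module
open scoped ComplexInnerProductSpace ContDiff NNReal

noncomputable section

namespace Pool.Agent.Lib.LC

open Pool.Agent.Lib.LB

namespace RY1

variable {V : Type} [NormedAddCommGroup V] [InnerProductSpace ℂ V]

theorem nn_add {Bd : Set V} {ξ0 η : V} (h : η ∈ Nn Bd ξ0) (u : ℂ) : η + u • ξ0 ∈ Nn Bd ξ0 := fun a => by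
  rw [add_assoc, ← add_smul]
  exact h _

theorem nn_open [FiniteDimensional ℂ V] {Bd : Set V} (hB : Bd.Finite) (ξ0 : V) : IsOpen (Nn Bd ξ0) := by
  have e : Nn Bd ξ0 = ((Submodule.span ℂ {ξ0} : Submodule ℂ V) : Set V)ᶜ ∩
      ⋂ b ∈ Bd, ((Submodule.span ℂ {ξ0, b} : Submodule ℂ V) : Set V)ᶜ := by
    ext ξ
    simp only [mem_inter_iff, mem_compl_iff, mem_iInter, SetLike.mem_coe, Submodule.mem_span_singleton,
      Submodule.mem_span_pair]
    constructor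
    · intro h
      refine ⟨fun ⟨a, ha⟩ => (h (-a)).1 (by rw [← ha, neg_smul, add_neg_cancel]), fun b hb ⟨a, c, ha⟩ =>
        (h (-a)).2 b hb c (by rw [← ha, neg_smul]; abel)⟩
    · rintro ⟨h1, h2⟩ a
      refine ⟨fun h => h1 ⟨-a, ?_⟩, fun b hb c h => h2 b hb ⟨-a, c, ?_⟩⟩
      · rw [neg_smul]
        exact (eq_neg_of_add_eq_zero_left h).symm
      · rw [← h, neg_smul]
        abel
  rw [e]
  exact (Submodule.closed_of_finiteDimensional _).isOpen_compl.inter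
    (hB.isOpen_biInter fun b _ => (Submodule.closed_of_finiteDimensional _).isOpen_compl)

theorem tube [FiniteDimensional ℂ V] {Bd : Set V} (hB : Bd.Finite) {ξ0 a b : V}
    (h : segment ℝ a b ⊆ Nn Bd ξ0) : ∃ B : Set V, IsOpen B ∧ Convex ℝ B ∧ B ⊆ Nn Bd ξ0 ∧
      (∀ η ∈ B, ∀ u : ℂ, η + u • ξ0 ∈ B) ∧ a ∈ B ∧ b ∈ B := by
  have hc : IsCompact (segment ℝ a b) := by
    rw [segment_eq_image]
    exact isCompact_Icc.image (by fun_prop)
  obtain ⟨δ, d0, hd⟩ := hc.exists_thickening_subset_open (nn_open hB ξ0) h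
  have cv : Convex ℝ (thickening δ (segment ℝ a b)) := (convex_segment a b).thickening δ
  refine ⟨⋃ c : ℂ, (fun η => η + c • ξ0) ⁻¹' thickening δ (segment ℝ a b),
    isOpen_iUnion fun c => isOpen_thickening.preimage (by fun_prop), ?_, ?_, ?_, ?_, ?_⟩
  · intro x hx y hy s t hs ht hst
    obtain ⟨c, hc⟩ := mem_iUnion.1 hx
    obtain ⟨d, hd⟩ := mem_iUnion.1 hy
    refine mem_iUnion.2 ⟨(s : ℂ) * c + (t : ℂ) * d, ?_⟩
    have e : s • x + t • y + ((s : ℂ) * c + (t : ℂ) * d) • ξ0 = s • (x + c • ξ0) + t • (y + d • ξ0) := by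
      rw [add_smul, mul_smul, mul_smul, Complex.coe_smul, Complex.coe_smul, smul_add, smul_add]
      abel
    show s • x + t • y + ((s : ℂ) * c + (t : ℂ) * d) • ξ0 ∈ thickening δ (segment ℝ a b)
    rw [e]
    exact cv hc hd hs ht hst
  · intro η hη
    obtain ⟨c, hc⟩ := mem_iUnion.1 hη
    have := nn_add (hd hc) (-c)
    rwa [add_assoc, ← add_smul, add_neg_cancel, zero_smul, add_zero] at this
  · intro η hη u
    obtain ⟨c, hc⟩ := mem_iUnion.1 hη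
    refine mem_iUnion.2 ⟨c - u, ?_⟩
    show η + u • ξ0 + (c - u) • ξ0 ∈ thickening δ (segment ℝ a b)
    rw [add_assoc, ← add_smul, add_sub_cancel]
    exact hc
  · refine mem_iUnion.2 ⟨0, ?_⟩
    show a + (0 : ℂ) • ξ0 ∈ thickening δ (segment ℝ a b)
    rw [zero_smul, add_zero]
    exact self_subset_thickening d0 _ (left_mem_segment ℝ a b)
  · refine mem_iUnion.2 ⟨0, ?_⟩
    show b + (0 : ℂ) • ξ0 ∈ thickening δ (segment ℝ a b)
    rw [zero_smul, add_zero]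
    exact self_subset_thickening d0 _ (right_mem_segment ℝ a b)

theorem rk [FiniteDimensional ℂ V] (h : 4 ≤ finrank ℂ V) (a b : V) :
    2 ≤ finrank ℂ ((ℂ ∙ a) ⊔ (ℂ ∙ b))ᗮ := by
  have h1 : ∀ v : V, finrank ℂ (ℂ ∙ v) ≤ 1 := fun v => by
    simpa using finrank_span_le_card (R := ℂ) ({v} : Set V)
  have h4 := Submodule.finrank_add_finrank_orthogonal ((ℂ ∙ a) ⊔ (ℂ ∙ b))
  have h5 := Submodule.finrank_add_le_finrank_add_finrank (ℂ ∙ a) (ℂ ∙ b)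
  have := h1 a
  have := h1 b
  omega

end RY1

theorem bRY1 (hGEN : St_GEN) (hEX1 : St_EX1) (hDUAL : St_DUAL) : St_RY1 := by
  rintro V _ _ _ Φ ξ0 ρ Bd Γ H Ω ν h4 hΦ hD hO hK ξ ⟨hξ, hn⟩ x hx
  have hν : ν ∈ Kb Ω ξ0 := by
    rw [hK]
    exact mem_singleton ν
  obtain ⟨d1, d2, d3, -, d5, -⟩ := hDUAL V ξ0 Ω hO.oc
  obtain ⟨y, hy⟩ : ∃ y, y = x - ⟪ξ0, x⟫ • ν := ⟨_, rfl⟩
  have y0 : ⟪ξ0, y⟫ = 0 := by
    rw [hy, inner_sub_right, inner_smul_right, hν.2, mul_one, sub_self]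
  have ml : ∀ z ∈ ((ℂ ∙ y) ⊔ (ℂ ∙ ν))ᗮ, ⟪z, y⟫ = 0 ∧ ⟪z, ν⟫ = 0 := fun z hz =>
    ⟨inner_eq_zero_symm.1 (hz y (Submodule.mem_sup_left (Submodule.mem_span_singleton_self y))),
      inner_eq_zero_symm.1 (hz ν (Submodule.mem_sup_right (Submodule.mem_span_singleton_self ν)))⟩
  have n0 : ξ0 ∉ ((ℂ ∙ y) ⊔ (ℂ ∙ ν))ᗮ := fun h => by
    have := (ml _ h).2
    rw [hν.2] at this
    exact one_ne_zero this
  obtain ⟨ζ, z1, z2, z3⟩ := closure_nonempty_iff.1 ⟨0, hGEN V Bd ξ0 _ {ξ} hD.gm.fin (finite_singleton ξ)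
    (singleton_subset_iff.2 hn) (Or.inr ⟨RY1.rk h4 y ν, n0⟩) 0 (Submodule.zero_mem _)⟩
  obtain ⟨zy, zn⟩ := ml ζ z1
  obtain ⟨B, b1, b2, b3, b4, b5, b6⟩ := RY1.tube hD.gm.fin (z3 ξ (mem_singleton ξ))
  have c1 : ζ ∈ closure Ω := (d1 ζ).2 fun w hw => by
    rcases d3 w hw with rfl | ⟨p, hp, t, -, rfl⟩
    · simp
    · rw [hK] at hp
      rw [mem_singleton_iff.1 hp, ← Complex.coe_smul, inner_smul_right, zn]
      simp
  have ν0 : ν ≠ 0 := fun h => by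
    have := hν.2
    rw [h, inner_zero_right] at this
    exact zero_ne_one this
  have c2 : ζ ∉ Ω := fun h => by
    have := d2 ν hν.1 ν0 ζ h
    rw [zn] at this
    exact lt_irrefl _ this
  obtain ⟨τ, -, t1, π, cp, -, pk⟩ := hEX1 V Φ ξ0 ρ Bd Γ H Ω B ζ ν (by omega) hΦ hD hO b1 b2 b3 b4 b6 c1 c2
    fun p' hp' _ => by
      rw [hK] at hp'
      exact hp'
  have t0 : (τ : ℂ) * Complex.I = 0 := by
    rw [inner_add_left, inner_smul_left, zn, hν.2, zero_add, mul_one] at t1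
    exact (map_eq_zero _).1 t1
  rw [t0, zero_smul, add_zero] at cp
  have xe : x = y + ⟪ξ0, x⟫ • ν := by rw [hy, sub_add_cancel]
  have zx : ⟪ζ, x⟫ = 0 := by rw [xe, inner_add_right, inner_smul_right, zy, zn, mul_zero, add_zero]
  obtain ⟨η, e0, he⟩ := hD.d0
  obtain ⟨t, tp, ht⟩ : ∃ t : ℝ, 0 < t ∧ ‖ζ‖ < η * t := by
    refine ⟨(‖ζ‖ + 1) / η, by positivity, ?_⟩
    rw [mul_div_cancel₀ _ e0.ne']
    linarith
  have w1 : ζ + t • ξ0 ∈ Ω ∩ B := ⟨d5 ζ c1 _ (hO.oc.sc ξ0 hO.oc.mem t tp), by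
    rw [← Complex.coe_smul]
    exact b4 ζ b6 _⟩
  have w2 : ⟪ζ + t • ξ0, y⟫ = 0 := by
    rw [← Complex.coe_smul, inner_add_left, inner_smul_left, zy, y0, mul_zero, add_zero]
  have px : π x = π y := by
    conv_lhs => rw [xe]
    rw [map_add, pk, add_zero]
  rw [← hy, ← hD.d1 ξ ⟨hξ, hn⟩ x hx, ← cp.t1 ξ ⟨hO.sub hξ, b5⟩ x hx zx, px, cp.t1 _ w1 y w2 zy]
  exact he t tp _ (by rwa [add_sub_cancel_right]) y w2

end Pool.Agent.Lib.LC
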