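import Pool.Agent.Lib.LC.Blue

/-! Local Banach problem over the complex numbers: the dual cone is trivial. -/

set_option autoImplicit false

open Set Filter Topology Metric Module
open scoped ComplexInnerProductSpace

namespace Pool.Agent.Lib.LC

open Pool.Agent.Lib.LB

namespace RY2

variable {V : Type} [NormedAddCommGroup V] [InnerProductSpace ℂ V]

theorem mem {s : Finset V} {z : V} :
    z ∈ (Submodule.span ℂ (s : Set V))ᗮ ↔ ∀ y ∈ s, ⟪z, y⟫ = 0 := by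
  rw [Submodule.mem_orthogonal']
  refine ⟨fun h y hy => h y (Submodule.subset_span hy), fun h y hy => ?_⟩
  induction hy using Submodule.span_induction with
  | mem y hy => exact h y hy
  | zero => exact inner_zero_right _
  | add a b _ _ ha hb => rw [inner_add_right, ha, hb, add_zero]
  | smul c a _ ha => rw [inner_smul_right, ha, mul_zero]

theorem rk [FiniteDimensional ℂ V] (s : Finset V) :
    finrank ℂ V ≤ s.card + finrank ℂ (Submodule.span ℂ (s : Set V))ᗮ := by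
  have h1 := Submodule.finrank_add_finrank_orthogonal (Submodule.span ℂ (s : Set V))
  have h2 := finrank_span_finset_le_card (R := ℂ) s
  rw [Set.finrank] at h2
  omega

end RY2

open RY2 in
theorem bRY2 (hGEN : St_GEN) : St_RY2 := by
  classical
  intro V _ _ _ Φ ξ0 ρ Bd Γ H h4 hD hV hN
  have g1 : ∀ (y : V) (A : Set V), A.Finite → A ⊆ Nn Bd ξ0 → ∀ x, ⟪x, y⟫ = 0 → ∀ ε > 0,
      ∃ z ∈ ball x ε ∩ Nn Bd ξ0, ⟪z, y⟫ = 0 ∧ ∀ a ∈ A, segment ℝ a z ⊆ Nn Bd ξ0 := by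
    intro y A hA hA' x hx ε hε
    have r := rk {y}
    rw [Finset.card_singleton] at r
    obtain ⟨z, h1, h2, h3, h5⟩ := _root_.mem_closure_iff.1 (hGEN V Bd ξ0 _ A hV.gm.fin hA hA'
      (Or.inl (by omega)) x ((mem (s := {y})).2 (by simpa using hx))) _ isOpen_ball (mem_ball_self hε)
    exact ⟨z, ⟨h1, h3⟩, mem.1 h2 y (by simp), h5⟩
  have wd : ∀ ξ ∈ Nn Bd ξ0, ∀ ξ' ∈ Nn Bd ξ0, ∀ y, ⟪ξ, y⟫ = 0 → ⟪ξ', y⟫ = 0 →
      Φ (H ξ y) = Φ (H ξ' y) := by
    intro ξ h ξ' h' y e e'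
    obtain ⟨z, -, h2, h3⟩ := g1 y {ξ, ξ'} (toFinite _) (insert_subset h (singleton_subset_iff.2 h'))
      0 (inner_zero_left _) 1 one_pos
    rw [hV.seg ξ z ((h3 ξ (by simp)).trans hN) y e h2,
      hV.seg ξ' z ((h3 ξ' (by simp)).trans hN) y e' h2]
  have one : ∀ y : V, ∃ z ∈ Nn Bd ξ0, ⟪z, y⟫ = 0 := fun y =>
    let ⟨z, h1, h2, _⟩ := g1 y ∅ finite_empty (empty_subset _) 0 (inner_zero_left _) 1 one_pos
    ⟨z, h1.2, h2⟩
  obtain ⟨f, hf⟩ : ∃ f : V → ℝ, ∀ ξ ∈ Nn Bd ξ0, ∀ y, ⟪ξ, y⟫ = 0 → f y = Φ (H ξ y) := by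
    choose z hz a using one
    exact ⟨fun y => Φ (H (z y) y), fun ξ h y e => wd _ (hz y) _ h y (a y) e⟩
  have f0 : ∀ y, ⟪ξ0, y⟫ = 0 → f y = Φ y := fun y e => by
    obtain ⟨z, h1, h2, -⟩ := g1 y ∅ finite_empty (empty_subset _) ξ0 e ρ hV.gm.pos
    rw [hf z h1.2 y h2, hV.d1 z h1 y h2]
  refine ⟨Seminorm.of f (fun y y' => ?_) fun c y => ?_, fun y hy => ?_, f0, hf⟩
  · by_cases h : ξ0 ∈ (Submodule.span ℂ (({y, y'} : Finset V) : Set V))ᗮ
    · have a := mem.1 h y (by simp)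
      have a' := mem.1 h y' (by simp)
      rw [f0 y a, f0 y' a', f0 _ (by rw [inner_add_right, a, a', add_zero])]
      exact map_add_le_add Φ _ _
    have r := rk {y, y'}
    have r2 : ({y, y'} : Finset V).card ≤ 2 := Finset.card_le_two
    obtain ⟨z, h2, h3, -⟩ := closure_nonempty_iff.1 ⟨0, hGEN V Bd ξ0 _ ∅ hV.gm.fin finite_empty
      (empty_subset _) (Or.inr ⟨by omega, h⟩) 0 (Submodule.zero_mem _)⟩
    have a := mem.1 h2 y (by simp)
    have a' := mem.1 h2 y' (by simp)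
    rw [hf z h3 y a, hf z h3 y' a', hf z h3 _ (by rw [inner_add_right, a, a', add_zero]), map_add]
    exact map_add_le_add Φ _ _
  · obtain ⟨z, h, a⟩ := one y
    rw [hf z h y a, hf z h _ (by rw [inner_smul_right_eq_smul, a, smul_zero]), map_smul,
      map_smul_eq_mul]
  · obtain ⟨z, h, a⟩ := one y
    obtain ⟨u, hu⟩ := hV.un z (hN h)
    have e : H z y = 0 := hD _ ((hf z h y a).symm.trans hy)
    have : (↑u⁻¹ : V →L[ℝ] V) ((u : V →L[ℝ] V) y) = y :=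
      congrArg (fun g : V →L[ℝ] V => g y) u.inv_mul
    rw [← this, hu, e, map_zero]

end Pool.Agent.Lib.LC
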