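import Pool.Agent.Lib.LC.Blue
import Pool.Agent.Lib.LB.B_SAT

/-! Local Banach problem over the complex numbers: row SAT, finitely many bad lines. -/

set_option autoImplicit false

open Set Filter Topology Metric Module

noncomputable section

namespace Pool.Agent.Lib.LC

open Pool.Agent.Lib.LB

namespace SAT

section Real

open scoped RealInnerProductSpace

variable {W : Type} [NormedAddCommGroup W] [InnerProductSpace ℝ W]

/-- The zero set of a polynomial contains finitely many hyperplanes. -/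
theorem hyp (d : ℕ) : ∀ r : W → ℝ, IsPol d r → (∃ y, r y ≠ 0) → ∃ S : Set W, S.Finite ∧
    ∀ μ, μ ≠ 0 → (∀ y, ⟪μ, y⟫ = 0 → r y = 0) → ∃ b ∈ S, ∃ t : ℝ, μ = t • b := by
  induction d using Nat.strong_induction_on with
  | _ d ih =>
  intro r hr ⟨y0, hy0⟩
  by_cases hs : ∃ ν : W, ν ≠ 0 ∧ ∀ y, ⟪ν, y⟫ = 0 → r y = 0
  swap
  · exact ⟨∅, finite_empty, fun μ h0 h => (hs ⟨μ, h0, h⟩).elim⟩
  obtain ⟨ν, hν, hz⟩ := hs
  obtain ⟨g, hg, hg0, hg1⟩ := hr.div hν hz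
  have hg' : g y0 ≠ 0 := fun h => hy0 (by rw [hg, h, smul_zero])
  cases d with
  | zero => exact absurd (hg0 rfl y0) hg'
  | succ d =>
  obtain ⟨S, hS, hb⟩ := ih d (Nat.lt_succ_self d) g (hg1 d rfl) ⟨y0, hg'⟩
  refine ⟨insert ν S, hS.insert ν, fun μ h0 h => ?_⟩
  by_cases k : ∃ y, ⟪μ, y⟫ = 0 ∧ ⟪ν, y⟫ ≠ 0
  · obtain ⟨b, b1, b2⟩ := hb μ h0 fun y hy =>
      closure_minimal (s := {y' | ⟪μ, y'⟫ = 0 ∧ ⟪ν, y'⟫ ≠ 0}) (t := {y | g y = 0})
        (fun x hx => (smul_eq_zero.1 ((hg x).symm.trans (h x hx.1))).resolve_left hx.2)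
        (isClosed_eq (Pl.continuous ⟨d, hg1 d rfl⟩) continuous_const)
        ((LB.SAT.pl_form ν).dense_perp k hy)
    exact ⟨b, mem_insert_of_mem _ b1, b2⟩
  · push Not at k
    have m : ⟪μ, μ⟫ ≠ 0 := inner_self_ne_zero.2 h0
    have e1 : ⟪μ, ν - (⟪μ, ν⟫ / ⟪μ, μ⟫) • μ⟫ = 0 := by
      rw [inner_sub_right, inner_smul_right, div_mul_cancel₀ _ m, sub_self]
    have e2 : ν - (⟪μ, ν⟫ / ⟪μ, μ⟫) • μ = 0 := (inner_self_eq_zero (𝕜 := ℝ)).1 (by
      rw [inner_sub_left, real_inner_smul_left, e1, k _ e1, mul_zero, sub_zero])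
    rw [sub_eq_zero] at e2
    have t0 : ⟪μ, ν⟫ / ⟪μ, μ⟫ ≠ 0 := fun t => hν (by rw [e2, t, zero_smul])
    exact ⟨ν, mem_insert _ _, (⟪μ, ν⟫ / ⟪μ, μ⟫)⁻¹, ((inv_smul_eq_iff₀ t0).2 e2).symm⟩

end Real

open scoped ComplexInnerProductSpace

variable {V : Type} [NormedAddCommGroup V] [InnerProductSpace ℂ V]

theorem hypC {r : V → ℝ} (hr : Pl r) (h : ∃ y, r y ≠ 0) : ∃ S : Set V, S.Finite ∧
    ∀ μ, μ ≠ 0 → (∀ y, (⟪μ, y⟫).re = 0 → r y = 0) → ∃ b ∈ S, ∃ t : ℝ, μ = t • b := by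
  let _ : InnerProductSpace ℝ V := InnerProductSpace.complexToReal
  obtain ⟨d, hd⟩ := hr
  exact hyp d r hd h

theorem pl_re {f g : V → V} (hf : Pl f) (hg : Pl g) : Pl fun x => (⟪f x, g x⟫).re := by
  let _ : InnerProductSpace ℝ V := InnerProductSpace.complexToReal
  exact hf.inner hg

end SAT

open scoped ComplexInnerProductSpace in
theorem bSAT (hSAT1 : St_SAT1) : St_SAT := by
  intro V _ _ _ δ M hδ hM hne hMM hsy
  let b := Module.finBasis ℝ V
  obtain ⟨c, δ', N, pc, pδ, pN, e1, e2, hr⟩ := hSAT1 V (V →L[ℝ] V) _ b δ M hδ hM hne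
  choose r pr r0 ri rz using hr
  have hc : ∃ y, c y ≠ 0 := hne.imp fun y hy h => hy (by rw [e1, h, zero_mul])
  have hNN : ∀ y v, N y (N y v) = δ' y • N y v := fun y v => by
    have p1 : Pl fun x => N x (N x v) - δ' x • N x v :=
      (pN.app (pN.app (Pl.const v))).sub (pδ.smul (pN.app (Pl.const v)))
    have z2 := Pl.cancel pc (pc.smul p1) hc fun x => by
      have h := hMM x v
      rw [e1 x, e2 x] at h
      simp only [smul_apply, map_smul] at h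
      rw [smul_sub, smul_sub, h]
      module
    exact sub_eq_zero.1 (Pl.cancel pc p1 hc z2 y)
  have hNs : ∀ y u v, (⟪N y u, v⟫).re = (⟪u, N y v⟫).re := fun y u v => by
    have p1 : Pl fun x => (⟪N x u, v⟫).re - (⟪u, N x v⟫).re :=
      (SAT.pl_re (pN.app (Pl.const u)) (Pl.const v)).sub
        (SAT.pl_re (Pl.const u) (pN.app (Pl.const v)))
    refine sub_eq_zero.1 (Pl.cancel pc p1 hc (fun x => ?_) y)
    have h := hsy x u v
    rw [e2 x] at h
    simp only [smul_apply, inner_smul_left_eq_smul, inner_smul_right_eq_smul, Complex.smul_re] at h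
    rw [smul_sub, h, sub_self]
  have hN0 : ∀ y, δ' y = 0 → N y = 0 := fun y hy => by
    ext v
    have h1 : (⟪N y v, N y v⟫).re = 0 := by
      rw [hNs, hNN, hy, zero_smul, inner_zero_right, Complex.zero_re]
    exact (re_inner_self_nonpos (𝕜 := ℂ)).1 h1.le
  choose S hS hb using fun i => SAT.hypC (pr i) (r0 i)
  refine ⟨c, δ', N, ⋃ i, S i, pc, pδ, pN, e1, e2, finite_iUnion hS, fun ξ hξ => ?_⟩
  by_contra hno
  push Not at hno
  obtain ⟨i, hi⟩ : ∃ i, ⟪ξ, b i⟫ ≠ 0 := by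
    by_contra k
    push Not at k
    refine hξ.1 (inner_self_eq_zero (𝕜 := ℂ).1 ?_)
    refine (congrArg (fun y => ⟪ξ, y⟫) (b.sum_repr ξ)).symm.trans ?_
    simp only [inner_sum, inner_smul_right_eq_smul, k, smul_zero, Finset.sum_const_zero]
  have c0 : Complex.I * ⟪ξ, b i⟫ ≠ 0 := mul_ne_zero Complex.I_ne_zero hi
  obtain ⟨w, w1, t, w2⟩ := hb i ((Complex.I * ⟪ξ, b i⟫) • ξ) (smul_ne_zero c0 hξ.1) fun y hy => by
    obtain ⟨s, hs⟩ : ∃ s : ℝ, ⟪ξ, y⟫ = s * ⟪ξ, b i⟫ := by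
      refine ⟨(⟪ξ, y⟫ / ⟪ξ, b i⟫).re, (div_eq_iff hi).1 (Complex.ext rfl ?_)⟩
      rw [inner_smul_left] at hy
      rw [Complex.ofReal_im, Complex.div_im, ← sub_div]
      simp only [map_mul, Complex.conj_I, Complex.mul_re, Complex.mul_im, Complex.neg_re,
        Complex.neg_im, Complex.I_re, Complex.I_im, Complex.conj_re, Complex.conj_im] at hy
      exact div_eq_zero_iff.2 (.inl (by linarith))
    have k : ⟪ξ, y - s • b i⟫ = 0 := by
      rw [inner_sub_right, inner_smul_right_eq_smul, hs, Complex.real_smul, sub_self]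
    have := ri i (y - s • b i) s
    rw [sub_add_cancel] at this
    exact this.trans (rz i _ (hno _ k) (hN0 _ (hno _ k)))
  refine hξ.2 w (mem_iUnion.2 ⟨i, w1⟩) ((Complex.I * ⟪ξ, b i⟫)⁻¹ * t) ?_
  rw [mul_smul, Complex.coe_smul, ← w2, inv_smul_smul₀ c0]

end Pool.Agent.Lib.LC
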