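import Pool.Agent.Lib.LC.Blue
import Pool.Agent.Lib.LB.Poly

/-! Local Banach problem over the complex numbers: removal of common factors. -/

set_option autoImplicit false

open Set Module
open scoped nonZeroDivisors

noncomputable section

namespace Pool.Agent.Lib.LC

open Pool.Agent.Lib.LB

namespace SAT1

open Polynomial in
theorem core {A ι : Type} [CommRing A] [IsDomain A] [IsGCDMonoid A] (f : ι → A[X])
    (h : ∀ d, (∀ i, d ∣ f i) → IsUnit d) : ∃ r : A, r ≠ 0 ∧ C r ∈ Ideal.span (range f) := by
  obtain ⟨N⟩ : Nonempty (NormalizedGCDMonoid A) := inferInstance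
  let K := FractionRing A
  let _ : Algebra A[X] K[X] := Polynomial.algebra A K
  have := Polynomial.isLocalization A⁰ K
  have inj := map_injective _ (IsFractionRing.injective A K)
  obtain ⟨g, hg⟩ := (IsPrincipalIdealRing.principal
    ((Ideal.span (range f)).map (algebraMap A[X] K[X]))).principal
  have dv : ∀ i, g ∣ (f i).map (algebraMap A K) := fun i => Ideal.mem_span_singleton.1
    (hg.le (Ideal.mem_map_of_mem (algebraMap A[X] K[X]) (Ideal.subset_span ⟨i, rfl⟩)))
  have g0 : g ≠ 0 := by
    rintro rfl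
    exact not_isUnit_zero (h 0 fun i => zero_dvd_iff.2 (inj ((zero_dvd_iff.1 (dv i)).trans
      (Polynomial.map_zero _).symm)))
  have u : IsUnit g := by
    refine isUnit_or_eq_zero_of_isUnit_integerNormalization_primPart g0 (h _ fun i =>
      (isPrimitive_primPart _).dvd_of_fraction_map_dvd_fraction_map (K := K) (Dvd.dvd.trans ?_ (dv i)))
    obtain ⟨c, c0, hc⟩ := IsLocalization.integerNormalization_spec A⁰ g
    have k := Polynomial.map_dvd (algebraMap A K)
      (IsLocalization.integerNormalization A⁰ g).primPart_dvd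
    rw [hc, Algebra.smul_def, Polynomial.algebraMap_apply] at k
    exact (isUnit_C.2 (IsLocalization.map_units K ⟨c, c0⟩)).dvd_mul_left.1 k
  obtain ⟨⟨x, _, r, r0, rfl⟩, e⟩ := (IsLocalization.mem_map_algebraMap_iff (A⁰.map C) K[X]).1
    (hg.ge (Ideal.mem_span_singleton.2 (isUnit_iff_dvd_one.1 u)))
  rw [one_mul] at e
  exact ⟨r, nonZeroDivisors.ne_zero r0, (show C r = x.1 from inj e) ▸ x.2⟩

open MvPolynomial

theorem free {n : ℕ} {ι : Type} (g : ι → MvPolynomial (Fin n) ℝ)
    (h : ∀ d, (∀ a, d ∣ g a) → IsUnit d) (i : Fin n) : ∃ r : MvPolynomial {j // j ≠ i} ℝ,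
      r ≠ 0 ∧ rename Subtype.val r ∈ Ideal.span (range g) := by
  let e := (renameEquiv ℝ (Equiv.optionSubtypeNe i).symm).trans (optionEquivLeft ℝ {j // j ≠ i})
  obtain ⟨r, r0, hr⟩ := core (fun a => e (g a)) fun d hd => by
    have := (h (e.symm d) fun a => by simpa using map_dvd e.symm (hd a)).map e
    rwa [e.apply_symm_apply] at this
  have k : e.symm.toAlgHom.comp Polynomial.CAlgHom = rename Subtype.val :=
    algHom_ext fun j => by simp [e]
  refine ⟨r, r0, ?_⟩
  have := Ideal.mem_map_of_mem e.symm hr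
  rw [Ideal.map_span, ← range_comp] at this
  simp only [Function.comp_def, AlgEquiv.symm_apply_apply] at this
  exact (DFunLike.congr_fun k r) ▸ this

variable {V : Type} [NormedAddCommGroup V] [NormedSpace ℝ V] [FiniteDimensional ℝ V] {n : ℕ}
  (b : Basis (Fin n) ℝ V)

omit [FiniteDimensional ℝ V] in
theorem to_mv {f : V → ℝ} (h : Pl f) : ∃ P, ∀ y, f y = eval (b.repr y) P := by
  obtain ⟨d, h⟩ := h
  induction h with
  | const d c => exact ⟨C c, fun y => (eval_C c).symm⟩
  | add _ _ ih ih' =>
    obtain ⟨P, hP⟩ := ih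
    obtain ⟨Q, hQ⟩ := ih'
    exact ⟨P + Q, fun y => by rw [map_add, ← hP, ← hQ]⟩
  | mul φ _ ih =>
    obtain ⟨P, hP⟩ := ih
    refine ⟨(∑ i, X i * C (φ (b i))) * P, fun y => ?_⟩
    rw [map_mul, ← hP]
    refine congrArg₂ (· * ·) ?_ rfl
    conv_lhs => rw [← b.sum_repr y, map_sum]
    simp

theorem of_mv (P : MvPolynomial (Fin n) ℝ) : Pl fun y => eval (b.repr y) P := by
  induction P using MvPolynomial.induction_on with
  | C c => exact (Pl.const c).congr fun y => (eval_C c).symm
  | add P Q h h' => exact (h.add h').congr fun y => (map_add _ _ _).symm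
  | mul_X P i h =>
    exact (h.smul (Pl.lin (LinearMap.toContinuousLinearMap (b.coord i)))).congr fun y => by simp

end SAT1

open SAT1 MvPolynomial in
theorem bSAT1 : St_SAT1 := by
  intro V F _ _ _ _ _ _ n b δ M hδ hM _
  let w := Module.finBasis ℝ F
  obtain ⟨P, hP⟩ := to_mv b hδ
  choose Q hQ using fun a => to_mv b (hM.post (LinearMap.toContinuousLinearMap (w.coord a)))
  obtain ⟨N⟩ : Nonempty (NormalizedGCDMonoid (MvPolynomial (Fin n) ℝ)) := inferInstance
  obtain ⟨g, hg, g1⟩ := Finset.extract_gcd (s := Finset.univ) (fun a => Option.elim a P Q)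
    ⟨none, Finset.mem_univ _⟩
  generalize Finset.univ.gcd (fun a => Option.elim a P Q) = c at hg
  refine ⟨_, _, fun y => ∑ a, eval (b.repr y) (g (some a)) • w a, of_mv b c, of_mv b (g none), ?_,
    fun y => ?_, fun y => ?_, fun i => ?_⟩
  · refine Finset.induction_on (motive := fun s => Pl fun y => ∑ a ∈ s,
      eval (b.repr y) (g (some a)) • w a) Finset.univ ((Pl.const 0).congr fun y => by simp)
      fun a s ha ih => (((of_mv b (g (some a))).smul (Pl.const (w a))).add ih).congr fun y => ?_
    rw [Finset.sum_insert ha]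
  · rw [← map_mul, ← hg none (Finset.mem_univ _)]
    exact hP y
  · rw [← w.sum_repr (M y), Finset.smul_sum]
    refine Finset.sum_congr rfl fun a _ => ?_
    rw [smul_smul, ← map_mul, ← hg (some a) (Finset.mem_univ _)]
    exact congrArg (· • w a) (hQ a y)
  obtain ⟨r, r0, hr⟩ := free g (fun d hd => isUnit_of_dvd_one
    (g1 ▸ Finset.dvd_gcd fun a _ => hd a)) i
  refine ⟨_, of_mv b (rename Subtype.val r), ?_, fun y t => ?_, fun y h1 h2 => ?_⟩
  · by_contra! h
    refine r0 (rename_injective _ Subtype.val_injective (MvPolynomial.funext fun x => ?_))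
    have := h (b.equivFun.symm x)
    rw [show (b.repr (b.equivFun.symm x) : Fin n → ℝ) = x from b.equivFun.apply_symm_apply x] at this
    rw [this, map_zero, map_zero]
  · rw [eval_rename, eval_rename]
    refine congrArg (eval · r) (_root_.funext fun j => ?_)
    simp [Finsupp.single_eq_of_ne j.2]
  · refine (Ideal.span_le.2 ?_ : _ ≤ RingHom.ker (eval (b.repr y))) hr
    rintro _ ⟨_ | a, rfl⟩
    · exact h1
    · exact Fintype.linearIndependent_iff.1 w.linearIndependent _ h2 a

end Pool.Agent.Lib.LC
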