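import Pool.Agent.Lib.LC.Basic
import Pool.Agent.Lib.LB.B_RS
import Pool.Agent.Lib.LB.B_SOL

/-! Local Banach problem over the complex numbers: the analytic solution of the linear system. -/

set_option autoImplicit false

open Set Filter Topology Metric Module
open scoped ComplexInnerProductSpace ContDiff NNReal

noncomputable section

namespace Pool.Agent.Lib.LC

open Pool.Agent.Lib.LB

theorem bSOL (hGD : St_GDIM) (hKG : St_KG) (hSY : St_SYS) : St_SOL := by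
  intro V _ _ _ Φ ξ0 δ M ρ G Bd h2 R
  obtain ⟨s, A, b, hA, hb, hs⟩ := hSY V δ M R.pδ R.pM
  have h0 : ξ0 ≠ 0 := R.nz ξ0 (mem_ball_self R.pos)
  have hk : ∀ ξ : V, ξ ≠ 0 → LinearMap.ker
      (A ξ : (V →L[ℝ] V) →ₗ[ℝ] ((V × V) × (V →L[ℝ] ℂ) × (Fin s → V))) = ks δ M ξ := fun ξ hξ => by
    ext L
    rw [LinearMap.mem_ker]
    exact (hs ξ hξ).1 L
  have hle : ∀ ξ ∈ ball ξ0 ρ ∩ NB Bd, ks δ M ξ ≤ gs Φ ξ := fun ξ hξ =>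
    hKG V Φ δ M ξ {y : V | ⟪ξ, y⟫ = 0 ∧ y ≠ 0} R.pδ (R.sat ξ hξ.2) (fun _ hy => hy.1)
      (fun y hy => dense_perp (Pl.lin (ContinuousLinearMap.id ℝ V))
        ((exists_perp1 h2 ξ).imp fun _ h => h.symm) hy)
      (fun y hy v _ => R.kil ξ hξ.1 y hy.2 hy.1 v)
  have hgd : ∀ ξ ∈ ball ξ0 ρ, finrank ℝ (gs Φ ξ) = finrank ℝ (gs Φ ξ0) := fun ξ hξ =>
    hGD V Φ Φ ξ0 ξ h0 (R.iso ξ hξ)
  obtain ⟨d, L, hd, hL, hr⟩ := LB.bRS V (V →L[ℝ] V) _ V A b (finrank ℝ (gs Φ ξ0))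
    (ball ξ0 ρ ∩ NB Bd) (G ∩ NB Bd) hA hb (isOpen_ball.inter (NB_open R.fin))
    ⟨ξ0, mem_ball_self R.pos, R.nb⟩ (fun ξ hξ => (NB_open R.fin).closure_inter ⟨R.den hξ.1, hξ.2⟩)
    (fun ξ hξ => by
      have hb' := R.sub hξ.1
      have hn := R.nz ξ hb'
      refine ⟨?_, fun μ => ?_⟩
      · rw [hk ξ hn, le_antisymm (hle ξ ⟨hb', hξ.2⟩) (R.c1 ξ hξ.1), hgd ξ hb']
      · obtain ⟨u, hu⟩ := R.c2 ξ hξ.1 μ
        exact ⟨u, ((hs ξ hn).2 μ u).2 hu⟩)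
  have hG : ∀ ξ, ξ ∈ Gam Φ ξ0 δ M ↔ ξ ≠ 0 ∧ d ξ ≠ 0 := fun ξ => by
    refine and_congr_right fun hξ => ?_
    rw [(hr ξ).2.1, hk ξ hξ]
  have hl : ∀ ξ : V, ξ ≠ 0 → finrank ℝ (gs Φ ξ0) ≤ finrank ℝ (ks δ M ξ) := fun ξ hξ => by
    rw [← hk ξ hξ]
    exact (hr ξ).1
  have hc : Continuous d := continuousOn_univ.1 hd.continuousOn
  refine ⟨fun ξ => (d ξ)⁻¹ • L ξ, ?_, fun ξ hξ => ?_, hl, fun ξ hξ => ?_, fun ξ hξ μ => ?_⟩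
  · have : Gam Φ ξ0 δ M = {ξ | ξ ≠ 0} ∩ {ξ | d ξ ≠ 0} := Set.ext hG
    rw [this]
    exact isOpen_ne.inter (isOpen_ne_fun hc continuous_const)
  · have hn := R.nz ξ hξ.1
    refine ⟨hn, le_antisymm ?_ (hl ξ hn)⟩
    rw [← hgd ξ hξ.1]
    exact Submodule.finrank_mono (hle ξ hξ)
  · exact LB.SOL.ana (hd ξ (mem_univ _)) (hL ξ (mem_univ _)) ((hG ξ).1 hξ).2
  · obtain ⟨hn, hd0⟩ := (hG ξ).1 hξ
    refine ((hs ξ hn).2 μ _).1 ?_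
    rw [smul_apply, map_smul, (hr ξ).2.2 μ, smul_smul, inv_mul_cancel₀ hd0, one_smul]

end Pool.Agent.Lib.LC
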