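import Pool.Agent.Lib.LC.Blue
import Pool.Agent.Lib.LC.Ae

/-! Row SR: a map that is rational on almost all hyperplanes is rational. -/

set_option autoImplicit false

open Set Filter Topology Metric Module
open scoped ComplexInnerProductSpace

noncomputable section

namespace Pool.Agent.Lib.LC

open Pool.Agent.Lib.LB

theorem bSR (hSR1 : St_SR1) (hSR2 : St_SR2) (hSR3 : St_SR3) : St_SR := by
  intro E V F _ _ _ _ _ _ _ _ _ S N x0 O G ρ φ h2 h0 hO hx hρ hG hq
  have : Nontrivial E := nontrivial_of_ne x0 0 h0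
  obtain ⟨n, b, W, w1, w2, w3⟩ := hSR1 E V S x0 G ρ h2 h0 hρ hG
  obtain ⟨δ, M, U, p1, p2, d0, u1, u2, u3⟩ := hSR2 V F n b N (W ∩ S.pr ⁻¹' O) (S.ι x0) φ
    (w1.inter (hO.preimage S.pr.continuous)) ⟨w2, by simpa [S.pr_ι] using hx⟩ fun i =>
      (w3 i).mono fun z hz c => by
        obtain ⟨l, l1, l2, l3⟩ := hz c.1
        obtain ⟨q, p, q1, q2, e⟩ := hq l l1
        have a : IsPol 1 fun t : ℝ => S.pr (z + t • b i) :=
          ((IsPol.const 1 z).add (IsPol.lin ((ContinuousLinearMap.id ℝ ℝ).smulRight (b i)))).post S.prr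
        refine ⟨_, _, (q1.comp a).mono (mul_one N).le, (q2.comp a).mono (mul_one N).le,
          fun t ht => ?_⟩
        have := e _ ht.2
        rwa [S.j_pr (by rw [inner_add_right, inner_smul_right_eq_smul, l2, l3, smul_zero, add_zero])]
          at this
  have c : Continuous fun l => S.j l x0 := by
    simp only [S.j_apply]
    exact continuous_const.sub ((continuous_id.inner continuous_const).smul continuous_const)
  obtain ⟨ε, e0, e1⟩ := Metric.isOpen_iff.1 ((u1.preimage c).inter isOpen_ball) 0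
    ⟨by simpa [S.j_zero] using u2, mem_ball_self hρ⟩
  refine ⟨δ, M, ε, {l ∈ G | ∀ x ∈ O, δ (S.j l x) • φ (S.j l x) = M (S.j l x)}, p1, p2, d0, e0,
    sep_subset _ _, aeF_closure isOpen_ball ?_, fun l hl => hl.2⟩
  filter_upwards [hG, hSR3 E V S _ u3] with l l1 l2 l3
  have lG := l1 (mem_ball_zero_iff.1 (e1 l3).2)
  obtain ⟨q, p, q1, q2, e⟩ := hq l lG
  refine ⟨lG, fun x hx' => ?_⟩
  have z := aeF_pl (((p1.pre (S.j l)).smul ⟨N, q2⟩).sub (Pl.smul ⟨N, q1⟩ (p2.pre (S.j l))))
    (hO.inter (u1.preimage (S.j l).continuous)) ⟨x0, hx, (e1 l3).1⟩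
    (l2.mono fun y hy c => by rw [(e y c.1).2, smul_comm, hy c.2, sub_self]) x
  rw [(e x hx').2, smul_comm, sub_eq_zero] at z
  exact smul_right_injective F (e x hx').1 z

end Pool.Agent.Lib.LC
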