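import Pool.Agent.Lib.LC.B_SR3

/-! Row SR1: directions whose lines lie almost always in a good hyperplane. -/

set_option autoImplicit false

open Set Filter Topology Metric Module
open scoped ComplexInnerProductSpace

noncomputable section

namespace Pool.Agent.Lib.LC

open Pool.Agent.Lib.LB

namespace SR1

variable {E V : Type} [NormedAddCommGroup E] [InnerProductSpace ℂ E] [FiniteDimensional ℂ E]
  [NormedAddCommGroup V] [InnerProductSpace ℂ V] [FiniteDimensional ℂ V]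

/-- The member of the pencil through `z`. -/
def cz (S : Sp E V) (u l : E) (z : V) : ℂ :=
  (starRingEnd ℂ) (-(⟪S.e, z⟫ + ⟪l, S.pr z⟫) / ⟪u, S.pr z⟫)

/-- Coordinates of a vector. -/
def co (S : Sp E V) : V →ₗ[ℝ] E × ℂ :=
  ((S.pr : V →ₗ[ℂ] E).prod (innerSL ℂ S.e : V →ₗ[ℂ] ℂ)).restrictScalars ℝ

omit [FiniteDimensional ℂ E] [FiniteDimensional ℂ V] in
theorem co_onto (S : Sp E V) : Function.Surjective (co S) := fun z =>
  ⟨S.ι z.1 + z.2 • S.e, Prod.ext (by simp [co, S.pr_ι, S.pr_e])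
    (by
      show ⟪S.e, _⟫ = z.2
      rw [inner_add_right, inner_smul_right, S.ei, S.ee, mul_one, zero_add])⟩

/-- The pencil. -/
def pe (u : E) : E × ℂ →ₗ[ℝ] E where
  toFun z := z.1 + z.2 • u
  map_add' a b := by simp only [Prod.fst_add, Prod.snd_add, add_smul]; abel
  map_smul' c a := by simp only [Prod.smul_fst, Prod.smul_snd, RingHom.id_apply, smul_add, smul_assoc]

/-- Division followed by conjugation. -/
def dv (a : ℂ) : ℂ →ₗ[ℝ] ℂ where
  toFun t := (starRingEnd ℂ) (-t / a)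
  map_add' a b := by rw [← map_add]; congr 1; ring
  map_smul' c a := by simp [mul_div_assoc, neg_div]

theorem pull (S : Sp E V) (u l : E) {p : ℂ → Prop} (h : ∀ᶠ c in aeF ℂ, p c) :
    ∀ᶠ z in aeF V, ⟪u, S.pr z⟫ ≠ 0 → p (cz S u l z) := by
  borelize E
  obtain ⟨s, s1, s2, s3⟩ := aeF_meas h
  have m1 : ∀ v : E, Measurable fun z : E × ℂ => ⟪v, z.1⟫ := fun v =>
    (continuous_const.inner continuous_fst).measurable
  have m : Measurable fun z : E × ℂ => (starRingEnd ℂ) (-(z.2 + ⟪l, z.1⟫) / ⟪u, z.1⟫) :=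
    Complex.continuous_conj.measurable.comp ((measurable_snd.add (m1 l)).neg.div (m1 u))
  have k := aeF_of_prod (s := {z : E × ℂ | ⟪u, z.1⟫ = 0} ∪ _)
    ((measurableSet_eq_fun (m1 u) measurable_const).union (m s1)) (.of_forall fun x => by
      by_cases e : ⟪u, x⟫ = 0
      · exact .of_forall fun t => Or.inl e
      have o : Function.Surjective (dv ⟪u, x⟫) := fun c => ⟨-((starRingEnd ℂ) c * ⟪u, x⟫), by
        show (starRingEnd ℂ) _ = c
        rw [neg_neg, mul_div_cancel_right₀ _ e, Complex.conj_conj]⟩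
      filter_upwards [((aeF_lin _ o).comp (aeF_add ⟪l, x⟫)).eventually s2] with t ht
      refine Or.inr ?_
      rw [mem_preimage, add_comm]
      exact ht)
  filter_upwards [(aeF_lin _ (co_onto S)).eventually k] with z hz h0
  exact s3 _ (hz.resolve_left h0)

/-- The good directions. -/
def Gd (S : Sp E V) (x0 : E) (G : Set E) : Set V := {v | ∃ W, IsOpen W ∧ S.ι x0 ∈ W ∧
  ∀ᶠ z in aeF V, z ∈ W → ∃ l ∈ G, ⟪S.xi l, z⟫ = 0 ∧ ⟪S.xi l, v⟫ = 0}

theorem dir (S : Sp E V) {x0 w : E} {G : Set E} {ρ : ℝ} (hρ : 0 < ρ) (h0 : x0 ≠ 0)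
    (hG : ∀ᶠ l in aeF E, ‖l‖ < ρ → l ∈ G) (hw : ∀ c : ℂ, w ≠ c • x0) :
    ∃ O, IsOpen O ∧ (0 : E) ∈ O ∧ ∀ᶠ l in aeF E, l ∈ O → S.j l w ∈ Gd S x0 G := by
  have w0 : ⟪w, w⟫ ≠ 0 := inner_self_ne_zero.2 fun e => hw 0 (by rw [e, zero_smul])
  obtain ⟨a, ha⟩ : ∃ a, a = ⟪w, x0⟫ / ⟪w, w⟫ := ⟨_, rfl⟩
  obtain ⟨u, hu⟩ : ∃ u, u = x0 - a • w := ⟨_, rfl⟩
  have uw : ⟪u, w⟫ = 0 := by
    rw [← inner_conj_symm, hu, inner_sub_right, inner_smul_right, ha, div_mul_cancel₀ _ w0, sub_self,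
      map_zero]
  have u0 : u ≠ 0 := fun e => by
    have e1 : x0 = a • w := sub_eq_zero.1 (hu ▸ e)
    have a0 : a ≠ 0 := fun n => h0 (by rw [e1, n, zero_smul])
    exact hw a⁻¹ (by rw [e1, inv_smul_smul₀ a0])
  have ux : ⟪u, x0⟫ ≠ 0 := by
    rw [show x0 = u + a • w by rw [hu, sub_add_cancel], inner_add_right, inner_smul_right, uw,
      mul_zero, add_zero]
    exact inner_self_ne_zero.2 u0
  have cp : ∀ v : E, Continuous fun z : V => ⟪v, S.pr z⟫ := fun v =>
    continuous_const.inner S.pr.continuous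
  have c1 : Continuous fun l : E => ‖l + cz S u l (S.ι x0) • u‖ :=
    (continuous_id.add ((Complex.continuous_conj.comp ((continuous_const.add
      (continuous_id.inner continuous_const)).neg.div_const _)).smul continuous_const)).norm
  refine ⟨{l | ‖l + cz S u l (S.ι x0) • u‖ < ρ}, isOpen_lt c1 continuous_const, ?_, ?_⟩
  · simp [cz, S.ei, hρ]
  have on : Function.Surjective (pe u) := fun l => ⟨(l, 0), by simp [pe]⟩
  filter_upwards [aeF_prod (q := fun z => ‖pe u z‖ < ρ → pe u z ∈ G)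
    ((aeF_lin _ on).eventually hG)] with l hl hO
  have c2 : ContinuousOn (fun z => ‖l + cz S u l z • u‖) {z | ⟪u, S.pr z⟫ ≠ 0} :=
    (continuousOn_const.add ((Complex.continuous_conj.comp_continuousOn
      (((continuous_const.inner continuous_id).add (cp l)).neg.continuousOn.div (cp u).continuousOn
        fun z hz => hz)).smul continuousOn_const)).norm
  refine ⟨_, c2.isOpen_inter_preimage (isOpen_ne_fun (cp u) continuous_const) (isOpen_Iio (a := ρ)),
    ⟨by simpa [S.pr_ι] using ux, hO⟩, ?_⟩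
  filter_upwards [pull S u l hl] with z hz ⟨z1, z2⟩
  refine ⟨_, hz z1 z2, ?_, ?_⟩
  · show ⟪S.xi (l + cz S u l z • u), z⟫ = 0
    rw [S.xi_inner, inner_add_left, inner_smul_left, cz, Complex.conj_conj, div_mul_cancel₀ _ z1]
    ring
  · show ⟪S.xi (l + cz S u l z • u), S.j l w⟫ = 0
    rw [S.xi_inner, S.pr_j, S.e_j, inner_add_left, inner_smul_left, uw]
    ring

theorem top (S : Sp E V) {x0 : E} {G : Set E} {ρ : ℝ} (hρ : 0 < ρ) (h0 : x0 ≠ 0)
    (hG : ∀ᶠ l in aeF E, ‖l‖ < ρ → l ∈ G) (h2 : 2 ≤ finrank ℂ E) :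
    ⊤ ≤ Submodule.span ℝ (Gd S x0 G) := by
  set T := Submodule.span ℝ (Gd S x0 G)
  have k : ∀ w, (∀ c : ℂ, w ≠ c • x0) → ∀ᶠ l in 𝓝 (0 : E), S.j l w ∈ T := fun w hw => by
    obtain ⟨O, o1, o2, o3⟩ := dir S hρ h0 hG hw
    have c : Continuous fun l => S.j l w := by
      simp only [S.j_apply]
      exact continuous_const.sub ((continuous_id.inner continuous_const).smul continuous_const)
    filter_upwards [o1.mem_nhds o2] with l hl
    exact (T.closed_of_finiteDimensional.preimage c).closure_subset (aeF_closure o1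
      (o3.mono fun l h h' => mem_preimage.2 (Submodule.subset_span (h h'))) hl)
  have k0 : ∀ w, (∀ c : ℂ, w ≠ c • x0) → S.ι w ∈ T := fun w hw => by
    simpa only [S.j_zero] using (k w hw).self_of_nhds
  obtain ⟨w, hw⟩ : ∃ w, ∀ c : ℂ, w ≠ c • x0 := by
    by_contra n
    push Not at n
    have := (finrank_le_one_iff (K := ℂ) (V := E)).2 ⟨x0, fun w => (n w).imp fun c e => e.symm⟩
    omega
  have k1 : ∀ x, S.ι x ∈ T := fun x => by
    by_cases e : ∀ c : ℂ, x ≠ c • x0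
    · exact k0 x e
    push Not at e
    obtain ⟨c, rfl⟩ := e
    have := T.sub_mem (k0 (c • x0 + w) fun d e => hw (d - c) (by rw [sub_smul, ← e]; abel)) (k0 w hw)
    rwa [← map_sub, add_sub_cancel_right] at this
  have k2 : ∀ c : ℂ, c • S.e ∈ T := fun c => by
    have w0 : w ≠ 0 := fun e => hw 0 (by rw [e, zero_smul])
    obtain ⟨l, hl⟩ := SR3.pm_onto w0 c
    have t : Tendsto (fun s : ℝ => s • l) (𝓝[>] 0) (𝓝 0) := by
      have : Continuous fun s : ℝ => s • l := by fun_prop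
      simpa using (this.tendsto 0).mono_left nhdsWithin_le_nhds
    obtain ⟨s, s1, s2⟩ := ((t.eventually (k w hw)).and self_mem_nhdsWithin).exists
    have e : S.j (s • l) w - S.ι w = s • c • S.e := by
      rw [S.j_apply, ← hl, inner_smul_left_eq_smul, smul_assoc]
      show _ = s • (-⟪l, w⟫) • S.e
      rw [neg_smul, smul_neg]
      abel
    have := T.smul_mem s⁻¹ (T.sub_mem s1 (k1 w))
    rwa [e, inv_smul_smul₀ (ne_of_gt s2)] at this
  intro y _
  rw [← S.dec y]
  exact T.add_mem (k1 _) (k2 _)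

end SR1

theorem bSR1 : St_SR1 := by
  intro E V _ _ _ _ _ _ S x0 G ρ h2 h0 hρ hG
  obtain ⟨κ, a, -, h3, h4⟩ := exists_linearIndependent' ℝ
    (Subtype.val : SR1.Gd S x0 G → V)
  have : Finite κ := h4.finite
  have := Fintype.ofFinite κ
  rw [Subtype.range_coe] at h3
  let b := Basis.mk h4 (h3 ▸ SR1.top S hρ h0 hG h2)
  choose W w1 w2 w3 using fun i => (a i).2
  refine ⟨_, b.reindex (Fintype.equivFin κ), ⋂ i, W i, isOpen_iInter_of_finite w1,
    mem_iInter.2 w2, fun i => (w3 ((Fintype.equivFin κ).symm i)).mono fun z hz h => ?_⟩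
  rw [Basis.reindex_apply, Basis.mk_apply]
  exact hz (mem_iInter.1 h _)

end Pool.Agent.Lib.LC
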