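import Pool.Agent.Lib.LC.Blue
import Pool.Agent.Lib.LC.Ae
import Pool.Agent.Lib.LC49.Sat

/-! Row SR2: a map that is rational on almost all coordinate lines is rational almost everywhere. -/

set_option autoImplicit false

open Set Filter Topology Metric Module

noncomputable section

namespace Pool.Agent.Lib.LC

open Pool.Agent.Lib.LB

namespace SR2

variable {F : Type} [NormedAddCommGroup F] [NormedSpace ℝ F] {n : ℕ}

theorem num (n N m : ℕ) : ∃ J : ℕ, (J + N + 1) ^ n * m < (J + 1) ^ n * (1 + m) := by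
  have t0 : Tendsto (fun J : ℕ => (N : ℝ) / ((J : ℝ) + 1)) atTop (𝓝 0) :=
    tendsto_const_nhds.div_atTop (tendsto_natCast_atTop_atTop.atTop_add tendsto_const_nhds)
  have t1 := ((t0.const_add 1).pow n).mul_const (m : ℝ)
  obtain ⟨J, hJ⟩ := (t1.eventually (gt_mem_nhds
    (show (1 + 0 : ℝ) ^ n * m < 1 + m by simp))).exists
  refine ⟨J, ?_⟩
  have p : (0 : ℝ) < (J : ℝ) + 1 := by positivity
  rw [show 1 + (N : ℝ) / (J + 1) = (J + N + 1) / (J + 1) by field_simp; ring, div_pow,
    div_mul_eq_mul_div, div_lt_iff₀ (pow_pos p n), mul_comm (1 + m : ℝ)] at hJ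
  exact_mod_cast hJ

theorem uni {d : ℕ} {f : ℝ → ℝ} (h : IsPol d f) :
    ∃ p : Polynomial ℝ, p.natDegree ≤ d ∧ ∀ t, f t = p.eval t := by
  induction h with
  | const d c => exact ⟨.C c, by simp, by simp⟩
  | add _ _ ih ih' =>
    obtain ⟨p, p1, p2⟩ := ih
    obtain ⟨q, q1, q2⟩ := ih'
    exact ⟨p + q, (Polynomial.natDegree_add_le _ _).trans (max_le p1 q1), fun t => by simp [p2, q2]⟩
  | mul φ _ ih =>
    obtain ⟨p, p1, p2⟩ := ih
    have l : (Polynomial.C (φ 1) * Polynomial.X).natDegree ≤ 1 :=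
      (Polynomial.natDegree_C_mul_le _ _).trans Polynomial.natDegree_X_le
    refine ⟨p * (Polynomial.C (φ 1) * Polynomial.X),
      Polynomial.natDegree_mul_le.trans (Nat.add_le_add p1 l), fun t => ?_⟩
    have : φ t = t * φ 1 := by rw [← smul_eq_mul, ← map_smul, smul_eq_mul, mul_one]
    simp [p2, this]
    ring

theorem roots {d : ℕ} {f : ℝ → F} (h : IsPol d f) {τ : Fin (d + 1) → ℝ}
    (hτ : Function.Injective τ) (h0 : ∀ j, f (τ j) = 0) (t : ℝ) : f t = 0 := by
  refine SeparatingDual.eq_zero_of_forall_dual_eq_zero (R := ℝ) fun L => ?_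
  obtain ⟨p, p1, p2⟩ := uni (h.post L)
  rw [p2, Polynomial.eq_zero_of_natDegree_lt_card_of_eval_eq_zero p hτ
    (fun j => by rw [← p2, h0, map_zero]) (by simpa [Nat.lt_succ_iff] using p1), Polynomial.eval_zero]

/-- Polynomials of degree at most `J` in every variable. -/
def gp {J : ℕ} (m : (Fin n → Fin (J + 1)) → F) (x : Fin n → ℝ) : F :=
  ∑ α, (∏ i, x i ^ (α i : ℕ)) • m α

theorem pw (c : ℝ) (a : ℕ) : IsPol a fun τ : ℝ => (c + τ) ^ a := by
  induction a with
  | zero => exact (IsPol.const 0 1).congr fun x => by simp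
  | succ a ih =>
    exact (((ih.const_smul c).mono a.le_succ).add (ih.mul (ContinuousLinearMap.id ℝ ℝ))).congr
      fun x => by simp; ring

theorem gp_line {J : ℕ} (m : (Fin n → Fin (J + 1)) → F) (x : Fin n → ℝ) (i : Fin n) :
    IsPol J fun τ : ℝ => gp m (x + τ • Pi.single i 1) := by
  refine IsPol.sum _ fun α _ => ?_
  refine ((((pw (x i) (α i)).const_smul (∏ k ∈ Finset.univ.erase i, x k ^ (α k : ℕ))).smul
    (IsPol.const 0 (m α))).mono (Nat.lt_succ_iff.1 (α i).2)).congr fun τ => ?_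
  rw [← Finset.prod_erase_mul _ _ (Finset.mem_univ i), smul_eq_mul]
  congr 2
  · exact Finset.prod_congr rfl fun k hk => by simp [Finset.ne_of_mem_erase hk]
  · simp

theorem gp_pl {J : ℕ} (m : (Fin n → Fin (J + 1)) → F) : Pl (gp m) := by
  refine LC49.pl_sum _ fun α => Pl.smul ?_ (Pl.const _)
  refine Finset.induction_on (motive := fun s => Pl fun x : Fin n → ℝ => ∏ i ∈ s, x i ^ (α i : ℕ))
    Finset.univ ((Pl.const 1).congr fun x => by simp) fun i s hi ih => ?_
  exact ((Pl.pre ⟨_, pw 0 (α i)⟩ (ContinuousLinearMap.proj i)).smul ih).congr fun x => by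
    simp [Finset.prod_insert hi]

theorem gp_zero {J : ℕ} {m : (Fin n → Fin (J + 1)) → F} {t : Fin n → Fin (J + 1) → ℝ}
    (ht : ∀ i, Function.Injective (t i)) (h : ∀ g : Fin n → Fin (J + 1), gp m (fun i => t i (g i)) = 0) :
    m = 0 := by
  funext β
  have e : ∀ i (a b : Fin (J + 1)), ∑ k, (Matrix.vandermonde (t i))⁻¹ a k * t i k ^ (b : ℕ) =
      if a = b then 1 else 0 := fun i a b =>
    (congrFun₂ (Matrix.nonsing_inv_mul _ (isUnit_iff_ne_zero.2
      (Matrix.det_vandermonde_ne_zero_iff.2 (ht i)))) a b).trans Matrix.one_apply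
  have k : ∑ g : Fin n → Fin (J + 1), (∏ i, (Matrix.vandermonde (t i))⁻¹ (β i) (g i)) •
      gp m (fun i => t i (g i)) = m β := by
    simp only [gp, Finset.smul_sum, smul_smul, ← Finset.prod_mul_distrib]
    rw [Finset.sum_comm]
    simp only [← Finset.sum_smul]
    have : ∀ α : Fin n → Fin (J + 1), ∑ g : Fin n → Fin (J + 1),
        ∏ i, (Matrix.vandermonde (t i))⁻¹ (β i) (g i) * t i (g i) ^ (α i : ℕ) =
        if β = α then 1 else 0 := fun α => by
      rw [← Fintype.piFinset_univ, ← Finset.prod_univ_sum (fun _ => Finset.univ)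
        fun i k => (Matrix.vandermonde (t i))⁻¹ (β i) k * t i k ^ (α i : ℕ)]
      simp only [e, Finset.prod_ite_zero, Finset.mem_univ, true_implies, Finset.prod_const_one,
        funext_iff]
    simp [this]
  rw [← k]
  simp [h]

theorem siegel [FiniteDimensional ℝ F] (n N : ℕ) : ∃ J : ℕ, ∀ (t : Fin n → Fin (J + N + 1) → ℝ)
    (ψ : (Fin n → ℝ) → F), (∀ i, Function.Injective (t i)) →
    ∃ (a : (Fin n → Fin (J + 1)) → ℝ) (m : (Fin n → Fin (J + 1)) → F), (∃ x, gp a x ≠ 0) ∧
      ∀ g : Fin n → Fin (J + N + 1),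
        gp a (fun i => t i (g i)) • ψ (fun i => t i (g i)) = gp m fun i => t i (g i) := by
  obtain ⟨J, hJ⟩ := num n N (finrank ℝ F)
  refine ⟨J, fun t ψ ht => ?_⟩
  let L : ((Fin n → Fin (J + 1)) → ℝ × F) →ₗ[ℝ] (Fin n → Fin (J + N + 1)) → F :=
    { toFun := fun c g => gp (fun α => (c α).1) (fun i => t i (g i)) • ψ (fun i => t i (g i)) -
        gp (fun α => (c α).2) fun i => t i (g i)
      map_add' := fun c d => funext fun g => by
        simp only [gp, Pi.add_apply, Prod.fst_add, Prod.snd_add, smul_add, Finset.sum_add_distrib,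
          add_smul]
        abel
      map_smul' := fun r c => funext fun g => by
        simp only [gp, Pi.smul_apply, Prod.smul_fst, Prod.smul_snd, smul_comm _ r,
          ← Finset.smul_sum, RingHom.id_apply, smul_sub, smul_assoc] }
  obtain ⟨c, c1, c0⟩ := Submodule.exists_mem_ne_zero_of_ne_bot (LinearMap.ker_ne_bot_of_finrank_lt
    (f := L) (by simpa [finrank_pi_fintype] using hJ))
  have e : ∀ g, _ := fun g => sub_eq_zero.1 (congrFun (LinearMap.mem_ker.1 c1) g)
  refine ⟨_, _, ?_, e⟩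
  by_contra z
  push Not at z
  have le : J + 1 ≤ J + N + 1 := by omega
  have i1 : ∀ i, Function.Injective fun k => t i (Fin.castLE le k) := fun i =>
    (ht i).comp (Fin.castLE_injective le)
  have z1 := gp_zero i1 fun g => z _
  have z2 := gp_zero (m := fun α => (c α).2) i1 fun g => by
    rw [← e fun i => Fin.castLE le (g i), z, zero_smul]
  exact c0 (funext fun α => Prod.ext (congrFun z1 α) (congrFun z2 α))

/-- The points of the mixed grid. -/
def mg {s : ℕ} (S : Finset (Fin n)) (g : Fin n → Fin s) :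
    (Fin n → Fin s → ℝ) × (Fin n → ℝ) →ₗ[ℝ] Fin n → ℝ where
  toFun z i := if i ∈ S then z.2 i else z.1 i (g i)
  map_add' a b := funext fun i => by by_cases h : i ∈ S <;> simp [h]
  map_smul' c a := funext fun i => by by_cases h : i ∈ S <;> simp [h]

theorem core [FiniteDimensional ℝ F] (N : ℕ) (x0 : Fin n → ℝ) {r : ℝ} (hr : 0 < r)
    (ψ : (Fin n → ℝ) → F) (h : ∀ᶠ x in aeF (Fin n → ℝ), ∀ i, x ∈ ball x0 r →
      ∃ (q : ℝ → ℝ) (p : ℝ → F), IsPol N q ∧ IsPol N p ∧ ∀ τ : ℝ, x + τ • Pi.single i 1 ∈ ball x0 r →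
        q τ ≠ 0 ∧ p τ = q τ • ψ (x + τ • Pi.single i 1)) :
    ∃ (δ : (Fin n → ℝ) → ℝ) (M : (Fin n → ℝ) → F), Pl δ ∧ Pl M ∧ (∃ y, δ y ≠ 0) ∧
      ∀ᶠ x in aeF (Fin n → ℝ), x ∈ ball x0 r → δ x • ψ x = M x := by
  obtain ⟨J, hJ⟩ := siegel (F := F) n N
  have on : ∀ S (g : Fin n → Fin (J + N + 1)), Function.Surjective (mg S g) := fun S g x =>
    ⟨(fun i _ => x i, x), funext fun i => ite_self _⟩
  have k := aeF_prod (aeF_all fun S => aeF_all fun g => (aeF_lin _ (on S g)).eventually h)
  have op : IsOpen {t : Fin n → Fin (J + N + 1) → ℝ | (∀ i j, dist (t i j) (x0 i) < r) ∧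
      ∀ i j j', j ≠ j' → t i j ≠ t i j'} := by
    simp only [ofPred_and, ofPred_forall]
    exact (isOpen_iInter_of_finite fun i => isOpen_iInter_of_finite fun j =>
      isOpen_lt (by fun_prop) continuous_const).inter (isOpen_iInter_of_finite fun i =>
        isOpen_iInter_of_finite fun j => isOpen_iInter_of_finite fun j' =>
          isOpen_iInter_of_finite fun _ => isOpen_ne_fun (by fun_prop) (by fun_prop))
  obtain ⟨t, ⟨t1, t2⟩, t3⟩ := aeF_ex k op ⟨fun i j => x0 i + r / ((j : ℝ) + 2), fun i j => by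
    have : (0 : ℝ) ≤ j := Nat.cast_nonneg _
    rw [dist_self_add_left, Real.norm_eq_abs, abs_of_pos (by positivity)]
    exact div_lt_self hr (by linarith), fun i j j' hj e => hj (Fin.ext (by
      have := (div_eq_div_iff (by positivity) (by positivity)).1 (add_left_cancel e)
      exact_mod_cast (add_right_cancel (mul_left_cancel₀ hr.ne' this)).symm))⟩
  have ti : ∀ i, Function.Injective (t i) := fun i j j' e => by_contra fun n => t2 i j j' n e
  obtain ⟨a, m, a0, e⟩ := hJ t ψ ti
  refine ⟨_, _, gp_pl a, gp_pl m, a0, t3.mono fun x hx xb => ?_⟩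
  have mb : ∀ S g, mg S g (t, x) ∈ ball x0 r := fun S g => (dist_pi_lt_iff hr).2 fun i => by
    by_cases c : i ∈ S
    · rw [show mg S g (t, x) i = x i from if_pos c]
      exact (dist_pi_lt_iff hr).1 xb i
    · rw [show mg S g (t, x) i = t i (g i) from if_neg c]
      exact t1 i _
  have key : ∀ S g, gp a (mg S g (t, x)) • ψ (mg S g (t, x)) = gp m (mg S g (t, x)) := fun S => by
    induction S using Finset.induction_on with
    | empty => exact e
    | insert i S hi ih =>
      intro g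
      obtain ⟨q, p, q1, p1, e1⟩ := hx (insert i S) g i (mb _ _)
      have e2 : ∀ j, mg (insert i S) g (t, x) + (t i j - x i) • Pi.single i 1 =
          mg S (Function.update g i j) (t, x) := fun j => funext fun k => by
        by_cases c : k = i
        · subst c
          simp [mg, hi]
        · simp [mg, c]
      have z := roots (((gp_line a (mg (insert i S) g (t, x)) i).smul p1).sub
        ((q1.smul (gp_line m (mg (insert i S) g (t, x)) i)).mono (add_comm N J).le))
        (τ := fun j => t i j - x i) (fun j j' c => ti i (sub_left_injective c)) (fun j => by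
          rw [(e1 _ (e2 j ▸ mb _ _)).2, e2, smul_comm, ih, sub_self]) 0
      obtain ⟨q0, e3⟩ := e1 0 (by simpa using mb _ _)
      rw [e3, zero_smul, add_zero, smul_comm, sub_eq_zero] at z
      exact smul_right_injective F q0 z
  have := key Finset.univ fun _ => 0
  rwa [show mg Finset.univ (fun _ => 0) (t, x) = x from funext fun i => if_pos (Finset.mem_univ i)]
    at this

end SR2

theorem bSR2 : St_SR2 := by
  intro V F _ _ _ _ _ _ n b N W z0 φ hW h0 h
  let e := b.equivFunL
  obtain ⟨r, hr, hb⟩ := Metric.isOpen_iff.1 (hW.preimage e.symm.continuous) (e z0) (by simpa using h0)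
  have e1 : ∀ x (τ : ℝ) i, e.symm (x + τ • Pi.single i 1) = e.symm x + τ • b i := fun x τ i => by
    rw [map_add, map_smul]
    congr 2
    exact e.symm_apply_eq.2 (funext fun k => by simp [e, Finsupp.single_apply, Pi.single_apply, eq_comm])
  obtain ⟨δ, M, p1, p2, ⟨y, hy⟩, k⟩ := SR2.core N (e z0) hr (fun x => φ (e.symm x))
    (((aeF_lin e.symm.toLinearMap e.symm.surjective).eventually (aeF_all h)).mono
      fun x hx i xb => by
        obtain ⟨q, p, q1, p1, e2⟩ := hx i (hb xb)
        refine ⟨q, p, q1, p1, fun τ c => ?_⟩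
        have := hb c
        rw [mem_preimage, e1] at this
        rw [e1]
        exact e2 τ this)
  refine ⟨fun z => δ (e z), fun z => M (e z), e ⁻¹' ball (e z0) r, p1.pre (e : V →L[ℝ] _),
    p2.pre (e : V →L[ℝ] _), ⟨e.symm y, by simpa using hy⟩, isOpen_ball.preimage e.continuous,
    mem_ball_self hr, ((aeF_lin e.toLinearMap e.surjective).eventually k).mono fun z hz c => ?_⟩
  simpa using hz c

end Pool.Agent.Lib.LC
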