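import Pool.Agent.Lib.LC.Blue
import Pool.Agent.Lib.LC.Ae

/-! Row SR3: a null set meets almost every hyperplane in a null set. -/

set_option autoImplicit false

open Set Filter Topology Metric Module
open scoped ComplexInnerProductSpace

noncomputable section

namespace Pool.Agent.Lib.LC

open Pool.Agent.Lib.LB

namespace SR3

variable {E V : Type} [NormedAddCommGroup E] [InnerProductSpace ℂ E] [FiniteDimensional ℂ E]
  [NormedAddCommGroup V] [InnerProductSpace ℂ V] [FiniteDimensional ℂ V]

/-- Coordinates adapted to the splitting. -/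
def cm (S : Sp E V) : E × ℂ →ₗ[ℝ] V where
  toFun z := S.ι z.1 + z.2 • S.e
  map_add' a b := by simp only [Prod.fst_add, Prod.snd_add, map_add, add_smul]; abel
  map_smul' c a := by
    simp only [Prod.smul_fst, Prod.smul_snd, RingHom.id_apply, smul_add, smul_assoc]
    rw [S.ι.map_smul_of_tower]

omit [FiniteDimensional ℂ E] [FiniteDimensional ℂ V] in
theorem cm_onto (S : Sp E V) : Function.Surjective (cm S) := fun y => ⟨(S.pr y, ⟪S.e, y⟫), S.dec y⟩

/-- The pairing with a vector. -/
def pm (x : E) : E →ₗ[ℝ] ℂ where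
  toFun l := -⟪l, x⟫
  map_add' a b := by rw [inner_add_left]; ring
  map_smul' c a := by rw [inner_smul_left_eq_smul]; simp

omit [FiniteDimensional ℂ E] in
theorem pm_onto {x : E} (h : x ≠ 0) : Function.Surjective (pm x) := fun c =>
  ⟨(starRingEnd ℂ) (-c / ⟪x, x⟫) • x, by
    have : ⟪x, x⟫ ≠ 0 := inner_self_ne_zero.2 h
    show -⟪_, x⟫ = c
    rw [inner_smul_left, Complex.conj_conj]
    field_simp⟩

end SR3

theorem bSR3 : St_SR3 := by
  intro E V _ _ _ _ _ _ _ S P h
  borelize E V
  obtain ⟨s, s1, s2, s3⟩ := aeF_meas h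
  have c : Continuous fun z : E × E => S.j z.2 z.1 := by
    simp only [S.j_apply]
    exact (S.ι.continuous.comp continuous_fst).sub
      ((continuous_snd.inner continuous_fst).smul continuous_const)
  refine (aeF_swap (s := (fun z : E × E => S.j z.2 z.1) ⁻¹' s) (c.measurable s1) ?_).mono
    fun l hl => hl.mono fun x hx => s3 _ hx
  filter_upwards [aeF_prod (q := fun z => SR3.cm S z ∈ s) (aeF_lin _ (SR3.cm_onto S) s2),
    aeF_ne (0 : E)] with x h1 h2
  filter_upwards [(aeF_lin _ (SR3.pm_onto h2)).eventually h1] with l hl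
  rw [mem_preimage, S.j_apply, sub_eq_add_neg, ← neg_smul]
  exact hl

end Pool.Agent.Lib.LC
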