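import Pool.Agent.Lib.LC.Blue
import Pool.Agent.Lib.LB.B_INV
import Pool.Agent.Lib.LB.B_TINV

/-! Complex local Banach problem, row TINV: the lifted distribution does not depend on the
hyperplane. -/

set_option autoImplicit false

open Set Filter Topology Metric Module
open scoped ComplexInnerProductSpace ContDiff NNReal

noncomputable section

namespace Pool.Agent.Lib.LC

open Pool.Agent.Lib.LB

namespace TINV

/-- The product with a fixed second argument, as a real linear map. -/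
def cj {V : Type} [NormedAddCommGroup V] [InnerProductSpace ℂ V] (ξ : V) : V →L[ℝ] ℂ :=
  (Complex.conjCLE : ℂ →L[ℝ] ℂ).comp ((innerSL ℂ ξ).restrictScalars ℝ)

theorem cj_apply {V : Type} [NormedAddCommGroup V] [InnerProductSpace ℂ V] (ξ y : V) :
    cj ξ y = ⟪y, ξ⟫ := inner_conj_symm y ξ

theorem ne_symm {V : Type} [NormedAddCommGroup V] [InnerProductSpace ℂ V] {x y : V}
    (h : ⟪x, y⟫ ≠ 0) : ⟪y, x⟫ ≠ 0 := fun e => h (inner_eq_zero_symm.1 e)

end TINV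

open TINV in
theorem bTINV (hZ : St_ZF) : St_TINV := by
  intro E V _ _ _ _ _ _ S Φ r C G H x0 O d m P τ hL hD
  have hτ : ∀ x ∈ O, DifferentiableAt ℝ τ x := fun x hx =>
    (hD.cd.contDiffAt (hD.op.mem_nhds hx)).differentiableAt one_ne_zero
  obtain ⟨K, t, ht, hK⟩ := (hD.cd.contDiffAt (hD.op.mem_nhds hD.mem)).exists_lipschitzOnWith
  have hc : Continuous fun p : E × E => H p.1 p.2 :=
    (hL.lipH.continuous.comp continuous_fst).clm_apply continuous_snd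
  have h00 : ⟪x0, x0⟫ ≠ 0 := inner_self_ne_zero.2 hD.ne
  have hci : Continuous fun p : E × E => ⟪x0, p.2⟫ := continuous_const.inner continuous_snd
  obtain ⟨ρ₁, p1, r1, O₁, o1, m1, h1⟩ := LB.TINV.box
    (Q := fun p => H p.1 p.2 ∈ t ∩ O ∧ ⟪x0, p.2⟫ ≠ 0) hL.pos
    (Filter.Eventually.and (hc.continuousAt.preimage_mem_nhds (by
      show t ∩ O ∈ 𝓝 (H 0 x0)
      rw [hL.H0]
      exact inter_mem ht (hD.op.mem_nhds hD.mem))) (hci.continuousAt.eventually_ne h00))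
  have inv : ∀ x ∈ O₁, ∀ l l', ‖l‖ < ρ₁ → ‖l'‖ < ρ₁ → ⟪x, l' - l⟫ = 0 →
      τ (H l' x) = τ (H l x) := fun x hx l l' hl hl' hv => by
    have a1 : LipschitzWith (‖ContinuousLinearMap.apply ℝ E x‖₊ * C) fun l => H l x :=
      (ContinuousLinearMap.apply ℝ E x).lipschitz.comp hL.lipH
    have a2 := LB.bINV E (E →L[ℝ] E) E H C _ (fun l => τ (H l x)) (ball 0 ρ₁) (l' - l) hL.lipH
      isOpen_ball (convex_ball 0 ρ₁) (hK.comp a1.lipschitzOnWith fun l hl =>
        (h1 l (mem_ball_zero_iff.1 hl) x hx).1.1) (fun k hk hd => ?_) l (mem_ball_zero_iff.2 hl)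
      (by rw [add_sub_cancel]; exact mem_ball_zero_iff.2 hl')
    · rwa [add_sub_cancel] at a2
    have hk' := mem_ball_zero_iff.1 hk
    obtain ⟨b1, b2⟩ := h1 k hk' x hx
    obtain ⟨b3, b4⟩ := (hZ E V S Φ r C G H hL k (hk'.trans_le r1) hd).1 x (l' - l)
    have b5 := hD.all _ b3 b4 _ b1.2
    have b6 : ‖⟪x, x⟫‖ ^ 2 ≠ 0 := pow_ne_zero 2 (norm_ne_zero_iff.2
      (inner_self_ne_zero.2 fun e => b2 (by rw [e, inner_zero_right])))
    simp only [zf, hL.GH, hv, zero_mul, zero_smul, map_zero, zero_apply,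
      sub_zero] at b5
    have b7 := (hD.ker _ b1.2 _).2 ((Submodule.smul_mem_iff _ b6).1 b5)
    have b8 : HasDerivAt (fun s : ℝ => k + s • (l' - l)) (l' - l) 0 := by
      simpa using ((hasDerivAt_id (0 : ℝ)).smul_const (l' - l)).const_add k
    have b9 : HasDerivAt (fun s : ℝ => H (k + s • (l' - l)) x) (fderiv ℝ H k (l' - l) x) 0 :=
      (ContinuousLinearMap.apply ℝ E x).hasFDerivAt.comp_hasDerivAt 0
        (hd.hasFDerivAt.comp_hasDerivAt_of_eq 0 b8 (by rw [zero_smul, add_zero]))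
    rw [← b7]
    exact (hτ _ b1.2).hasFDerivAt.comp_hasDerivAt_of_eq 0 b9 (by rw [zero_smul, add_zero])
  have hlam : ∀ y : V, ⟪S.pr y, x0⟫ ≠ 0 →
      ContinuousAt (fun y : V => -(⟪y, S.e⟫ * (⟪S.pr y, x0⟫)⁻¹) • x0) y := fun y hy =>
    ((continuous_id.inner continuous_const).continuousAt.mul
      ((S.pr.continuous.inner continuous_const).continuousAt.inv₀ hy)).neg.smul continuousAt_const
  have hc2 : ContinuousAt (fun p : E × E => (⟪p.2, p.1⟫ * (⟪p.2, x0⟫)⁻¹) • x0) (0, x0) :=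
    ((continuous_snd.inner continuous_fst).continuousAt.mul
      ((continuous_snd.inner continuous_const).continuousAt.inv₀ h00)).smul continuousAt_const
  obtain ⟨ρ₂, p2, r2, O₂, o2, m2, h2⟩ := LB.TINV.box
    (Q := fun p => (⟪p.2, p.1⟫ * (⟪p.2, x0⟫)⁻¹) • x0 ∈ ball (0 : E) ρ₁) p1
    (hc2.preimage_mem_nhds (by
      simp only [inner_zero_right, zero_mul, zero_smul]
      exact ball_mem_nhds 0 p1))
  refine ⟨ρ₂, O₁ ∩ O₂, fun y => LinearMap.ker (fderiv ℝ (fun y : V =>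
    τ (H (-(⟪y, S.e⟫ * (⟪S.pr y, x0⟫)⁻¹) • x0) (S.pr y))) y : V →ₗ[ℝ] E), p2, r2.trans r1,
    o1.inter o2, ⟨m1, m2⟩, fun l hl x hx => ?_⟩
  have hl1 := hl.trans_le r2
  obtain ⟨b1, b2⟩ := h1 l hl1 x hx.1
  refine ⟨b1.2, b2, fun hd v => ?_⟩
  have b2' : ⟪S.pr (S.j l x), x0⟫ ≠ 0 := by
    rw [S.pr_j]
    exact ne_symm b2
  have z0 : ⟪S.j l x, S.xi l⟫ = 0 := inner_eq_zero_symm.1 (S.xi_j l x)
  have d1 : HasFDerivAt (fun y : V => ⟪y, S.xi l⟫) (cj (S.xi l)) (S.j l x) :=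
    (cj (S.xi l)).hasFDerivAt.congr_of_eventuallyEq
      (Eventually.of_forall fun y => (cj_apply _ y).symm)
  have d2 : DifferentiableAt ℝ (fun y : V => (⟪S.pr y, x0⟫)⁻¹) (S.j l x) :=
    (((cj x0).comp S.prr).differentiableAt.congr_of_eventuallyEq
      (Eventually.of_forall fun y => (cj_apply _ _).symm)).fun_inv b2'
  have d3 := ((d1.fun_mul d2.hasFDerivAt).smul_const x0).const_sub l
  have e0 : l - (⟪S.j l x, S.xi l⟫ * (⟪S.pr (S.j l x), x0⟫)⁻¹) • x0 = l := by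
    rw [z0, zero_mul, zero_smul, sub_zero]
  have d4 := (HasFDerivAt.comp (S.j l x) (g := H) (g' := fderiv ℝ H l)
    (by rw [e0]; exact hd.hasFDerivAt) d3).clm_apply S.prr.hasFDerivAt
  have d5 := HasFDerivAt.comp (S.j l x) (g := τ) (g' := fderiv ℝ τ (H l x)) (by
    simp only [Function.comp_apply]
    rw [e0, S.prr_apply, S.pr_j]
    exact (hτ _ b1.2).hasFDerivAt) d4
  have e1 : (fun y : V => τ (H (-(⟪y, S.e⟫ * (⟪S.pr y, x0⟫)⁻¹) • x0) (S.pr y))) =ᶠ[𝓝 (S.j l x)]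
      fun y => τ (H (l - (⟪y, S.xi l⟫ * (⟪S.pr y, x0⟫)⁻¹) • x0) (S.pr y)) := by
    have c1 := (hlam _ b2').preimage_mem_nhds (isOpen_ball.mem_nhds (x := _) (by
      have c0 := h2 l hl x hx.2
      rw [← inner_conj_symm, S.e_j, S.pr_j, map_neg, inner_conj_symm, neg_mul, neg_neg]
      exact c0 : _ ∈ ball (0 : E) ρ₁))
    have c2 := d3.continuousAt.preimage_mem_nhds (isOpen_ball.mem_nhds (by
      rw [e0]
      exact mem_ball_zero_iff.2 hl1 : _ ∈ ball (0 : E) ρ₁))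
    have c3 := S.pr.continuous.continuousAt.preimage_mem_nhds (o1.mem_nhds (by
      rw [S.pr_j]
      exact hx.1 : S.pr (S.j l x) ∈ O₁))
    filter_upwards [c1, c2, c3] with y y1 y2 y3
    refine inv _ y3 _ _ (mem_ball_zero_iff.1 y2) (mem_ball_zero_iff.1 y1) ?_
    have y4 := ne_symm (h1 l hl1 _ y3).2
    have y5 : ⟪y, S.xi l⟫ = ⟪y, S.e⟫ + ⟪S.pr y, l⟫ := by rw [Sp.xi, inner_add_right, S.inner_ι]
    rw [inner_sub_right, inner_sub_right, inner_smul_right, inner_smul_right, y5,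
      neg_mul, inv_mul_cancel_right₀ y4, inv_mul_cancel_right₀ y4]
    ring
  have d6 := (d5.congr_of_eventuallyEq e1).fderiv
  have b3 : ‖⟪x0, x⟫‖ ^ 2 ≠ 0 := pow_ne_zero 2 (norm_ne_zero_iff.2 b2)
  have b4 : ‖⟪x0, x⟫‖ ^ 2 • (((⟪x, x0⟫)⁻¹ * ⟪v, S.xi l⟫) • x0) = (⟪v, S.xi l⟫ * ⟪x0, x⟫) • x0 := by
    have b5 := ne_symm b2
    rw [← Complex.coe_smul, smul_smul, Complex.ofReal_pow, ← Complex.mul_conj', inner_conj_symm]
    congr 1
    field_simp
  show fderiv ℝ _ (S.j l x) v = 0 ↔ _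
  rw [d6, ContinuousLinearMap.comp_apply, hD.ker _ b1.2, ← Submodule.smul_mem_iff _ b3, ← b4,
    map_smul]
  refine iff_of_eq (congrArg (· ∈ spn P (H l x)) ?_)
  simp only [add_apply, ContinuousLinearMap.comp_apply, Function.comp_apply,
    ContinuousLinearMap.flip_apply, neg_apply,
    ContinuousLinearMap.smulRight_apply, smul_apply, cj_apply, S.prr_apply,
    z0, S.pr_j, zero_mul, zero_smul, zero_add, map_neg, smul_eq_mul,
    smul_add, smul_neg, sub_eq_add_neg, neg_zero, add_zero]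

end Pool.Agent.Lib.LC
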