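import Pool.Agent.Lib.LC.Blue

/-! Local Banach problem over the complex numbers, row TR: transfer to a hyperplane of a Hermitian
space. -/

set_option autoImplicit false

open Set Filter Topology Metric Module
open scoped ComplexInnerProductSpace ComplexConjugate

noncomputable section

namespace Pool.Agent.Lib.LC

open Pool.Agent.Lib.LB

namespace TR

/-- The Euclidean space of one more dimension. -/
abbrev W (k : ℕ) : Type := WithLp 2 (EuclideanSpace ℂ (Fin k) × ℂ)

variable {k : ℕ}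

/-- The last basis vector. -/
def e0 (k : ℕ) : W k := WithLp.toLp 2 (0, 1)

theorem inner_eq (x y : W k) : ⟪x, y⟫ = ⟪x.fst, y.fst⟫ + conj x.snd * y.snd := by
  rw [WithLp.prod_inner_apply, mul_comm]
  rfl

theorem inner_e0 (x : W k) : ⟪e0 k, x⟫ = x.snd := by simp [e0]

theorem norm_e0 : ‖e0 k‖ = 1 := by
  rw [norm_eq_sqrt_re_inner (𝕜 := ℂ), inner_e0]
  simp [e0]

theorem rank_W : finrank ℂ (W k) = k + 1 := by
  rw [(WithLp.linearEquiv 2 ℂ _).finrank_eq, finrank_prod, finrank_euclideanSpace_fin, finrank_self]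

theorem ext' {x y : W k} (h1 : x.fst = y.fst) (h2 : x.snd = y.snd) : x = y :=
  WithLp.ofLp_injective 2 (Prod.ext h1 h2)

/-- The pair of two linear maps. -/
def pair {X : Type*} [AddCommGroup X] [Module ℂ X] (f : X →ₗ[ℂ] EuclideanSpace ℂ (Fin k))
    (g : X →ₗ[ℂ] ℂ) : X →ₗ[ℂ] W k := (WithLp.linearEquiv 2 ℂ _).symm.toLinearMap ∘ₗ f.prod g

theorem unit_of_inj {X : Type} [NormedAddCommGroup X] [NormedSpace ℂ X]
    [FiniteDimensional ℂ X] (F : X →ₗ[ℂ] X) (inj : Function.Injective F) :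
    ∃ F' : X →L[ℝ] X, IsUnit F' ∧ ∀ w, F' w = F w :=
  haveI := FiniteDimensional.complete ℂ X
  ⟨(LinearMap.toContinuousLinearMap F).restrictScalars ℝ,
    ContinuousLinearMap.isUnit_iff_bijective.2
    ⟨inj, LinearMap.injective_iff_surjective.1 inj⟩, fun _ => rfl⟩

end TR

universe u v

open TR in
theorem bTR (hH : St_HYP) : St_TR.{u, v} := by
  intro E V _ _ _ _ _ T r ν h3 hT r0 hg hν
  have a : E ≃L[ℂ] EuclideanSpace ℂ (Fin (finrank ℂ E)) :=
    ContinuousLinearEquiv.ofFinrankEq finrank_euclideanSpace_fin.symm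
  generalize hk : finrank ℂ E = k at a h3
  let p1 : W k →ₗ[ℂ] E := a.symm.toLinearMap ∘ₗ WithLp.fstₗ 2 ℂ _ _
  let p2 : W k →ₗ[ℂ] ℂ := WithLp.sndₗ 2 ℂ _ _
  let Λ : W k →ₗ[ℂ] V := T.toLinearMap ∘ₗ p1 + p2.smulRight ν
  have hΛ : ∀ w, Λ w = T (a.symm w.fst) + w.snd • ν := fun w => rfl
  let Φ : Seminorm ℝ (W k) := (normSeminorm ℝ V).comp (Λ.restrictScalars ℝ)
  have hΦ : ∀ w, Φ w = ‖T (a.symm w.fst) + w.snd • ν‖ := fun w => rfl
  let ι : E →ₗ[ℂ] W k := pair a.toLinearMap 0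
  have ι1 : ∀ x, (ι x).fst = a x := fun x => rfl
  have ι2 : ∀ x, (ι x).snd = 0 := fun x => rfl
  have Φι : ∀ x, Φ (ι x) = ‖T x‖ := fun x => by simp [hΦ, ι1, ι2]
  have df : Df Φ := fun w hw => by
    rw [hΦ, norm_eq_zero] at hw
    have h2 : w.snd = 0 := by
      by_contra h
      refine hν (-(w.snd)⁻¹ • a.symm w.fst) ?_
      rw [map_smul, eq_neg_of_add_eq_zero_left hw, smul_neg, neg_smul, neg_neg, smul_smul,
        inv_mul_cancel₀ h, one_smul]
    rw [h2, zero_smul, add_zero, ← map_zero T] at hw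
    exact ext' (by simpa using hT hw) h2
  have ci : Ci Φ := fun c y => by
    change ‖Λ (c • y)‖ = ‖c‖ * ‖Λ y‖
    rw [map_smul, norm_smul]
  have li : LocIso Φ (e0 k) := by
    let l : W k → E →L[ℂ] ℂ := fun ξ =>
      -(conj ξ.snd)⁻¹ • (innerSL ℂ ξ.fst).comp a.toContinuousLinearMap
    have c1 : Continuous fun ξ : W k => ξ.fst := WithLp.continuous_fst 2 _ _
    have c2 : Continuous fun ξ : W k => ξ.snd := WithLp.continuous_snd 2 _ _
    have n2 : (e0 k).snd ≠ 0 := one_ne_zero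
    have cl : ContinuousAt l (e0 k) := ((Complex.continuous_conj.comp c2).continuousAt.inv₀
      ((map_ne_zero _).2 n2)).neg.smul
      (((innerSL ℂ).continuous.comp c1).clm_comp continuous_const).continuousAt
    have l0 : ‖l (e0 k)‖ * ‖ν‖ < r := by
      have z : l (e0 k) = 0 := by
        ext x
        simp [l, e0]
      rwa [z, norm_zero, zero_mul]
    obtain ⟨ρ, ρ0, hρ⟩ := Metric.eventually_nhds_iff_ball.1
      (((cl.norm.mul_const ‖ν‖).eventually_lt_const l0).and (c2.continuousAt.eventually_ne n2))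
    refine ⟨ρ, ρ0, fun ξ hξ => ?_⟩
    obtain ⟨h1, h2⟩ := hρ ξ hξ
    obtain ⟨g, hg'⟩ := hg (T + (l ξ).smulRight ν) (by
      rwa [add_sub_cancel_left, ContinuousLinearMap.norm_smulRight_apply])
    let F₀ : W k →ₗ[ℂ] W k := pair (a.toLinearMap ∘ₗ g.toLinearMap ∘ₗ p1)
      ((l ξ).toLinearMap ∘ₗ g.toLinearMap ∘ₗ p1)
    have f1 : ∀ w, (F₀ w).fst = a (g (a.symm w.fst)) := fun w => rfl
    have f2 : ∀ w, (F₀ w).snd = l ξ (g (a.symm w.fst)) := fun w => rfl
    have f0 : ∀ w, ⟪ξ, F₀ w⟫ = 0 := fun w => by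
      have h3 : conj ξ.snd ≠ 0 := (map_ne_zero _).2 h2
      rw [inner_eq, f1, f2]
      simp only [l, smul_apply, ContinuousLinearMap.comp_apply, innerSL_apply_apply,
        smul_eq_mul, ContinuousLinearEquiv.coe_coe]
      field_simp
      ring
    let F : W k →ₗ[ℂ] W k := F₀ + p2.smulRight ξ
    have hF : ∀ w, F w = F₀ w + w.snd • ξ := fun w => rfl
    have inj : Function.Injective F := (injective_iff_map_eq_zero F).2 fun w hw => by
      have ξ0 : ξ ≠ 0 := fun h => h2 (by rw [h]; rfl)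
      have e1 : w.snd = 0 := by
        have := congrArg (fun y => ⟪ξ, y⟫) hw
        simpa [hF, inner_add_right, f0, inner_smul_right, ξ0] using this
      rw [hF, e1, zero_smul, add_zero] at hw
      have e2 := f1 w
      rw [hw] at e2
      exact ext' (by simpa using e2.symm) e1
    obtain ⟨F', hu, hF'⟩ := unit_of_inj F inj
    refine ⟨F', hu, fun c => ?_, fun x hx => ?_⟩
    · rw [hF', map_smul]
      refine congrArg (c • ·) ?_
      refine ext' ?_ ?_ <;> simp [hF, f1, f2, e0]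
    · rw [inner_e0] at hx
      rw [hF', hF, hx, zero_smul, add_zero]
      refine ⟨f0 x, ?_⟩
      rw [hΦ, hΦ, f1, f2, hx, zero_smul, add_zero, ← hg', a.symm_apply_apply]
      rfl
  rcases hH (W k) Φ (e0 k) (by rw [rank_W]; omega) df ci norm_e0 li with ⟨B, hB⟩ | ⟨μ, μ0, ε, ε0, h⟩
  · exact .inl ⟨B.compl₁₂ (ι.restrictScalars ℝ) (ι.restrictScalars ℝ), fun x => by rw [← Φι, hB _ (inner_e0 _)]; rfl⟩
  · rw [inner_e0] at μ0
    have m0 := norm_pos_iff.2 μ0
    set A := ‖a.symm.toContinuousLinearMap‖ + 1 with hA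
    have A0 : 0 < A := by positivity
    refine .inr ⟨(μ.snd)⁻¹ • a.symm μ.fst, ε * ‖μ.snd‖ / A, by positivity, fun x s hs => ?_⟩
    have n1 : ‖x‖ ≤ A * ‖ι x‖ := by
      have e1 := a.symm.toContinuousLinearMap.le_opNorm (a x)
      have e2 : ‖a x‖ ≤ ‖ι x‖ := WithLp.norm_fst_le _ (ι x)
      rw [ContinuousLinearEquiv.coe_coe, a.symm_apply_apply] at e1
      nlinarith [norm_nonneg (a x), norm_nonneg a.symm.toContinuousLinearMap]
    have := h (ι x) (inner_e0 _) (s / μ.snd) (by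
      rw [norm_div, div_le_iff₀ m0]
      refine hs.trans ((mul_le_mul_of_nonneg_left n1 (by positivity)).trans (le_of_eq ?_))
      field_simp)
    rw [Φι, hΦ] at this
    rw [← this]
    refine congrArg _ ?_
    rw [WithLp.add_fst, WithLp.add_snd, WithLp.smul_fst, WithLp.smul_snd, ι1, ι2, zero_add,
      smul_eq_mul, div_mul_cancel₀ _ μ0]
    simp only [map_add, map_smul, a.symm_apply_apply, smul_add, smul_smul, div_eq_mul_inv]
    abel

end Pool.Agent.Lib.LC
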