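import Pool.Agent.Lib.LC.Blue

/-! Complex local Banach problem, block ZF: the killing fields given by the derivative of the
family. -/

set_option autoImplicit false

open Set Filter Topology Metric Module
open scoped ComplexInnerProductSpace ContDiff NNReal

noncomputable section

namespace Pool.Agent.Lib.LC

open Pool.Agent.Lib.LB

namespace ZF

variable {E V : Type} [NormedAddCommGroup E] [InnerProductSpace ℂ E] [NormedAddCommGroup V]
  [InnerProductSpace ℂ V] {S : Sp E V} {Φ : Seminorm ℝ V} {r : ℝ} {C : ℝ≥0} {G H : E → E →L[ℝ] E}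

theorem key (h : Lf S Φ r C G H) {l : E} (hl : ‖l‖ < r) (x : E) :
    S.n Φ (H l x) = Φ (S.j l x) := by
  have := h.iso l hl (H l x)
  rw [h.GH] at this
  exact this.symm

theorem line (l m : E) : HasDerivAt (fun s : ℝ => l + s • m) m 0 := by
  simpa using ((hasDerivAt_id (0 : ℝ)).smul_const m).const_add l

theorem small {l : E} (hl : ‖l‖ < r) (m : E) : ∀ᶠ s in 𝓝 (0 : ℝ), ‖l + s • m‖ < r := by
  have hc : ContinuousAt (fun s : ℝ => ‖l + s • m‖) 0 := (line l m).continuousAt.norm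
  exact hc.eventually_lt continuousAt_const (by simpa using hl)

theorem along {l : E} (hd : DifferentiableAt ℝ H l) (m : E) :
    HasDerivAt (fun s : ℝ => H (l + s • m)) (fderiv ℝ H l m) 0 := by
  have h1 : HasFDerivAt H (fderiv ℝ H l) ((fun s : ℝ => l + s • m) 0) := by
    simpa using hd.hasFDerivAt
  exact h1.comp_hasDerivAt (0 : ℝ) (line l m)

theorem one [FiniteDimensional ℂ E] (h : Lf S Φ r C G H) {l : E} (hl : ‖l‖ < r)
    (hd : DifferentiableAt ℝ H l) {m x : E} (hm : ⟪m, G l x⟫ = 0) :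
    fderiv ℝ H l m (G l x) ∈ Kil (S.n Φ) x := by
  have h1 : HasDerivAt (fun s : ℝ => H (l + s • m) (G l x)) (fderiv ℝ H l m (G l x)) 0 := by
    simpa using (along hd m).clm_apply (hasDerivAt_const (0 : ℝ) (G l x))
  have h2 := (K2 (Φ := S.n Φ) h1).2
    ((hasDerivAt_const (0 : ℝ) (Φ (S.j l (G l x)))).congr_of_eventuallyEq
      ((small hl m).mono fun s hs => by
        show S.n Φ (H (l + s • m) (G l x)) = Φ (S.j l (G l x))
        rw [key h hs, S.j_apply, S.j_apply, inner_add_left, inner_smul_left_eq_smul, hm, smul_zero,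
          add_zero]))
  simpa [h.HG] using h2

theorem two [FiniteDimensional ℂ E] [FiniteDimensional ℂ V] (h : Lf S Φ r C G H) {l : E}
    (hl : ‖l‖ < r) (hd : DifferentiableAt ℝ H l) (μ x : E) :
    S.j l (G l (fderiv ℝ H l μ x)) + ⟪μ, x⟫ • S.e ∈ Kil Φ (S.j l x) := by
  set w := G l (fderiv ℝ H l μ x) with hw
  have h1 : HasDerivAt (fun s : ℝ => H (l + s • -μ) (x + s • w)) 0 0 := by
    have := (along hd (-μ)).clm_apply (line x w)
    simpa [hw, h.HG] using this
  have h2 := (K2 (Φ := S.n Φ) h1).1 (zero_mem _)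
  have h3 : HasDerivAt (fun s : ℝ => S.j (l + s • -μ) (x + s • w)) (S.j l w + ⟪μ, x⟫ • S.e) 0 := by
    have a1 := S.ιr.hasFDerivAt.comp_hasDerivAt (0 : ℝ) (line x w)
    have a2 := ((line l (-μ)).inner ℂ (line x w)).smul_const S.e
    have a3 := a1.sub a2
    have e : S.j l w + ⟪μ, x⟫ • S.e =
        S.ιr w - (⟪l + (0 : ℝ) • -μ, w⟫ + ⟪-μ, x + (0 : ℝ) • w⟫) • S.e := by
      simp only [S.j_apply, zero_smul, add_zero, inner_neg_left, S.ιr_apply]
      module
    rw [e]
    refine a3.congr_of_eventuallyEq (Eventually.of_forall fun s => ?_)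
    simp only [S.j_apply, Pi.sub_apply, Function.comp_apply, S.ιr_apply]
  have h4 := (K2 (Φ := Φ) h3).2 (h2.congr_of_eventuallyEq
    ((small hl (-μ)).mono fun s hs => (key h hs _).symm))
  simpa using h4

theorem pol [FiniteDimensional ℂ E] (D : E →L[ℝ] E →L[ℝ] E) (ζ μ : E) : Pl (zf D ζ μ) := by
  have a : ∀ u : E, Pl fun y : E => ⟪u, y⟫ := fun u => Pl.lin ((innerSL ℂ u).restrictScalars ℝ)
  have b : ∀ u : E, Pl fun y : E => ⟪y, u⟫ := fun u =>
    ((a u).post (Complex.conjCLE : ℂ →L[ℝ] ℂ)).congr fun y => inner_conj_symm y u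
  have m : ∀ u : E, Pl fun y : E => ⟪y, u⟫ * ⟪ζ, y⟫ := fun u =>
    ((b u).post (ContinuousLinearMap.mul ℝ ℂ)).app (a ζ)
  have n : Pl fun y : E => ‖⟪ζ, y⟫‖ ^ 2 := ((m ζ).post Complex.reCLM).congr fun y => by
    rw [← inner_conj_symm y ζ, Complex.conj_mul', ← Complex.ofReal_pow]
    rfl
  exact (n.smul (Pl.lin (D μ))).sub ((((m μ).post (((ContinuousLinearMap.id ℂ ℂ).smulRight
    ζ).restrictScalars ℝ)).post D).app (Pl.lin (ContinuousLinearMap.id ℝ E)))

end ZF

theorem bZF : St_ZF := by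
  intro E V _ _ _ _ _ _ S Φ r C G H h l hl hd
  refine ⟨fun ζ μ => ⟨(ZF.pol _ ζ μ).pre (G l), fun x => ?_⟩, ZF.two h hl hd⟩
  have := ZF.one h hl hd (x := x)
    (m := ‖⟪ζ, G l x⟫‖ ^ 2 • μ - (⟪G l x, μ⟫ * ⟪ζ, G l x⟫) • ζ) (by
      rw [inner_sub_left, inner_smul_left_eq_smul, inner_smul_left, map_mul, inner_conj_symm,
        mul_assoc, Complex.conj_mul', Complex.real_smul, Complex.ofReal_pow, mul_comm, sub_self])
  rwa [map_sub, map_smul] at this

end Pool.Agent.Lib.LC
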