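import Pool.Agent.Lib.LC.Defs

/-! Local Banach problem over the complex numbers: the block statements. -/

set_option autoImplicit false

open Set Filter Topology Metric Module
open scoped ComplexInnerProductSpace ContDiff NNReal

noncomputable section

namespace Pool.Agent.Lib.LC

open Pool.Agent.Lib.LB

/-! ### Section 1: the rational distribution -/

def St_LIFT : Prop := ∀ (E V : Type) [NormedAddCommGroup E] [InnerProductSpace ℂ E] [FiniteDimensional ℂ E]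
  [NormedAddCommGroup V] [InnerProductSpace ℂ V] [FiniteDimensional ℂ V] (S : Sp E V) (Φ : Seminorm ℝ V),
  Df Φ → Ci Φ → LocIso Φ S.e → ∃ r C G H, Lf S Φ r C G H

def St_ZF : Prop := ∀ (E V : Type) [NormedAddCommGroup E] [InnerProductSpace ℂ E] [FiniteDimensional ℂ E]
  [NormedAddCommGroup V] [InnerProductSpace ℂ V] [FiniteDimensional ℂ V] (S : Sp E V) (Φ : Seminorm ℝ V)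
  (r : ℝ) (C : ℝ≥0) (G H : E → E →L[ℝ] E), Lf S Φ r C G H → ∀ l, ‖l‖ < r → DifferentiableAt ℝ H l →
  (∀ ζ μ : E, Pl (fun x => zf (fderiv ℝ H l) ζ μ (G l x)) ∧
    ∀ x, zf (fderiv ℝ H l) ζ μ (G l x) ∈ Kil (S.n Φ) x) ∧
  ∀ μ x : E, S.j l (G l (fderiv ℝ H l μ x)) + ⟪μ, x⟫ • S.e ∈ Kil Φ (S.j l x)

def St_TINV : Prop := ∀ (E V : Type) [NormedAddCommGroup E] [InnerProductSpace ℂ E] [FiniteDimensional ℂ E]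
  [NormedAddCommGroup V] [InnerProductSpace ℂ V] [FiniteDimensional ℂ V] (S : Sp E V) (Φ : Seminorm ℝ V)
  (r : ℝ) (C : ℝ≥0) (G H : E → E →L[ℝ] E) (x0 : E) (O : Set E) (d m : ℕ) (P : Fin m → E → E) (τ : E → E),
  Lf S Φ r C G H → Ds (S.n Φ) x0 O d P τ →
  ∃ (ρ : ℝ) (O' : Set E) (D : V → Submodule ℝ V), 0 < ρ ∧ ρ ≤ r ∧ IsOpen O' ∧ x0 ∈ O' ∧
    ∀ l, ‖l‖ < ρ → ∀ x ∈ O', H l x ∈ O ∧ ⟪x0, x⟫ ≠ 0 ∧ (DifferentiableAt ℝ H l → ∀ v, v ∈ D (S.j l x) ↔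
      ‖⟪x0, x⟫‖ ^ 2 • H l (S.pr v) - fderiv ℝ H l ((⟪v, S.xi l⟫ * ⟪x0, x⟫) • x0) x ∈ spn P (H l x))

def St_LOC : Prop := ∀ (E V : Type) [NormedAddCommGroup E] [InnerProductSpace ℂ E] [FiniteDimensional ℂ E]
  [Nontrivial E] [NormedAddCommGroup V] [InnerProductSpace ℂ V] [FiniteDimensional ℂ V] (S : Sp E V)
  (Φ : Seminorm ℝ V), Df Φ → Ci Φ → LocIso Φ S.e → ∃ x0 O ρ G D r d, Lc S Φ x0 O ρ G D r d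

def St_SR1 : Prop := ∀ (E V : Type) [NormedAddCommGroup E] [InnerProductSpace ℂ E] [FiniteDimensional ℂ E]
  [NormedAddCommGroup V] [InnerProductSpace ℂ V] [FiniteDimensional ℂ V] (S : Sp E V) (x0 : E)
  (G : Set E) (ρ : ℝ), 2 ≤ finrank ℂ E → x0 ≠ 0 → 0 < ρ → (∀ᶠ l in aeF E, ‖l‖ < ρ → l ∈ G) →
  ∃ (n : ℕ) (b : Basis (Fin n) ℝ V) (W : Set V), IsOpen W ∧ S.ι x0 ∈ W ∧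
    ∀ i, ∀ᶠ z in aeF V, z ∈ W → ∃ l ∈ G, ⟪S.xi l, z⟫ = 0 ∧ ⟪S.xi l, b i⟫ = 0

def St_SR2 : Prop := ∀ (V F : Type) [NormedAddCommGroup V] [NormedSpace ℝ V] [FiniteDimensional ℝ V]
  [NormedAddCommGroup F] [NormedSpace ℝ F] [FiniteDimensional ℝ F] (n : ℕ) (b : Basis (Fin n) ℝ V)
  (N : ℕ) (W : Set V) (z0 : V) (φ : V → F), IsOpen W → z0 ∈ W →
  (∀ i, ∀ᶠ z in aeF V, z ∈ W → ∃ (q : ℝ → ℝ) (p : ℝ → F), IsPol N q ∧ IsPol N p ∧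
    ∀ t : ℝ, z + t • b i ∈ W → q t ≠ 0 ∧ p t = q t • φ (z + t • b i)) →
  ∃ (δ : V → ℝ) (M : V → F) (W' : Set V), Pl δ ∧ Pl M ∧ (∃ y, δ y ≠ 0) ∧ IsOpen W' ∧ z0 ∈ W' ∧
    ∀ᶠ z in aeF V, z ∈ W' → δ z • φ z = M z

def St_SR3 : Prop := ∀ (E V : Type) [NormedAddCommGroup E] [InnerProductSpace ℂ E] [FiniteDimensional ℂ E]
  [Nontrivial E] [NormedAddCommGroup V] [InnerProductSpace ℂ V] [FiniteDimensional ℂ V] (S : Sp E V)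
  (P : V → Prop), (∀ᶠ z in aeF V, P z) → ∀ᶠ l in aeF E, ∀ᶠ x in aeF E, P (S.j l x)

def St_SR : Prop := ∀ (E V F : Type) [NormedAddCommGroup E] [InnerProductSpace ℂ E] [FiniteDimensional ℂ E]
  [NormedAddCommGroup V] [InnerProductSpace ℂ V] [FiniteDimensional ℂ V]
  [NormedAddCommGroup F] [NormedSpace ℝ F] [FiniteDimensional ℝ F] (S : Sp E V) (N : ℕ) (x0 : E)
  (O G : Set E) (ρ : ℝ) (φ : V → F), 2 ≤ finrank ℂ E → x0 ≠ 0 → IsOpen O → x0 ∈ O → 0 < ρ →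
  (∀ᶠ l in aeF E, ‖l‖ < ρ → l ∈ G) →
  (∀ l ∈ G, ∃ (q : E → ℝ) (p : E → F), IsPol N q ∧ IsPol N p ∧
    ∀ x ∈ O, q x ≠ 0 ∧ p x = q x • φ (S.j l x)) →
  ∃ (δ : V → ℝ) (M : V → F) (ε : ℝ) (G' : Set E), Pl δ ∧ Pl M ∧ (∃ y, δ y ≠ 0) ∧ 0 < ε ∧ G' ⊆ G ∧
    ball (0 : E) ε ⊆ closure G' ∧ ∀ l ∈ G', ∀ x ∈ O, δ (S.j l x) • φ (S.j l x) = M (S.j l x)

def St_SAT1 : Prop := ∀ (V F : Type) [NormedAddCommGroup V] [NormedSpace ℝ V] [FiniteDimensional ℝ V]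
  [NormedAddCommGroup F] [NormedSpace ℝ F] [FiniteDimensional ℝ F] (n : ℕ) (b : Basis (Fin n) ℝ V)
  (δ : V → ℝ) (M : V → F), Pl δ → Pl M → (∃ y, δ y ≠ 0) →
  ∃ (c δ' : V → ℝ) (M' : V → F), Pl c ∧ Pl δ' ∧ Pl M' ∧ (∀ y, δ y = c y * δ' y) ∧
    (∀ y, M y = c y • M' y) ∧ ∀ i, ∃ r : V → ℝ, Pl r ∧ (∃ y, r y ≠ 0) ∧
      (∀ y (t : ℝ), r (y + t • b i) = r y) ∧ ∀ y, δ' y = 0 → M' y = 0 → r y = 0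

def St_SAT : Prop := ∀ (V : Type) [NormedAddCommGroup V] [InnerProductSpace ℂ V] [FiniteDimensional ℂ V]
  (δ : V → ℝ) (M : V → V →L[ℝ] V), Pl δ → Pl M → (∃ y, δ y ≠ 0) →
  (∀ y v, M y (M y v) = δ y • M y v) → (∀ y u v, (⟪M y u, v⟫).re = (⟪u, M y v⟫).re) →
  ∃ (c δ' : V → ℝ) (M' : V → V →L[ℝ] V) (Bd : Set V), Pl c ∧ Pl δ' ∧ Pl M' ∧ (∀ y, δ y = c y * δ' y) ∧
    (∀ y, M y = c y • M' y) ∧ Bd.Finite ∧ ∀ ξ ∈ NB Bd, ∃ y, ⟪ξ, y⟫ = 0 ∧ δ' y ≠ 0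

def St_RA0 : Prop := ∀ (E V : Type) [NormedAddCommGroup E] [InnerProductSpace ℂ E] [FiniteDimensional ℂ E]
  [NormedAddCommGroup V] [InnerProductSpace ℂ V] [FiniteDimensional ℂ V] (S : Sp E V) (Φ : Seminorm ℝ V)
  (x0 : E) (O : Set E) (ρ : ℝ) (G : Set E) (D : V → Submodule ℝ V) (r d : ℕ), 2 ≤ finrank ℂ E →
  Lc S Φ x0 O ρ G D r d → ∃ (δ : V → ℝ) (M : V → V →L[ℝ] V) (ε : ℝ) (G' : Set E), Pl δ ∧ Pl M ∧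
    (∃ y, δ y ≠ 0) ∧ 0 < ε ∧ G' ⊆ G ∧ ball (0 : E) ε ⊆ closure G' ∧
    (∀ y v, M y (M y v) = δ y • M y v) ∧ (∀ y u v, (⟪M y u, v⟫).re = (⟪u, M y v⟫).re) ∧
    ∀ l ∈ G', ∃ (q : E → ℝ) (p : E → V →L[ℝ] V), Pl q ∧ Pl p ∧
      (∀ x v, p x v ∈ Kil Φ (S.j l x)) ∧ (∀ x ∈ O, q x ≠ 0 ∧ ∀ v ∈ D (S.j l x), p x v = q x • v) ∧
      ∀ x, δ (S.j l x) • p x = q x • M (S.j l x)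

def St_RA1 : Prop := ∀ (E V : Type) [NormedAddCommGroup E] [InnerProductSpace ℂ E] [FiniteDimensional ℂ E]
  [NormedAddCommGroup V] [InnerProductSpace ℂ V] [FiniteDimensional ℂ V] (S : Sp E V) (Φ : Seminorm ℝ V)
  (x0 : E) (O : Set E) (ρ : ℝ) (G : Set E) (D : V → Submodule ℝ V) (r d : ℕ), 2 ≤ finrank ℂ E →
  Lc S Φ x0 O ρ G D r d → ∃ δ M ε G' Bd, R1 S Φ δ M ε G' Bd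

def St_RA2 : Prop := ∀ (E V : Type) [NormedAddCommGroup E] [InnerProductSpace ℂ E] [FiniteDimensional ℂ E]
  [NormedAddCommGroup V] [InnerProductSpace ℂ V] [FiniteDimensional ℂ V] (S : Sp E V) (Φ : Seminorm ℝ V)
  (δ : V → ℝ) (M : V → V →L[ℝ] V) (ε : ℝ) (G : Set E) (Bd : Set V), 2 ≤ finrank ℂ V → LocIso Φ S.e →
  R1 S Φ δ M ε G Bd → ∃ ξ1 ρ G', Rt Φ ξ1 δ M ρ G' Bd ∧ S.e ∈ ball ξ1 ρ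

/-! ### Section 2: the development -/

def St_GDIM : Prop := ∀ (V : Type) [NormedAddCommGroup V] [InnerProductSpace ℂ V] [FiniteDimensional ℂ V]
  (Φ Ψ : Seminorm ℝ V) (ξ0 ξ : V), ξ0 ≠ 0 → Iso Φ ξ0 Ψ ξ → finrank ℝ (gs Ψ ξ) = finrank ℝ (gs Φ ξ0)

def St_KG : Prop := ∀ (V : Type) [NormedAddCommGroup V] [InnerProductSpace ℂ V] [FiniteDimensional ℂ V]
  (Ψ : Seminorm ℝ V) (δ : V → ℝ) (M : V → V →L[ℝ] V) (ξ : V) (S : Set V), Pl δ →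
  (∃ y, ⟪ξ, y⟫ = 0 ∧ δ y ≠ 0) → (∀ y ∈ S, ⟪ξ, y⟫ = 0) → (∀ y, ⟪ξ, y⟫ = 0 → y ∈ closure S) →
  (∀ y ∈ S, ∀ v, ⟪ξ, M y v⟫ = 0 → M y v ∈ Kil Ψ y) → ks δ M ξ ≤ gs Ψ ξ

def St_SYS : Prop := ∀ (V : Type) [NormedAddCommGroup V] [InnerProductSpace ℂ V] [FiniteDimensional ℂ V]
  (δ : V → ℝ) (M : V → V →L[ℝ] V), Pl δ → Pl M →
  ∃ (s : ℕ) (A : V → (V →L[ℝ] V) →L[ℝ] ((V × V) × (V →L[ℝ] ℂ) × (Fin s → V)))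
    (b : V → V →L[ℝ] ((V × V) × (V →L[ℝ] ℂ) × (Fin s → V))),
    AnalyticOnNhd ℝ A univ ∧ AnalyticOnNhd ℝ b univ ∧ ∀ ξ : V, ξ ≠ 0 →
      (∀ L, A ξ L = 0 ↔ L ∈ ks δ M ξ) ∧ ∀ μ L, A ξ L = b ξ μ ↔ Sl δ M ξ μ L

def St_SOL : Prop := ∀ (V : Type) [NormedAddCommGroup V] [InnerProductSpace ℂ V] [FiniteDimensional ℂ V]
  (Φ : Seminorm ℝ V) (ξ0 : V) (δ : V → ℝ) (M : V → V →L[ℝ] V) (ρ : ℝ) (G Bd : Set V), 2 ≤ finrank ℂ V →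
  Rt Φ ξ0 δ M ρ G Bd → ∃ L, So Φ ξ0 δ M ρ Bd L

def St_DV1 : Prop := ∀ (V : Type) [NormedAddCommGroup V] [InnerProductSpace ℂ V] [FiniteDimensional ℂ V]
  (Φ : Seminorm ℝ V) (ξ0 : V) (δ : V → ℝ) (M : V → V →L[ℝ] V) (ρ : ℝ) (G Bd : Set V)
  (L : V → V →L[ℝ] V →L[ℝ] V), Rt Φ ξ0 δ M ρ G Bd → So Φ ξ0 δ M ρ Bd L →
  ∃ F H, Fd Φ ξ0 (Star (ball ξ0 ρ ∩ NB Bd) ξ0) (Gam Φ ξ0 δ M) F H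

def St_DV2 : Prop := ∀ (V : Type) [NormedAddCommGroup V] [InnerProductSpace ℂ V] [FiniteDimensional ℂ V]
  (Φ : Seminorm ℝ V) (ξ0 : V) (M : V → V →L[ℝ] V) (A Γ : Set V) (F H : V → V →L[ℝ] V), Ci Φ → Pl M →
  (∀ ξ ∈ A, ∀ y, y ≠ 0 → ⟪ξ, y⟫ = 0 → ∀ v, M y v ∈ Kil Φ y) → Fd Φ ξ0 A Γ F H → Fe Φ ξ0 M Γ H

def St_DV3 : Prop := ∀ (V : Type) [NormedAddCommGroup V] [InnerProductSpace ℂ V] [FiniteDimensional ℂ V]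
  (Φ : Seminorm ℝ V) (ξ0 : V) (δ : V → ℝ) (M : V → V →L[ℝ] V) (ρ : ℝ) (G Bd : Set V)
  (L : V → V →L[ℝ] V →L[ℝ] V) (F H : V → V →L[ℝ] V), Rt Φ ξ0 δ M ρ G Bd → So Φ ξ0 δ M ρ Bd L →
  Fd Φ ξ0 (Star (ball ξ0 ρ ∩ NB Bd) ξ0) (Gam Φ ξ0 δ M) F H → Fe Φ ξ0 M (Gam Φ ξ0 δ M) H →
  Dv Φ ξ0 ρ Bd (Gam Φ ξ0 δ M) H

/-! ### Section 3: geometry of the maximal cone -/

def St_GEN : Prop := ∀ (V : Type) [NormedAddCommGroup V] [InnerProductSpace ℂ V] [FiniteDimensional ℂ V]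
  (Bd : Set V) (ξ0 : V) (Z : Submodule ℂ V) (A : Set V), Bd.Finite → A.Finite → A ⊆ Nn Bd ξ0 →
  (3 ≤ finrank ℂ Z ∨ 2 ≤ finrank ℂ Z ∧ ξ0 ∉ Z) →
  ∀ x ∈ Z, x ∈ closure {z | z ∈ Z ∧ z ∈ Nn Bd ξ0 ∧ ∀ a ∈ A, segment ℝ a z ⊆ Nn Bd ξ0}

def St_LIM : Prop := ∀ (V : Type) [NormedAddCommGroup V] [InnerProductSpace ℂ V] [FiniteDimensional ℂ V]
  (Φ : Seminorm ℝ V) (ξ0 : V) (H : V → V →L[ℝ] V) (Ω : Set V), Cn Φ ξ0 H Ω →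
  ∀ ζ π, (ζ, π) ∈ Gr Ω H → Cp Φ ξ0 H Ω ζ π

def St_LB : Prop := ∀ (V : Type) [NormedAddCommGroup V] [InnerProductSpace ℂ V] [FiniteDimensional ℂ V]
  (Φ : Seminorm ℝ V) (ξ0 : V) (H : V → V →L[ℝ] V) (Ω : Set V), 3 ≤ finrank ℂ V → Df Φ → Cn Φ ξ0 H Ω →
  (∀ (u : ℕ → V) (p : ℕ → V →L[ℝ] V) (ζ : V), (∀ n, (u n, p n) ∈ Gr Ω H) → Tendsto u atTop (𝓝 ζ) →
    ζ ≠ 0 → ∃ (π : V →L[ℝ] V) (φ : ℕ → ℕ), StrictMono φ ∧ Tendsto (fun n => p (φ n)) atTop (𝓝 π) ∧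
      (ζ, π) ∈ Gr Ω H) ∧
  ∀ ζ ∈ closure Ω, ζ ≠ 0 → ∃ π, (ζ, π) ∈ Gr Ω H

def St_KER : Prop := ∀ (V : Type) [NormedAddCommGroup V] [InnerProductSpace ℂ V] [FiniteDimensional ℂ V]
  (Φ : Seminorm ℝ V) (ξ0 : V) (ρ : ℝ) (Bd Γ : Set V) (H : V → V →L[ℝ] V) (Ω : Set V) (ζ p : V),
  3 ≤ finrank ℂ V → Df Φ → Dv Φ ξ0 ρ Bd Γ H → IsOpen Ω → Convex ℝ Ω → Ω ⊆ Star Γ ξ0 →
  ζ ∈ closure Ω → ζ ∈ NB Bd → ζ ∉ Γ →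
  (∀ y, ⟪ζ, y⟫ = 0 → (∀ η ∈ Ω, 0 ≤ (⟪η, y⟫).re) → ∃ c : ℂ, y = c • p) →
  ⟪ζ, p⟫ = 0 ∧ ∃ π, Cp Φ ξ0 H Ω ζ π ∧ (ζ, π) ∈ Gr Ω H ∧ ∀ c : ℂ, π (c • p) = 0

def St_OMP : Prop := ∀ (V : Type) [NormedAddCommGroup V] [InnerProductSpace ℂ V] [FiniteDimensional ℂ V]
  (ξ0 : V) (ρ : ℝ) (Bd Γ : Set V), Gm ξ0 ρ Bd Γ →
  IsOpen (Om Bd ξ0 Γ) ∧ Om Bd ξ0 Γ ⊆ Star Γ ξ0 ∧ ball ξ0 ρ ∩ Nn Bd ξ0 ⊆ Om Bd ξ0 Γ ∧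
  (∀ ξ ∈ Om Bd ξ0 Γ, ∀ u : ℂ, 0 ≤ u.re → ξ + u • ξ0 ∈ Om Bd ξ0 Γ) ∧
  ∀ ξ ∈ Om Bd ξ0 Γ, ∀ t : ℝ, 0 < t → t • ξ ∈ Om Bd ξ0 Γ

/-- A tube inside the regular set touching its complement at `ζ` with normal `p`. -/
structure Tc {V : Type} [NormedAddCommGroup V] [InnerProductSpace ℂ V] (ξ0 : V) (Bd Γ Ω : Set V)
    (ζ p a : V) : Prop where
  op : IsOpen Ω
  cv : Convex ℝ Ω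
  sub : Ω ⊆ Om Bd ξ0 Γ
  ad : ∀ η ∈ Ω, ∀ u : ℂ, 0 ≤ u.re → η + u • ξ0 ∈ Ω
  nn : ζ ∈ Nn Bd ξ0
  ng : ζ ∉ Γ
  p0 : p ≠ 0
  b1 : ball (ζ + p) ‖p‖ ⊆ Ω
  am : a ∈ Om Bd ξ0 Γ
  b2 : ball (a + p) ‖p‖ ⊆ Ω
  ap : (⟪a - ζ, p⟫).re = 0
  k1 : (⟪ξ0, p⟫).im = 0
  k2 : 0 ≤ (⟪ξ0, p⟫).re

def St_CV1 : Prop := ∀ (V : Type) [NormedAddCommGroup V] [InnerProductSpace ℂ V] [FiniteDimensional ℂ V]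
  (ξ0 : V) (ρ : ℝ) (Bd Γ : Set V) (a b : V), Gm ξ0 ρ Bd Γ → a ∈ Om Bd ξ0 Γ → b ∈ Om Bd ξ0 Γ →
  segment ℝ a b ⊆ Nn Bd ξ0 → segment ℝ a b ⊆ Om Bd ξ0 Γ ∨ ∃ Ω ζ p a', Tc ξ0 Bd Γ Ω ζ p a'

def St_CV2 : Prop := ∀ (V : Type) [NormedAddCommGroup V] [InnerProductSpace ℂ V] [FiniteDimensional ℂ V]
  (Φ : Seminorm ℝ V) (ξ0 : V) (ρ : ℝ) (Bd Γ : Set V) (H : V → V →L[ℝ] V) (Ω : Set V) (ζ p a : V),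
  3 ≤ finrank ℂ V → Df Φ → Dv Φ ξ0 ρ Bd Γ H → ¬Tc ξ0 Bd Γ Ω ζ p a

def St_DUAL : Prop := ∀ (V : Type) [NormedAddCommGroup V] [InnerProductSpace ℂ V] [FiniteDimensional ℂ V]
  (ξ0 : V) (Ω : Set V), Oc ξ0 Ω →
  (∀ ξ, ξ ∈ closure Ω ↔ ∀ y ∈ Kd Ω, 0 ≤ (⟪ξ, y⟫).re) ∧
  (∀ y ∈ Kd Ω, y ≠ 0 → ∀ ξ ∈ Ω, 0 < (⟪ξ, y⟫).re) ∧
  (∀ y ∈ Kd Ω, y = 0 ∨ ∃ p ∈ Kb Ω ξ0, ∃ t : ℝ, 0 < t ∧ y = t • p) ∧ IsCompact (Kb Ω ξ0) ∧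
  (∀ ζ ∈ closure Ω, ∀ ξ ∈ Ω, ζ + ξ ∈ Ω) ∧ (Kb Ω ξ0 = ∅ → Ω = univ)

def St_OMH : Prop := ∀ (V : Type) [NormedAddCommGroup V] [InnerProductSpace ℂ V] [FiniteDimensional ℂ V]
  (ξ0 : V) (ρ : ℝ) (Bd Γ : Set V), 3 ≤ finrank ℂ V → Gm ξ0 ρ Bd Γ →
  (∀ a ∈ Om Bd ξ0 Γ, ∀ b ∈ Om Bd ξ0 Γ, segment ℝ a b ⊆ Nn Bd ξ0 → segment ℝ a b ⊆ Om Bd ξ0 Γ) →
  ∃ Ω, Oh ξ0 ρ Bd Γ Ω

def St_EX1 : Prop := ∀ (V : Type) [NormedAddCommGroup V] [InnerProductSpace ℂ V] [FiniteDimensional ℂ V]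
  (Φ : Seminorm ℝ V) (ξ0 : V) (ρ : ℝ) (Bd Γ : Set V) (H : V → V →L[ℝ] V) (Ω B : Set V) (ζ p : V),
  3 ≤ finrank ℂ V → Df Φ → Dv Φ ξ0 ρ Bd Γ H → Oh ξ0 ρ Bd Γ Ω → IsOpen B → Convex ℝ B →
  B ⊆ Nn Bd ξ0 → (∀ η ∈ B, ∀ u : ℂ, η + u • ξ0 ∈ B) → ζ ∈ B → ζ ∈ closure Ω → ζ ∉ Ω →
  (∀ p' ∈ Kb Ω ξ0, (⟪ζ, p'⟫).re = 0 → p' = p) →
  ∃ τ : ℝ, ζ + ((τ : ℂ) * Complex.I) • ξ0 ∉ Γ ∧ ⟪ζ + ((τ : ℂ) * Complex.I) • ξ0, p⟫ = 0 ∧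
    ∃ π, Cp Φ ξ0 H (Ω ∩ B) (ζ + ((τ : ℂ) * Complex.I) • ξ0) π ∧
      (ζ + ((τ : ℂ) * Complex.I) • ξ0, π) ∈ Gr (Ω ∩ B) H ∧ ∀ c : ℂ, π (c • p) = 0

def St_EXP : Prop := ∀ (V : Type) [NormedAddCommGroup V] [InnerProductSpace ℂ V] [FiniteDimensional ℂ V]
  (Φ : Seminorm ℝ V) (ξ0 : V) (ρ : ℝ) (Bd Γ : Set V) (H : V → V →L[ℝ] V) (Ω : Set V),
  3 ≤ finrank ℂ V → Df Φ → Dv Φ ξ0 ρ Bd Γ H → Oh ξ0 ρ Bd Γ Ω → (Kb Ω ξ0).Nonempty →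
  ∀ l ∈ Nn Bd ξ0, ∃ p ∈ Kb Ω ξ0, (∀ p' ∈ Kb Ω ξ0, (⟪l, p'⟫).re ≤ (⟪l, p⟫).re) ∧
    ∀ y, y ≠ 0 → ⟪ξ0, y⟫ = 0 → ⟪l, y⟫ = 0 → ∀ c : ℂ, c • p ∈ Kil Φ y

/-- Almost every hyperplane of the hyperplane of `ξ0` has a transverse killing direction. -/
def Kk {V : Type} [NormedAddCommGroup V] [InnerProductSpace ℂ V] (Φ : Seminorm ℝ V) (ξ0 : V)
    (Bd : Set V) : Prop :=
  ∀ l ∈ Nn Bd ξ0, ∃ q, ⟪ξ0, q⟫ = 0 ∧ ⟪l, q⟫ ≠ 0 ∧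
    ∀ x, x ≠ 0 → ⟪ξ0, x⟫ = 0 → ⟪l, x⟫ = 0 → ∀ c : ℂ, c • q ∈ Kil Φ x

def St_NR : Prop := ∀ (V : Type) [NormedAddCommGroup V] [InnerProductSpace ℂ V] [FiniteDimensional ℂ V]
  (Φ : Seminorm ℝ V) (ξ0 : V) (Bd K : Set V), Df Φ → Bd.Finite → (∀ p ∈ K, ⟪ξ0, p⟫ = 1) →
  (∃ p ∈ K, ∃ p' ∈ K, p ≠ p') →
  (∀ l ∈ Nn Bd ξ0, ∃ p ∈ K, (∀ p' ∈ K, (⟪l, p'⟫).re ≤ (⟪l, p⟫).re) ∧
    ∀ y, y ≠ 0 → ⟪ξ0, y⟫ = 0 → ⟪l, y⟫ = 0 → ∀ c : ℂ, c • p ∈ Kil Φ y) → Kk Φ ξ0 Bd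

def St_RY1 : Prop := ∀ (V : Type) [NormedAddCommGroup V] [InnerProductSpace ℂ V] [FiniteDimensional ℂ V]
  (Φ : Seminorm ℝ V) (ξ0 : V) (ρ : ℝ) (Bd Γ : Set V) (H : V → V →L[ℝ] V) (Ω : Set V) (ν : V),
  4 ≤ finrank ℂ V → Df Φ → Dv Φ ξ0 ρ Bd Γ H → Oh ξ0 ρ Bd Γ Ω → Kb Ω ξ0 = {ν} →
  ∀ ξ ∈ ball ξ0 ρ ∩ Nn Bd ξ0, ∀ x, ⟪ξ, x⟫ = 0 → Φ x = Φ (x - ⟪ξ0, x⟫ • ν)

def St_CYL : Prop := ∀ (V : Type) [NormedAddCommGroup V] [InnerProductSpace ℂ V] [FiniteDimensional ℂ V]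
  (Φ : Seminorm ℝ V) (ξ0 : V) (ρ : ℝ) (Bd : Set V) (ν : V), 4 ≤ finrank ℂ V → Bd.Finite →
  ⟪ξ0, ν⟫ = 1 → (∀ ξ ∈ ball ξ0 ρ, ⟪ξ, ν⟫ ≠ 0) →
  (∀ ξ ∈ ball ξ0 ρ ∩ Nn Bd ξ0, ∀ x, ⟪ξ, x⟫ = 0 → Φ x = Φ (x - ⟪ξ0, x⟫ • ν)) →
  ∀ ξ ∈ ball ξ0 ρ, Cyl Φ ξ

def St_RY2 : Prop := ∀ (V : Type) [NormedAddCommGroup V] [InnerProductSpace ℂ V] [FiniteDimensional ℂ V]
  (Φ : Seminorm ℝ V) (ξ0 : V) (ρ : ℝ) (Bd Γ : Set V) (H : V → V →L[ℝ] V),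
  4 ≤ finrank ℂ V → Df Φ → Dv Φ ξ0 ρ Bd Γ H → Nn Bd ξ0 ⊆ Star Γ ξ0 →
  ∃ Ψ : Seminorm ℝ V, Df Ψ ∧ (∀ y, ⟪ξ0, y⟫ = 0 → Ψ y = Φ y) ∧
    ∀ ξ ∈ Nn Bd ξ0, ∀ y, ⟪ξ, y⟫ = 0 → Ψ y = Φ (H ξ y)

def St_GLOB : Prop := ∀ (V : Type) [NormedAddCommGroup V] [InnerProductSpace ℂ V] [FiniteDimensional ℂ V]
  (Φ Ψ : Seminorm ℝ V) (ξ0 : V) (D : Set V), ξ0 ≠ 0 → Df Φ → Df Ψ → Dense D →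
  (∀ ξ ∈ D, ∃ π : V →L[ℝ] V, ∀ y, ⟪ξ, y⟫ = 0 → ⟪ξ0, π y⟫ = 0 ∧ Ψ y = Φ (π y)) → Euc Ψ ξ0

def St_KAK : Prop := ∀ (V : Type) [NormedAddCommGroup V] [InnerProductSpace ℂ V] [FiniteDimensional ℂ V]
  (Φ : Seminorm ℝ V) (ξ0 : V) (Bd : Set V), 4 ≤ finrank ℂ V → Df Φ → Ci Φ → ξ0 ≠ 0 → Bd.Finite →
  Kk Φ ξ0 Bd → Euc Φ ξ0

def St_GEO : Prop := ∀ (V : Type) [NormedAddCommGroup V] [InnerProductSpace ℂ V] [FiniteDimensional ℂ V]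
  (Φ : Seminorm ℝ V) (ξ0 : V) (ρ : ℝ) (Bd Γ : Set V) (H : V → V →L[ℝ] V), 4 ≤ finrank ℂ V → Df Φ →
  Ci Φ → Dv Φ ξ0 ρ Bd Γ H → Euc Φ ξ0 ∨ ∀ ξ ∈ ball ξ0 ρ, Cyl Φ ξ

def St_HYP : Prop := ∀ (V : Type) [NormedAddCommGroup V] [InnerProductSpace ℂ V] [FiniteDimensional ℂ V]
  (Φ : Seminorm ℝ V) (ξ0 : V), 4 ≤ finrank ℂ V → Df Φ → Ci Φ → ‖ξ0‖ = 1 → LocIso Φ ξ0 →
  Euc Φ ξ0 ∨ Cyl Φ ξ0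

/-! ### Section 4: assembly -/

universe u v

/-- The norm is constant near the range of `T` in the complex direction `z`. -/
def Cz {E : Type u} {V : Type v} [NormedAddCommGroup E] [NormedSpace ℂ E] [NormedAddCommGroup V]
    [NormedSpace ℂ V] (T : E →L[ℂ] V) (z : V) : Prop :=
  ∃ ε > 0, ∀ (x : E) (s : ℂ), ‖s‖ ≤ ε * ‖x‖ → ‖T x + s • z‖ = ‖T x‖

def St_TR : Prop := ∀ (E : Type u) (V : Type v) [NormedAddCommGroup E] [NormedSpace ℂ E]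
  [FiniteDimensional ℂ E] [NormedAddCommGroup V] [NormedSpace ℂ V] (T : E →L[ℂ] V) (r : ℝ) (ν : V),
  3 ≤ finrank ℂ E → Function.Injective T → 0 < r →
  (∀ T' : E →L[ℂ] V, ‖T' - T‖ < r → ∃ g : E ≃ₗ[ℂ] E, ∀ x, ‖T' (g x)‖ = ‖T x‖) → (∀ x, T x ≠ ν) →
  (∃ b : E →ₗ[ℝ] E →ₗ[ℝ] ℝ, ∀ x, ‖T x‖ ^ 2 = b x x) ∨ ∃ u : E, Cz T (ν + T u)

def St_EU2 : Prop := ∀ (E : Type u) (V : Type v) [NormedAddCommGroup E] [NormedSpace ℂ E]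
  [FiniteDimensional ℂ E] [NormedAddCommGroup V] [NormedSpace ℂ V] (U : Set (E →L[ℂ] V)),
  3 ≤ finrank ℂ E → IsOpen U → IsPreconnected U → U.Nonempty →
  (∀ T ∈ U, ∃ b : E →ₗ[ℝ] E →ₗ[ℝ] ℝ, ∀ x, ‖T x‖ ^ 2 = b x x) →
  ∃ B : V →ₗ[ℝ] V →ₗ[ℝ] ℝ, (∀ y z, B y z = B z y) ∧ (∀ y, 0 ≤ B y y) ∧
    ∀ T ∈ U, ∀ x, ‖T x‖ ^ 2 = B (T x) (T x)

def St_CY1 : Prop := ∀ (E : Type u) (V : Type v) [NormedAddCommGroup E] [NormedSpace ℂ E]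
  [NormedAddCommGroup V] [NormedSpace ℂ V] (T : E →L[ℂ] V) (r : ℝ),
  (∀ T' : E →L[ℂ] V, ‖T' - T‖ < r → Function.Injective T' ∧
    ∀ ν, (∀ x, T' x ≠ ν) → ∃ u : E, Cz T' (ν + T' u)) →
  ∀ z, Cz T z → ∀ x, ‖z‖ < r * ‖x‖ → ‖T x + z‖ = ‖T x‖

def St_CY2 : Prop := ∀ (E : Type u) (V : Type v) [NormedAddCommGroup E] [NormedSpace ℂ E]
  [FiniteDimensional ℂ E] [NormedAddCommGroup V] [NormedSpace ℂ V] (U : Set (E →L[ℂ] V)),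
  IsOpen U → IsPreconnected U → U.Nonempty → (∀ T ∈ U, Function.Injective T) →
  (∀ T ∈ U, ∀ ν, (∀ x, T x ≠ ν) → ∃ u : E, Cz T (ν + T u)) →
  ∃ (P : V →ₗ[ℂ] E) (N : Seminorm ℂ E), (∀ x, N x = 0 → x = 0) ∧ ∀ T ∈ U, ∀ x, ‖T x‖ = N (P (T x))

/-- The local theorem over the scalar field `𝕜`. -/
def Main (𝕜 : Type) [RCLike 𝕜] : Prop := ∀ (E : Type u) (V : Type v) [NormedAddCommGroup E]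
  [NormedSpace 𝕜 E] [FiniteDimensional 𝕜 E] [NormedAddCommGroup V] [NormedSpace 𝕜 V]
  (U : Set (E →L[𝕜] V)), 3 ≤ finrank 𝕜 E → IsOpen U → IsPreconnected U → U.Nonempty →
  (∀ T ∈ U, Function.Injective T) → (∀ T ∈ U, ∀ T' ∈ U, ∃ g : E ≃ₗ[𝕜] E, ∀ x, ‖T' (g x)‖ = ‖T x‖) →
  (∃ B : V →ₗ⋆[𝕜] V →ₗ[𝕜] 𝕜, (∀ y z, starRingEnd 𝕜 (B y z) = B z y) ∧ (∀ y, 0 ≤ RCLike.re (B y y)) ∧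
    ∀ T ∈ U, ∀ x, ‖T x‖ ^ 2 = RCLike.re (B (T x) (T x))) ∨
  ∃ (P : V →ₗ[𝕜] E) (N : Seminorm 𝕜 E), (∀ x, N x = 0 → x = 0) ∧ ∀ T ∈ U, ∀ x, ‖T x‖ = N (P (T x))

def St_RC : Prop := Main.{u, v} ℝ → Main.{u, v} ℂ → ∀ (𝕜 : Type) [RCLike 𝕜], Main.{u, v} 𝕜

end Pool.Agent.Lib.LC
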