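import Pool.Agent.Lib.LB.Basic
import Pool.Agent.Lib.LB.Poly

/-! Local Banach problem over the complex numbers: definitions. -/

set_option autoImplicit false

open Set Filter Topology Metric MeasureTheory
open scoped ComplexInnerProductSpace ContDiff NNReal

noncomputable section

namespace Pool.Agent.Lib.LC

open Pool.Agent.Lib.LB

/-- Almost everywhere, for the Lebesgue class of a finite dimensional real space. -/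
def aeF (E : Type) [NormedAddCommGroup E] [NormedSpace ℝ E] [FiniteDimensional ℝ E] : Filter E :=
  letI : MeasurableSpace E := borel E
  haveI : BorelSpace E := ⟨rfl⟩
  ae (Measure.addHaar : Measure E)

/-- The real seminorm is homogeneous for complex scalars. -/
def Ci {V : Type} [NormedAddCommGroup V] [NormedSpace ℂ V] (Φ : Seminorm ℝ V) : Prop :=
  ∀ (c : ℂ) (y : V), Φ (c • y) = ‖c‖ * Φ y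

/-- An orthogonal splitting of `V` into a copy of `E` and a complex line. -/
structure Sp (E V : Type) [NormedAddCommGroup E] [InnerProductSpace ℂ E] [NormedAddCommGroup V]
    [InnerProductSpace ℂ V] where
  ι : E →L[ℂ] V
  pr : V →L[ℂ] E
  e : V
  ee : ⟪e, e⟫ = 1
  ei : ∀ x, ⟪e, ι x⟫ = 0
  ii : ∀ x x', ⟪ι x, ι x'⟫ = ⟪x, x'⟫
  dec : ∀ y, ι (pr y) + ⟪e, y⟫ • e = y

section Inner

variable {E V : Type} [NormedAddCommGroup E] [InnerProductSpace ℂ E] [NormedAddCommGroup V]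
  [InnerProductSpace ℂ V]

/-- The inclusion as a real linear map. -/
def Sp.ιr (S : Sp E V) : E →L[ℝ] V := S.ι.restrictScalars ℝ

/-- The projection as a real linear map. -/
def Sp.prr (S : Sp E V) : V →L[ℝ] E := S.pr.restrictScalars ℝ

/-- The graph parametrisation of the hyperplane orthogonal to `e + ι l`. -/
def Sp.j (S : Sp E V) (l : E) : E →L[ℝ] V := (S.ι - (innerSL ℂ l).smulRight S.e).restrictScalars ℝ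

/-- The normal vector `e + ι l`. -/
def Sp.xi (S : Sp E V) (l : E) : V := S.e + S.ι l

/-- The seminorm pulled back to `E`. -/
def Sp.n (S : Sp E V) (Φ : Seminorm ℝ V) : Seminorm ℝ E := Φ.comp (S.ιr : E →ₗ[ℝ] V)

/-- Infinitesimal isometries of the hyperplane orthogonal to `ξ`. -/
def gs (Ψ : Seminorm ℝ V) (ξ : V) : Submodule ℝ (V →L[ℝ] V) where
  carrier := {A | (∀ c : ℂ, A (c • ξ) = 0) ∧ ∀ y, ⟪ξ, y⟫ = 0 → ⟪ξ, A y⟫ = 0 ∧ A y ∈ Kil Ψ y}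
  zero_mem' := ⟨fun _ => rfl, fun y _ => ⟨by simp, by simp⟩⟩
  add_mem' := fun {A B} hA hB => ⟨fun c => by simp [hA.1, hB.1], fun y hy =>
    ⟨by simp [(hA.2 y hy).1, (hB.2 y hy).1], add_mem (hA.2 y hy).2 (hB.2 y hy).2⟩⟩
  smul_mem' := fun t A hA => ⟨fun c => by simp [hA.1], fun y hy =>
    ⟨by simp [inner_smul_right_eq_smul, (hA.2 y hy).1], Submodule.smul_mem _ t (hA.2 y hy).2⟩⟩

/-- Linear fields on the hyperplane orthogonal to `ξ` tangent to the rational distribution. -/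
def ks (δ : V → ℝ) (M : V → V →L[ℝ] V) (ξ : V) : Submodule ℝ (V →L[ℝ] V) where
  carrier := {A | (∀ c : ℂ, A (c • ξ) = 0) ∧ ∀ y, ⟪ξ, y⟫ = 0 → ⟪ξ, A y⟫ = 0 ∧ δ y • A y = M y (A y)}
  zero_mem' := ⟨fun _ => rfl, fun y _ => ⟨by simp, by simp⟩⟩
  add_mem' := fun {A B} hA hB => ⟨fun c => by simp [hA.1, hB.1], fun y hy =>
    ⟨by simp [(hA.2 y hy).1, (hB.2 y hy).1],
      by simp [(hA.2 y hy).2, (hB.2 y hy).2]⟩⟩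
  smul_mem' := fun t A hA => ⟨fun c => by simp [hA.1], fun y hy =>
    ⟨by simp [inner_smul_right_eq_smul, (hA.2 y hy).1], by
      simp only [smul_apply, map_smul, ← (hA.2 y hy).2, smul_comm (δ y) t]⟩⟩

/-- `L` moves the hyperplane orthogonal to `ξ` in direction `μ`, tangentially to the distribution. -/
def Sl (δ : V → ℝ) (M : V → V →L[ℝ] V) (ξ μ : V) (L : V →L[ℝ] V) : Prop :=
  (∀ c : ℂ, L (c • ξ) = c • μ) ∧ ∀ y, ⟪ξ, y⟫ = 0 → ⟪ξ, L y⟫ = -⟪μ, y⟫ ∧ δ y • L y = M y (L y)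

/-- The hyperplane of `ξ0` with `Φ` is isometric to the hyperplane of `ξ` with `Ψ`. -/
def Iso (Φ : Seminorm ℝ V) (ξ0 : V) (Ψ : Seminorm ℝ V) (ξ : V) : Prop :=
  ∃ F : V →L[ℝ] V, IsUnit F ∧ (∀ c : ℂ, F (c • ξ0) = c • ξ) ∧
    ∀ x, ⟪ξ0, x⟫ = 0 → ⟪ξ, F x⟫ = 0 ∧ Ψ (F x) = Φ x

/-- All hyperplanes near that of `ξ0` are isometric. -/
def LocIso (Φ : Seminorm ℝ V) (ξ0 : V) : Prop := ∃ ρ > 0, ∀ ξ ∈ ball ξ0 ρ, Iso Φ ξ0 Φ ξ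

/-- The hyperplane of `ξ0` is Euclidean. -/
def Euc (Φ : Seminorm ℝ V) (ξ0 : V) : Prop :=
  ∃ B : V →ₗ[ℝ] V →ₗ[ℝ] ℝ, ∀ x, ⟪ξ0, x⟫ = 0 → Φ x ^ 2 = B x x

/-- The seminorm is a cylinder near the hyperplane of `ξ0`. -/
def Cyl (Φ : Seminorm ℝ V) (ξ0 : V) : Prop :=
  ∃ ν, ⟪ξ0, ν⟫ ≠ 0 ∧ ∃ ε > 0, ∀ x, ⟪ξ0, x⟫ = 0 → ∀ s : ℂ, ‖s‖ ≤ ε * ‖x‖ → Φ (x + s • ν) = Φ x

/-- A Lipschitz family of isometries. -/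
structure Lf (S : Sp E V) (Φ : Seminorm ℝ V) (r : ℝ) (C : ℝ≥0) (G H : E → E →L[ℝ] E) : Prop where
  pos : 0 < r
  lipG : LipschitzWith C G
  lipH : LipschitzWith C H
  G0 : G 0 = 1
  H0 : H 0 = 1
  GH : ∀ l x, G l (H l x) = x
  HG : ∀ l x, H l (G l x) = x
  iso : ∀ l, ‖l‖ < r → ∀ x, Φ (S.j l (G l x)) = Φ (S.ι x)

/-- The value at `y` of the killing field given by the derivative `D` of the family. -/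
def zf (D : E →L[ℝ] E →L[ℝ] E) (ζ μ y : E) : E :=
  ‖⟪ζ, y⟫‖ ^ 2 • D μ y - D ((⟪y, μ⟫ * ⟪ζ, y⟫) • ζ) y

/-- The lifted distribution `D`, independent of the hyperplane, with polynomial frames on almost all
hyperplanes. -/
structure Lc [FiniteDimensional ℂ E] (S : Sp E V) (Φ : Seminorm ℝ V) (x0 : E) (O : Set E) (ρ : ℝ)
    (G : Set E) (D : V → Submodule ℝ V) (r d : ℕ) : Prop where
  ne : x0 ≠ 0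
  op : IsOpen O
  mem : x0 ∈ O
  pos : 0 < ρ
  ae : ∀ᶠ l in aeF E, ‖l‖ < ρ → l ∈ G
  fr : ∀ l ∈ G, ∃ a : Fin r → E → V, (∀ i, IsPol d (a i)) ∧ (∀ i x, a i x ∈ Kil Φ (S.j l x)) ∧
    ∀ x ∈ O, (LinearIndependent ℝ fun i => a i x) ∧ spn a x = D (S.j l x)
  c1 : ∀ l ∈ G, ∀ A ∈ gs Φ (S.xi l), ∀ x ∈ O, A (S.j l x) ∈ D (S.j l x)
  c2 : ∀ l ∈ G, ∀ μ : V, ∃ L : V →L[ℝ] V, (∀ c : ℂ, L (c • S.xi l) = c • μ) ∧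
    (∀ y, ⟪S.xi l, y⟫ = 0 → ⟪S.xi l, L y⟫ = -⟪μ, y⟫) ∧ ∀ x ∈ O, L (S.j l x) ∈ D (S.j l x)

/-- Nonzero vectors outside the complex lines of the bad vectors. -/
def NB (Bd : Set V) : Set V := {ξ | ξ ≠ 0 ∧ ∀ b ∈ Bd, ∀ c : ℂ, ξ ≠ c • b}

/-- Vectors outside the complex planes spanned by `ξ0` and a bad vector. -/
def Nn (Bd : Set V) (ξ0 : V) : Set V := {ξ | ∀ a : ℂ, ξ + a • ξ0 ∈ NB Bd}

/-- The rational distribution in the chart. -/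
structure R1 (S : Sp E V) (Φ : Seminorm ℝ V) (δ : V → ℝ) (M : V → V →L[ℝ] V) (ε : ℝ) (G : Set E)
    (Bd : Set V) : Prop where
  pδ : Pl δ
  pM : Pl M
  fin : Bd.Finite
  sat : ∀ ξ ∈ NB Bd, ∃ y, ⟪ξ, y⟫ = 0 ∧ δ y ≠ 0
  pos : 0 < ε
  den : ball (0 : E) ε ⊆ closure G
  kil : ∀ l ∈ G, ∃ q : E → ℝ, Pl q ∧ (∃ x, q x ≠ 0) ∧
    ∀ x, q x ≠ 0 → ∀ v, M (S.j l x) v ∈ Kil Φ (S.j l x)
  c1 : ∀ l ∈ G, gs Φ (S.xi l) ≤ ks δ M (S.xi l)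
  c2 : ∀ l ∈ G, ∀ μ, ∃ L, Sl δ M (S.xi l) μ L

/-- The rational distribution, centred at a vector that is not bad. -/
structure Rt (Φ : Seminorm ℝ V) (ξ0 : V) (δ : V → ℝ) (M : V → V →L[ℝ] V) (ρ : ℝ) (G Bd : Set V) :
    Prop where
  pδ : Pl δ
  pM : Pl M
  fin : Bd.Finite
  nb : ξ0 ∈ NB Bd
  sat : ∀ ξ ∈ NB Bd, ∃ y, ⟪ξ, y⟫ = 0 ∧ δ y ≠ 0
  pos : 0 < ρ
  nz : ∀ ξ ∈ ball ξ0 ρ, ξ ≠ 0
  iso : ∀ ξ ∈ ball ξ0 ρ, Iso Φ ξ0 Φ ξ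
  kil : ∀ ξ ∈ ball ξ0 ρ, ∀ y, y ≠ 0 → ⟪ξ, y⟫ = 0 → ∀ v, M y v ∈ Kil Φ y
  sub : G ⊆ ball ξ0 ρ
  den : ball ξ0 ρ ⊆ closure G
  c1 : ∀ ξ ∈ G, gs Φ ξ ≤ ks δ M ξ
  c2 : ∀ ξ ∈ G, ∀ μ, ∃ L, Sl δ M ξ μ L

/-- The regular hyperplanes. -/
def Gam (Φ : Seminorm ℝ V) (ξ0 : V) (δ : V → ℝ) (M : V → V →L[ℝ] V) : Set V :=
  {ξ | ξ ≠ 0 ∧ Module.finrank ℝ (ks δ M ξ) = Module.finrank ℝ (gs Φ ξ0)}

/-- The analytic solution of the linear system on the regular hyperplanes. -/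
structure So (Φ : Seminorm ℝ V) (ξ0 : V) (δ : V → ℝ) (M : V → V →L[ℝ] V) (ρ : ℝ) (Bd : Set V)
    (L : V → V →L[ℝ] V →L[ℝ] V) : Prop where
  op : IsOpen (Gam Φ ξ0 δ M)
  sub : ball ξ0 ρ ∩ NB Bd ⊆ Gam Φ ξ0 δ M
  le : ∀ ξ : V, ξ ≠ 0 → Module.finrank ℝ (gs Φ ξ0) ≤ Module.finrank ℝ (ks δ M ξ)
  an : AnalyticOnNhd ℝ L (Gam Φ ξ0 δ M)
  sol : ∀ ξ ∈ Gam Φ ξ0 δ M, ∀ μ, Sl δ M ξ μ (L ξ μ)

/-- The analytic development; it is isometric over the open set `A`. -/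
structure Fd (Φ : Seminorm ℝ V) (ξ0 : V) (A Γ : Set V) (F H : V → V →L[ℝ] V) : Prop where
  opA : IsOpen A
  mem : ξ0 ∈ A
  op : IsOpen Γ
  nz : ∀ ξ ∈ Γ, ξ ≠ 0
  sub : A ⊆ Star Γ ξ0
  anF : AnalyticOnNhd ℝ F (Star Γ ξ0)
  anH : AnalyticOnNhd ℝ H (Star Γ ξ0)
  FH : ∀ ξ ∈ Star Γ ξ0, ∀ y, F ξ (H ξ y) = y
  HF : ∀ ξ ∈ Star Γ ξ0, ∀ y, H ξ (F ξ y) = y
  F0 : ∀ ξ ∈ Star Γ ξ0, ∀ c : ℂ, F ξ (c • ξ0) = c • ξ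
  Fp : ∀ ξ ∈ Star Γ ξ0, ∀ x, ⟪ξ0, x⟫ = 0 → ⟪ξ, F ξ x⟫ = 0
  Hp : ∀ ξ ∈ Star Γ ξ0, ∀ y, ⟪ξ, y⟫ = 0 → ⟪ξ0, H ξ y⟫ = 0
  d1 : ∀ ξ ∈ A, ∀ y, ⟪ξ, y⟫ = 0 → Φ (H ξ y) = Φ y

/-- The continued identities. -/
structure Fe (Φ : Seminorm ℝ V) (ξ0 : V) (M : V → V →L[ℝ] V) (Γ : Set V) (H : V → V →L[ℝ] V) : Prop where
  d2 : ∀ ξ ∈ Star Γ ξ0, ∀ y μ, ⟪ξ, y⟫ = 0 → ⟪μ, y⟫ = 0 → fderiv ℝ H ξ μ y ∈ Kil Φ (H ξ y)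
  d3 : ∀ ξ ∈ Star Γ ξ0, ∀ y, y ≠ 0 → ⟪ξ, y⟫ = 0 → ∀ v,
    ‖y‖ ^ 2 • H ξ (M y v) - fderiv ℝ H ξ (⟪M y v, ξ⟫ • y) y ∈ Kil Φ (H ξ y)
  d5 : ∀ ξ ∈ Star Γ ξ0, ∀ y, ⟪ξ, y⟫ = 0 → H ξ (Complex.I • y) ∈ Kil Φ (H ξ y)

/-- The region swept by the hyperplanes of `Ω`. -/
def Wd (Ω : Set V) : Set V := {y | y ≠ 0 ∧ ∃ ξ ∈ Ω, ⟪ξ, y⟫ = 0}

/-- The closed graph of the development over `Ω`. -/
def Gr (Ω : Set V) (H : V → V →L[ℝ] V) : Set (V × (V →L[ℝ] V)) := closure ((fun ξ => (ξ, H ξ)) '' Ω)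

/-- A compatible family of norms on the hyperplanes of an open convex set. -/
structure Cn (Φ : Seminorm ℝ V) (ξ0 : V) (H : V → V →L[ℝ] V) (Ω : Set V) : Prop where
  op : IsOpen Ω
  cv : Convex ℝ Ω
  ne : Ω.Nonempty
  n0 : ξ0 ≠ 0
  co : ∀ ξ ∈ Ω, ContinuousAt H ξ
  un : ∀ ξ ∈ Ω, IsUnit (H ξ)
  H0 : ∀ ξ ∈ Ω, ∀ c : ℂ, H ξ (c • ξ) = c • ξ0
  Hp : ∀ ξ ∈ Ω, ∀ y, ⟪ξ, y⟫ = 0 → ⟪ξ0, H ξ y⟫ = 0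
  ci : ∀ ξ ∈ Ω, ∀ y, ⟪ξ, y⟫ = 0 → ∀ c : ℂ, Φ (H ξ (c • y)) = ‖c‖ * Φ (H ξ y)
  t1 : ∀ ξ ∈ Ω, ∀ ξ' ∈ Ω, ∀ y, ⟪ξ, y⟫ = 0 → ⟪ξ', y⟫ = 0 → Φ (H ξ y) = Φ (H ξ' y)

/-- `π` is compatible with the family on the hyperplane of `ζ`. -/
structure Cp (Φ : Seminorm ℝ V) (ξ0 : V) (H : V → V →L[ℝ] V) (Ω : Set V) (ζ : V) (π : V →L[ℝ] V) :
    Prop where
  H0 : ∀ c : ℂ, π (c • ζ) = c • ξ0
  Hp : ∀ y, ⟪ζ, y⟫ = 0 → ⟪ξ0, π y⟫ = 0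
  ci : ∀ y, ⟪ζ, y⟫ = 0 → ∀ c : ℂ, Φ (π (c • y)) = ‖c‖ * Φ (π y)
  t1 : ∀ ξ ∈ Ω, ∀ y, ⟪ξ, y⟫ = 0 → ⟪ζ, y⟫ = 0 → Φ (π y) = Φ (H ξ y)

/-- The regular set. -/
structure Gm (ξ0 : V) (ρ : ℝ) (Bd Γ : Set V) : Prop where
  pos : 0 < ρ
  fin : Bd.Finite
  nb : ξ0 ∈ NB Bd
  op : IsOpen Γ
  sc : ∀ ξ ∈ Γ, ∀ c : ℂ, c ≠ 0 → c • ξ ∈ Γ
  sub : ball ξ0 ρ ∩ NB Bd ⊆ Γ

/-- What the geometric part uses of the development. -/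
structure Dv (Φ : Seminorm ℝ V) (ξ0 : V) (ρ : ℝ) (Bd Γ : Set V) (H : V → V →L[ℝ] V) : Prop where
  gm : Gm ξ0 ρ Bd Γ
  co : ∀ ξ ∈ Star Γ ξ0, ContinuousAt H ξ
  un : ∀ ξ ∈ Star Γ ξ0, IsUnit (H ξ)
  Hp : ∀ ξ ∈ Star Γ ξ0, ∀ y, ⟪ξ, y⟫ = 0 → ⟪ξ0, H ξ y⟫ = 0
  ci : ∀ ξ ∈ Star Γ ξ0, ∀ y, ⟪ξ, y⟫ = 0 → ∀ c : ℂ, Φ (H ξ (c • y)) = ‖c‖ * Φ (H ξ y)
  seg : ∀ ξ ξ', segment ℝ ξ ξ' ⊆ Star Γ ξ0 → ∀ y, ⟪ξ, y⟫ = 0 → ⟪ξ', y⟫ = 0 → Φ (H ξ y) = Φ (H ξ' y)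
  d0 : ∃ η > 0, ∀ t : ℝ, 0 < t → ∀ ξ, ‖ξ - t • ξ0‖ < η * t → ∀ y, ⟪ξ, y⟫ = 0 → Φ (H ξ y) = Φ y
  d1 : ∀ ξ ∈ ball ξ0 ρ ∩ Nn Bd ξ0, ∀ y, ⟪ξ, y⟫ = 0 → Φ (H ξ y) = Φ y
  cn : ∀ Ω, IsOpen Ω → Convex ℝ Ω → Ω.Nonempty → Ω ⊆ Star Γ ξ0 → Cn Φ ξ0 H Ω
  ii : ∀ Ω, IsOpen Ω → Ω ⊆ Star Γ ξ0 → ∀ ζ ∈ NB Bd, ∀ π, IsUnit π → Cp Φ ξ0 H Ω ζ π →
    (∀ y, ⟪ζ, y⟫ = 0 → y ∈ closure {y' | ⟪ζ, y'⟫ = 0 ∧ y' ∈ Wd Ω}) → ζ ∈ Γ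

/-- The vectors whose half plane in direction `ξ0` is regular. -/
def Om (Bd : Set V) (ξ0 : V) (Γ : Set V) : Set V :=
  {ξ | ξ ∈ Nn Bd ξ0 ∧ ∀ u : ℂ, 0 ≤ u.re → ξ + u • ξ0 ∈ Γ}

/-- Open convex cones stable under the half plane of `ξ0`. -/
structure Oc (ξ0 : V) (Ω : Set V) : Prop where
  op : IsOpen Ω
  cv : Convex ℝ Ω
  sc : ∀ ξ ∈ Ω, ∀ t : ℝ, 0 < t → t • ξ ∈ Ω
  ad : ∀ ξ ∈ Ω, ∀ u : ℂ, 0 ≤ u.re → ξ + u • ξ0 ∈ Ω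
  mem : ξ0 ∈ Ω

/-- The maximal cone. -/
structure Oh (ξ0 : V) (ρ : ℝ) (Bd Γ Ω : Set V) : Prop where
  oc : Oc ξ0 Ω
  sub : ball ξ0 ρ ⊆ Ω
  st : Ω ∩ Nn Bd ξ0 ⊆ Star Γ ξ0
  bd : ∀ ζ ∈ closure Ω, ζ ∉ Ω → ζ ∈ Nn Bd ξ0 → ∃ τ : ℝ, ζ + ((τ : ℂ) * Complex.I) • ξ0 ∉ Γ

/-- The real dual cone. -/
def Kd (Ω : Set V) : Set V := {y | ∀ ξ ∈ Ω, 0 ≤ (⟪ξ, y⟫).re}

/-- The base of the dual cone. -/
def Kb (Ω : Set V) (ξ0 : V) : Set V := {p | p ∈ Kd Ω ∧ ⟪ξ0, p⟫ = 1}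

theorem Sp.ιr_apply (S : Sp E V) (x : E) : S.ιr x = S.ι x := rfl

theorem Sp.prr_apply (S : Sp E V) (y : V) : S.prr y = S.pr y := rfl

theorem Sp.j_apply (S : Sp E V) (l x : E) : S.j l x = S.ι x - ⟪l, x⟫ • S.e := by
  simp [Sp.j]

theorem Sp.j_csmul (S : Sp E V) (l : E) (c : ℂ) (x : E) : S.j l (c • x) = c • S.j l x := by
  rw [S.j_apply, S.j_apply, map_smul, inner_smul_right, smul_sub, mul_smul]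

theorem Sp.n_apply (S : Sp E V) (Φ : Seminorm ℝ V) (x : E) : S.n Φ x = Φ (S.ι x) := rfl

theorem Sp.ι_inj (S : Sp E V) {x : E} (h : S.ι x = 0) : x = 0 := by
  have := S.ii x x
  rw [h, inner_zero_left] at this
  exact inner_self_eq_zero.1 this.symm

theorem Sp.pr_ι (S : Sp E V) (x : E) : S.pr (S.ι x) = x := by
  have h := S.dec (S.ι x)
  rw [S.ei, zero_smul, add_zero, ← sub_eq_zero, ← map_sub] at h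
  exact sub_eq_zero.1 (S.ι_inj h)

theorem Sp.pr_e (S : Sp E V) : S.pr S.e = 0 := by
  have h := S.dec S.e
  rw [S.ee, one_smul, add_eq_right] at h
  exact S.ι_inj h

theorem Sp.pr_j (S : Sp E V) (l x : E) : S.pr (S.j l x) = x := by
  simp [S.j_apply, S.pr_ι, S.pr_e]

theorem Sp.ie (S : Sp E V) (x : E) : ⟪S.ι x, S.e⟫ = 0 := by
  rw [← inner_conj_symm, S.ei, map_zero]

theorem Sp.xi_e (S : Sp E V) (l : E) : ⟪S.xi l, S.e⟫ = 1 := by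
  rw [Sp.xi, inner_add_left, S.ee, S.ie, add_zero]

theorem Sp.xi_ι (S : Sp E V) (l x : E) : ⟪S.xi l, S.ι x⟫ = ⟪l, x⟫ := by
  simp [Sp.xi, S.ei, S.ii]

theorem Sp.xi_j (S : Sp E V) (l x : E) : ⟪S.xi l, S.j l x⟫ = 0 := by
  rw [S.j_apply, inner_sub_right, inner_smul_right, S.xi_ι, S.xi_e]
  ring

theorem Sp.e_j (S : Sp E V) (l x : E) : ⟪S.e, S.j l x⟫ = -⟪l, x⟫ := by
  rw [S.j_apply, inner_sub_right, inner_smul_right, S.ei, S.ee]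
  ring

theorem Sp.ι_inner (S : Sp E V) (x : E) (y : V) : ⟪S.ι x, y⟫ = ⟪x, S.pr y⟫ := by
  conv_lhs => rw [← S.dec y]
  rw [inner_add_right, inner_smul_right, S.ie, S.ii]
  simp

theorem Sp.inner_ι (S : Sp E V) (y : V) (x : E) : ⟪y, S.ι x⟫ = ⟪S.pr y, x⟫ := by
  rw [← inner_conj_symm, S.ι_inner, inner_conj_symm]

theorem Sp.xi_inner (S : Sp E V) (l : E) (y : V) : ⟪S.xi l, y⟫ = ⟪S.e, y⟫ + ⟪l, S.pr y⟫ := by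
  rw [Sp.xi, inner_add_left, S.ι_inner]

theorem Sp.j_pr (S : Sp E V) {l : E} {y : V} (h : ⟪S.xi l, y⟫ = 0) : S.j l (S.pr y) = y := by
  rw [S.xi_inner] at h
  have e : ⟪l, S.pr y⟫ = -⟪S.e, y⟫ := by linear_combination h
  rw [S.j_apply, e, neg_smul, sub_neg_eq_add, S.dec]

theorem Sp.norm_ι (S : Sp E V) (x : E) : ‖S.ι x‖ = ‖x‖ := by
  rw [norm_eq_sqrt_re_inner (𝕜 := ℂ), S.ii, ← norm_eq_sqrt_re_inner (𝕜 := ℂ)]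

theorem Sp.norm_e (S : Sp E V) : ‖S.e‖ = 1 := by
  rw [norm_eq_sqrt_re_inner (𝕜 := ℂ), S.ee]
  simp

theorem Sp.j_zero (S : Sp E V) (x : E) : S.j 0 x = S.ι x := by simp [S.j_apply]

theorem Sp.xi_ne (S : Sp E V) (l : E) : S.xi l ≠ 0 := fun h => by
  have := S.xi_e l
  rw [h, inner_zero_left] at this
  exact zero_ne_one this

end Inner

end Pool.Agent.Lib.LC
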