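import Pool.Agent.Lib.LC.B_CV1
import Pool.Agent.Lib.LC.B_CV2
import Pool.Agent.Lib.LC.B_CY1
import Pool.Agent.Lib.LC.B_CY2
import Pool.Agent.Lib.LC.B_CYL
import Pool.Agent.Lib.LC.B_DUAL
import Pool.Agent.Lib.LC.B_DV1
import Pool.Agent.Lib.LC.B_DV2
import Pool.Agent.Lib.LC.B_DV3
import Pool.Agent.Lib.LC.B_EU2
import Pool.Agent.Lib.LC.B_EX1
import Pool.Agent.Lib.LC.B_EXP
import Pool.Agent.Lib.LC.B_GDIM
import Pool.Agent.Lib.LC.B_GEN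
import Pool.Agent.Lib.LC.B_GEO
import Pool.Agent.Lib.LC.B_GLOB
import Pool.Agent.Lib.LC.B_KAK
import Pool.Agent.Lib.LC.B_KER
import Pool.Agent.Lib.LC.B_KG
import Pool.Agent.Lib.LC.B_LB
import Pool.Agent.Lib.LC.B_LIFT
import Pool.Agent.Lib.LC.B_LIM
import Pool.Agent.Lib.LC.B_LOC
import Pool.Agent.Lib.LC.B_NR
import Pool.Agent.Lib.LC.B_OMH
import Pool.Agent.Lib.LC.B_OMP
import Pool.Agent.Lib.LC.B_RA0
import Pool.Agent.Lib.LC.B_RA1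
import Pool.Agent.Lib.LC.B_RA2
import Pool.Agent.Lib.LC.B_RC
import Pool.Agent.Lib.LC.B_RY1
import Pool.Agent.Lib.LC.B_RY2
import Pool.Agent.Lib.LC.B_SAT
import Pool.Agent.Lib.LC.B_SAT1
import Pool.Agent.Lib.LC.B_SOL
import Pool.Agent.Lib.LC.B_SR
import Pool.Agent.Lib.LC.B_SR1
import Pool.Agent.Lib.LC.B_SR2
import Pool.Agent.Lib.LC.B_SR3
import Pool.Agent.Lib.LC.B_SYS
import Pool.Agent.Lib.LC.B_TINV
import Pool.Agent.Lib.LC.B_TR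
import Pool.Agent.Lib.LC.B_ZF

/-! Local Banach problem over the real and complex numbers: the blocks put together. -/

set_option autoImplicit false

namespace Pool.Agent.Lib.LC

theorem fin_geo : St_GEO :=
  have lb := bLB bLIM
  have ker := bKER bLIM lb
  have ex1 := bEX1 ker bDUAL
  bGEO bGEN (bCV1 bOMP) (bCV2 ker bOMP) bDUAL (bOMH bGEN bOMP bDUAL) (bEXP bLIM lb ex1 bDUAL) bNR
    (bRY1 bGEN ex1 bDUAL) (bCYL bGEN) (bRY2 bGEN) bGLOB bKAK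

theorem fin_hyp : St_HYP :=
  bHYP (bLOC bLIFT bZF (bTINV bZF)) (bRA1 (bRA0 (bSR bSR1 bSR2 bSR3)) (bSAT bSAT1)) bRA2
    (bSOL bGDIM bKG bSYS) bDV1 bDV2 (bDV3 bGDIM bKG) fin_geo

universe u v

theorem fin_main (𝕜 : Type) [RCLike 𝕜] : Main.{u, v} 𝕜 :=
  bRC main_real (bMAIN (bTR fin_hyp) bEU2 (bCY2 bCY1)) 𝕜

end Pool.Agent.Lib.LC
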